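import Pool.Agent.H72.EZ.Deform

/-!
# JOB EZ-BARRIER : the min-max values and the barrier lemma

Here `D.mm bd Z₀ b = inf {M | ∃ Z ∈ Cls bd Z₀, ∀ s, f_b (Z s) ≤ M}`.

PROOF. `mm_le`: `Z₀ ∈ Cls` gives `C` in the set; bounded below by `β`. `mm_mono`: `f_b ≤ f_{b'}` on
`{T ≥ 0}` if `b ≤ b'`. `barrier`: suppose `mm (a+l) < mm a + l T₂`. Put `c = mm a`. Choose `ε > 0`,
`ε ≤ δ`, and `Z ∈ Cls` with `f_{a+l} ∘ Z ≤ c + l T₂ - ε`. Since `f_a z = f_{a+l} z - l z.2`: if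
`T := (Z s).2 ≥ T₂` then `f_a (Z s) ≤ c - ε`; if `T < T₂` then `f_a (Z s) ≤ c + l T₂ ≤ c + δ`
(`T ≥ 0`). With `Φ` from `exists_deformation`, `Φ ∘ Z ∈ Cls` (on `bd`:
`f_a (Z₀ s) ≤ 0 ≤ c - 2δ`, so `Φ = id` there) and `f_a ∘ Φ ∘ Z ≤ max (c-ε) (c-δ) = c - ε`.
Contradiction to the definition of `c`.
-/

open MeasureTheory Set Metric Filter Topology
open scoped Real InnerProductSpace

namespace Pool.Agent.H72.EZ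

variable {E : Type} [NormedAddCommGroup E] [InnerProductSpace ℝ E]
variable {Sg : Type} [TopologicalSpace Sg] {bd : Set Sg} {Z₀ : Sg → E × ℝ}

lemma barrier_bddBelow {D : FData E} {b β : ℝ}
    (hβ : ∀ Z ∈ Cls bd Z₀, ∃ s, β ≤ D.f b (Z s)) :
    β ∈ lowerBounds {M | ∃ Z ∈ Cls bd Z₀, ∀ s, D.f b (Z s) ≤ M} := by
  rintro M ⟨Z, hZ, hM⟩
  obtain ⟨s, hs⟩ := hβ Z hZ
  exact hs.trans (hM s)

lemma barrier_f_add (D : FData E) (b l : ℝ) (z : E × ℝ) :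
    D.f (b + l) z = D.f b z + l * z.2 := by
  unfold FData.f
  ring

theorem FData.mm_le {D : FData E} {b β Cc : ℝ} (hZ₀ : Z₀ ∈ Cls bd Z₀)
    (hC : ∀ s, D.f b (Z₀ s) ≤ Cc) (hβ : ∀ Z ∈ Cls bd Z₀, ∃ s, β ≤ D.f b (Z s)) :
    D.mm bd Z₀ b ≤ Cc :=
  csInf_le ⟨β, barrier_bddBelow hβ⟩ ⟨Z₀, hZ₀, hC⟩

theorem FData.le_mm {D : FData E} {b β Cc : ℝ} (hZ₀ : Z₀ ∈ Cls bd Z₀)
    (hC : ∀ s, D.f b (Z₀ s) ≤ Cc) (hβ : ∀ Z ∈ Cls bd Z₀, ∃ s, β ≤ D.f b (Z s)) :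
    β ≤ D.mm bd Z₀ b :=
  le_csInf ⟨Cc, Z₀, hZ₀, hC⟩ fun _ hM => barrier_bddBelow hβ hM

theorem FData.mm_mono {D : FData E} {b b' β Cc : ℝ} (hbb : b ≤ b') (hZ₀ : Z₀ ∈ Cls bd Z₀)
    (hC : ∀ s, D.f b' (Z₀ s) ≤ Cc) (hβ : ∀ Z ∈ Cls bd Z₀, ∃ s, β ≤ D.f b (Z s)) :
    D.mm bd Z₀ b ≤ D.mm bd Z₀ b' := by
  refine csInf_le_csInf ⟨β, barrier_bddBelow hβ⟩ ⟨Cc, Z₀, hZ₀, hC⟩ ?_
  rintro M ⟨Z, hZ, hM⟩
  refine ⟨Z, hZ, fun s => le_trans ?_ (hM s)⟩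
  have h1 : D.f b' (Z s) = D.f b (Z s) + (b' - b) * (Z s).2 := by
    have := barrier_f_add D b (b' - b) (Z s)
    rwa [add_sub_cancel] at this
  rw [h1]
  have h2 : 0 ≤ (b' - b) * (Z s).2 := mul_nonneg (by linarith) (hZ.2.1 s)
  linarith

theorem FData.barrier [FiniteDimensional ℝ E] {D : FData E} {L a l δ T₂ R₂ β Cc : ℝ}
    (hR : D.Reg L) (ha1 : 1 ≤ a) (ha2 : a ≤ 2) (hl : 0 < l) (hδ : 0 < δ) (hT₂ : 1 ≤ T₂)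
    (hlT : l * T₂ ≤ δ) (hco : D.Coer (T₂ + 1) R₂) (hZ₀ : Z₀ ∈ Cls bd Z₀)
    (hbd : ∀ s ∈ bd, D.f a (Z₀ s) ≤ 0)
    (hC : ∀ s, D.f (a + l) (Z₀ s) ≤ Cc)
    (hβ : ∀ Z ∈ Cls bd Z₀, ∃ s, β ≤ D.f a (Z s)) (hβδ : 2 * δ ≤ β)
    (hL : ∀ z : E × ℝ, 0 ≤ z.2 → z.2 ≤ T₂ + 1 → D.mm bd Z₀ a - δ ≤ D.f a z →
      D.f a z ≤ D.mm bd Z₀ a + δ → D.gx z = 0 → D.h z.1 ≤ a → z.2 * (a - D.h z.1) = 0 → False)
    (hS : ∀ z : E × ℝ, T₂ ≤ z.2 → z.2 ≤ T₂ + 1 → D.mm bd Z₀ a - δ ≤ D.f a z →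
      D.f a z ≤ D.mm bd Z₀ a + δ → D.gx z = 0 → 32 * δ < |a - D.h z.1|) :
    D.mm bd Z₀ a + l * T₂ ≤ D.mm bd Z₀ (a + l) := by
  by_contra hcon
  have hlt : D.mm bd Z₀ (a + l) < D.mm bd Z₀ a + l * T₂ := not_le.1 hcon
  have hCa : ∀ s, D.f a (Z₀ s) ≤ Cc := by
    intro s
    have h1 := hC s
    rw [barrier_f_add] at h1
    have h2 : 0 ≤ l * (Z₀ s).2 := mul_nonneg hl.le (hZ₀.2.1 s)
    linarith
  have hc : β ≤ D.mm bd Z₀ a := FData.le_mm hZ₀ hCa hβ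
  obtain ⟨M, ⟨Z, hZ, hZM⟩, hM⟩ := exists_lt_of_csInf_lt
    (s := {M | ∃ Z ∈ Cls bd Z₀, ∀ s, D.f (a + l) (Z s) ≤ M}) ⟨Cc, Z₀, hZ₀, hC⟩ hlt
  obtain ⟨Φ, hΦc, hΦ0, hΦid, hΦle, hΦlow⟩ :=
    FData.exists_deformation (D := D) (c := D.mm bd Z₀ a) hR ha1 ha2 hδ hT₂ hco hL hS
  set c := D.mm bd Z₀ a with hcdef
  set ε := min δ (c + l * T₂ - M) with hε
  have hε0 : 0 < ε := lt_min hδ (by linarith)
  have hεδ : ε ≤ δ := min_le_left _ _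
  have hεM : ε ≤ c + l * T₂ - M := min_le_right _ _
  have hmem : (fun s => Φ (Z s)) ∈ Cls bd Z₀ := by
    refine ⟨hΦc.comp hZ.1, fun s => hΦ0 _ (hZ.2.1 s), fun s hs => ?_⟩
    have h1 : Z s = Z₀ s := hZ.2.2 s hs
    change Φ (Z s) = Z₀ s
    rw [h1]
    exact hΦid _ ((hbd s hs).trans (by linarith))
  have hle : ∀ s, D.f a (Φ (Z s)) ≤ c - ε := by
    intro s
    have h1 := hZM s
    rw [barrier_f_add] at h1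
    have h0 := hZ.2.1 s
    by_cases hT : T₂ ≤ (Z s).2
    · have h2 := hΦle (Z s) h0
      have h3 : l * T₂ ≤ l * (Z s).2 := mul_le_mul_of_nonneg_left hT hl.le
      linarith
    · have h2 : 0 ≤ l * (Z s).2 := mul_nonneg hl.le h0
      have h3 := hΦlow (Z s) h0 (not_le.1 hT) (by linarith)
      linarith
  have hfin : c ≤ c - ε := by
    have h1 : D.mm bd Z₀ a ≤ c - ε :=
      csInf_le ⟨β, barrier_bddBelow hβ⟩ ⟨fun s => Φ (Z s), hmem, hle⟩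
    exact h1
  linarith

end Pool.Agent.H72.EZ
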