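import Mathlib

/-!
# JOB EZ-CANTOR : the Cantor type null set with prescribed smallness of the scales

PROOF. Recursive construction of `(L_j, l_j)`. Stage `0`: choose `p ≥ 1` with
`l_0 := (1/2)/p` so small that `good 0 l_0`; `L_0 = {1 + i/p : i < p}`. Stage `j+1`: given `L_j, l_j`,
choose `p ≥ 1` with `l_{j+1} := l_j * ((j+2)/(j+3)) / p` so small that `good (j+1) l_{j+1}`;
`L_{j+1} = {u + i l_j/p : u ∈ L_j, i < p}` (all these points are different because the intervals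
`[u, u + l_j)` are disjoint), `card L_{j+1} = p card L_j`. So `card L_j * l_j = 1/(j+2)`
by induction; separation: within the same `u` consecutive points differ by `l_j/p ≥ l_{j+1}`, points
with `u < v` satisfy `u + i l_j/p + l_{j+1} ≤ u + l_j ≤ v`.
`U_j = ⋃_{u ∈ L_j} [u, u + l_j]` is compact, `U_{j+1} ⊆ U_j ⊆ [1,2]`, `K = ⋂ U_j` is compact,
`volume K ≤ volume U_j ≤ card L_j * l_j = 1/(j+2) → 0`. `L_j ⊆ L_{j+1}` (`i = 0`), and `L_j ⊆ U_i` for
all `i` (for `i ≥ j` because `L_j ⊆ L_i`, for `i < j` because `U_j ⊆ U_i`), so `L_j ⊆ K`.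
-/

open MeasureTheory Set Metric Filter Topology

namespace Pool.Agent.H72.EZ

/-- one subdivision step -/
lemma cantor_step (L : Finset ℝ) (l l' : ℝ) (p : ℕ) (hp : 0 < p) (hl : 0 < l)
    (hle : l' ≤ l / p) (h2 : ∀ u ∈ L, ∀ v ∈ L, u < v → u + l ≤ v) :
    ∃ L' : Finset ℝ, L ⊆ L' ∧ L'.card = L.card * p ∧
      (∀ v ∈ L', ∃ u ∈ L, u ≤ v ∧ v + l' ≤ u + l) ∧
      ∀ u ∈ L', ∀ v ∈ L', u < v → u + l' ≤ v := by
  classical
  have hp' : (0 : ℝ) < p := by exact_mod_cast hp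
  set s : ℝ := l / p with hs
  have hs0 : 0 < s := div_pos hl hp'
  have hps : (p : ℝ) * s = l := by rw [hs]; field_simp
  have hin : ∀ i : ℕ, i < p → (i : ℝ) * s + s ≤ l := by
    intro i hi
    have h3 : ((i : ℝ) + 1) ≤ p := by exact_mod_cast hi
    nlinarith
  have hnn : ∀ i : ℕ, 0 ≤ (i : ℝ) * s := fun i => by positivity
  refine ⟨(L ×ˢ Finset.range p).image (fun x => x.1 + (x.2 : ℝ) * s), ?_, ?_, ?_, ?_⟩
  · intro u hu
    rw [Finset.mem_image]
    exact ⟨(u, 0), by simp [hu, hp], by simp⟩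
  · rw [Finset.card_image_of_injOn, Finset.card_product, Finset.card_range]
    rintro ⟨a, i⟩ ha ⟨b, k⟩ hb hab
    simp only [Finset.coe_product, Set.mem_prod, Finset.mem_coe, Finset.mem_range] at ha hb
    simp only at hab
    have hi := hin i ha.2
    have hk := hin k hb.2
    have h5 := hnn i
    have h6 := hnn k
    have hab' : a = b := by
      rcases lt_trichotomy a b with h | h | h
      · have := h2 a ha.1 b hb.1 h
        linarith
      · exact h
      · have := h2 b hb.1 a ha.1 h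
        linarith
    subst hab'
    have h3 : (i : ℝ) * s = k * s := by linarith
    have h4 : (i : ℝ) = k := mul_right_cancel₀ hs0.ne' h3
    have h7 : i = k := by exact_mod_cast h4
    rw [h7]
  · intro v hv
    rw [Finset.mem_image] at hv
    obtain ⟨⟨a, i⟩, ha, rfl⟩ := hv
    rw [Finset.mem_product, Finset.mem_range] at ha
    have hi := hin i ha.2
    have h5 := hnn i
    refine ⟨a, ha.1, ?_, ?_⟩
    · simp only; linarith
    · simp only; linarith
  · intro u hu v hv huv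
    rw [Finset.mem_image] at hu hv
    obtain ⟨⟨a, i⟩, ha, rfl⟩ := hu
    obtain ⟨⟨b, k⟩, hb, rfl⟩ := hv
    rw [Finset.mem_product, Finset.mem_range] at ha hb
    simp only at ha hb huv ⊢
    have hi := hin i ha.2
    have hk := hin k hb.2
    have h5 := hnn i
    have h6 := hnn k
    rcases lt_trichotomy a b with h | h | h
    · have := h2 a ha.1 b hb.1 h
      linarith
    · subst h
      have h3 : (i : ℝ) * s < k * s := by linarith
      have h4 : (i : ℝ) < k := lt_of_mul_lt_mul_right h3 hs0.le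
      have h7 : i + 1 ≤ k := by exact_mod_cast h4
      have h8 : ((i : ℝ) + 1) ≤ k := by exact_mod_cast h7
      nlinarith
    · have := h2 b hb.1 a ha.1 h
      linarith

/-- validity of a stage -/
def CantorOK (good : ℕ → ℝ → Prop) (j : ℕ) (s : Finset ℝ × ℝ) : Prop :=
  0 < s.2 ∧ good j s.2 ∧ (∀ u ∈ s.1, 1 ≤ u ∧ u + s.2 ≤ 2) ∧
    (∀ u ∈ s.1, ∀ v ∈ s.1, u < v → u + s.2 ≤ v) ∧ (s.1.card : ℝ) * s.2 = 1 / (j + 2)

/-- passing to the next stage -/
lemma cantor_next (good : ℕ → ℝ → Prop)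
    (hgood : ∀ j, ∃ l₀ : ℝ, 0 < l₀ ∧ ∀ l, 0 < l → l ≤ l₀ → good j l)
    (j : ℕ) (L : Finset ℝ) (l : ℝ) (hl : 0 < l) (h1 : ∀ u ∈ L, 1 ≤ u ∧ u + l ≤ 2)
    (h2 : ∀ u ∈ L, ∀ v ∈ L, u < v → u + l ≤ v) (hc : (L.card : ℝ) * l = 1 / (j + 1)) :
    ∃ s : Finset ℝ × ℝ, CantorOK good j s ∧ L ⊆ s.1 ∧
      ∀ v ∈ s.1, ∃ u ∈ L, u ≤ v ∧ v + s.2 ≤ u + l := by
  obtain ⟨l₀, hl₀, hg⟩ := hgood j
  obtain ⟨p, hp⟩ := exists_nat_gt (l / l₀)
  have hp0 : (0 : ℝ) < p := lt_trans (div_pos hl hl₀) hp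
  have hpn : 0 < p := by exact_mod_cast hp0
  have hj : (0 : ℝ) < (j : ℝ) + 2 := by positivity
  have hj1 : (0 : ℝ) < (j : ℝ) + 1 := by positivity
  set l' : ℝ := l / p * ((j + 1) / (j + 2)) with hl'
  have hl'0 : 0 < l' := by positivity
  have hle : l' ≤ l / p := by
    rw [hl']
    have h3 : ((j : ℝ) + 1) / (j + 2) ≤ 1 := by
      rw [div_le_one hj]; linarith
    exact mul_le_of_le_one_right (div_pos hl hp0).le h3
  have hle0 : l' ≤ l₀ := by
    refine hle.trans ?_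
    rw [div_lt_iff₀ hl₀] at hp
    rw [div_le_iff₀ hp0]
    linarith
  obtain ⟨L', hL', hcard, hin, hsep⟩ := cantor_step L l l' p hpn hl hle h2
  refine ⟨(L', l'), ⟨hl'0, hg l' hl'0 hle0, ?_, hsep, ?_⟩, hL', hin⟩
  · intro v hv
    obtain ⟨u, hu, h3, h4⟩ := hin v hv
    have h5 := h1 u hu
    constructor <;> linarith [h5.1, h5.2]
  · show (L'.card : ℝ) * l' = 1 / (j + 2)
    rw [hcard, hl']
    push_cast
    calc (L.card : ℝ) * p * (l / p * ((j + 1) / (j + 2)))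
        = (L.card * l) * ((j + 1) / (j + 2)) := by field_simp
      _ = 1 / (j + 2) := by rw [hc]; field_simp

/-- the whole sequence of stages -/
lemma cantor_seq (good : ℕ → ℝ → Prop)
    (hgood : ∀ j, ∃ l₀ : ℝ, 0 < l₀ ∧ ∀ l, 0 < l → l ≤ l₀ → good j l) :
    ∃ s : ℕ → Finset ℝ × ℝ, (∀ j, CantorOK good j (s j)) ∧ (∀ j, (s j).1 ⊆ (s (j + 1)).1) ∧
      ∀ j, ∀ v ∈ (s (j + 1)).1, ∃ u ∈ (s j).1, u ≤ v ∧ v + (s (j + 1)).2 ≤ u + (s j).2 := by
  obtain ⟨s0, hs0, -, -⟩ := cantor_next good hgood 0 {1} 1 one_pos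
    (by intro u hu; rw [Finset.mem_singleton] at hu; subst hu; norm_num)
    (by
      intro u hu v hv h
      rw [Finset.mem_singleton] at hu hv
      subst hu; subst hv
      exact absurd h (lt_irrefl _))
    (by simp)
  have step : ∀ (j : ℕ) (s : Finset ℝ × ℝ), CantorOK good j s →
      ∃ t : Finset ℝ × ℝ, CantorOK good (j + 1) t ∧ s.1 ⊆ t.1 ∧
        ∀ v ∈ t.1, ∃ u ∈ s.1, u ≤ v ∧ v + t.2 ≤ u + s.2 := by
    intro j s hs
    obtain ⟨h1, h2, h3, h4, h5⟩ := hs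
    refine cantor_next good hgood (j + 1) s.1 s.2 h1 h3 h4 ?_
    rw [h5]
    push_cast
    ring
  choose nxt hn1 hn2 hn3 using step
  let S : (j : ℕ) → {s : Finset ℝ × ℝ // CantorOK good j s} := fun j =>
    Nat.rec (motive := fun j => {s : Finset ℝ × ℝ // CantorOK good j s}) ⟨s0, hs0⟩
      (fun j s => ⟨nxt j s.1 s.2, hn1 j s.1 s.2⟩) j
  exact ⟨fun j => (S j).1, fun j => (S j).2, fun j => hn2 j (S j).1 (S j).2,
    fun j => hn3 j (S j).1 (S j).2⟩

theorem exists_K (good : ℕ → ℝ → Prop)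
    (hgood : ∀ j, ∃ l₀ : ℝ, 0 < l₀ ∧ ∀ l, 0 < l → l ≤ l₀ → good j l) :
    ∃ (K : Set ℝ) (L : ℕ → Finset ℝ) (l : ℕ → ℝ), IsCompact K ∧ K ⊆ Icc 1 2 ∧ volume K = 0 ∧
      (∀ j, 0 < l j) ∧ (∀ j, good j (l j)) ∧ (∀ j, ∀ u ∈ L j, u ∈ K) ∧
      (∀ j, ∀ u ∈ L j, 1 ≤ u ∧ u + l j ≤ 2) ∧
      (∀ j, ∀ u ∈ L j, ∀ v ∈ L j, u < v → u + l j ≤ v) ∧
      ∀ j : ℕ, ((L j).card : ℝ) * l j = 1 / (j + 2) := by
  classical
  obtain ⟨s, hok, hsub, hin⟩ := cantor_seq good hgood
  set U : ℕ → Set ℝ := fun j => ⋃ u ∈ (s j).1, Icc u (u + (s j).2) with hU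
  have hpos : ∀ j, 0 < (s j).2 := fun j => (hok j).1
  have hUc : ∀ j, IsCompact (U j) := fun j =>
    (s j).1.finite_toSet.isCompact_biUnion fun u _ => isCompact_Icc
  have hUsucc : ∀ j, U (j + 1) ⊆ U j := by
    intro j x hx
    simp only [hU, mem_iUnion, exists_prop] at hx ⊢
    obtain ⟨v, hv, hx1⟩ := hx
    obtain ⟨u, hu, h1, h2⟩ := hin j v hv
    exact ⟨u, hu, h1.trans hx1.1, hx1.2.trans h2⟩
  have hUanti : Antitone U := antitone_nat_of_succ_le hUsucc
  have hLmono : Monotone fun j => (s j).1 := monotone_nat_of_le_succ hsub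
  have hself : ∀ j, ∀ u ∈ (s j).1, u ∈ U j := by
    intro j u hu
    simp only [hU, mem_iUnion, exists_prop]
    exact ⟨u, hu, le_refl _, by linarith [hpos j]⟩
  refine ⟨⋂ j, U j, fun j => (s j).1, fun j => (s j).2, ?_, ?_, ?_, hpos, fun j => (hok j).2.1,
    ?_, fun j => (hok j).2.2.1, fun j => (hok j).2.2.2.1, fun j => (hok j).2.2.2.2⟩
  · exact (hUc 0).of_isClosed_subset (isClosed_iInter fun j => (hUc j).isClosed)
      (iInter_subset U 0)
  · intro x hx
    have hx0 := mem_iInter.mp hx 0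
    simp only [hU, mem_iUnion, exists_prop] at hx0
    obtain ⟨u, hu, hx1⟩ := hx0
    have h3 := (hok 0).2.2.1 u hu
    exact ⟨h3.1.trans hx1.1, hx1.2.trans h3.2⟩
  · have hv : ∀ j : ℕ, volume (⋂ j, U j) ≤ ENNReal.ofReal (1 / ((j : ℝ) + 2)) := by
      intro j
      calc volume (⋂ j, U j) ≤ volume (U j) := measure_mono (iInter_subset U j)
        _ ≤ ∑ u ∈ (s j).1, volume (Icc u (u + (s j).2)) := measure_biUnion_finset_le _ _
        _ = ∑ u ∈ (s j).1, ENNReal.ofReal ((s j).2) := by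
            refine Finset.sum_congr rfl fun u _ => ?_
            rw [Real.volume_Icc]
            congr 1
            ring
        _ = ENNReal.ofReal (((s j).1.card : ℝ) * (s j).2) := by
            rw [Finset.sum_const, nsmul_eq_mul, ENNReal.ofReal_mul (by positivity),
              ENNReal.ofReal_natCast]
        _ = ENNReal.ofReal (1 / ((j : ℝ) + 2)) := by rw [(hok j).2.2.2.2]
    have ht : Tendsto (fun j : ℕ => ENNReal.ofReal (1 / ((j : ℝ) + 2))) atTop (𝓝 0) := by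
      rw [← ENNReal.ofReal_zero]
      refine ENNReal.tendsto_ofReal ?_
      have h1 : Tendsto (fun j : ℕ => (j : ℝ) + 2) atTop atTop :=
        tendsto_atTop_add_const_right _ _ tendsto_natCast_atTop_atTop
      refine h1.inv_tendsto_atTop.congr fun j => ?_
      simp [one_div]
    exact le_antisymm (ge_of_tendsto' ht hv) (zero_le)
  · intro j u hu
    refine mem_iInter.mpr fun i => ?_
    rcases le_total i j with h | h
    · exact hUanti h (hself j u hu)
    · exact hself i u (hLmono h hu)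

end Pool.Agent.H72.EZ
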