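import Pool.Agent.H72.EZ.Defs

/-!
# JOB EZ-COMP1 : `C^{m+1}`-bounded sequences have `C^m`-convergent subsequences

PROOF. For `k ≤ m` let `p_{i,k}(x) = iteratedFDeriv ℝ k (h i) x`. All values are bounded by `M`, and
`p_{i,k}` is `M`-Lipschitz (`k + 1 ≤ m + 1`; mean value inequality,
`norm_fderiv_iteratedFDeriv`), and vanishes for `M < ‖x‖` (and on the sphere). By Arzela-Ascoli
(`BoundedContinuousFunction.arzela_ascoli` or `ArzelaAscoli...` on the compact ball
`closedBall 0 (M+1)`; the spaces `W [×k]→L[ℝ] ℝ` are finite-dimensional) and finitely many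
successive extractions there is one subsequence `φ` along which every `p_{i,k}`, `k ≤ m`, converges
uniformly on `W` to some `q_k`. Then `q` is a Taylor series of `h∞ := q_0` (evaluated at `0`-tuples):
`HasFTaylorSeriesUpTo m h∞ q`, since uniform limits of derivatives are derivatives
(`hasFDerivAt_of_tendstoUniformly`...). So `h∞` is `C^m` (`HasFTaylorSeriesUpTo.contDiff`), and
`fderiv (h (φ i)) → fderiv h∞` uniformly (`m ≥ 1`), hence also the gradients (`toDual` is an
isometry).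
-/

open MeasureTheory Set Metric Filter Topology
open scoped Real InnerProductSpace NNReal

namespace Pool.Agent.H72.EZ

variable {W : Type} [NormedAddCommGroup W] [InnerProductSpace ℝ W]

theorem Comp1_base [FiniteDimensional ℝ W] {F : Type} [NormedAddCommGroup F] [NormedSpace ℝ F]
    [FiniteDimensional ℝ F] (M B : ℝ) (f : ℕ → W → F) (hc : ∀ i, ContDiff ℝ 1 (f i))
    (hs : ∀ i x, M < ‖x‖ → f i x = 0) (hb0 : ∀ i x, ‖f i x‖ ≤ B)
    (hb1 : ∀ i x, ‖fderiv ℝ (f i) x‖ ≤ B) :
    ∃ φ : ℕ → ℕ, StrictMono φ ∧ ∃ f' : W → F,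
      TendstoUniformly (fun i => f (φ i)) f' atTop := by
  classical
  have hB : 0 ≤ B := (norm_nonneg _).trans (hb0 0 0)
  have hlip : ∀ i, LipschitzWith (Real.toNNReal B) (f i) := fun i =>
    lipschitzWith_of_nnnorm_fderiv_le ((hc i).differentiable (by norm_num))
      (fun x => by
        rw [← NNReal.coe_le_coe, Real.coe_toNNReal _ hB]
        exact hb1 i x)
  have : CompactSpace (closedBall (0 : W) M) :=
    isCompact_iff_compactSpace.1 (isCompact_closedBall (0 : W) M)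
  have : ProperSpace F := FiniteDimensional.proper ℝ F
  let G : ℕ → BoundedContinuousFunction (closedBall (0 : W) M) F := fun i =>
    BoundedContinuousFunction.mkOfCompact
      ⟨fun x => f i x, (hc i).continuous.comp continuous_subtype_val⟩
  have hcomp : IsCompact (closure (Set.range G)) := by
    refine BoundedContinuousFunction.arzela_ascoli (closedBall (0 : F) B)
      (isCompact_closedBall _ _) (Set.range G) ?_ ?_
    · rintro _ x ⟨i, rfl⟩
      rw [mem_closedBall_zero_iff]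
      exact hb0 i x
    · refine (LipschitzWith.uniformEquicontinuous _ (Real.toNNReal B) ?_).equicontinuous
      rintro ⟨_, i, rfl⟩
      intro x y
      exact hlip i x y
  obtain ⟨g, -, φ, hφ, hlim⟩ := hcomp.tendsto_subseq (x := G)
    (fun i => subset_closure ⟨i, rfl⟩)
  refine ⟨φ, hφ, fun x => if hx : x ∈ closedBall (0 : W) M then g ⟨x, hx⟩ else 0, ?_⟩
  have hu := BoundedContinuousFunction.tendsto_iff_tendstoUniformly.1 hlim
  rw [Metric.tendstoUniformly_iff] at hu ⊢
  intro ε hε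
  filter_upwards [hu ε hε] with n hn x
  by_cases hx : x ∈ closedBall (0 : W) M
  · rw [dif_pos hx]
    exact hn ⟨x, hx⟩
  · rw [dif_neg hx, hs _ x (by simpa using hx), dist_self]
    exact hε

theorem Comp1_sub {α : Type} {β : Type} [UniformSpace β] {F : ℕ → α → β} {f : α → β}
    (h : TendstoUniformly F f atTop) {φ : ℕ → ℕ} (hφ : StrictMono φ) :
    TendstoUniformly (fun i => F (φ i)) f atTop :=
  fun u hu => hφ.tendsto_atTop.eventually (h u hu)

theorem Comp1_step [FiniteDimensional ℝ W] {F : Type} [NormedAddCommGroup F] [NormedSpace ℝ F]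
    [FiniteDimensional ℝ F] (M B : ℝ) (m : ℕ)
    (ih : ∀ g : ℕ → W → (W →L[ℝ] F), (∀ i, ContDiff ℝ ((m + 1 : ℕ)) (g i)) →
      (∀ i x, M < ‖x‖ → g i x = 0) →
      (∀ i, ∀ k ≤ m + 1, ∀ x, ‖iteratedFDeriv ℝ k (g i) x‖ ≤ B) →
      ∃ φ : ℕ → ℕ, StrictMono φ ∧ ∃ g' : W → (W →L[ℝ] F), ContDiff ℝ m g' ∧
        TendstoUniformly (fun i => g (φ i)) g' atTop)
    (f : ℕ → W → F) (hc : ∀ i, ContDiff ℝ ((m + 1 + 1 : ℕ)) (f i))
    (hs : ∀ i x, M < ‖x‖ → f i x = 0)
    (hb : ∀ i, ∀ k ≤ m + 1 + 1, ∀ x, ‖iteratedFDeriv ℝ k (f i) x‖ ≤ B) :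
    ∃ φ : ℕ → ℕ, StrictMono φ ∧ ∃ f' : W → F, ContDiff ℝ ((m + 1 : ℕ)) f' ∧
      TendstoUniformly (fun i => f (φ i)) f' atTop ∧
      TendstoUniformly (fun i => fderiv ℝ (f (φ i))) (fderiv ℝ f') atTop := by
  have hdiff : ∀ i, Differentiable ℝ (f i) := fun i =>
    (hc i).differentiable (by simp)
  obtain ⟨φ₁, hφ₁, g', hg', hgl⟩ := ih (fun i => fderiv ℝ (f i))
    (fun i => (hc i).fderiv_right (by push_cast; exact le_refl _))
    (fun i x hx => by
      have h1 : f i =ᶠ[𝓝 x] fun _ => 0 := by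
        filter_upwards [(isOpen_lt continuous_const continuous_norm).mem_nhds hx] with y hy
        exact hs i y hy
      rw [h1.fderiv_eq]
      simp)
    (fun i k hk x => by
      rw [norm_iteratedFDeriv_fderiv]
      exact hb i (k + 1) (by omega) x)
  obtain ⟨φ₂, hφ₂, f', hfl⟩ := Comp1_base M B (fun i => f (φ₁ i))
    (fun i => (hc _).of_le (by
      push_cast
      exact le_add_self))
    (fun i => hs _)
    (fun i x => by
      have := hb (φ₁ i) 0 (by omega) x
      rwa [norm_iteratedFDeriv_zero] at this)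
    (fun i x => by
      have := hb (φ₁ i) 1 (by omega) x
      rwa [norm_iteratedFDeriv_one] at this)
  have hgl2 : TendstoUniformly (fun i => fderiv ℝ (f (φ₁ (φ₂ i)))) g' atTop :=
    Comp1_sub hgl hφ₂
  have hder : ∀ x, HasFDerivAt f' (g' x) x :=
    hasFDerivAt_of_tendstoUniformly hgl2 (fun n x => (hdiff _ x).hasFDerivAt)
      (fun x => hfl.tendsto_at x)
  have hfd : fderiv ℝ f' = g' := by
    funext x
    exact (hder x).fderiv
  refine ⟨fun i => φ₁ (φ₂ i), hφ₁.comp hφ₂, f', ?_, hfl, ?_⟩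
  · have h := contDiff_succ_iff_hasFDerivAt.2 ⟨g', hg', hder⟩
    exact_mod_cast h
  · rw [hfd]
    exact hgl2

theorem Comp1_P [FiniteDimensional ℝ W] (M B : ℝ) (m : ℕ) : ∀ (F : Type)
    [NormedAddCommGroup F] [NormedSpace ℝ F] [FiniteDimensional ℝ F] (f : ℕ → W → F),
    (∀ i, ContDiff ℝ ((m + 1 : ℕ)) (f i)) → (∀ i x, M < ‖x‖ → f i x = 0) →
    (∀ i, ∀ k ≤ m + 1, ∀ x, ‖iteratedFDeriv ℝ k (f i) x‖ ≤ B) →
    ∃ φ : ℕ → ℕ, StrictMono φ ∧ ∃ f' : W → F, ContDiff ℝ m f' ∧
      TendstoUniformly (fun i => f (φ i)) f' atTop := by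
  induction m with
  | zero =>
    intro F _ _ _ f hc hs hb
    obtain ⟨φ, hφ, f', hf'⟩ := Comp1_base M B f (fun i => by simpa using hc i) hs
      (fun i x => by
        have := hb i 0 (by omega) x
        rwa [norm_iteratedFDeriv_zero] at this)
      (fun i x => by
        have := hb i 1 (by omega) x
        rwa [norm_iteratedFDeriv_one] at this)
    refine ⟨φ, hφ, f', ?_, hf'⟩
    have h0 : ∀ i, Continuous (f (φ i)) := fun i => (hc (φ i)).continuous
    have h : Continuous f' := hf'.continuous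
      (Filter.Eventually.frequently (Filter.Eventually.of_forall h0))
    rw [Nat.cast_zero]
    exact (contDiff_zero (𝕜 := ℝ)).2 h
  | succ m ih =>
    intro F _ _ _ f hc hs hb
    obtain ⟨φ, hφ, f', h1, h2, -⟩ := Comp1_step (F := F) M B m (ih (W →L[ℝ] F)) f hc hs hb
    exact ⟨φ, hφ, f', h1, h2⟩

theorem InH.subseq [FiniteDimensional ℝ W] {m : ℕ} (hm : 1 ≤ m) {M : ℝ} (hM : 0 < M)
    (h : ℕ → W → ℝ) (hh : ∀ i, InH (m + 1) M (h i)) :
    ∃ φ : ℕ → ℕ, StrictMono φ ∧ ∃ h' : W → ℝ, ContDiff ℝ m h' ∧ (∀ x, M ≤ ‖x‖ → h' x = 0) ∧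
      TendstoUniformly (fun i => h (φ i)) h' atTop ∧
      TendstoUniformly (fun i x => gradient (h (φ i)) x) (gradient h') atTop := by
  obtain ⟨m', rfl⟩ : ∃ m', m = m' + 1 := ⟨m - 1, by omega⟩
  obtain ⟨φ, hφ, h', h1, h2, h3⟩ := Comp1_step (F := ℝ) M M m' (Comp1_P M M m' (W →L[ℝ] ℝ)) h
    (fun i => (hh i).smooth) (fun i x hx => (hh i).supp x hx.le) (fun i => (hh i).bd)
  refine ⟨φ, hφ, h', h1, ?_, h2, ?_⟩
  · intro x hx
    have h4 := h2.tendsto_at x
    have h5 : (fun n => h (φ n) x) = fun _ => (0 : ℝ) := by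
      funext n
      exact (hh _).supp x hx
    rw [h5] at h4
    exact tendsto_nhds_unique h4 tendsto_const_nhds
  · have h6 : UniformContinuous (InnerProductSpace.toDual ℝ W).symm :=
      (InnerProductSpace.toDual ℝ W).symm.isometry.uniformContinuous
    exact h6.comp_tendstoUniformly h3

end Pool.Agent.H72.EZ
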