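import Mathlib

/-!
# JOB EZ-FLOW1 : global flows of Lipschitz vector fields

PROOF. Existence: for `X` globally `K`-Lipschitz, Picard-Lindelöf on `[-T,T]` for every `T` (or on short
intervals of uniform length and gluing; or contraction in a weighted norm). A convenient way:
`IsPicardLindelof` on `[t₀-ε, t₀+ε]` with `ε = 1/(2(K+1))` and radius `a` with
`ε (‖X y‖ + K a) ≤ a` exists for every centre `y`, so every solution can be continued by `ε` in
both directions: construct the solution on `[0, nε]`, glue. Uniqueness and Lipschitz dependence: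
Gronwall in Mathlib (`dist_le_of_trajectories_ODE`, `ODE_solution_unique_univ`); for negative times
apply it to `s ↦ φ(-s)` and the field `-X`. Joint continuity: `‖φ(t,y) - φ(t',y')‖ ≤
‖φ(t,y) - φ(t,y')‖ + ‖φ(t,y') - φ(t',y')‖`.
-/

open MeasureTheory Set Metric Filter Topology
open scoped Real NNReal

namespace Pool.Agent.H72.EZ

/-- `φ` is the global flow of `X` -/
structure IsFlow {U : Type} [NormedAddCommGroup U] [NormedSpace ℝ U] (X : U → U)
    (φ : ℝ × U → U) : Prop where
  zero : ∀ y, φ (0, y) = y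
  deriv : ∀ t y, HasDerivAt (fun s => φ (s, y)) (X (φ (t, y))) t

variable {U : Type} [NormedAddCommGroup U] [NormedSpace ℝ U]

/-- exponential bound for a primitive -/
theorem flow1_norm_integral_le {w : ℝ → U} {M L : ℝ} (hL : 0 < L) (hM : 0 ≤ M)
    (hw : Continuous w) (hb : ∀ s, ‖w s‖ ≤ M * Real.exp (L * |s|)) (t : ℝ) :
    ‖∫ s in (0 : ℝ)..t, w s‖ ≤ M / L * Real.exp (L * |t|) := by
  have key : ∀ (v : ℝ → U), Continuous v → (∀ s, ‖v s‖ ≤ M * Real.exp (L * |s|)) →
      ∀ t, 0 ≤ t → ‖∫ s in (0 : ℝ)..t, v s‖ ≤ M / L * Real.exp (L * t) := by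
    intro v _hv hbv t ht
    have hcont : Continuous fun s : ℝ => M * Real.exp (L * s) := by fun_prop
    have h1 : ‖∫ s in (0 : ℝ)..t, v s‖ ≤ ∫ s in (0 : ℝ)..t, M * Real.exp (L * s) := by
      refine intervalIntegral.norm_integral_le_of_norm_le ht ?_
        (hcont.intervalIntegrable _ _)
      refine Filter.Eventually.of_forall fun s hs => ?_
      have := hbv s
      rwa [abs_of_nonneg hs.1.le] at this
    have h2 : ∫ s in (0 : ℝ)..t, M * Real.exp (L * s) =
        M / L * Real.exp (L * t) - M / L * Real.exp (L * 0) := by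
      have hder : ∀ x ∈ uIcc 0 t, HasDerivAt (fun s : ℝ => M / L * Real.exp (L * s))
          (M * Real.exp (L * x)) x := by
        intro x _
        have h3 : HasDerivAt (fun s : ℝ => M / L * Real.exp (L * s))
            (M / L * (Real.exp (L * x) * (L * 1))) x :=
          (((hasDerivAt_id x).const_mul L).exp).const_mul (M / L)
        have e : M / L * (Real.exp (L * x) * (L * 1)) = M * Real.exp (L * x) := by
          field_simp
        rw [e] at h3
        exact h3
      exact intervalIntegral.integral_eq_sub_of_hasDerivAt hder (hcont.intervalIntegrable _ _)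
    rw [h2] at h1
    have h3 : 0 ≤ M / L * Real.exp (L * 0) := by positivity
    linarith
  rcases le_total 0 t with ht | ht
  · rw [abs_of_nonneg ht]
    exact key w hw hb t ht
  · rw [abs_of_nonpos ht]
    have h1 := key (fun s => w (-s)) (hw.comp continuous_neg) (fun s => by
      have := hb (-s)
      rwa [abs_neg] at this) (-t) (by linarith)
    rw [intervalIntegral.integral_comp_neg, neg_neg, neg_zero,
      intervalIntegral.integral_symm, norm_neg] at h1
    exact h1

/-- existence of a global solution -/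
theorem flow1_exists [CompleteSpace U] {X : U → U} {K : ℝ≥0} (hX : LipschitzWith K X) (y : U) :
    ∃ x : ℝ → U, x 0 = y ∧ ∀ t, HasDerivAt x (X (x t)) t := by
  set L : ℝ := K + 1 with hL
  have hL0 : 0 < L := by positivity
  have hdX : ∀ a b, ‖X a - X b‖ ≤ K * ‖a - b‖ := fun a b => by
    have := hX.dist_le_mul a b
    rwa [dist_eq_norm, dist_eq_norm] at this
  -- the integrand
  have hwc : ∀ u : BoundedContinuousFunction ℝ U,
      Continuous fun s : ℝ => X (y + Real.exp (L * |s|) • u s) := by
    intro u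
    refine hX.continuous.comp ?_
    have h1 : Continuous fun s : ℝ => Real.exp (L * |s|) := by fun_prop
    exact continuous_const.add (h1.smul u.continuous)
  have hwb : ∀ (u : BoundedContinuousFunction ℝ U) (s : ℝ),
      ‖X (y + Real.exp (L * |s|) • u s)‖ ≤ (‖X y‖ + K * ‖u‖) * Real.exp (L * |s|) := by
    intro u s
    have h1 := hdX (y + Real.exp (L * |s|) • u s) y
    rw [add_sub_cancel_left, norm_smul, Real.norm_eq_abs, abs_of_pos (Real.exp_pos _)] at h1
    have h2 : ‖X (y + Real.exp (L * |s|) • u s)‖ ≤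
        ‖X (y + Real.exp (L * |s|) • u s) - X y‖ + ‖X y‖ := by
      simpa using norm_add_le (X (y + Real.exp (L * |s|) • u s) - X y) (X y)
    have h3 := u.norm_coe_le_norm s
    have h4 : 1 ≤ Real.exp (L * |s|) := Real.one_le_exp (by positivity)
    have h5 : (K : ℝ) * (Real.exp (L * |s|) * ‖u s‖) ≤ K * (Real.exp (L * |s|) * ‖u‖) := by
      gcongr
    have h6 : ‖X y‖ * 1 ≤ ‖X y‖ * Real.exp (L * |s|) := by gcongr
    calc ‖X (y + Real.exp (L * |s|) • u s)‖
        ≤ K * (Real.exp (L * |s|) * ‖u‖) + ‖X y‖ * Real.exp (L * |s|) := by linarith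
      _ = _ := by ring
  -- the operator
  let F : BoundedContinuousFunction ℝ U → BoundedContinuousFunction ℝ U := fun u =>
    BoundedContinuousFunction.ofNormedAddCommGroup
      (fun t => Real.exp (-(L * |t|)) • ∫ s in (0 : ℝ)..t, X (y + Real.exp (L * |s|) • u s))
      (by
        have h1 : Continuous fun t : ℝ => Real.exp (-(L * |t|)) := by fun_prop
        refine h1.smul ?_
        exact intervalIntegral.continuous_primitive
          (fun a b => (hwc u).intervalIntegrable a b) 0)
      ((‖X y‖ + K * ‖u‖) / L) (by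
        intro t
        rw [norm_smul, Real.norm_eq_abs, abs_of_pos (Real.exp_pos _)]
        have h1 := flow1_norm_integral_le hL0 (by positivity) (hwc u) (hwb u) t
        calc Real.exp (-(L * |t|)) * ‖∫ s in (0 : ℝ)..t, X (y + Real.exp (L * |s|) • u s)‖
            ≤ Real.exp (-(L * |t|)) * ((‖X y‖ + K * ‖u‖) / L * Real.exp (L * |t|)) := by
              gcongr
          _ = (‖X y‖ + K * ‖u‖) / L * (Real.exp (-(L * |t|)) * Real.exp (L * |t|)) := by ring
          _ = (‖X y‖ + K * ‖u‖) / L := by
              rw [← Real.exp_add, neg_add_cancel, Real.exp_zero, mul_one])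
  have hF : ∀ (u : BoundedContinuousFunction ℝ U) (t : ℝ), F u t =
      Real.exp (-(L * |t|)) • ∫ s in (0 : ℝ)..t, X (y + Real.exp (L * |s|) • u s) :=
    fun u t => rfl
  have hcontr : ContractingWith (K / (K + 1)) F := by
    refine ⟨?_, LipschitzWith.of_dist_le_mul fun u v => ?_⟩
    · rw [div_lt_one (by positivity)]
      exact lt_add_one K
    · refine (BoundedContinuousFunction.dist_le (by positivity)).2 fun t => ?_
      rw [dist_eq_norm, hF, hF, ← smul_sub, norm_smul, Real.norm_eq_abs,
        abs_of_pos (Real.exp_pos _),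
        ← intervalIntegral.integral_sub ((hwc u).intervalIntegrable _ _)
          ((hwc v).intervalIntegrable _ _)]
      have h1 := flow1_norm_integral_le (M := K * dist u v) hL0 (by positivity)
        ((hwc u).sub (hwc v)) (fun s => by
          refine (hdX _ _).trans ?_
          rw [add_sub_add_left_eq_sub, ← smul_sub, norm_smul, Real.norm_eq_abs,
            abs_of_pos (Real.exp_pos _), ← dist_eq_norm]
          have := BoundedContinuousFunction.dist_coe_le_dist (f := u) (g := v) s
          calc (K : ℝ) * (Real.exp (L * |s|) * dist (u s) (v s))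
              ≤ K * (Real.exp (L * |s|) * dist u v) := by gcongr
            _ = _ := by ring) t
      calc Real.exp (-(L * |t|)) * ‖∫ s in (0 : ℝ)..t,
            (X (y + Real.exp (L * |s|) • u s) - X (y + Real.exp (L * |s|) • v s))‖
          ≤ Real.exp (-(L * |t|)) * (K * dist u v / L * Real.exp (L * |t|)) :=
            mul_le_mul_of_nonneg_left h1 (Real.exp_pos _).le
        _ = K * dist u v / L * (Real.exp (-(L * |t|)) * Real.exp (L * |t|)) := by ring
        _ = K * dist u v / L := by
            rw [← Real.exp_add, neg_add_cancel, Real.exp_zero, mul_one]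
        _ = ((K / (K + 1) : ℝ≥0) : ℝ) * dist u v := by
            rw [hL]
            push_cast
            ring
  obtain ⟨u, hu⟩ : ∃ u, F u = u := ⟨_, hcontr.fixedPoint_isFixedPt⟩
  have hx : ∀ t : ℝ, y + Real.exp (L * |t|) • u t =
      y + ∫ s in (0 : ℝ)..t, X (y + Real.exp (L * |s|) • u s) := by
    intro t
    have h1 : u t = F u t := by rw [hu]
    rw [hF] at h1
    conv_lhs => rw [h1]
    rw [smul_smul, ← Real.exp_add, add_neg_cancel, Real.exp_zero, one_smul]
  refine ⟨fun t => y + Real.exp (L * |t|) • u t, ?_, fun t => ?_⟩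
  · show y + Real.exp (L * |0|) • u 0 = y
    rw [hx 0, intervalIntegral.integral_same, add_zero]
  · have h1 := ((hwc u).integral_hasStrictDerivAt 0 t).hasDerivAt.const_add y
    exact h1.congr_of_eventuallyEq (Filter.Eventually.of_forall hx)

theorem exists_isFlow [CompleteSpace U] {X : U → U} {K : ℝ≥0} (hX : LipschitzWith K X) :
    ∃ φ : ℝ × U → U, IsFlow X φ := by
  choose x hx0 hx using fun y => flow1_exists hX y
  exact ⟨fun p => x p.2 p.1, fun y => hx0 y, fun t y => hx y t⟩

theorem flow1_cont {X : U → U} {φ : ℝ × U → U} (hφ : IsFlow X φ) (y : U) :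
    Continuous fun s => φ (s, y) :=
  continuous_iff_continuousAt.2 fun t => (hφ.deriv t y).continuousAt

theorem IsFlow.dist_le {X : U → U} {K : ℝ≥0} (hX : LipschitzWith K X) {φ : ℝ × U → U}
    (hφ : IsFlow X φ) (t : ℝ) (y y' : U) :
    ‖φ (t, y) - φ (t, y')‖ ≤ Real.exp (K * |t|) * ‖y - y'‖ := by
  rcases le_total 0 t with ht | ht
  · have h := dist_le_of_trajectories_ODE (v := fun _ => X) (K := K) (a := 0) (b := t)
      (f := fun s => φ (s, y)) (g := fun s => φ (s, y')) (δ := ‖y - y'‖)
      (fun _ => hX) (flow1_cont hφ y).continuousOn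
      (fun s _ => (hφ.deriv s y).hasDerivWithinAt) (flow1_cont hφ y').continuousOn
      (fun s _ => (hφ.deriv s y').hasDerivWithinAt)
      (by rw [hφ.zero, hφ.zero, dist_eq_norm]) t ⟨ht, le_rfl⟩
    rw [dist_eq_norm, sub_zero] at h
    rw [abs_of_nonneg ht, mul_comm]
    exact h
  · have hneg : ∀ (z : U) (s : ℝ), HasDerivAt (fun s => φ (-s, z)) (-X (φ (-s, z))) s := by
      intro z s
      have h1 := HasDerivAt.scomp s (hφ.deriv (-s) z) (hasDerivAt_neg s)
      rw [neg_smul, one_smul] at h1
      exact h1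
    have hnc : ∀ z : U, Continuous fun s => φ (-s, z) := fun z =>
      continuous_iff_continuousAt.2 fun t => (hneg z t).continuousAt
    have h := dist_le_of_trajectories_ODE (v := fun _ z => -X z) (K := K) (a := 0) (b := -t)
      (f := fun s => φ (-s, y)) (g := fun s => φ (-s, y')) (δ := ‖y - y'‖)
      (fun _ => LipschitzWith.of_dist_le_mul fun a b => by
        rw [dist_neg_neg]; exact hX.dist_le_mul a b) (hnc y).continuousOn
      (fun s _ => (hneg y s).hasDerivWithinAt) (hnc y').continuousOn
      (fun s _ => (hneg y' s).hasDerivWithinAt)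
      (by rw [neg_zero, hφ.zero, hφ.zero, dist_eq_norm]) (-t) ⟨by linarith, le_rfl⟩
    rw [dist_eq_norm, sub_zero, neg_neg] at h
    rw [abs_of_nonpos ht, mul_comm]
    exact h

/-- a solution on a time interval around `0` agrees with the flow -/
theorem IsFlow.unique {X : U → U} {K : ℝ≥0} (hX : LipschitzWith K X) {φ : ℝ × U → U}
    (hφ : IsFlow X φ) {x : ℝ → U} {T : ℝ}
    (hx : ∀ t ∈ Ioo (-T) T, HasDerivAt x (X (x t)) t) :
    ∀ t ∈ Ioo (-T) T, x t = φ (t, x 0) := by
  intro t ht
  have hT : 0 < T := by linarith [ht.1, ht.2]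
  exact ODE_solution_unique_of_mem_Ioo (v := fun _ => X) (s := fun _ => univ) (K := K)
    (t₀ := 0) (f := x) (g := fun s => φ (s, x 0)) (fun _ _ => hX.lipschitzOnWith)
    ⟨by linarith, hT⟩ (fun s hs => ⟨hx s hs, mem_univ _⟩)
    (fun s _ => ⟨hφ.deriv s _, mem_univ _⟩) (by rw [hφ.zero]) ht

theorem IsFlow.continuous {X : U → U} {K : ℝ≥0} (hX : LipschitzWith K X) {φ : ℝ × U → U}
    (hφ : IsFlow X φ) : Continuous φ := by
  refine continuous_iff_continuousAt.2 ?_
  rintro ⟨t', y'⟩
  refine tendsto_iff_norm_sub_tendsto_zero.2 ?_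
  have hlim : Tendsto (fun p : ℝ × U => Real.exp (K * |p.1|) * ‖p.2 - y'‖ +
      ‖φ (p.1, y') - φ (t', y')‖) (𝓝 (t', y')) (𝓝 0) := by
    have h1 : Continuous fun p : ℝ × U => Real.exp (K * |p.1|) * ‖p.2 - y'‖ +
        ‖φ (p.1, y') - φ (t', y')‖ := by
      have h2 : Continuous fun p : ℝ × U => φ (p.1, y') :=
        (flow1_cont hφ y').comp continuous_fst
      have h4 : Continuous fun p : ℝ × U => Real.exp (K * |p.1|) * ‖p.2 - y'‖ := by fun_prop
      exact h4.add (h2.sub continuous_const).norm
    have h3 := h1.tendsto (t', y')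
    simpa using h3
  refine squeeze_zero (fun _ => norm_nonneg _) (fun p => ?_) hlim
  have h1 := hφ.dist_le hX p.1 p.2 y'
  calc ‖φ p - φ (t', y')‖ = ‖(φ (p.1, p.2) - φ (p.1, y')) + (φ (p.1, y') - φ (t', y'))‖ := by
        rw [sub_add_sub_cancel]
    _ ≤ _ := (norm_add_le _ _).trans (by gcongr)

/-- comparison of an approximate solution with the flow -/
theorem IsFlow.approx {X : U → U} {K : ℝ≥0} (hX : LipschitzWith K X) {φ : ℝ × U → U}
    (hφ : IsFlow X φ) {x x' : ℝ → U} {ε T : ℝ} (hε : 0 ≤ ε)
    (hx : ∀ t ∈ Icc 0 T, HasDerivAt x (x' t) t) (hx' : ∀ t ∈ Icc 0 T, ‖x' t - X (x t)‖ ≤ ε)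
    (y : U) : ∀ t ∈ Icc 0 T,
    ‖x t - φ (t, y)‖ ≤ (‖x 0 - y‖ + ε * T) * Real.exp (K * T) := by
  intro t ht
  have h := dist_le_of_approx_trajectories_ODE (v := fun _ => X) (K := K) (a := 0) (b := T)
    (f := x) (g := fun s => φ (s, y)) (f' := x') (g' := fun s => X (φ (s, y)))
    (δ := ‖x 0 - y‖) (εf := ε) (εg := 0)
    (fun _ => hX) (fun s hs => (hx s hs).continuousAt.continuousWithinAt)
    (fun s hs => (hx s (Ico_subset_Icc_self hs)).hasDerivWithinAt)
    (fun s hs => by rw [dist_eq_norm]; exact hx' s (Ico_subset_Icc_self hs))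
    (flow1_cont hφ y).continuousOn
    (fun s _ => (hφ.deriv s y).hasDerivWithinAt) (fun s _ => by rw [dist_self])
    (by rw [hφ.zero, dist_eq_norm]) t ht
  rw [dist_eq_norm, add_zero, sub_zero] at h
  have hT : 0 ≤ T := ht.1.trans ht.2
  have hexp : Real.exp (K * t) ≤ Real.exp (K * T) := by
    apply Real.exp_le_exp.2
    exact mul_le_mul_of_nonneg_left ht.2 K.2
  have h1 : 1 ≤ Real.exp (K * T) := Real.one_le_exp (by positivity)
  refine h.trans ?_
  rcases eq_or_ne (K : ℝ) 0 with hK | hK
  · rw [hK, gronwallBound_K0, zero_mul, Real.exp_zero, mul_one]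
    have : ε * t ≤ ε * T := mul_le_mul_of_nonneg_left ht.2 hε
    linarith
  · rw [gronwallBound_of_K_ne_0 hK]
    have hK0 : 0 < (K : ℝ) := lt_of_le_of_ne K.2 (Ne.symm hK)
    have h2 : Real.exp (K * t) - 1 ≤ K * t * Real.exp (K * t) := by
      have h3 := Real.add_one_le_exp (-(K * t))
      have h4 : Real.exp (-(K * t)) * Real.exp (K * t) = 1 := by
        rw [← Real.exp_add, neg_add_cancel, Real.exp_zero]
      have h5 := mul_le_mul_of_nonneg_right h3 (Real.exp_pos (K * t)).le
      rw [h4] at h5
      linarith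
    have h3 : ε / K * (Real.exp (K * t) - 1) ≤ ε * T * Real.exp (K * T) := by
      calc ε / K * (Real.exp (K * t) - 1) ≤ ε / K * (K * t * Real.exp (K * t)) := by
            gcongr
        _ = ε * t * Real.exp (K * t) := by field_simp
        _ ≤ ε * T * Real.exp (K * T) := by
            have := ht.2
            gcongr
    have h4 : ‖x 0 - y‖ * Real.exp (K * t) ≤ ‖x 0 - y‖ * Real.exp (K * T) := by gcongr
    calc ‖x 0 - y‖ * Real.exp (K * t) + ε / K * (Real.exp (K * t) - 1)
        ≤ ‖x 0 - y‖ * Real.exp (K * T) + ε * T * Real.exp (K * T) := add_le_add h4 h3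
      _ = _ := by ring

end Pool.Agent.H72.EZ
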