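import Pool.Agent.H72.EZ.Defs
import Pool.Agent.H72.EZ.Flow1

/-!
# JOB EZ-COMP2 : limits of approximate coincidences

PROOF. Let `τ_i, τ'_i, x_i, x'_i` be the data of `Coin C (h i) T (η i) a`. As `a ≠ 0` and `η_i → 0`,
`h_i(x_i 0) ≠ 0` for large `i`, so `‖x_i 0‖ < M`; pass to a subsequence with `x_i 0 → y`, `x'_i 0 → y'`,
`τ_i → τ`, `τ'_i → τ'` (compactness). Let `X_τ(z) = τ J ∇h'(z)` (Lipschitz, as `h'` is `C²` with
compact support), `x` its solution with `x 0 = y` (`exists_isFlow`). Since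
`‖x_i'(t) - X_τ(x_i t)‖ ≤ |τ_i - τ| sup‖∇h_i‖ + τ sup‖∇h_i - ∇h'‖ → 0`, `IsFlow.approx` gives
`x_i → x` uniformly on `[0,1]`; so `x 1 = lim x_i 1 = lim x_i 0 = x 0`, hence `x (t+1) = x t` (uniqueness).
The energies and the actions (`∫₀¹⟨∇h_i(x_i), x_i⟩ → ∫₀¹⟨∇h'(x),x⟩`, uniform convergence on `[0,1]`)
converge: `Coin C h' T 0 a`. `TendstoUniformly` of gradients and boundedness of `∇h'` (compact
support) give the uniform bound of `∇h_i` for large `i`.
-/

open MeasureTheory Set Metric Filter Topology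
open scoped Real InnerProductSpace

namespace Pool.Agent.H72.EZ

variable {W : Type} [NormedAddCommGroup W] [InnerProductSpace ℝ W]

/-- the gradient of a compactly supported `C²` function is Lipschitz and bounded -/
theorem comp2_grad [FiniteDimensional ℝ W] {M : ℝ} {h' : W → ℝ}
    (hh' : ContDiff ℝ 2 h') (hs' : ∀ x, M ≤ ‖x‖ → h' x = 0) :
    ∃ K : NNReal, LipschitzWith K (gradient h') ∧ ∃ B : ℝ, 0 ≤ B ∧ ∀ x, ‖gradient h' x‖ ≤ B := by
  have hcs : HasCompactSupport h' := by
    refine HasCompactSupport.intro (isCompact_closedBall (0 : W) M) fun x hx => hs' x ?_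
    rw [mem_closedBall_zero_iff, not_le] at hx
    exact hx.le
  have hcf : HasCompactSupport (fderiv ℝ h') := hcs.fderiv ℝ
  have hdf : ContDiff ℝ 1 (fderiv ℝ h') := hh'.fderiv_right (by norm_num)
  obtain ⟨K, hK⟩ := hdf.lipschitzWith_of_hasCompactSupport hcf one_ne_zero
  have e : ∀ x, gradient h' x = (InnerProductSpace.toDual ℝ W).symm (fderiv ℝ h' x) := fun x => rfl
  refine ⟨K, LipschitzWith.of_dist_le_mul fun x y => ?_, ?_⟩
  · rw [e, e, LinearIsometryEquiv.dist_map]
    exact hK.dist_le_mul x y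
  · obtain ⟨B, hB⟩ := hcf.exists_bound_of_continuous hdf.continuous
    refine ⟨max B 0, le_max_right _ _, fun x => ?_⟩
    rw [e, LinearIsometryEquiv.norm_map]
    exact (hB x).trans (le_max_left _ _)

theorem comp2_meas [FiniteDimensional ℝ W] (C : CStr W) {h : W → ℝ} {τ : ℝ} {x : ℝ → W}
    (ho : IsOrb C h τ x) : StronglyMeasurable (fun t => gradient h (x t)) := by
  by_cases hτ : τ = 0
  · have hc : ∀ t, x t = x 0 := by
      intro t
      have hd : ∀ s, HasDerivAt x 0 s := fun s => by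
        have := ho.1 s
        rwa [hτ, zero_smul] at this
      exact is_const_of_deriv_eq_zero (fun s => (hd s).differentiableAt) (fun s => (hd s).deriv) t 0
    have e : (fun t => gradient h (x t)) = fun _ => gradient h (x 0) := by
      funext t; rw [hc t]
    rw [e]
    exact stronglyMeasurable_const
  · have e : (fun t => gradient h (x t)) = fun t => (-τ⁻¹) • C.J (deriv x t) := by
      funext t
      rw [(ho.1 t).deriv, map_smul, C.sq, smul_neg, smul_neg, neg_smul, neg_neg, smul_smul,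
        inv_mul_cancel₀ hτ, one_smul]
    rw [e]
    have h1 : StronglyMeasurable (deriv x) := stronglyMeasurable_deriv x
    exact (C.J.continuous.comp_stronglyMeasurable h1).const_smul _

theorem comp2_limit [FiniteDimensional ℝ W] (C : CStr W) {M : ℝ} {h : ℕ → W → ℝ} {h' : W → ℝ}
    (hh' : ContDiff ℝ 2 h') (hs' : ∀ x, M ≤ ‖x‖ → h' x = 0)
    (hu : TendstoUniformly h h' atTop)
    (hg : TendstoUniformly (fun i x => gradient (h i) x) (gradient h') atTop)
    {τ : ℕ → ℝ} {τ₀ : ℝ} (hτ : Tendsto τ atTop (𝓝 τ₀)) {x : ℕ → ℝ → W} {y : W}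
    (hy : Tendsto (fun i => x i 0) atTop (𝓝 y)) (ho : ∀ i, IsOrb C (h i) (τ i) (x i)) :
    ∃ z : ℝ → W, IsOrb C h' τ₀ z ∧ Tendsto (fun i => h i (x i 0)) atTop (𝓝 (h' (z 0))) ∧
      Tendsto (fun i => act (h i) (τ i) (x i)) atTop (𝓝 (act h' τ₀ z)) := by
  obtain ⟨K, hK, B, hB0, hB⟩ := comp2_grad hh' hs'
  set X : W → W := fun w => τ₀ • C.J (gradient h' w) with hXdef
  have hX : LipschitzWith (‖τ₀‖₊ * K) X := by
    refine LipschitzWith.of_dist_le_mul fun a b => ?_
    have h1 := hK.dist_le_mul a b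
    have h2 : dist (X a) (X b) = ‖τ₀‖ * dist (gradient h' a) (gradient h' b) := by
      rw [dist_eq_norm, hXdef]
      simp only
      rw [← smul_sub, ← map_sub, norm_smul, C.norm_J, ← dist_eq_norm]
    rw [h2, NNReal.coe_mul, coe_nnnorm, mul_assoc]
    exact mul_le_mul_of_nonneg_left h1 (norm_nonneg _)
  obtain ⟨φ, hφ⟩ := exists_isFlow hX
  set z : ℝ → W := fun t => φ (t, y) with hz
  have hz0 : z 0 = y := hφ.zero y
  have hzd : ∀ t, HasDerivAt z (X (z t)) t := fun t => hφ.deriv t y
  have hzc : Continuous z := continuous_iff_continuousAt.2 fun t => (hzd t).continuousAt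
  -- uniform convergence on the unit interval
  have hconv : ∀ ε > 0, ∀ᶠ i in atTop, ∀ t ∈ Icc (0:ℝ) 1, ‖x i t - z t‖ ≤ ε := by
    intro ε hε
    set c := Real.exp ((‖τ₀‖₊ * K : NNReal) * 1) with hc
    have hc0 : 0 < c := Real.exp_pos _
    have h1 : ∀ᶠ i in atTop, ‖x i 0 - y‖ < ε / (2 * c) :=
      (tendsto_iff_norm_sub_tendsto_zero.1 hy).eventually (gt_mem_nhds (by positivity))
    have h2 : ∀ᶠ i in atTop, ‖τ i - τ₀‖ < min 1 (ε / (4 * c * (B + 1))) :=
      (tendsto_iff_norm_sub_tendsto_zero.1 hτ).eventually (gt_mem_nhds (by positivity))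
    have h3 : ∀ᶠ i in atTop, ∀ w, dist (gradient h' w) (gradient (h i) w) <
        ε / (4 * c * (|τ₀| + 1)) := (Metric.tendstoUniformly_iff.1 hg) _ (by positivity)
    filter_upwards [h1, h2, h3] with i h1 h2 h3 t ht
    have h4 := hφ.approx hX (x := x i) (x' := fun t => τ i • C.J (gradient (h i) (x i t)))
      (ε := ε / (2 * c)) (T := 1) (by positivity) (fun t _ => (ho i).1 t) (fun t _ => ?_) y t ht
    · refine h4.trans ?_
      rw [← hc, mul_one]
      calc (‖x i 0 - y‖ + ε / (2 * c)) * c ≤ (ε / (2 * c) + ε / (2 * c)) * c := by gcongr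
        _ = ε := by field_simp; ring
    · have e : τ i • C.J (gradient (h i) (x i t)) - X (x i t)
          = C.J (τ i • (gradient (h i) (x i t) - gradient h' (x i t))
            + (τ i - τ₀) • gradient h' (x i t)) := by
        rw [hXdef]
        simp only
        rw [map_add, map_smul, map_smul, map_sub, smul_sub, sub_smul]
        abel
      rw [e, C.norm_J]
      have hti : |τ i| ≤ |τ₀| + 1 := by
        have h5 : |τ i - τ₀| < 1 := lt_of_lt_of_le h2 (min_le_left _ _)
        have h6 := abs_add_le (τ i - τ₀) τ₀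
        rw [sub_add_cancel] at h6
        linarith
      have hti2 : |τ i - τ₀| ≤ ε / (4 * c * (B + 1)) := (lt_of_lt_of_le h2 (min_le_right _ _)).le
      have h7 : ‖gradient (h i) (x i t) - gradient h' (x i t)‖ ≤ ε / (4 * c * (|τ₀| + 1)) := by
        have := (h3 (x i t)).le
        rwa [dist_comm, dist_eq_norm] at this
      calc ‖τ i • (gradient (h i) (x i t) - gradient h' (x i t))
            + (τ i - τ₀) • gradient h' (x i t)‖
          ≤ |τ i| * ‖gradient (h i) (x i t) - gradient h' (x i t)‖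
            + |τ i - τ₀| * ‖gradient h' (x i t)‖ := by
            refine (norm_add_le _ _).trans ?_
            rw [norm_smul, norm_smul, Real.norm_eq_abs, Real.norm_eq_abs]
        _ ≤ (|τ₀| + 1) * (ε / (4 * c * (|τ₀| + 1))) + ε / (4 * c * (B + 1)) * (B + 1) := by
            have h8 := hB (x i t)
            have h9 : ‖gradient h' (x i t)‖ ≤ B + 1 := by linarith
            gcongr
        _ = ε / (2 * c) := by field_simp; ring
  have hpt : ∀ t ∈ Icc (0:ℝ) 1, Tendsto (fun i => x i t) atTop (𝓝 (z t)) := by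
    intro t ht
    rw [tendsto_iff_norm_sub_tendsto_zero]
    rw [Metric.tendsto_atTop]
    intro ε hε
    obtain ⟨N, hN⟩ := eventually_atTop.1 (hconv (ε / 2) (by positivity))
    refine ⟨N, fun n hn => ?_⟩
    have := hN n hn t ht
    rw [Real.dist_eq, sub_zero, abs_of_nonneg (norm_nonneg _)]
    linarith
  have hz1 : z 1 = y := by
    have h1 := hpt 1 ⟨zero_le_one, le_rfl⟩
    have h2 : (fun i => x i 1) = fun i => x i 0 := by
      funext i
      have := (ho i).2 0
      rwa [zero_add] at this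
    rw [h2] at h1
    exact tendsto_nhds_unique h1 hy
  have hper : ∀ t, z (t + 1) = z t := by
    intro t
    have hw : ∀ s ∈ Ioo (-(|t| + 1)) (|t| + 1), HasDerivAt (fun s => z (s + 1)) (X (z (s + 1))) s :=
      fun s _ => (hzd (s + 1)).comp_add_const s 1
    have := hφ.unique hX hw t ⟨by linarith [neg_abs_le t], by linarith [le_abs_self t]⟩
    rw [this, zero_add, hz1]
  have hgc : Continuous (gradient h') := hK.continuous
  refine ⟨z, ⟨hzd, hper⟩, ?_, ?_⟩
  · rw [hz0]
    exact hu.tendsto_comp hh'.continuous.continuousAt hy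
  · unfold act
    refine (hτ.div_const 2).mul ?_
    obtain ⟨R, hR⟩ := (isCompact_Icc (a := (0:ℝ)) (b := 1)).exists_bound_of_continuousOn
      hzc.continuousOn
    have hb1 : ∀ᶠ i in atTop, ∀ w, ‖gradient (h i) w‖ ≤ B + 1 := by
      filter_upwards [(Metric.tendstoUniformly_iff.1 hg) 1 one_pos] with i hi w
      have h1 := (hi w).le
      rw [dist_eq_norm, norm_sub_rev] at h1
      have h2 := norm_add_le (gradient (h i) w - gradient h' w) (gradient h' w)
      rw [sub_add_cancel] at h2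
      linarith [hB w]
    refine intervalIntegral.tendsto_integral_filter_of_dominated_convergence
      (fun _ => (B + 1) * (R + 1)) ?_ ?_ ?_ ?_
    · refine Eventually.of_forall fun i => ?_
      have hxc : Continuous (x i) :=
        continuous_iff_continuousAt.2 fun t => ((ho i).1 t).continuousAt
      exact ((comp2_meas C (ho i)).inner hxc.stronglyMeasurable).aestronglyMeasurable
    · filter_upwards [hb1, hconv 1 one_pos] with i h1 h2
      refine Eventually.of_forall fun t ht => ?_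
      rw [uIoc_of_le zero_le_one] at ht
      have ht' : t ∈ Icc (0:ℝ) 1 := ⟨ht.1.le, ht.2⟩
      have h3 := h2 t ht'
      have h4 := hR t ht'
      have h5 : ‖x i t‖ ≤ R + 1 := by
        have := norm_add_le (x i t - z t) (z t)
        rw [sub_add_cancel] at this
        linarith
      refine (norm_inner_le_norm _ _).trans ?_
      have h6 := h1 (x i t)
      have h7 := norm_nonneg (x i t)
      gcongr
    · exact intervalIntegrable_const
    · refine Eventually.of_forall fun t ht => ?_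
      rw [uIoc_of_le zero_le_one] at ht
      have ht' : t ∈ Icc (0:ℝ) 1 := ⟨ht.1.le, ht.2⟩
      have h1 := hpt t ht'
      have h2 : Tendsto (fun i => gradient (h i) (x i t)) atTop (𝓝 (gradient h' (z t))) :=
        hg.tendsto_comp hgc.continuousAt h1
      exact h2.inner h1

theorem coin_limit [FiniteDimensional ℝ W] (C : CStr W) {M : ℝ} {h : ℕ → W → ℝ} {h' : W → ℝ}
    (hs : ∀ i, ∀ x, M ≤ ‖x‖ → h i x = 0) (hh' : ContDiff ℝ 2 h')
    (hs' : ∀ x, M ≤ ‖x‖ → h' x = 0)
    (hu : TendstoUniformly h h' atTop)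
    (hg : TendstoUniformly (fun i x => gradient (h i) x) (gradient h') atTop)
    {T a : ℝ} (hT : 0 ≤ T) (ha : a ≠ 0) {η : ℕ → ℝ} (hη : Tendsto η atTop (𝓝 0))
    (hc : ∀ i, Coin C (h i) T (η i) a) : Coin C h' T 0 a := by
  choose τ hτ τ' hτ' x x' hx hx' he he' hact using hc
  have hev : ∀ᶠ i in atTop, |η i| < |a| := by
    have h1 : Tendsto (fun i => |η i|) atTop (𝓝 |0|) := hη.abs
    rw [abs_zero] at h1
    exact h1.eventually (gt_mem_nhds (abs_pos.2 ha))
  have hbd : ∀ i, |η i| < |a| → ∀ w : W, |h i w - a| ≤ η i → ‖w‖ ≤ M := by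
    intro i hi w hw
    by_contra hcon
    have h1 := hs i w (not_le.1 hcon).le
    rw [h1, zero_sub, abs_neg] at hw
    have h2 := le_abs_self (η i)
    linarith
  let P : ℕ → (ℝ × ℝ) × (W × W) := fun i => ((τ i, τ' i), (x i 0, x' i 0))
  have hcpt : IsCompact ((Icc T (T + 1) ×ˢ Icc (2 * T) (2 * T + 1)) ×ˢ
      (closedBall (0 : W) M ×ˢ closedBall (0 : W) M)) :=
    (isCompact_Icc.prod isCompact_Icc).prod
      ((isCompact_closedBall (0 : W) M).prod (isCompact_closedBall (0 : W) M))
  have hmem : ∃ᶠ i in atTop, P i ∈ ((Icc T (T + 1) ×ˢ Icc (2 * T) (2 * T + 1)) ×ˢ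
      (closedBall (0 : W) M ×ˢ closedBall (0 : W) M)) := by
    refine Eventually.frequently ?_
    filter_upwards [hev] with i hi
    exact ⟨⟨hτ i, hτ' i⟩, ⟨mem_closedBall_zero_iff.2 (hbd i hi _ (he i)),
      mem_closedBall_zero_iff.2 (hbd i hi _ (he' i))⟩⟩
  obtain ⟨⟨⟨t0, t0'⟩, ⟨y, y'⟩⟩, hlim, φ, hφ, htend⟩ := hcpt.tendsto_subseq' hmem
  have hta : Tendsto φ atTop atTop := hφ.tendsto_atTop
  have l1 : Tendsto (fun i => τ (φ i)) atTop (𝓝 t0) :=
    (continuous_fst.comp continuous_fst).continuousAt.tendsto.comp htend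
  have l2 : Tendsto (fun i => τ' (φ i)) atTop (𝓝 t0') :=
    (continuous_snd.comp continuous_fst).continuousAt.tendsto.comp htend
  have l3 : Tendsto (fun i => x (φ i) 0) atTop (𝓝 y) :=
    (continuous_fst.comp continuous_snd).continuousAt.tendsto.comp htend
  have l4 : Tendsto (fun i => x' (φ i) 0) atTop (𝓝 y') :=
    (continuous_snd.comp continuous_snd).continuousAt.tendsto.comp htend
  have hu' : TendstoUniformly (fun i => h (φ i)) h' atTop := fun u hu1 =>
    hta.eventually (hu u hu1)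
  have hg' : TendstoUniformly (fun i x => gradient (h (φ i)) x) (gradient h') atTop :=
    fun u hu1 => hta.eventually (hg u hu1)
  obtain ⟨z, hz, hze, hza⟩ := comp2_limit C hh' hs' hu' hg' l1 l3 (fun i => hx (φ i))
  obtain ⟨z', hz', hze', hza'⟩ := comp2_limit C hh' hs' hu' hg' l2 l4 (fun i => hx' (φ i))
  have hηφ : Tendsto (fun i => η (φ i)) atTop (𝓝 0) := hη.comp hta
  refine ⟨t0, hlim.1.1, t0', hlim.1.2, z, z', hz, hz', ?_, ?_, ?_⟩
  · exact le_of_tendsto_of_tendsto' (hze.sub_const a).abs hηφ fun i => he (φ i)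
  · exact le_of_tendsto_of_tendsto' (hze'.sub_const a).abs hηφ fun i => he' (φ i)
  · exact le_of_tendsto_of_tendsto' (hza.sub hza').abs hηφ fun i => hact (φ i)

end Pool.Agent.H72.EZ
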