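import Mathlib

/-!
# JOB EZ-CORE0 : sums and measures over separated intervals

PROOF of `sum_growth`: induction on the card of `L`, removing the maximal element `v`:
`∑_{L \ {v}} ≤ c(v) - c(1)` (all other intervals lie in `[1, v]`; prove the version with `[1,2]` replaced
by `[a,b]` for all `b`), and `c(v+l) - c(v) + c(v) - c(1) ≤ c(2) - c(1)`.
`volume_sep`: the half open intervals `Ico (u+s) (u+s+l)` are pairwise disjoint, and `Icc` differs by a
null set; only the lower bound is needed.
-/

open MeasureTheory Set Metric Filter Topology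

namespace Pool.Agent.H72.EZ

theorem sum_growth (L : Finset ℝ) {l a b : ℝ} (hl : 0 < l) (hab : a ≤ b)
    (hsep : ∀ u ∈ L, ∀ v ∈ L, u < v → u + l ≤ v) (h1 : ∀ u ∈ L, a ≤ u ∧ u + l ≤ b)
    {c : ℝ → ℝ} (hc : MonotoneOn c (Icc a b)) : ∑ u ∈ L, (c (u + l) - c u) ≤ c b - c a := by
  classical
  induction L using Finset.induction_on_max generalizing b with
  | empty =>
    have := hc (left_mem_Icc.2 hab) (right_mem_Icc.2 hab) hab
    simp only [Finset.sum_empty]
    linarith
  | insert v L hv ih =>
    have hvn : v ∉ L := fun h => lt_irrefl _ (hv v h)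
    rw [Finset.sum_insert hvn]
    have hvb := h1 v (Finset.mem_insert_self _ _)
    have h2 : ∑ u ∈ L, (c (u + l) - c u) ≤ c v - c a := by
      apply ih hvb.1
      · intro u hu w hw
        exact hsep u (Finset.mem_insert_of_mem hu) w (Finset.mem_insert_of_mem hw)
      · intro u hu
        exact ⟨(h1 u (Finset.mem_insert_of_mem hu)).1,
          hsep u (Finset.mem_insert_of_mem hu) v (Finset.mem_insert_self _ _) (hv u hu)⟩
      · exact hc.mono (Icc_subset_Icc le_rfl (by linarith [hvb.2]))
    have h3 : c (v + l) ≤ c b :=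
      hc ⟨by linarith [hvb.1], hvb.2⟩ (right_mem_Icc.2 hab) hvb.2
    linarith

theorem volume_sep (L : Finset ℝ) {l s : ℝ} (hl : 0 < l)
    (hsep : ∀ u ∈ L, ∀ v ∈ L, u < v → u + l ≤ v) :
    ENNReal.ofReal (L.card * l) ≤ volume (⋃ u ∈ L, Icc (u + s) (u + s + l)) := by
  have h1 : (⋃ u ∈ L, Ico (u + s) (u + s + l)) ⊆ ⋃ u ∈ L, Icc (u + s) (u + s + l) :=
    iUnion₂_mono fun u _ => Ico_subset_Icc_self
  refine le_trans ?_ (measure_mono h1)
  rw [measure_biUnion_finset]
  · simp only [Real.volume_Ico, add_sub_cancel_left, Finset.sum_const, nsmul_eq_mul]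
    rw [ENNReal.ofReal_mul (by positivity), ENNReal.ofReal_natCast]
  · intro u hu v hv huv
    rw [Function.onFun, Set.disjoint_left]
    rintro x ⟨hx1, hx2⟩ ⟨hx3, hx4⟩
    rcases lt_or_gt_of_ne huv with h | h
    · have := hsep u hu v hv h
      linarith
    · have := hsep v hv u hu h
      linarith
  · intro u _
    exact measurableSet_Ico

end Pool.Agent.H72.EZ
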