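import Pool.Agent.H72.EZ.Defs

/-!
# JOB EZ-ROT : rotations, truncated loops, Fourier coefficients

`C.rot θ x = cos θ • x + sin θ • J x`, `loop C x t = ∑_k rot (2πkt) (x_k)`,
`coef C u k = ∫₀¹ rot (-(2πkt)) (u t) dt`.

PROOFS. `rot` is linear, isometric (`⟨x, Jx⟩ = 0`, `‖Jx‖ = ‖x‖`), `rot θ (rot θ' x) = rot (θ+θ') x`
(addition theorems, `J² = -1`), `⟨rot θ x, y⟩ = ⟨x, rot (-θ) y⟩` (skewness). `integral_rot`: for
`k ≠ 0`, `t ↦ rot (2πkt) x` has the primitive `(1/(2πk)) • rot (2πkt - π/2) x`, or use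
`∫ cos(2πkt) = ∫ sin(2πkt) = 0` over `[0,1]`. `coef_loop`: linearity and `integral_rot`.
`integral_inner_loop`: `∫⟨u, loop x⟩ = ∑ ∫⟨u, rot(2πkt) x_k⟩ = ∑ ∫ ⟨rot(-2πkt)u, x_k⟩ = ∑⟨coef u k, x_k⟩`.
`parseval` = `integral_inner_loop` with `u = loop x` and `coef_loop`. `bessel`: `y_k = coef u k`;
`0 ≤ ∫‖u - loop y‖² = ∫‖u‖² - 2∑⟨coef u k,y_k⟩ + ∑‖y_k‖²`.
Norm on `EN`: `PiLp.norm_sq_eq_of_L2` / `EuclideanSpace.norm_eq`.
-/

open MeasureTheory Set Metric Filter Topology
open scoped Real InnerProductSpace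

namespace Pool.Agent.H72.EZ

variable {W : Type} [NormedAddCommGroup W] [InnerProductSpace ℝ W] (C : CStr W)

namespace CStr

theorem rot_add_left (θ : ℝ) (x y : W) : C.rot θ (x + y) = C.rot θ x + C.rot θ y := by
  simp only [rot, map_add, smul_add]
  abel

theorem rot_sub (θ : ℝ) (x y : W) : C.rot θ (x - y) = C.rot θ x - C.rot θ y := by
  simp only [rot, map_sub, smul_sub]
  abel

theorem rot_smul (θ c : ℝ) (x : W) : C.rot θ (c • x) = c • C.rot θ x := by
  simp only [rot, map_smul, smul_add]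
  rw [smul_comm (Real.cos θ) c, smul_comm (Real.sin θ) c]

theorem rot_zero_right (θ : ℝ) : C.rot θ (0 : W) = 0 := by
  simp [rot]

theorem rot_J (θ : ℝ) (x : W) : C.rot θ (C.J x) = C.J (C.rot θ x) := by
  simp only [rot, map_add, map_smul]

theorem rot_rot (θ θ' : ℝ) (x : W) : C.rot θ (C.rot θ' x) = C.rot (θ + θ') x := by
  simp only [rot, map_add, map_smul, Real.cos_add, Real.sin_add, C.sq]
  module

theorem rot_zero (x : W) : C.rot 0 x = x := by
  simp [rot]

theorem rot_int (k : ℤ) (x : W) : C.rot (2 * π * k) x = x := by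
  have h1 : Real.cos (2 * π * k) = 1 := by
    rw [mul_comm]
    exact Real.cos_int_mul_two_pi k
  have h2 : Real.sin (2 * π * k) = 0 := by
    have := Real.sin_int_mul_pi (2 * k)
    push_cast at this
    rw [← this]
    congr 1
    ring
  simp [rot, h1, h2]

theorem norm_rot (θ : ℝ) (x : W) : ‖C.rot θ x‖ = ‖x‖ := by
  have h : ‖C.rot θ x‖ ^ 2 = ‖x‖ ^ 2 := by
    rw [rot, norm_add_sq_real, norm_smul, norm_smul, C.norm_J, inner_smul_left, inner_smul_right,
      C.inner_self_J, mul_pow, mul_pow, Real.norm_eq_abs, Real.norm_eq_abs, sq_abs, sq_abs]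
    simp only [mul_zero, add_zero]
    rw [← add_mul, Real.cos_sq_add_sin_sq, one_mul]
  exact (sq_eq_sq₀ (norm_nonneg _) (norm_nonneg _)).1 h

theorem inner_rot (θ : ℝ) (x y : W) : ⟪C.rot θ x, y⟫_ℝ = ⟪x, C.rot (-θ) y⟫_ℝ := by
  simp only [rot, inner_add_left, inner_add_right, inner_smul_left, inner_smul_right,
    Real.cos_neg, Real.sin_neg, C.skew]
  simp

theorem continuous_rot : Continuous (fun p : ℝ × W => C.rot p.1 p.2) := by
  unfold rot
  fun_prop

theorem hasDerivAt_rot (c t : ℝ) (x : W) :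
    HasDerivAt (fun t => C.rot (c * t) x) (c • C.J (C.rot (c * t) x)) t := by
  have h0 : HasDerivAt (fun t : ℝ => c * t) c t := by
    simpa using (hasDerivAt_id t).const_mul c
  have h1 : HasDerivAt (fun t : ℝ => Real.cos (c * t)) (-Real.sin (c * t) * c) t := h0.cos
  have h2 : HasDerivAt (fun t : ℝ => Real.sin (c * t)) (Real.cos (c * t) * c) t := h0.sin
  have h3 := (h1.smul_const x).add (h2.smul_const (C.J x))
  have h4 : (c • C.J (C.rot (c * t) x)) =
      (-Real.sin (c * t) * c) • x + (Real.cos (c * t) * c) • C.J x := by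
    simp only [rot, map_add, map_smul, C.sq]
    module
  rw [h4]
  exact h3

theorem Rot_continuous (c : ℝ) {u : ℝ → W} (hu : Continuous u) :
    Continuous (fun t => C.rot (c * t) (u t)) :=
  C.continuous_rot.comp ((continuous_const.mul continuous_id).prodMk hu)

theorem Rot_continuous2 {f : ℝ → ℝ} {u : ℝ → W} (hf : Continuous f) (hu : Continuous u) :
    Continuous (fun t => C.rot (f t) (u t)) :=
  C.continuous_rot.comp (hf.prodMk hu)

theorem Rot_sum {ι : Type*} (s : Finset ι) (θ : ℝ) (f : ι → W) :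
    C.rot θ (∑ i ∈ s, f i) = ∑ i ∈ s, C.rot θ (f i) := by
  simp only [rot, map_sum, Finset.smul_sum, Finset.sum_add_distrib]

end CStr

theorem integral_rot (k : ℤ) (hk : k ≠ 0) (x : W) :
    ∫ t in (0:ℝ)..1, C.rot (2 * π * k * t) x = 0 := by
  by_cases hW : CompleteSpace W
  · have hc : (2 * π * k : ℝ) ≠ 0 := by
      have : (k : ℝ) ≠ 0 := by exact_mod_cast hk
      positivity
    have hd : ∀ t ∈ uIcc (0:ℝ) 1, HasDerivAt
        (fun t => (-(2 * π * k : ℝ)⁻¹) • C.J (C.rot (2 * π * k * t) x))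
        (C.rot (2 * π * k * t) x) t := by
      intro t _
      have h1 := (C.J.hasFDerivAt.comp_hasDerivAt t (C.hasDerivAt_rot (2 * π * k) t x)).const_smul
        (-(2 * π * k : ℝ)⁻¹)
      have h2 : (-(2 * π * k : ℝ)⁻¹) • C.J ((2 * π * k : ℝ) • C.J (C.rot (2 * π * k * t) x)) =
          C.rot (2 * π * k * t) x := by
        rw [map_smul, C.sq, smul_smul, smul_neg, neg_mul, inv_mul_cancel₀ hc]
        simp
      rw [h2] at h1
      exact h1
    have hcont : Continuous (fun t : ℝ => C.rot (2 * π * k * t) x) :=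
      C.Rot_continuous _ continuous_const
    rw [intervalIntegral.integral_eq_sub_of_hasDerivAt hd (hcont.intervalIntegrable _ _)]
    rw [mul_one, mul_zero, C.rot_int, C.rot_zero, sub_self]
  · simp [intervalIntegral, MeasureTheory.integral, hW]

theorem loop_add {N : ℕ} (x y : EN N W) (t : ℝ) :
    loop C (x + y) t = loop C x t + loop C y t := by
  simp only [loop, PiLp.add_apply, C.rot_add_left, Finset.sum_add_distrib]

theorem loop_sub {N : ℕ} (x y : EN N W) (t : ℝ) :
    loop C (x - y) t = loop C x t - loop C y t := by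
  simp only [loop, PiLp.sub_apply, C.rot_sub, Finset.sum_sub_distrib]

theorem loop_smul {N : ℕ} (c : ℝ) (x : EN N W) (t : ℝ) :
    loop C (c • x) t = c • loop C x t := by
  simp only [loop, PiLp.smul_apply, C.rot_smul, Finset.smul_sum]

theorem loop_continuous₂ {N : ℕ} : Continuous (fun p : EN N W × ℝ => loop C p.1 p.2) := by
  unfold loop
  refine continuous_finsetSum _ fun k _ => ?_
  exact C.continuous_rot.comp ((continuous_const.mul continuous_snd).prodMk
    ((PiLp.continuous_apply 2 _ k).comp continuous_fst))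

theorem loop_continuous {N : ℕ} (x : EN N W) : Continuous (loop C x) := by
  have h : Continuous (fun t : ℝ => ∑ k : Idx N, C.rot (2 * π * (k : ℤ) * t) (x k)) :=
    continuous_finsetSum _ fun k _ =>
      C.Rot_continuous (2 * π * (k : ℤ)) (u := fun _ => x k) continuous_const
  exact h

theorem loop_periodic {N : ℕ} (x : EN N W) (t : ℝ) : loop C x (t + 1) = loop C x t := by
  unfold loop
  refine Finset.sum_congr rfl fun k _ => ?_
  rw [mul_add, mul_one, ← C.rot_rot, C.rot_int]

/-- the derivative of a loop is `J` times the loop with coefficients `2πk x_k` -/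
theorem loop_hasDerivAt {N : ℕ} (x : EN N W) (t : ℝ) :
    HasDerivAt (loop C x)
      (C.J (loop C (WithLp.toLp 2 fun k : Idx N => (2 * π * (k : ℤ)) • x k : EN N W) t)) t := by
  have h1 : HasDerivAt (fun t => ∑ k : Idx N, C.rot (2 * π * (k : ℤ) * t) (x k))
      (∑ k : Idx N, (2 * π * (k : ℤ) : ℝ) • C.J (C.rot (2 * π * (k : ℤ) * t) (x k))) t :=
    HasDerivAt.fun_sum fun k _ => C.hasDerivAt_rot (2 * π * (k : ℤ)) t (x k)
  have h2 : C.J (loop C (WithLp.toLp 2 fun k : Idx N => (2 * π * (k : ℤ)) • x k : EN N W) t) =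
      ∑ k : Idx N, (2 * π * (k : ℤ) : ℝ) • C.J (C.rot (2 * π * (k : ℤ) * t) (x k)) := by
    unfold loop
    rw [map_sum]
    refine Finset.sum_congr rfl fun k _ => ?_
    rw [C.rot_smul, map_smul]
  rw [h2]
  exact h1

theorem Rot_coef_cont {u : ℝ → W} (hu : Continuous u) (k : ℤ) :
    Continuous (fun t => C.rot (-(2 * π * k * t)) (u t)) :=
  C.continuous_rot.comp ((continuous_const.mul continuous_id).neg.prodMk hu)

theorem coef_add {u v : ℝ → W} (hu : Continuous u) (hv : Continuous v) (k : ℤ) :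
    coef C (fun t => u t + v t) k = coef C u k + coef C v k := by
  unfold coef
  rw [← intervalIntegral.integral_add ((Rot_coef_cont C hu k).intervalIntegrable _ _)
    ((Rot_coef_cont C hv k).intervalIntegrable _ _)]
  simp only [C.rot_add_left]

theorem coef_sub {u v : ℝ → W} (hu : Continuous u) (hv : Continuous v) (k : ℤ) :
    coef C (fun t => u t - v t) k = coef C u k - coef C v k := by
  unfold coef
  rw [← intervalIntegral.integral_sub ((Rot_coef_cont C hu k).intervalIntegrable _ _)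
    ((Rot_coef_cont C hv k).intervalIntegrable _ _)]
  simp only [C.rot_sub]

theorem coef_smul (c : ℝ) (u : ℝ → W) (k : ℤ) :
    coef C (fun t => c • u t) k = c • coef C u k := by
  unfold coef
  rw [← intervalIntegral.integral_smul]
  simp only [C.rot_smul]

theorem norm_coef_le {u : ℝ → W} {B : ℝ} (hu : ∀ t ∈ Icc (0:ℝ) 1, ‖u t‖ ≤ B) (k : ℤ) :
    ‖coef C u k‖ ≤ B := by
  have h := intervalIntegral.norm_integral_le_of_norm_le_const (a := (0:ℝ)) (b := 1) (C := B)
    (f := fun t => C.rot (-(2 * π * k * t)) (u t)) (fun t ht => by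
      rw [C.norm_rot]
      rw [uIoc_of_le zero_le_one] at ht
      exact hu t ⟨ht.1.le, ht.2⟩)
  unfold coef
  simpa using h

theorem Rot_coef_loop [CompleteSpace W] {N : ℕ} (x : EN N W) (k : ℤ) :
    coef C (loop C x) k = ∑ j : Idx N, if (j : ℤ) = k then x j else 0 := by
  unfold coef loop
  simp only [C.Rot_sum, C.rot_rot]
  rw [intervalIntegral.integral_finsetSum]
  · refine Finset.sum_congr rfl fun j _ => ?_
    have h1 : ∀ t : ℝ, -(2 * π * k * t) + 2 * π * (j : ℤ) * t =
        2 * π * (((j : ℤ) - k : ℤ) : ℝ) * t := by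
      intro t
      push_cast
      ring
    simp only [h1]
    split_ifs with h
    · rw [h]
      simp [C.rot_zero]
    · exact integral_rot C _ (sub_ne_zero.mpr h) _
  · intro j _
    have h3 : Continuous (fun t : ℝ => -(2 * π * k * t) + 2 * π * (j : ℤ) * t) := by fun_prop
    exact (C.Rot_continuous2 h3 (u := fun _ => x j) continuous_const).intervalIntegrable _ _

theorem coef_loop [CompleteSpace W] {N : ℕ} (x : EN N W) (k : Idx N) :
    coef C (loop C x) k = x k := by
  rw [Rot_coef_loop]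
  rw [Finset.sum_eq_single k]
  · simp
  · intro j _ hj
    rw [if_neg (fun h => hj (Subtype.ext h))]
  · intro h
    exact absurd (Finset.mem_univ k) h

theorem coef_loop_of_lt [CompleteSpace W] {N : ℕ} (x : EN N W) (k : ℤ) (hk : (N : ℤ) < |k|) :
    coef C (loop C x) k = 0 := by
  rw [Rot_coef_loop]
  refine Finset.sum_eq_zero fun j _ => ?_
  rw [if_neg]
  intro h
  have hj := Finset.mem_Icc.1 j.2
  rw [h] at hj
  exact absurd (abs_le.2 hj) (not_le.2 hk)

theorem integral_inner_loop [CompleteSpace W] {N : ℕ} {u : ℝ → W} (hu : Continuous u)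
    (x : EN N W) :
    ∫ t in (0:ℝ)..1, ⟪u t, loop C x t⟫_ℝ = ∑ k : Idx N, ⟪coef C u k, x k⟫_ℝ := by
  have h1 : ∀ t : ℝ, ⟪u t, loop C x t⟫_ℝ =
      ∑ k : Idx N, (innerSL ℝ (x k)) (C.rot (-(2 * π * (k : ℤ) * t)) (u t)) := by
    intro t
    unfold loop
    rw [inner_sum]
    refine Finset.sum_congr rfl fun k _ => ?_
    rw [innerSL_apply_apply, real_inner_comm, C.inner_rot]
  simp only [h1]
  rw [intervalIntegral.integral_finsetSum]
  · refine Finset.sum_congr rfl fun k _ => ?_
    rw [ContinuousLinearMap.intervalIntegral_comp_comm _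
      ((Rot_coef_cont C hu k).intervalIntegrable _ _), innerSL_apply_apply, real_inner_comm]
    rfl
  · intro k _
    exact ((innerSL ℝ (x k)).continuous.comp (Rot_coef_cont C hu k)).intervalIntegrable _ _

omit [InnerProductSpace ℝ W] in
theorem Rot_norm_sq {N : ℕ} (x : EN N W) : ‖x‖ ^ 2 = ∑ k : Idx N, ‖x k‖ ^ 2 :=
  PiLp.norm_sq_eq_of_L2 _ x

theorem parseval [CompleteSpace W] {N : ℕ} (x : EN N W) :
    ∫ t in (0:ℝ)..1, ‖loop C x t‖ ^ 2 = ‖x‖ ^ 2 := by
  have h := integral_inner_loop C (loop_continuous C x) x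
  simp only [coef_loop, real_inner_self_eq_norm_sq] at h
  rw [h, Rot_norm_sq]

theorem bessel [CompleteSpace W] (N : ℕ) {u : ℝ → W} (hu : Continuous u) :
    ‖(WithLp.toLp 2 fun k : Idx N => coef C u k : EN N W)‖ ^ 2 ≤
      ∫ t in (0:ℝ)..1, ‖u t‖ ^ 2 := by
  set y : EN N W := WithLp.toLp 2 fun k : Idx N => coef C u k with hy
  have hl := loop_continuous C y
  have h1 : ∫ t in (0:ℝ)..1, ⟪u t, loop C y t⟫_ℝ = ‖y‖ ^ 2 := by
    rw [integral_inner_loop C hu y, Rot_norm_sq]
    refine Finset.sum_congr rfl fun k _ => ?_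
    have : y k = coef C u k := rfl
    rw [← this, real_inner_self_eq_norm_sq]
  have h2 := parseval C y
  have h3 : 0 ≤ ∫ t in (0:ℝ)..1, ‖u t - loop C y t‖ ^ 2 :=
    intervalIntegral.integral_nonneg zero_le_one fun t _ => by positivity
  have h4 : ∫ t in (0:ℝ)..1, ‖u t - loop C y t‖ ^ 2 =
      (∫ t in (0:ℝ)..1, ‖u t‖ ^ 2) - 2 * (∫ t in (0:ℝ)..1, ⟪u t, loop C y t⟫_ℝ) +
        ∫ t in (0:ℝ)..1, ‖loop C y t‖ ^ 2 := by
    have i1 : IntervalIntegrable (fun t => ‖u t‖ ^ 2) volume 0 1 :=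
      (hu.norm.pow 2).intervalIntegrable _ _
    have i2 : IntervalIntegrable (fun t => 2 * ⟪u t, loop C y t⟫_ℝ) volume 0 1 :=
      (continuous_const.mul (hu.inner hl)).intervalIntegrable _ _
    have i3 : IntervalIntegrable (fun t => ‖loop C y t‖ ^ 2) volume 0 1 :=
      (hl.norm.pow 2).intervalIntegrable _ _
    rw [← intervalIntegral.integral_const_mul, ← intervalIntegral.integral_sub i1 i2,
      ← intervalIntegral.integral_add (i1.sub i2) i3]
    refine intervalIntegral.integral_congr fun t _ => ?_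
    exact norm_sub_sq_real _ _
  rw [h4, h1, h2] at h3
  linarith

/-- Cauchy-Schwarz -/
theorem integral_norm_loop_le [CompleteSpace W] {N : ℕ} (x : EN N W) :
    ∫ t in (0:ℝ)..1, ‖loop C x t‖ ≤ ‖x‖ := by
  have hl := loop_continuous C x
  set m : ℝ := ∫ t in (0:ℝ)..1, ‖loop C x t‖ with hm
  have h2 := parseval C x
  have h3 : 0 ≤ ∫ t in (0:ℝ)..1, (‖loop C x t‖ - m) ^ 2 :=
    intervalIntegral.integral_nonneg zero_le_one fun t _ => by positivity
  have h4 : ∫ t in (0:ℝ)..1, (‖loop C x t‖ - m) ^ 2 =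
      (∫ t in (0:ℝ)..1, ‖loop C x t‖ ^ 2) - 2 * m * m + m ^ 2 := by
    have i1 : IntervalIntegrable (fun t => ‖loop C x t‖ ^ 2) volume 0 1 :=
      (hl.norm.pow 2).intervalIntegrable _ _
    have i2 : IntervalIntegrable (fun t => 2 * m * ‖loop C x t‖) volume 0 1 :=
      (continuous_const.mul hl.norm).intervalIntegrable _ _
    have i3 : IntervalIntegrable (fun _ : ℝ => m ^ 2) volume 0 1 :=
      continuous_const.intervalIntegrable _ _
    have e1 : 2 * m * m = ∫ t in (0:ℝ)..1, 2 * m * ‖loop C x t‖ := by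
      rw [intervalIntegral.integral_const_mul, ← hm]
    have e2 : m ^ 2 = ∫ _t in (0:ℝ)..1, m ^ 2 := by simp
    rw [e1]
    conv_rhs => rw [e2]
    rw [← intervalIntegral.integral_sub i1 i2, ← intervalIntegral.integral_add (i1.sub i2) i3]
    refine intervalIntegral.integral_congr fun t _ => ?_
    show (‖loop C x t‖ - m) ^ 2 = ‖loop C x t‖ ^ 2 - 2 * m * ‖loop C x t‖ + m ^ 2
    ring
  rw [h4, h2] at h3
  have h5 : m ^ 2 ≤ ‖x‖ ^ 2 := by nlinarith
  exact le_of_sq_le_sq h5 (norm_nonneg x)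

end Pool.Agent.H72.EZ
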