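import Pool.Agent.H72.EZ.QLem
import Pool.Agent.H72.EZ.Rot

/-!
# JOB EZ-GALCOER : coercivity, uniformly in `N`

PROOF. `m(t) = 3π loop(t) - gQ(loop(t))`, `‖m‖ ≤ 3πR` (`gQ_sub_le`). For `z = (x,T)`:
`gx z k = 2πk x_k - coef(gQ∘loop) k - T coef(gH∘loop) k = (2k-3)π x_k + coef (m - T gH∘loop) k`
(`coef_loop`, `coef_sub`, `coef_smul`). As `|2k-3| ≥ 1` for integers,
`‖((2k-3)π x_k)_k‖ ≥ π‖x‖`, and by `bessel` `‖(coef (m - T gH∘loop) k)_k‖ ≤ 3πR + S L` (the sup bound).
So `R₂ = (1 + 3πR + S L)/π` works.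
-/

open MeasureTheory Set Metric Filter Topology
open scoped Real InnerProductSpace

namespace Pool.Agent.H72.EZ

variable {W : Type} [NormedAddCommGroup W] [InnerProductSpace ℝ W]

/-- the perturbation term -/
noncomputable def galCoerU (C : CStr W) (P : HamData W) {N : ℕ} (z : EN N W × ℝ) (t : ℝ) : W :=
  ((3 * π) • loop C z.1 t - gQ P.R (loop C z.1 t)) - z.2 • P.gH (loop C z.1 t)

lemma galCoer_gx [CompleteSpace W] (C : CStr W) (P : HamData W) {N : ℕ} (z : EN N W × ℝ) :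
    (gal C P N).gx z = (WithLp.toLp 2 fun k : Idx N => (2 * π * (k : ℤ) - 3 * π) • z.1 k : EN N W) +
      (WithLp.toLp 2 fun k : Idx N => coef C (galCoerU C P z) k : EN N W) := by
  have hR : 0 < P.R := by have := P.R1; linarith
  have hl := loop_continuous C z.1
  have h1 : Continuous fun t => (3 * π) • loop C z.1 t := hl.const_smul _
  have h2 : Continuous fun t => gQ P.R (loop C z.1 t) := (gQ_continuous hR).comp hl
  have h3 : Continuous fun t => z.2 • P.gH (loop C z.1 t) := (P.gH_continuous.comp hl).const_smul _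
  have hc : ∀ k : Idx N, coef C (galCoerU C P z) k = (3 * π) • z.1 k -
      coef C (fun t => gQ P.R (loop C z.1 t)) k - z.2 • coef C (fun t => P.gH (loop C z.1 t)) k := by
    intro k
    unfold galCoerU
    rw [coef_sub C (u := fun t => (3 * π) • loop C z.1 t - gQ P.R (loop C z.1 t)) (h1.sub h2) h3,
      coef_sub C h1 h2, coef_smul, coef_smul]
    have h4 : coef C (fun t => loop C z.1 t) k = z.1 k := coef_loop C z.1 k
    rw [h4]
  ext k
  have e1 : (gal C P N).gx z k = (2 * π * (k : ℤ)) • z.1 k -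
      coef C (fun t => gQ P.R (loop C z.1 t)) k - z.2 • coef C (fun t => P.gH (loop C z.1 t)) k :=
    rfl
  have e2 : ((WithLp.toLp 2 fun k : Idx N => (2 * π * (k : ℤ) - 3 * π) • z.1 k : EN N W) +
      (WithLp.toLp 2 fun k : Idx N => coef C (galCoerU C P z) k : EN N W)) k =
      (2 * π * (k : ℤ) - 3 * π) • z.1 k + coef C (galCoerU C P z) k := rfl
  rw [e1, e2, hc, sub_smul]
  abel

lemma galCoer_norm {N : ℕ} (x : EN N W) : π * ‖x‖ ≤
    ‖(WithLp.toLp 2 fun k : Idx N => (2 * π * (k : ℤ) - 3 * π) • x k : EN N W)‖ := by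
  have hpi := Real.pi_pos
  refine le_of_sq_le_sq ?_ (norm_nonneg _)
  rw [mul_pow, PiLp.norm_sq_eq_of_L2, PiLp.norm_sq_eq_of_L2, Finset.mul_sum]
  refine Finset.sum_le_sum fun k _ => ?_
  change π ^ 2 * ‖x k‖ ^ 2 ≤ ‖(2 * π * (k : ℤ) - 3 * π) • x k‖ ^ 2
  rw [norm_smul, mul_pow, Real.norm_eq_abs, sq_abs]
  refine mul_le_mul_of_nonneg_right ?_ (by positivity)
  have h1 : (1 : ℝ) ≤ (2 * ((k : ℤ) : ℝ) - 3) ^ 2 := by
    have h2 : (1 : ℤ) ≤ (2 * (k : ℤ) - 3) ^ 2 := by
      have h3 : (2 * (k : ℤ) - 3) ≠ 0 := by omega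
      have h4 : 0 < (2 * (k : ℤ) - 3) ^ 2 := by positivity
      omega
    exact_mod_cast h2
  have h5 : (2 * π * ((k : ℤ) : ℝ) - 3 * π) ^ 2 = π ^ 2 * (2 * ((k : ℤ) : ℝ) - 3) ^ 2 := by ring
  rw [h5]
  exact le_mul_of_one_le_right (by positivity) h1

theorem gal_coer [FiniteDimensional ℝ W] (C : CStr W) (P : HamData W) {S : ℝ} (hS : 0 ≤ S) :
    ∃ R₂ : ℝ, 0 < R₂ ∧ ∀ N : ℕ, (gal C P N).Coer S R₂ := by
  have : CompleteSpace W := FiniteDimensional.complete ℝ W
  have hpi := Real.pi_pos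
  have hR : 0 < P.R := by have := P.R1; linarith
  have hL : 0 < P.L := by have := P.L1; linarith
  refine ⟨(1 + 3 * π * P.R + S * P.L) / π, by positivity, fun N z hz0 hzS hz => ?_⟩
  set B : ℝ := 3 * π * P.R + S * P.L with hB
  have hB0 : 0 ≤ B := by positivity
  have hl := loop_continuous C z.1
  have hu : Continuous (galCoerU C P z) := by
    have h1 : Continuous fun t => (3 * π) • loop C z.1 t := hl.const_smul _
    have h2 : Continuous fun t => gQ P.R (loop C z.1 t) := (gQ_continuous hR).comp hl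
    have h3 : Continuous fun t => z.2 • P.gH (loop C z.1 t) :=
      (P.gH_continuous.comp hl).const_smul _
    exact (h1.sub h2).sub h3
  have hub : ∀ t, ‖galCoerU C P z t‖ ≤ B := by
    intro t
    unfold galCoerU
    refine (norm_sub_le _ _).trans (add_le_add ?_ ?_)
    · rw [norm_sub_rev]
      exact gQ_sub_le hR _
    · rw [norm_smul, Real.norm_of_nonneg hz0]
      exact mul_le_mul hzS (P.gHbd _) (norm_nonneg _) hS
  have h1 : ‖(WithLp.toLp 2 fun k : Idx N => coef C (galCoerU C P z) k : EN N W)‖ ≤ B := by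
    refine le_of_sq_le_sq ((bessel C N hu).trans ?_) hB0
    have h2 : ∫ t in (0:ℝ)..1, ‖galCoerU C P z t‖ ^ 2 ≤ ∫ _ in (0:ℝ)..1, B ^ 2 := by
      refine intervalIntegral.integral_mono_on zero_le_one ?_ ?_ fun t _ => ?_
      · exact (hu.norm.pow 2).intervalIntegrable _ _
      · exact continuous_const.intervalIntegrable _ _
      · exact pow_le_pow_left₀ (norm_nonneg _) (hub t) 2
    refine h2.trans ?_
    simp
  have h2 := galCoer_norm z.1
  rw [galCoer_gx]
  set A : EN N W := WithLp.toLp 2 fun k : Idx N => (2 * π * (k : ℤ) - 3 * π) • z.1 k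
  set D : EN N W := WithLp.toLp 2 fun k : Idx N => coef C (galCoerU C P z) k
  have h3 : ‖A‖ - ‖D‖ ≤ ‖A + D‖ := by
    have := norm_sub_norm_le A (-D)
    rwa [norm_neg, sub_neg_eq_add] at this
  have h4 : 1 + B ≤ π * ‖z.1‖ := by
    rw [div_le_iff₀ hpi] at hz
    rw [hB]
    linarith
  linarith

end Pool.Agent.H72.EZ
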