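import Pool.Agent.H72.EZ.QLem
import Pool.Agent.H72.EZ.Rot

/-!
# JOB EZ-GALREG : regularity of the Galerkin functional

PROOF (`L' = π N + 3π/2 + P.L + 1` works). `tg`:
`π∑k‖x_k+v_k‖² - π∑k‖x_k‖² = ∑⟨2πk x_k, v_k⟩ + π∑k‖v_k‖²`, the last term is `≤ πN‖v‖²` in absolute
value; `∫Q(loop(x+v)) - ∫Q(loop x) - ∫⟨gQ(loop x), loop v⟩` is bounded by
`(3π/2)∫‖loop v‖² = (3π/2)‖v‖²` (`Qf_taylor`, `loop_add`, `parseval`), and
`∫⟨gQ(loop x), loop v⟩ = ∑⟨coef.., v_k⟩` (`integral_inner_loop`). `th` the same with `HamData.taylor`.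
`lh`: `HamData.lip` and `integral_norm_loop_le`. Continuity of `gg`, `gh`: each coefficient
`x ↦ coef (gQ ∘ loop x) k` is Lipschitz: `‖gQ(loop x) - gQ(loop y)‖ ≤ 6π‖loop (x-y)‖` and
`integral_norm_loop_le`. `hlo`, `hhi`: integrate `lo`, `hi`.
-/

open MeasureTheory Set Metric Filter Topology
open scoped Real InnerProductSpace

namespace Pool.Agent.H72.EZ

variable {W : Type} [NormedAddCommGroup W] [InnerProductSpace ℝ W]

omit [InnerProductSpace ℝ W] in
theorem galReg_norm_sq {N : ℕ} (v : EN N W) : ‖v‖ ^ 2 = ∑ k : Idx N, ‖v k‖ ^ 2 :=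
  PiLp.norm_sq_eq_of_L2 _ v

theorem galReg_inner {N : ℕ} (x y : EN N W) : ⟪x, y⟫_ℝ = ∑ k : Idx N, ⟪x k, y k⟫_ℝ :=
  PiLp.inner_apply x y

theorem galReg_abs_le {N : ℕ} (k : Idx N) : |((k : ℤ) : ℝ)| ≤ N := by
  have h := Finset.mem_Icc.1 k.2
  have h1 : |(k : ℤ)| ≤ (N : ℤ) := abs_le.2 h
  exact_mod_cast h1

omit [InnerProductSpace ℝ W] in
theorem galReg_freq {N : ℕ} (v : EN N W) :
    |π * ∑ k : Idx N, ((k : ℤ) : ℝ) * ‖v k‖ ^ 2| ≤ π * N * ‖v‖ ^ 2 := by
  rw [abs_mul, abs_of_pos Real.pi_pos, galReg_norm_sq, mul_assoc, Finset.mul_sum]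
  refine mul_le_mul_of_nonneg_left ?_ Real.pi_pos.le
  refine (Finset.abs_sum_le_sum_abs _ _).trans (Finset.sum_le_sum fun k _ => ?_)
  rw [abs_mul, abs_of_nonneg (sq_nonneg ‖v k‖)]
  exact mul_le_mul_of_nonneg_right (galReg_abs_le k) (sq_nonneg _)

theorem galReg_abs_integral_le {f : ℝ → ℝ} {g : ℝ → ℝ} (hg : Continuous g)
    (h : ∀ t, |f t| ≤ g t) : |∫ t in (0:ℝ)..1, f t| ≤ ∫ t in (0:ℝ)..1, g t := by
  have := intervalIntegral.norm_integral_le_of_norm_le (μ := volume) (f := f) (g := g)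
    zero_le_one (Filter.Eventually.of_forall fun t _ => by
      rw [Real.norm_eq_abs]; exact h t) (hg.intervalIntegrable _ _)
  rwa [Real.norm_eq_abs] at this

theorem galReg_coef_continuous [FiniteDimensional ℝ W] (C : CStr W) {N : ℕ} {F : W → W}
    (hF : Continuous F) (k : ℤ) : Continuous fun x : EN N W => coef C (fun t => F (loop C x t)) k := by
  have : FiniteDimensional ℝ (EN N W) := inferInstance
  have : ProperSpace (EN N W) := FiniteDimensional.proper ℝ _
  unfold coef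
  apply intervalIntegral.continuous_parametric_intervalIntegral_of_continuous'
  have h1 : Continuous fun p : EN N W × ℝ => (-(2 * π * (k : ℝ) * p.2), F (loop C p.1 p.2)) := by
    refine Continuous.prodMk ?_ (hF.comp (loop_continuous₂ C))
    fun_prop
  exact C.continuous_rot.comp h1

omit [InnerProductSpace ℝ W] in
theorem galReg_toLp_continuous {N : ℕ} {X : Type} [TopologicalSpace X] {f : X → Idx N → W}
    (hf : ∀ k, Continuous fun x => f x k) :
    Continuous fun x => (WithLp.toLp 2 (f x) : EN N W) :=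
  (PiLp.continuous_toLp 2 _).comp (continuous_pi hf)

theorem galReg_integral3 {a b c : ℝ → ℝ} (ha : Continuous a) (hb : Continuous b)
    (hc : Continuous c) : ∫ t in (0:ℝ)..1, (a t - b t - c t) =
      (∫ t in (0:ℝ)..1, a t) - (∫ t in (0:ℝ)..1, b t) - ∫ t in (0:ℝ)..1, c t := by
  have h1 := intervalIntegral.integral_sub (μ := volume) ((ha.sub hb).intervalIntegrable 0 1)
    (hc.intervalIntegrable 0 1)
  have h2 := intervalIntegral.integral_sub (μ := volume) (ha.intervalIntegrable 0 1)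
    (hb.intervalIntegrable 0 1)
  simp only [Pi.sub_apply] at h1
  rw [h1, h2]

theorem gal_reg [FiniteDimensional ℝ W] (C : CStr W) (P : HamData W) (N : ℕ) :
    ∃ L : ℝ, (gal C P N).Reg L := by
  have : CompleteSpace W := FiniteDimensional.complete ℝ W
  have hR0 : 0 < P.R := lt_of_lt_of_le one_pos P.R1
  have hPL : 0 ≤ P.L := zero_le_one.trans P.L1
  have hloop : ∀ x : EN N W, Continuous (loop C x) := fun x => loop_continuous C x
  have hQc : ∀ x : EN N W, Continuous fun t => Qf P.R (loop C x t) := fun x =>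
    (Qf_continuous P.R).comp (hloop x)
  have hgQc : ∀ x : EN N W, Continuous fun t => gQ P.R (loop C x t) := fun x =>
    (gQ_continuous hR0).comp (hloop x)
  have hHc : ∀ x : EN N W, Continuous fun t => P.Hh (loop C x t) := fun x =>
    P.Hh_continuous.comp (hloop x)
  have hgHc : ∀ x : EN N W, Continuous fun t => P.gH (loop C x t) := fun x =>
    P.gH_continuous.comp (hloop x)
  have hnl : ∀ v : EN N W, Continuous fun t => ‖loop C v t‖ ^ 2 := fun v => (hloop v).norm.pow 2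
  refine ⟨π * N + 3 * π / 2 + P.L + 1, ?_, ?_, ?_, ?_, ?_, ?_, ?_, ?_⟩
  · have := Real.pi_pos
    positivity
  · show Continuous fun x : EN N W => (WithLp.toLp 2 fun k : Idx N =>
      (2 * π * (k : ℤ)) • x k - coef C (fun t => gQ P.R (loop C x t)) k : EN N W)
    refine galReg_toLp_continuous fun k => ?_
    refine Continuous.sub ?_ (galReg_coef_continuous C (gQ_continuous hR0) k)
    exact (PiLp.continuous_apply 2 _ k).const_smul _
  · show Continuous fun x : EN N W => (WithLp.toLp 2 fun k : Idx N =>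
      coef C (fun t => P.gH (loop C x t)) k : EN N W)
    exact galReg_toLp_continuous fun k => galReg_coef_continuous C P.gH_continuous k
  · intro x v
    have e1 : (gal C P N).g (x + v) - (gal C P N).g x - ⟪(gal C P N).gg x, v⟫_ℝ =
        π * ∑ k : Idx N, ((k : ℤ) : ℝ) * ‖v k‖ ^ 2 -
          ∫ t in (0:ℝ)..1, (Qf P.R (loop C x t + loop C v t) - Qf P.R (loop C x t) -
            ⟪gQ P.R (loop C x t), loop C v t⟫_ℝ) := by
      have h1 : ∫ t in (0:ℝ)..1, (Qf P.R (loop C x t + loop C v t) - Qf P.R (loop C x t) -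
            ⟪gQ P.R (loop C x t), loop C v t⟫_ℝ) =
          (∫ t in (0:ℝ)..1, Qf P.R (loop C (x + v) t)) - (∫ t in (0:ℝ)..1, Qf P.R (loop C x t)) -
            ∑ k : Idx N, ⟪coef C (fun t => gQ P.R (loop C x t)) k, v k⟫_ℝ := by
        rw [← integral_inner_loop C (hgQc x) v, ← galReg_integral3 (hQc (x + v)) (hQc x)
          ((hgQc x).inner (hloop v))]
        simp only [loop_add]
      rw [h1, galReg_inner]
      show (π * ∑ k : Idx N, ((k : ℤ) : ℝ) * ‖(x + v) k‖ ^ 2 -
          ∫ t in (0:ℝ)..1, Qf P.R (loop C (x + v) t)) -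
        (π * ∑ k : Idx N, ((k : ℤ) : ℝ) * ‖x k‖ ^ 2 - ∫ t in (0:ℝ)..1, Qf P.R (loop C x t)) -
        ∑ k : Idx N, ⟪(2 * π * ((k : ℤ) : ℝ)) • x k - coef C (fun t => gQ P.R (loop C x t)) k,
          v k⟫_ℝ = _
      have h2 : ∀ k : Idx N, ⟪(2 * π * ((k : ℤ) : ℝ)) • x k -
          coef C (fun t => gQ P.R (loop C x t)) k, v k⟫_ℝ =
          2 * π * ((k : ℤ) : ℝ) * ⟪x k, v k⟫_ℝ -
            ⟪coef C (fun t => gQ P.R (loop C x t)) k, v k⟫_ℝ := by
        intro k
        rw [inner_sub_left, real_inner_smul_left]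
      have h3 : ∀ k : Idx N, ((k : ℤ) : ℝ) * ‖(x + v) k‖ ^ 2 = ((k : ℤ) : ℝ) * ‖x k‖ ^ 2 +
          2 * ((k : ℤ) : ℝ) * ⟪x k, v k⟫_ℝ + ((k : ℤ) : ℝ) * ‖v k‖ ^ 2 := by
        intro k
        rw [PiLp.add_apply, norm_add_sq_real]
        ring
      simp only [h2, h3, Finset.sum_add_distrib, Finset.sum_sub_distrib]
      have h4 : ∑ k : Idx N, 2 * π * ((k : ℤ) : ℝ) * ⟪x k, v k⟫_ℝ =
          π * ∑ k : Idx N, 2 * ((k : ℤ) : ℝ) * ⟪x k, v k⟫_ℝ := by
        rw [Finset.mul_sum]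
        exact Finset.sum_congr rfl fun k _ => by ring
      rw [h4]
      ring
    rw [e1]
    have h5 : |∫ t in (0:ℝ)..1, (Qf P.R (loop C x t + loop C v t) - Qf P.R (loop C x t) -
            ⟪gQ P.R (loop C x t), loop C v t⟫_ℝ)| ≤ 3 * π / 2 * ‖v‖ ^ 2 := by
      have h6 := galReg_abs_integral_le (f := fun t => Qf P.R (loop C x t + loop C v t) -
        Qf P.R (loop C x t) - ⟪gQ P.R (loop C x t), loop C v t⟫_ℝ)
        (g := fun t => 3 * π / 2 * ‖loop C v t‖ ^ 2) (continuous_const.mul (hnl v))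
        (fun t => Qf_taylor hR0 _ _)
      rwa [intervalIntegral.integral_const_mul, parseval] at h6
    have h7 := galReg_freq v
    have h8 : 0 ≤ (P.L + 1) * ‖v‖ ^ 2 := by positivity
    calc _ ≤ |π * ∑ k : Idx N, ((k : ℤ) : ℝ) * ‖v k‖ ^ 2| +
          |∫ t in (0:ℝ)..1, (Qf P.R (loop C x t + loop C v t) - Qf P.R (loop C x t) -
            ⟪gQ P.R (loop C x t), loop C v t⟫_ℝ)| := abs_sub _ _
      _ ≤ π * N * ‖v‖ ^ 2 + 3 * π / 2 * ‖v‖ ^ 2 := add_le_add h7 h5
      _ ≤ (π * N + 3 * π / 2 + P.L + 1) * ‖v‖ ^ 2 := by linarith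
  · intro x v
    have e1 : (gal C P N).h (x + v) - (gal C P N).h x - ⟪(gal C P N).gh x, v⟫_ℝ =
        ∫ t in (0:ℝ)..1, (P.Hh (loop C x t + loop C v t) - P.Hh (loop C x t) -
            ⟪P.gH (loop C x t), loop C v t⟫_ℝ) := by
      rw [galReg_inner]
      show (∫ t in (0:ℝ)..1, P.Hh (loop C (x + v) t)) - (∫ t in (0:ℝ)..1, P.Hh (loop C x t)) -
        ∑ k : Idx N, ⟪coef C (fun t => P.gH (loop C x t)) k, v k⟫_ℝ = _
      rw [← integral_inner_loop C (hgHc x) v, ← galReg_integral3 (hHc (x + v)) (hHc x)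
          ((hgHc x).inner (hloop v))]
      simp only [loop_add]
    rw [e1]
    have h6 := galReg_abs_integral_le (f := fun t => P.Hh (loop C x t + loop C v t) -
        P.Hh (loop C x t) - ⟪P.gH (loop C x t), loop C v t⟫_ℝ)
        (g := fun t => P.L * ‖loop C v t‖ ^ 2) (continuous_const.mul (hnl v))
        (fun t => P.taylor _ _)
    rw [intervalIntegral.integral_const_mul, parseval] at h6
    refine h6.trans ?_
    have hpi := Real.pi_pos
    have h8 : 0 ≤ (π * N + 3 * π / 2 + 1) * ‖v‖ ^ 2 := by positivity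
    linarith
  · intro x v
    have e1 : (gal C P N).h (x + v) - (gal C P N).h x =
        ∫ t in (0:ℝ)..1, (P.Hh (loop C x t + loop C v t) - P.Hh (loop C x t)) := by
      show (∫ t in (0:ℝ)..1, P.Hh (loop C (x + v) t)) - (∫ t in (0:ℝ)..1, P.Hh (loop C x t)) = _
      rw [← intervalIntegral.integral_sub
          ((hHc _).intervalIntegrable _ _) ((hHc _).intervalIntegrable _ _)]
      simp only [loop_add]
    rw [e1]
    have h6 := galReg_abs_integral_le (f := fun t => P.Hh (loop C x t + loop C v t) -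
        P.Hh (loop C x t)) (g := fun t => P.L * ‖loop C v t‖)
        (continuous_const.mul (hloop v).norm) (fun t => P.lip _ _)
    rw [intervalIntegral.integral_const_mul] at h6
    have h7 : P.L * ∫ t in (0:ℝ)..1, ‖loop C v t‖ ≤ P.L * ‖v‖ :=
      mul_le_mul_of_nonneg_left (integral_norm_loop_le C v) hPL
    have hpi := Real.pi_pos
    have h8 : 0 ≤ (π * N + 3 * π / 2 + 1) * ‖v‖ := by positivity
    linarith
  · intro x
    show 1 / 2 ≤ ∫ t in (0:ℝ)..1, P.Hh (loop C x t)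
    have h1 := intervalIntegral.integral_mono_on (μ := volume) (zero_le_one' ℝ)
      (f := fun _ => (1 / 2 : ℝ)) (g := fun t => P.Hh (loop C x t))
      (continuous_const.intervalIntegrable _ _) ((hHc x).intervalIntegrable _ _)
      (fun t _ => P.lo _)
    simpa using h1
  · intro x
    show ∫ t in (0:ℝ)..1, P.Hh (loop C x t) ≤ 5 / 2
    have h1 := intervalIntegral.integral_mono_on (μ := volume) (zero_le_one' ℝ)
      (g := fun _ => (5 / 2 : ℝ)) (f := fun t => P.Hh (loop C x t))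
      ((hHc x).intervalIntegrable _ _) (continuous_const.intervalIntegrable _ _)
      (fun t _ => P.hi _)
    simpa using h1

end Pool.Agent.H72.EZ
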