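import Pool.Agent.H72.EZ.Defs
import Pool.Agent.H75.Brouwer.Brouwer

/-!
# JOB EZ-LINK : the linking lemma (Brouwer)

PROOF. `Σ = SigmaSet N ρ ⊆ EN N W × ℝ` is compact (closed and bounded in finite dimension) and
convex, contains `0`. Write `Z p = (X p, ·)`; let `tr : EN N W → EN N W` be the truncation to the
frequencies `k ≤ 0`, `z̄₀` the element with `z₀` at `k = 0` and `0` elsewhere,
`q(p) = sqrt (∑_{k>0} ‖X(p)_k‖²)` (continuous). Define `r : Σ → Σ`,
`r(p) = (pr_ρ (p.1 - tr (X p) + z̄₀), clamp_{[0,ρ]} (p.2 - q(p) + α))`, where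
`pr_ρ(y) = (ρ / max ρ ‖y‖) • y` (`= y` if `‖y‖ ≤ ρ`, of norm `ρ` if `‖y‖ ≥ ρ`). `r` is continuous and
maps `Σ` to `Σ` (extend it to `EN × ℝ` arbitrarily, e.g. with `Classical`/`ContinuousOn` via
`Set.IccExtend`-like tricks, or compose with a retraction; `brouwer` in
`Pool.Agent.H75.Brouwer.Brouwer` needs `ContinuousOn f K`, `MapsTo f K K`), so it has a fixed
point `p`. If `p ∈ bd` then `X p = p.1 + p.2 • e1`, so `tr (X p) = p.1`, `q(p) = p.2 ‖w‖ = p.2` and
`r(p) = (z̄₀, α)`, so `p.1 = z̄₀` has norm `‖z₀‖ < ρ` and `p.2 = α ∈ (0,ρ)`: contradiction to `p ∈ bd`.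
So `‖p.1‖ < ρ`, `0 < p.2 < ρ`; then `pr_ρ(y) = p.1` forces `y = p.1` and the clamp is inactive: hence
`tr (X p) = z̄₀` and `q(p) = α`.
-/

open MeasureTheory Set Metric Filter Topology
open scoped Real InnerProductSpace

namespace Pool.Agent.H72.EZ

variable {W : Type} [NormedAddCommGroup W] [InnerProductSpace ℝ W]

/-- truncation to the frequencies `≤ 0` -/
private noncomputable def link_tr {N : ℕ} (x : EN N W) : EN N W :=
  WithLp.toLp 2 fun k : Idx N => if (k : ℤ) ≤ 0 then x k else 0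

/-- the constant `z` -/
private noncomputable def link_cst (N : ℕ) (z : W) : EN N W :=
  WithLp.toLp 2 fun k : Idx N => if (k : ℤ) = 0 then z else 0

/-- the positive part -/
private noncomputable def link_pos {N : ℕ} (x : EN N W) : ℝ :=
  ∑ k : Idx N, (if 0 < (k : ℤ) then ‖x k‖ ^ 2 else 0)

/-- the radial projection -/
private noncomputable def link_pr {N : ℕ} (ρ : ℝ) (y : EN N W) : EN N W := (ρ / max ρ ‖y‖) • y

private lemma link_tr_cont {N : ℕ} : Continuous (link_tr : EN N W → EN N W) := by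
  refine (PiLp.continuous_toLp 2 _).comp (continuous_pi fun k => ?_)
  split_ifs
  · fun_prop
  · exact continuous_const

private lemma link_pos_cont {N : ℕ} : Continuous (link_pos : EN N W → ℝ) := by
  refine continuous_finsetSum _ fun k _ => ?_
  split_ifs
  · fun_prop
  · exact continuous_const

private lemma link_pr_cont {N : ℕ} {ρ : ℝ} (hρ : 0 < ρ) :
    Continuous (link_pr ρ : EN N W → EN N W) := by
  have h : Continuous fun y : EN N W => ρ / max ρ ‖y‖ :=
    continuous_const.div (continuous_const.max continuous_norm) fun y =>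
      (lt_of_lt_of_le hρ (le_max_left _ _)).ne'
  exact h.smul continuous_id

private lemma link_pr_norm {N : ℕ} {ρ : ℝ} (hρ : 0 < ρ) (y : EN N W) :
    ‖link_pr ρ y‖ = ρ / max ρ ‖y‖ * ‖y‖ := by
  have h : 0 < max ρ ‖y‖ := lt_of_lt_of_le hρ (le_max_left _ _)
  rw [link_pr, norm_smul, Real.norm_of_nonneg (by positivity)]

private lemma link_pr_le {N : ℕ} {ρ : ℝ} (hρ : 0 < ρ) (y : EN N W) : ‖link_pr ρ y‖ ≤ ρ := by
  have h : 0 < max ρ ‖y‖ := lt_of_lt_of_le hρ (le_max_left _ _)
  rw [link_pr_norm hρ, div_mul_eq_mul_div, div_le_iff₀ h]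
  exact mul_le_mul_of_nonneg_left (le_max_right _ _) hρ.le

private lemma link_pr_eq {N : ℕ} {ρ : ℝ} (hρ : 0 < ρ) {y : EN N W} (hy : ‖y‖ ≤ ρ) :
    link_pr ρ y = y := by
  rw [link_pr, max_eq_left hy, div_self hρ.ne', one_smul]

private lemma link_pr_inv {N : ℕ} {ρ : ℝ} (hρ : 0 < ρ) {y : EN N W} (hy : ‖link_pr ρ y‖ < ρ) :
    link_pr ρ y = y := by
  by_cases h : ‖y‖ ≤ ρ
  · exact link_pr_eq hρ h
  · exfalso
    rw [not_le] at h
    rw [link_pr_norm hρ, max_eq_right h.le, div_mul_cancel₀ _ (hρ.trans h).ne'] at hy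
    exact lt_irrefl _ hy

private lemma link_cst_norm {N : ℕ} (z : W) : ‖link_cst N z‖ = ‖z‖ := by
  have h0 : (0 : ℤ) ∈ Finset.Icc (-(N : ℤ)) (N : ℤ) := by
    rw [Finset.mem_Icc]; omega
  rw [PiLp.norm_eq_of_L2]
  have : ∑ k : Idx N, ‖(link_cst N z) k‖ ^ 2 = ‖z‖ ^ 2 := by
    rw [Finset.sum_eq_single (⟨0, h0⟩ : Idx N)]
    · simp [link_cst]
    · intro k _ hk
      have : (k : ℤ) ≠ 0 := fun h => hk (Subtype.ext h)
      simp [link_cst, this]
    · intro h; exact absurd (Finset.mem_univ _) h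
  rw [this, Real.sqrt_sq (norm_nonneg _)]

private lemma link_conv {N : ℕ} {ρ : ℝ} : Convex ℝ (SigmaSet (W := W) N ρ) := by
  rintro x ⟨h1, h2, h3, h4⟩ y ⟨g1, g2, g3, g4⟩ a b ha hb hab
  refine ⟨fun k hk => ?_, ?_, ?_, ?_⟩
  · simp [h1 k hk, g1 k hk]
  · calc ‖(a • x + b • y).1‖ = ‖a • x.1 + b • y.1‖ := rfl
      _ ≤ ‖a • x.1‖ + ‖b • y.1‖ := norm_add_le _ _
      _ = a * ‖x.1‖ + b * ‖y.1‖ := by
        rw [norm_smul, norm_smul, Real.norm_of_nonneg ha, Real.norm_of_nonneg hb]
      _ ≤ a * ρ + b * ρ := by gcongr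
      _ = ρ := by rw [← add_mul, hab, one_mul]
  · have : (a • x + b • y).2 = a * x.2 + b * y.2 := rfl
    rw [this]; positivity
  · have : (a • x + b • y).2 = a * x.2 + b * y.2 := rfl
    rw [this]
    calc a * x.2 + b * y.2 ≤ a * ρ + b * ρ := by gcongr
      _ = ρ := by rw [← add_mul, hab, one_mul]

private lemma link_compact [FiniteDimensional ℝ W] {N : ℕ} {ρ : ℝ} :
    IsCompact (SigmaSet (W := W) N ρ) := by
  have : ProperSpace (EN N W) := FiniteDimensional.proper_real _
  refine Metric.isCompact_of_isClosed_isBounded ?_ ?_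
  · have e : SigmaSet (W := W) N ρ = {p : EN N W × ℝ | ∀ k : Idx N, 0 < (k : ℤ) → p.1 k = 0} ∩
        ({p | ‖p.1‖ ≤ ρ} ∩ ({p | 0 ≤ p.2} ∩ {p | p.2 ≤ ρ})) := rfl
    rw [e]
    refine IsClosed.inter ?_ (IsClosed.inter ?_ (IsClosed.inter ?_ ?_))
    · have e2 : {p : EN N W × ℝ | ∀ k : Idx N, 0 < (k : ℤ) → p.1 k = 0} =
          ⋂ k : Idx N, {p | 0 < (k : ℤ) → p.1 k = 0} := by
        ext p; simp
      rw [e2]
      refine isClosed_iInter fun k => ?_
      by_cases hk : 0 < (k : ℤ)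
      · simp only [hk, forall_const]
        exact isClosed_eq (by fun_prop) continuous_const
      · simp [hk]
    · exact isClosed_le (by fun_prop) continuous_const
    · exact isClosed_le continuous_const (by fun_prop)
    · exact isClosed_le (by fun_prop) continuous_const
  · refine (isBounded_closedBall (x := (0 : EN N W × ℝ)) (r := ρ)).subset ?_
    rintro p ⟨-, h2, h3, h4⟩
    rw [mem_closedBall_zero_iff, Prod.norm_def, Real.norm_of_nonneg h3]
    exact max_le h2 h4

theorem link [FiniteDimensional ℝ W] {N : ℕ} (hN : 1 ≤ N) {ρ α : ℝ} {z₀ w : W} (hα : 0 < α)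
    (hαρ : α < ρ) (hz : ‖z₀‖ < ρ) (hw : ‖w‖ = 1)
    (Z : ↥(SigmaSet (W := W) N ρ) → EN N W × ℝ) (hZ : Continuous Z)
    (hbd : ∀ p ∈ bdSet (W := W) N ρ, Z p = base N ρ w p) :
    ∃ p, (∀ k : Idx N, (k : ℤ) < 0 → (Z p).1 k = 0) ∧
      (∀ k : Idx N, (k : ℤ) = 0 → (Z p).1 k = z₀) ∧
      ∑ k : Idx N, (if 0 < (k : ℤ) then ‖(Z p).1 k‖ ^ 2 else 0) = α ^ 2 := by
  classical
  have hρ : 0 < ρ := hα.trans hαρ
  have : FiniteDimensional ℝ (EN N W) := by infer_instance
  have : FiniteDimensional ℝ (EN N W × ℝ) := by infer_instance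
  let X : ↥(SigmaSet (W := W) N ρ) → EN N W := fun p => (Z p).1
  have hX : Continuous X := continuous_fst.comp hZ
  let r : ↥(SigmaSet (W := W) N ρ) → EN N W × ℝ := fun p =>
    (link_pr ρ (p.1.1 - link_tr (X p) + link_cst N z₀),
      max 0 (min ρ (p.1.2 - Real.sqrt (link_pos (X p)) + α)))
  have hr : Continuous r := by
    refine Continuous.prodMk ?_ ?_
    · exact (link_pr_cont hρ).comp (((continuous_fst.comp continuous_subtype_val).sub
        (link_tr_cont.comp hX)).add continuous_const)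
    · exact continuous_const.max (continuous_const.min
        (((continuous_snd.comp continuous_subtype_val).sub
          (Real.continuous_sqrt.comp (link_pos_cont.comp hX))).add continuous_const))
  have hrS : ∀ p, r p ∈ SigmaSet (W := W) N ρ := by
    intro p
    refine ⟨fun k hk => ?_, link_pr_le hρ _, le_max_left _ _, max_le hρ.le (min_le_left _ _)⟩
    have h1 : p.1.1 k = 0 := p.2.1 k hk
    have h2 : ¬ (k : ℤ) ≤ 0 := not_le.mpr hk
    have h3 : ¬ (k : ℤ) = 0 := hk.ne'
    simp [r, link_pr, link_tr, link_cst, h1, h2, h3]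
  let f : EN N W × ℝ → EN N W × ℝ := fun p => if h : p ∈ SigmaSet (W := W) N ρ then r ⟨p, h⟩ else 0
  have hf : ContinuousOn f (SigmaSet (W := W) N ρ) := by
    rw [continuousOn_iff_continuous_domRestrict]
    have : Set.domRestrict (SigmaSet (W := W) N ρ) f = r := by
      funext p
      simp only [Set.domRestrict_apply, f, dif_pos p.2]
    rw [this]
    exact hr
  have hfS : MapsTo f (SigmaSet (W := W) N ρ) (SigmaSet (W := W) N ρ) := by
    intro p hp
    simp only [f, dif_pos hp]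
    exact hrS _
  have hne : (SigmaSet (W := W) N ρ).Nonempty := ⟨0, fun k _ => by simp, by simp [hρ.le], by simp, by simp [hρ.le]⟩
  obtain ⟨p, hp, hfp⟩ := Pool.Agent.H75.Brouwer.brouwer link_compact link_conv hne f hf hfS
  simp only [f, dif_pos hp] at hfp
  set P : ↥(SigmaSet (W := W) N ρ) := ⟨p, hp⟩ with hP
  have hfp1 : link_pr ρ (p.1 - link_tr (X P) + link_cst N z₀) = p.1 := congrArg Prod.fst hfp
  have hfp2 : max 0 (min ρ (p.2 - Real.sqrt (link_pos (X P)) + α)) = p.2 :=
    congrArg Prod.snd hfp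
  obtain ⟨m1, m2, m3, m4⟩ := hp
  have hnb : P ∉ bdSet (W := W) N ρ := by
    intro hb
    have hZP := hbd P hb
    have hXP : X P = p.1 + p.2 • e1 N w := congrArg Prod.fst hZP
    have htr : link_tr (X P) = p.1 := by
      rw [hXP]
      ext k
      simp only [link_tr, PiLp.toLp_apply]
      split_ifs with h
      · have h1 : ¬ (k : ℤ) = 1 := by omega
        simp [e1, h1]
      · exact (m1 k (not_le.mp h)).symm
    have h1m : (1 : ℤ) ∈ Finset.Icc (-(N : ℤ)) (N : ℤ) := by
      rw [Finset.mem_Icc]; omega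
    have hpos : link_pos (X P) = p.2 ^ 2 := by
      rw [hXP, link_pos, Finset.sum_eq_single (⟨1, h1m⟩ : Idx N)]
      · have : (p.1 + p.2 • e1 N w) (⟨1, h1m⟩ : Idx N) = p.2 • w := by
          have := m1 (⟨1, h1m⟩ : Idx N) (by norm_num)
          simp [e1, this]
        rw [this, norm_smul, hw, mul_one, Real.norm_eq_abs, sq_abs]
        simp
      · intro k _ hk
        have hk1 : ¬ (k : ℤ) = 1 := fun h => hk (Subtype.ext h)
        split_ifs with h
        · have := m1 k h
          simp [e1, hk1, this]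
        · rfl
      · intro h; exact absurd (Finset.mem_univ _) h
    rw [htr, sub_self, zero_add, link_pr_eq hρ (by rw [link_cst_norm]; exact hz.le)] at hfp1
    rw [hpos, Real.sqrt_sq m3, sub_self, zero_add, min_eq_right hαρ.le, max_eq_right hα.le] at hfp2
    rcases hb with hb | hb | hb
    · have : ‖p.1‖ = ρ := hb
      rw [← hfp1, link_cst_norm] at this
      exact absurd this hz.ne
    · have : p.2 = 0 := hb
      rw [← hfp2] at this
      exact absurd this hα.ne'
    · have : p.2 = ρ := hb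
      rw [← hfp2] at this
      exact absurd this hαρ.ne
  have hb1 : ‖p.1‖ < ρ := lt_of_le_of_ne m2 fun h => hnb (Or.inl h)
  have hb2 : 0 < p.2 := lt_of_le_of_ne m3 fun h => hnb (Or.inr (Or.inl h.symm))
  have hb3 : p.2 < ρ := lt_of_le_of_ne m4 fun h => hnb (Or.inr (Or.inr h))
  have hc1 : link_tr (X P) = link_cst N z₀ := by
    have h1 := link_pr_inv hρ (y := p.1 - link_tr (X P) + link_cst N z₀) (by rw [hfp1]; exact hb1)
    rw [hfp1] at h1
    have h2 : p.1 = p.1 - (link_tr (X P) - link_cst N z₀) := by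
      conv_lhs => rw [h1]
      abel
    have h3 : link_tr (X P) - link_cst N z₀ = 0 := by
      have := sub_eq_self.mp h2.symm
      exact this
    exact sub_eq_zero.mp h3
  have hc2 : Real.sqrt (link_pos (X P)) = α := by
    rcases max_choice 0 (min ρ (p.2 - Real.sqrt (link_pos (X P)) + α)) with h | h
    · rw [h] at hfp2; exact absurd hfp2.symm hb2.ne'
    · rw [h] at hfp2
      rcases min_choice ρ (p.2 - Real.sqrt (link_pos (X P)) + α) with h' | h'
      · rw [h'] at hfp2; exact absurd hfp2 hb3.ne'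
      · rw [h'] at hfp2; linarith
  have hcoord : ∀ k : Idx N, (k : ℤ) ≤ 0 → (Z P).1 k = link_cst N z₀ k := by
    intro k hk
    rw [← hc1]
    simp [link_tr, hk, X]
  refine ⟨P, fun k hk => ?_, fun k hk => ?_, ?_⟩
  · rw [hcoord k hk.le]
    simp [link_cst, hk.ne]
  · rw [hcoord k hk.le]
    simp [link_cst, hk]
  · have h1 : 0 ≤ link_pos (X P) := Finset.sum_nonneg fun k _ => by split_ifs <;> positivity
    have h2 := Real.sq_sqrt h1
    rw [hc2] at h2
    exact h2.symm

end Pool.Agent.H72.EZ
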