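import Pool.Agent.H72.EZ.QLem
import Pool.Agent.H72.EZ.Rot
import Pool.Agent.H72.EZ.Link

/-!
# JOB EZ-LINKEST : estimates of the functional on the linking sets

PROOF. `f_b(x,T) = π∑k‖x_k‖² - ∫Q(loop x) - T(∫Hh(loop x) - b)`.
`est_lower`: let `x_k = 0` for `k < 0`, `x_0 = z₀`, `∑_{k>0}‖x_k‖² = α²`, `α = 1/(4L)` (`L = P.L ≥ 1`).
(a) `h(x) = ∫Hh(loop x) ≤ 1/2 + L ∫‖loop x - z₀‖² = 1/2 + L α² = 1/2 + 1/(16 L) ≤ 1 ≤ b` (`near`,
`parseval` for `x` minus its zero mode), so `-T(h - b) ≥ 0`.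
(b) write `loop x t = z₀ + rot(2πt) x_1 + u(t)`, `u` the part with `k ≥ 2`; `‖z₀‖ + ‖x_1‖ ≤ R/4 + 1/4 ≤ R`,
so `Q(loop x t) ≤ (3π/2)‖u(t)‖²` (`Qf_le`) and `∫Q ≤ (3π/2)∑_{k≥2}‖x_k‖²`; the quadratic part is
`≥ π‖x_1‖² + 2π∑_{k≥2}‖x_k‖²`. So `f ≥ π‖x_1‖² + (π/2)∑_{k≥2}‖x_k‖² ≥ (π/2) α² = π/(32 L²)`.
`est_upper`: `x = v + s e1`: `π∑k‖x_k‖² = π s² - π∑_{k<0}|k|‖v_k‖² ≤ π s²`,
`∫Q ≥ (5π/4)‖x‖² - (15π/2)R²` (`Qf_ge`, `parseval`), `‖x‖² = ‖v‖² + s²`. So
`f(x,0) ≤ -(π/4)s² - (5π/4)‖v‖² + (15π/2)R²`, which is `≤ (15π/2) R²`, and `≤ 0` if `s = 6R` or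
`‖v‖ = 6R`; for `s = 0` directly `f(x,0) ≤ 0` (`Q ≥ 0`).
`gal_link`: `base ∈ Cls` (continuity; on `bd` equal to itself; second component `0`); the lower
bound by `link` (`ρ = 6R`, `α = 1/(4L)`, `‖z₀‖ ≤ R/4 < 6R`) and `est_lower`.
-/

open MeasureTheory Set Metric Filter Topology
open scoped Real InnerProductSpace

namespace Pool.Agent.H72.EZ

variable {W : Type} [NormedAddCommGroup W] [InnerProductSpace ℝ W]

private lemma linkEst_normsq {N : ℕ} (x : EN N W) : ‖x‖ ^ 2 = ∑ k : Idx N, ‖x k‖ ^ 2 :=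
  PiLp.norm_sq_eq_of_L2 _ x

/-- the restriction of `x` to the frequencies with `p` -/
private noncomputable def linkEst_cut {N : ℕ} (p : ℤ → Prop) [DecidablePred p] (x : EN N W) :
    EN N W :=
  WithLp.toLp 2 fun k : Idx N => if p (k : ℤ) then x k else 0

private lemma linkEst_cut_apply {N : ℕ} (p : ℤ → Prop) [DecidablePred p] (x : EN N W)
    (k : Idx N) : linkEst_cut p x k = if p (k : ℤ) then x k else 0 := rfl

private lemma linkEst_cut_norm {N : ℕ} (p : ℤ → Prop) [DecidablePred p] (x : EN N W) :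
    ‖linkEst_cut p x‖ ^ 2 = ∑ k : Idx N, (if p (k : ℤ) then ‖x k‖ ^ 2 else 0) := by
  rw [linkEst_normsq]
  refine Finset.sum_congr rfl fun k _ => ?_
  rw [linkEst_cut_apply]
  split_ifs
  · rfl
  · rw [norm_zero]
    norm_num

private lemma linkEst_loop_single (C : CStr W) {N : ℕ} (y : EN N W) (j : Idx N)
    (h : ∀ k, k ≠ j → y k = 0) (t : ℝ) : loop C y t = C.rot (2 * π * (j : ℤ) * t) (y j) := by
  unfold loop
  rw [Finset.sum_eq_single j]
  · intro k _ hk
    rw [h k hk, C.rot_zero_right]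
  · intro hj
    exact absurd (Finset.mem_univ j) hj

private theorem linkEst_int_add [FiniteDimensional ℝ W] (C : CStr W) {N : ℕ}
    (x : EN N W) (a b : ℝ) :
    ∫ t in (0:ℝ)..1, (a + b * ‖loop C x t‖ ^ 2) = a + b * ‖x‖ ^ 2 := by
  have h1 : IntervalIntegrable (fun _ : ℝ => a) MeasureTheory.volume 0 1 :=
    continuous_const.intervalIntegrable _ _
  have h2 : IntervalIntegrable (fun t : ℝ => b * ‖loop C x t‖ ^ 2) MeasureTheory.volume 0 1 := by
    apply Continuous.intervalIntegrable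
    exact continuous_const.mul ((loop_continuous C x).norm.pow 2)
  rw [intervalIntegral.integral_add h1 h2, intervalIntegral.integral_const_mul, parseval]
  simp

private theorem linkEst_int_sub [FiniteDimensional ℝ W] (C : CStr W) {N : ℕ}
    (x : EN N W) (a b : ℝ) :
    ∫ t in (0:ℝ)..1, (b * ‖loop C x t‖ ^ 2 - a) = b * ‖x‖ ^ 2 - a := by
  have h1 : IntervalIntegrable (fun _ : ℝ => a) MeasureTheory.volume 0 1 :=
    continuous_const.intervalIntegrable _ _
  have h2 : IntervalIntegrable (fun t : ℝ => b * ‖loop C x t‖ ^ 2) MeasureTheory.volume 0 1 := by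
    apply Continuous.intervalIntegrable
    exact continuous_const.mul ((loop_continuous C x).norm.pow 2)
  rw [intervalIntegral.integral_sub h2 h1, intervalIntegral.integral_const_mul, parseval]
  simp

theorem est_lower [FiniteDimensional ℝ W] (C : CStr W) (P : HamData W) {N : ℕ} (hN : 1 ≤ N)
    {b : ℝ} (hb : 1 ≤ b) (z : EN N W × ℝ) (hz : 0 ≤ z.2)
    (h1 : ∀ k : Idx N, (k : ℤ) < 0 → z.1 k = 0) (h2 : ∀ k : Idx N, (k : ℤ) = 0 → z.1 k = P.z₀)
    (h3 : ∑ k : Idx N, (if 0 < (k : ℤ) then ‖z.1 k‖ ^ 2 else 0) = (1 / (4 * P.L)) ^ 2) :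
    π / (32 * P.L ^ 2) ≤ (gal C P N).f b z := by
  have : CompleteSpace W := FiniteDimensional.complete ℝ W
  obtain ⟨x, T⟩ := z
  simp only at hz h1 h2 h3
  have hL := P.L1
  have hR := P.R1
  have hL0 : 0 < P.L := by linarith
  have hR0 : 0 < P.R := by linarith
  have hpi := Real.pi_pos
  set α : ℝ := 1 / (4 * P.L) with hα
  have hα0 : 0 < α := by positivity
  have hα4 : α ≤ 1 / 4 := by
    rw [hα]
    exact one_div_le_one_div_of_le (by norm_num) (by linarith)
  have hα2 : α ^ 2 = 1 / (16 * P.L ^ 2) := by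
    rw [hα, div_pow, one_pow]
    congr 1
    ring
  have hNz : (1 : ℤ) ≤ N := by exact_mod_cast hN
  let j0 : Idx N := ⟨0, by rw [Finset.mem_Icc]; omega⟩
  let j1 : Idx N := ⟨1, by rw [Finset.mem_Icc]; omega⟩
  have hj0 : ((j0 : Idx N) : ℤ) = 0 := rfl
  have hj1 : ((j1 : Idx N) : ℤ) = 1 := rfl
  -- the zero mode
  have hw0 : ∀ t, loop C (linkEst_cut (fun k => k = 0) x) t = P.z₀ := by
    intro t
    rw [linkEst_loop_single C _ j0 (fun k hk => ?_) t]
    · rw [linkEst_cut_apply, if_pos hj0, h2 j0 hj0, hj0]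
      have e : 2 * π * ((0 : ℤ) : ℝ) * t = 0 := by push_cast; ring
      rw [e, C.rot_zero]
    · rw [linkEst_cut_apply, if_neg]
      intro h
      exact hk (Subtype.ext h)
  -- (a)
  have hsplit1 : x = linkEst_cut (fun k => k = 0) x + linkEst_cut (fun k => 0 < k) x := by
    apply PiLp.ext
    intro k
    rw [PiLp.add_apply, linkEst_cut_apply, linkEst_cut_apply]
    rcases lt_trichotomy (k : ℤ) 0 with h | h | h
    · rw [h1 k h, if_neg (by omega), if_neg (by omega), add_zero]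
    · rw [if_pos h, if_neg (by omega), add_zero]
    · rw [if_neg (by omega), if_pos h, zero_add]
  have hya : ‖linkEst_cut (fun k => 0 < k) x‖ ^ 2 = α ^ 2 := by
    rw [linkEst_cut_norm]
    exact h3
  have hha : ∫ t in (0:ℝ)..1, P.Hh (loop C x t) ≤ 1 / 2 + P.L * α ^ 2 := by
    have e1 : ∀ t, loop C x t - P.z₀ = loop C (linkEst_cut (fun k => 0 < k) x) t := by
      intro t
      conv_lhs => rw [hsplit1]
      rw [loop_add, hw0, add_sub_cancel_left]
    have e2 : ∫ t in (0:ℝ)..1, P.Hh (loop C x t) ≤ ∫ t in (0:ℝ)..1,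
        (1 / 2 + P.L * ‖loop C (linkEst_cut (fun k => 0 < k) x) t‖ ^ 2) := by
      apply intervalIntegral.integral_mono_on zero_le_one
      · exact (P.Hh_continuous.comp (loop_continuous C x)).intervalIntegrable _ _
      · exact (continuous_const.add (continuous_const.mul
          ((loop_continuous C _).norm.pow 2))).intervalIntegrable _ _
      · intro t _
        rw [← e1]
        exact P.near _
    refine e2.trans (le_of_eq ?_)
    rw [linkEst_int_add, hya]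
  have hhb : ∫ t in (0:ℝ)..1, P.Hh (loop C x t) ≤ b := by
    refine hha.trans (le_trans ?_ hb)
    rw [hα2]
    have e3 : P.L * (1 / (16 * P.L ^ 2)) = 1 / (16 * P.L) := by
      field_simp
    rw [e3]
    have e4 : 1 / (16 * P.L) ≤ 1 / 16 := one_div_le_one_div_of_le (by norm_num) (by linarith)
    linarith
  -- (b)
  have hsplit2 : x = (linkEst_cut (fun k => k = 0) x + linkEst_cut (fun k => k = 1) x) +
      linkEst_cut (fun k => 2 ≤ k) x := by
    apply PiLp.ext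
    intro k
    rw [PiLp.add_apply, PiLp.add_apply, linkEst_cut_apply, linkEst_cut_apply, linkEst_cut_apply]
    rcases lt_trichotomy (k : ℤ) 0 with h | h | h
    · rw [h1 k h, if_neg (by omega), if_neg (by omega), if_neg (by omega), add_zero, add_zero]
    · rw [if_pos h, if_neg (by omega), if_neg (by omega), add_zero, add_zero]
    · rcases eq_or_ne (k : ℤ) 1 with h' | h'
      · rw [if_neg (by omega), if_pos h', if_neg (by omega), zero_add, add_zero]
      · rw [if_neg (by omega), if_neg h', if_pos (by omega), zero_add, zero_add]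
  have hS : ∑ k : Idx N, (if (k : ℤ) = 1 then ‖x k‖ ^ 2 else 0) +
      ∑ k : Idx N, (if 2 ≤ (k : ℤ) then ‖x k‖ ^ 2 else 0) = α ^ 2 := by
    rw [← h3, ← Finset.sum_add_distrib]
    refine Finset.sum_congr rfl fun k _ => ?_
    rcases lt_or_ge 0 (k : ℤ) with h | h
    · rcases eq_or_ne (k : ℤ) 1 with h' | h'
      · rw [if_pos h', if_neg (by omega), if_pos h, add_zero]
      · rw [if_neg h', if_pos (by omega), if_pos h, zero_add]
    · rw [if_neg (by omega), if_neg (by omega), if_neg (by omega), add_zero]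
  set S1 := ∑ k : Idx N, (if (k : ℤ) = 1 then ‖x k‖ ^ 2 else 0) with hS1
  set S2 := ∑ k : Idx N, (if 2 ≤ (k : ℤ) then ‖x k‖ ^ 2 else 0) with hS2
  have hS10 : 0 ≤ S1 := Finset.sum_nonneg fun k _ => by split_ifs <;> positivity
  have hS20 : 0 ≤ S2 := Finset.sum_nonneg fun k _ => by split_ifs <;> positivity
  have hx1 : ‖x j1‖ ≤ α := by
    have e5 : ‖x j1‖ ^ 2 ≤ S1 := by
      have e6 := Finset.single_le_sum (f := fun k : Idx N => if (k : ℤ) = 1 then ‖x k‖ ^ 2 else 0)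
        (fun k _ => by split_ifs <;> positivity) (Finset.mem_univ j1)
      simp only [hj1, if_true] at e6
      exact e6
    refine (sq_le_sq₀ (norm_nonneg _) hα0.le).1 ?_
    linarith
  have hquad : S1 + 2 * S2 ≤ ∑ k : Idx N, ((k : ℤ) : ℝ) * ‖x k‖ ^ 2 := by
    rw [hS1, hS2, Finset.mul_sum, ← Finset.sum_add_distrib]
    refine Finset.sum_le_sum fun k _ => ?_
    rcases lt_trichotomy (k : ℤ) 0 with h | h | h
    · rw [h1 k h, norm_zero, if_neg (by omega), if_neg (by omega)]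
      simp
    · rw [if_neg (by omega), if_neg (by omega), h]
      simp
    · rcases eq_or_ne (k : ℤ) 1 with h' | h'
      · rw [if_pos h', if_neg (by omega), h']
        simp
      · have h2' : 2 ≤ (k : ℤ) := by omega
        have h2r : (2 : ℝ) ≤ ((k : ℤ) : ℝ) := by exact_mod_cast h2'
        rw [if_neg h', if_pos h2', zero_add]
        exact mul_le_mul_of_nonneg_right h2r (sq_nonneg _)
  have hQ : ∫ t in (0:ℝ)..1, Qf P.R (loop C x t) ≤ 3 * π / 2 * S2 := by
    have e7 : ∫ t in (0:ℝ)..1, Qf P.R (loop C x t) ≤ ∫ t in (0:ℝ)..1,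
        3 * π / 2 * ‖loop C (linkEst_cut (fun k => 2 ≤ k) x) t‖ ^ 2 := by
      apply intervalIntegral.integral_mono_on zero_le_one
      · exact ((Qf_continuous P.R).comp (loop_continuous C x)).intervalIntegrable _ _
      · exact (continuous_const.mul ((loop_continuous C _).norm.pow 2)).intervalIntegrable _ _
      · intro t _
        have e8 : loop C x t = (P.z₀ + loop C (linkEst_cut (fun k => k = 1) x) t) +
            loop C (linkEst_cut (fun k => 2 ≤ k) x) t := by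
          conv_lhs => rw [hsplit2]
          rw [loop_add, loop_add, hw0]
        rw [e8]
        apply Qf_le
        have e9 : loop C (linkEst_cut (fun k => k = 1) x) t =
            C.rot (2 * π * ((j1 : Idx N) : ℤ) * t) (x j1) := by
          rw [linkEst_loop_single C _ j1 (fun k hk => ?_) t]
          · rw [linkEst_cut_apply, if_pos hj1]
          · rw [linkEst_cut_apply, if_neg]
            intro h
            exact hk (Subtype.ext h)
        rw [e9]
        refine (norm_add_le _ _).trans ?_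
        rw [C.norm_rot]
        have := P.z₀R
        linarith
    refine e7.trans (le_of_eq ?_)
    rw [intervalIntegral.integral_const_mul, parseval, linkEst_cut_norm]
  have hfin : π / (32 * P.L ^ 2) = π / 2 * α ^ 2 := by
    rw [hα2]
    field_simp
    norm_num
  change π / (32 * P.L ^ 2) ≤ (π * ∑ k : Idx N, ((k : ℤ) : ℝ) * ‖x k‖ ^ 2 -
    ∫ t in (0:ℝ)..1, Qf P.R (loop C x t)) - T * ((∫ t in (0:ℝ)..1, P.Hh (loop C x t)) - b)
  have e10 : T * ((∫ t in (0:ℝ)..1, P.Hh (loop C x t)) - b) ≤ 0 :=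
    mul_nonpos_of_nonneg_of_nonpos hz (by linarith)
  have e11 : π * (S1 + 2 * S2) ≤ π * ∑ k : Idx N, ((k : ℤ) : ℝ) * ‖x k‖ ^ 2 :=
    mul_le_mul_of_nonneg_left hquad hpi.le
  rw [hfin]
  have e12 : π / 2 * α ^ 2 ≤ π * (S1 + 2 * S2) - 3 * π / 2 * S2 := by
    rw [← hS]
    nlinarith
  linarith

/-- the basic estimate above -/
private lemma linkEst_up [FiniteDimensional ℝ W] (C : CStr W) (P : HamData W) {N : ℕ}
    (hN : 1 ≤ N) {w : W} (hw : ‖w‖ = 1) (b : ℝ) (p : ↥(SigmaSet (W := W) N (6 * P.R))) :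
    (gal C P N).f b (base N (6 * P.R) w p) ≤
      -(π / 4) * p.1.2 ^ 2 - 5 * π / 4 * ‖p.1.1‖ ^ 2 + 15 * π / 2 * P.R ^ 2 ∧
    (gal C P N).f b (base N (6 * P.R) w p) ≤ π * p.1.2 ^ 2 := by
  have : CompleteSpace W := FiniteDimensional.complete ℝ W
  obtain ⟨⟨v, s⟩, hv0, hv1, hs0, hs1⟩ := p
  simp only at hv0 hv1 hs0 hs1
  have hR := P.R1
  have hR0 : 0 < P.R := by linarith
  have hpi := Real.pi_pos
  have hNz : (1 : ℤ) ≤ N := by exact_mod_cast hN
  let j1 : Idx N := ⟨1, by rw [Finset.mem_Icc]; omega⟩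
  have hj1 : ((j1 : Idx N) : ℤ) = 1 := rfl
  set x : EN N W := v + s • e1 N w with hx
  have hxk : ∀ k : Idx N, x k = v k + s • (if (k : ℤ) = 1 then w else 0) := fun k => rfl
  have hnk : ∀ k : Idx N, ‖x k‖ ^ 2 = ‖v k‖ ^ 2 + (if (k : ℤ) = 1 then s ^ 2 else 0) := by
    intro k
    rw [hxk]
    by_cases h : (k : ℤ) = 1
    · rw [if_pos h, if_pos h, hv0 k (by omega), zero_add, norm_smul, hw, norm_zero, mul_one,
        Real.norm_eq_abs, sq_abs]
      norm_num
    · rw [if_neg h, if_neg h, smul_zero, add_zero, add_zero]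
  have hsum1 : ∑ k : Idx N, (if (k : ℤ) = 1 then s ^ 2 else 0) = s ^ 2 := by
    rw [Finset.sum_eq_single j1]
    · rw [if_pos hj1]
    · intro k _ hk
      rw [if_neg]
      intro h
      exact hk (Subtype.ext h)
    · intro h
      exact absurd (Finset.mem_univ _) h
  have hnx : ‖x‖ ^ 2 = ‖v‖ ^ 2 + s ^ 2 := by
    rw [linkEst_normsq, linkEst_normsq, ← hsum1, ← Finset.sum_add_distrib]
    exact Finset.sum_congr rfl fun k _ => hnk k
  have hquad : ∑ k : Idx N, ((k : ℤ) : ℝ) * ‖x k‖ ^ 2 ≤ s ^ 2 := by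
    rw [← hsum1]
    refine Finset.sum_le_sum fun k _ => ?_
    by_cases h : (k : ℤ) = 1
    · rw [hnk, if_pos h, hv0 k (by omega), h]
      simp
    · rw [hnk, if_neg h, add_zero]
      rcases lt_or_ge 0 (k : ℤ) with h' | h'
      · rw [hv0 k h']
        simp
      · have h2r : ((k : ℤ) : ℝ) ≤ 0 := by exact_mod_cast h'
        exact mul_nonpos_of_nonpos_of_nonneg h2r (sq_nonneg _)
  have hval : (gal C P N).f b (base N (6 * P.R) w ⟨⟨v, s⟩, hv0, hv1, hs0, hs1⟩) =
      π * ∑ k : Idx N, ((k : ℤ) : ℝ) * ‖x k‖ ^ 2 - ∫ t in (0:ℝ)..1, Qf P.R (loop C x t) := by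
    change (π * ∑ k : Idx N, ((k : ℤ) : ℝ) * ‖x k‖ ^ 2 -
      ∫ t in (0:ℝ)..1, Qf P.R (loop C x t)) - 0 * _ = _
    rw [zero_mul, sub_zero]
  have hQ0 : 0 ≤ ∫ t in (0:ℝ)..1, Qf P.R (loop C x t) :=
    intervalIntegral.integral_nonneg zero_le_one fun t _ => Qf_nonneg _ _
  have hQ1 : 5 * π / 4 * ‖x‖ ^ 2 - 15 * π / 2 * P.R ^ 2 ≤
      ∫ t in (0:ℝ)..1, Qf P.R (loop C x t) := by
    have e1 : ∫ t in (0:ℝ)..1, (5 * π / 4 * ‖loop C x t‖ ^ 2 - 15 * π / 2 * P.R ^ 2) ≤
        ∫ t in (0:ℝ)..1, Qf P.R (loop C x t) := by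
      apply intervalIntegral.integral_mono_on zero_le_one
      · exact ((continuous_const.mul ((loop_continuous C _).norm.pow 2)).sub
          continuous_const).intervalIntegrable _ _
      · exact ((Qf_continuous P.R).comp (loop_continuous C x)).intervalIntegrable _ _
      · intro t _
        exact Qf_ge hR0 _
    refine le_trans (le_of_eq ?_) e1
    rw [linkEst_int_sub]
  have hq2 : π * ∑ k : Idx N, ((k : ℤ) : ℝ) * ‖x k‖ ^ 2 ≤ π * s ^ 2 :=
    mul_le_mul_of_nonneg_left hquad hpi.le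
  rw [hval]
  simp only
  rw [hnx] at hQ1
  constructor
  · nlinarith
  · linarith

theorem est_upper [FiniteDimensional ℝ W] (C : CStr W) (P : HamData W) {N : ℕ} (hN : 1 ≤ N)
    {w : W} (hw : ‖w‖ = 1) (b : ℝ) (p : ↥(SigmaSet (W := W) N (6 * P.R))) :
    (gal C P N).f b (base N (6 * P.R) w p) ≤ 15 * π / 2 * P.R ^ 2 := by
  refine (linkEst_up C P hN hw b p).1.trans ?_
  have hpi := Real.pi_pos
  have e1 : 0 ≤ π / 4 * p.1.2 ^ 2 := by positivity
  have e2 : 0 ≤ 5 * π / 4 * ‖p.1.1‖ ^ 2 := by positivity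
  linarith

theorem est_bd [FiniteDimensional ℝ W] (C : CStr W) (P : HamData W) {N : ℕ} (hN : 1 ≤ N)
    {w : W} (hw : ‖w‖ = 1) (b : ℝ) (p : ↥(SigmaSet (W := W) N (6 * P.R)))
    (hp : p ∈ bdSet (W := W) N (6 * P.R)) :
    (gal C P N).f b (base N (6 * P.R) w p) ≤ 0 := by
  obtain ⟨h1, h2⟩ := linkEst_up C P hN hw b p
  have hpi := Real.pi_pos
  have e1 : 0 ≤ π / 4 * p.1.2 ^ 2 := by positivity
  have e2 : 0 ≤ 5 * π / 4 * ‖p.1.1‖ ^ 2 := by positivity
  have e3 : 0 ≤ π * P.R ^ 2 := by positivity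
  rcases hp with h | h | h
  · rw [h] at h1
    nlinarith
  · rw [h] at h2
    simpa using h2
  · rw [h] at h1
    nlinarith

theorem gal_link [FiniteDimensional ℝ W] (C : CStr W) (P : HamData W) {N : ℕ} (hN : 1 ≤ N)
    {w : W} (hw : ‖w‖ = 1) :
    base N (6 * P.R) w ∈ Cls (bdSet (W := W) N (6 * P.R)) (base N (6 * P.R) w) ∧
    (∀ b, ∀ s ∈ bdSet (W := W) N (6 * P.R), (gal C P N).f b (base N (6 * P.R) w s) ≤ 0) ∧
    (∀ b s, (gal C P N).f b (base N (6 * P.R) w s) ≤ 15 * π / 2 * P.R ^ 2) ∧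
    ∀ b, 1 ≤ b → ∀ Z ∈ Cls (bdSet (W := W) N (6 * P.R)) (base N (6 * P.R) w),
      ∃ s, π / (32 * P.L ^ 2) ≤ (gal C P N).f b (Z s) := by
  have hL := P.L1
  have hR := P.R1
  have hz0 := P.z₀R
  have hzn := norm_nonneg P.z₀
  refine ⟨⟨?_, fun s => le_refl _, fun s _ => rfl⟩, fun b s hs => est_bd C P hN hw b s hs,
    fun b s => est_upper C P hN hw b s, fun b hb Z hZ => ?_⟩
  · unfold base
    fun_prop
  · have h1 : 1 / (4 * P.L) ≤ 1 / 4 := one_div_le_one_div_of_le (by norm_num) (by linarith)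
    obtain ⟨p, hp1, hp2, hp3⟩ := link hN (ρ := 6 * P.R) (α := 1 / (4 * P.L)) (z₀ := P.z₀)
      (by positivity) (by linarith) (by linarith) hw Z hZ.1 hZ.2.2
    exact ⟨p, est_lower C P hN hb (Z p) (hZ.2.1 p) hp1 hp2 hp3⟩

end Pool.Agent.H72.EZ
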