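import Pool.Agent.H72.EZ.QLem
import Pool.Agent.H72.EZ.Rot

/-!
# JOB EZ-DICH : orbits of the total Hamiltonian are either outside or inside the ball

PROOF of `dichotomy`. Suppose `‖x t₀‖ ≥ R`. Let `ω = 3π(1 - R/‖x t₀‖)` and
`y(t) = rot (ω(t-t₀)) (x t₀)`. Then `‖y t‖ = ‖x t₀‖ ≥ R`, so `gH (y t) = 0` (`gH_out`),
`gQ (y t) = ω • y t` (`gQ_of_le`), `y' = ω J y = J(gQ y + T gH y)`. The field `z ↦ J(gQ z + T gH z)` is
Lipschitz, so `x = y` (`ODE_solution_unique_univ`), and `‖x t‖ = ‖x t₀‖ ≥ R` for all `t`.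
`energy_const`: if `‖x t‖ < R` for all `t` then `gQ (x t) = 0` and `x' = T J gH(x)`,
`(Hh ∘ x)' = ⟨gH(x), T J gH(x)⟩ = 0`.
-/

open MeasureTheory Set Metric Filter Topology
open scoped Real InnerProductSpace

namespace Pool.Agent.H72.EZ

variable {W : Type} [NormedAddCommGroup W] [InnerProductSpace ℝ W]

theorem dichotomy (C : CStr W) (P : HamData W) {T : ℝ} {x : ℝ → W}
    (hx : ∀ t, HasDerivAt x (C.J (gQ P.R (x t) + T • P.gH (x t))) t) :
    (∀ t, P.R ≤ ‖x t‖) ∨ ∀ t, ‖x t‖ < P.R := by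
  by_cases hex : ∃ t₀, P.R ≤ ‖x t₀‖
  · left
    obtain ⟨t₀, ht₀⟩ := hex
    have hR : 0 < P.R := lt_of_lt_of_le one_pos P.R1
    obtain ⟨ω, hω⟩ : ∃ ω : ℝ, ω = 3 * π * (1 - P.R / ‖x t₀‖) := ⟨_, rfl⟩
    obtain ⟨y, hy⟩ : ∃ y : ℝ → W, y = fun t => C.rot (ω * (t - t₀)) (x t₀) := ⟨_, rfl⟩
    have hyn : ∀ t, ‖y t‖ = ‖x t₀‖ := by
      intro t
      rw [hy]
      exact C.norm_rot _ _
    have hyd : ∀ t, HasDerivAt y (C.J (gQ P.R (y t) + T • P.gH (y t))) t := by
      intro t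
      have h1 : P.R ≤ ‖y t‖ := by rw [hyn]; exact ht₀
      rw [P.gH_out _ h1, gQ_of_le h1, hyn, ← hω, smul_zero, add_zero, map_smul]
      have h2 := (C.hasDerivAt_rot ω (t - t₀) (x t₀)).comp_sub_const t t₀
      rw [hy]
      exact h2
    have hlip : ∀ t : ℝ, LipschitzOnWith (Real.toNNReal (6 * π + |T| * P.L))
        ((fun (_ : ℝ) (z : W) => C.J (gQ P.R z + T • P.gH z)) t) ((fun _ => univ) t) := by
      intro t
      apply LipschitzOnWith.of_dist_le_mul
      intro z _ w _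
      have hL : 0 ≤ P.L := le_trans zero_le_one P.L1
      rw [Real.coe_toNNReal _ (by positivity), dist_eq_norm, dist_eq_norm]
      rw [← map_sub, C.norm_J]
      have h3 : gQ P.R z + T • P.gH z - (gQ P.R w + T • P.gH w) =
          (gQ P.R z - gQ P.R w) + T • (P.gH z - P.gH w) := by
        rw [smul_sub]; abel
      rw [h3]
      refine (norm_add_le _ _).trans ?_
      rw [add_mul, norm_smul, Real.norm_eq_abs, mul_assoc |T|]
      exact add_le_add (gQ_lip hR z w)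
        (mul_le_mul_of_nonneg_left (P.gHlip z w) (abs_nonneg T))
    have hxy : x = y := ODE_solution_unique_univ hlip (fun t => ⟨hx t, mem_univ _⟩)
      (fun t => ⟨hyd t, mem_univ _⟩) (t₀ := t₀) (by
        rw [hy]
        simp only [sub_self, mul_zero]
        exact (C.rot_zero _).symm)
    intro t
    rw [hxy, hyn]
    exact ht₀
  · right
    push Not at hex
    exact hex

theorem inside_eq (C : CStr W) (P : HamData W) {T : ℝ} {x : ℝ → W}
    (hx : ∀ t, HasDerivAt x (C.J (gQ P.R (x t) + T • P.gH (x t))) t)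
    (hin : ∀ t, ‖x t‖ < P.R) (t : ℝ) : HasDerivAt x (T • C.J (P.gH (x t))) t := by
  have hR : 0 < P.R := lt_of_lt_of_le one_pos P.R1
  have h := hx t
  rw [gQ_eq_zero hR (hin t).le, zero_add, map_smul] at h
  exact h

theorem energy_const (C : CStr W) (P : HamData W) {T : ℝ} {x : ℝ → W}
    (hx : ∀ t, HasDerivAt x (T • C.J (P.gH (x t))) t) (t : ℝ) : P.Hh (x t) = P.Hh (x 0) := by
  have hd : ∀ s, HasDerivAt (fun s => P.Hh (x s)) 0 s := by
    intro s
    have h := (P.grad (x s)).comp_hasDerivAt s (hx s)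
    simp only [innerSL_apply_apply, inner_smul_right, C.inner_self_J, mul_zero] at h
    exact h
  exact is_const_of_deriv_eq_zero (fun s => (hd s).differentiableAt) (fun s => (hd s).deriv) t 0

/-- if the mean energy is not `5/2`, the limit orbit is an orbit of `Hh` -/
theorem limit_orbit [FiniteDimensional ℝ W] (C : CStr W) (P : HamData W) {T : ℝ} {x : ℝ → W}
    (hx : ∀ t, HasDerivAt x (C.J (gQ P.R (x t) + T • P.gH (x t))) t)
    (hp : ∀ t, x (t + 1) = x t) (he : (∫ t in (0:ℝ)..1, P.Hh (x t)) ≠ 5 / 2) :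
    IsOrb C P.Hh T x ∧ (∀ t, ‖x t‖ < P.R) ∧ (∫ t in (0:ℝ)..1, P.Hh (x t)) = P.Hh (x 0) ∧
      (∫ t in (0:ℝ)..1, ⟪gQ P.R (x t) + T • P.gH (x t), x t⟫_ℝ) / 2 -
        (∫ t in (0:ℝ)..1, Qf P.R (x t)) = act P.Hh T x := by
  have hR : 0 < P.R := lt_of_lt_of_le one_pos P.R1
  have hin : ∀ t, ‖x t‖ < P.R := by
    rcases dichotomy C P hx with h | h
    · exfalso
      apply he
      have h1 : ∀ t, P.Hh (x t) = 5 / 2 := fun t => P.out _ (h t)
      simp only [h1]
      simp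
    · exact h
  have hx' := inside_eq C P hx hin
  have hen := energy_const C P hx'
  refine ⟨⟨?_, hp⟩, hin, ?_, ?_⟩
  · intro t
    rw [P.gradient_eq]
    exact hx' t
  · simp only [hen]
    simp
  · unfold act
    have h1 : ∀ t, gQ P.R (x t) = 0 := fun t => gQ_eq_zero hR (hin t).le
    have h2 : ∀ t, Qf P.R (x t) = 0 := fun t => Qf_eq_zero (hin t).le
    simp only [h1, h2, P.gradient_eq, zero_add, intervalIntegral.integral_zero, sub_zero,
      real_inner_smul_left, intervalIntegral.integral_const_mul]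
    ring

end Pool.Agent.H72.EZ
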