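import Pool.Agent.H72.EZ.Lim
import Pool.Agent.H72.EZ.Dich

/-!
# JOB EZ-LOW : no low critical points of the Galerkin functional at an aperiodic level; shells

PROOF of `gal_low`. Otherwise for every `n` there are `N_n ≥ n` and a bad `z_n`. Apply `gal_limit` and
`limit_orbit`: along a subsequence `T_i → T ∈ [0,S]`, `h(x_i) → ∫Hh(x) =: e ≤ a < 5/2`, so `x` is an
orbit of `Hh` with parameter `T`, energy `e = Hh (x 0)`, and `T (a - e) = 0` (limit of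
`z.2 * (a - h z.1) = 0`). If `T > 0` then `e = a`: excluded by `haper`. If `T = 0`: `x` is constant and
`f_a(z_i) = g(x_i) - T_i (h(x_i) - a) → act P.Hh 0 x - 0 = 0` (`act` has the factor `τ/2 = 0`), but
`f_a(z_i) ≥ β'`: contradiction.
PROOF of `gal_shell`. Apply `gal_limit` (`S = T₂+1`): `h(x_i) → e`, `|a - e| ≤ lam < 1/4`, `a ≤ 2`, so
`e < 5/2`; `limit_orbit` gives the orbit; `f_a(z_i) → act P.Hh τ x - τ (Hh(x 0) - a)`.
-/

open MeasureTheory Set Metric Filter Topology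
open scoped Real InnerProductSpace

namespace Pool.Agent.H72.EZ

variable {W : Type} [NormedAddCommGroup W] [InnerProductSpace ℝ W]

theorem gal_low [FiniteDimensional ℝ W] (C : CStr W) (P : HamData W) {a S β' : ℝ}
    (ha1 : 1 ≤ a) (ha2 : a ≤ 2) (hS : 0 ≤ S) (hβ : 0 < β')
    (haper : ∀ T : ℝ, 0 < T → ∀ x : ℝ → W, IsOrb C P.Hh T x → P.Hh (x 0) = a → False) :
    ∃ N₁ : ℕ, ∀ N ≥ N₁, ∀ z : EN N W × ℝ, 0 ≤ z.2 → z.2 ≤ S → β' ≤ (gal C P N).f a z →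
      (gal C P N).gx z = 0 → (gal C P N).h z.1 ≤ a → z.2 * (a - (gal C P N).h z.1) = 0 →
      False := by
  by_contra hcon
  have hcon' : ∀ N₁ : ℕ, ∃ N, N₁ ≤ N ∧ ∃ z : EN N W × ℝ, 0 ≤ z.2 ∧ z.2 ≤ S ∧
      β' ≤ (gal C P N).f a z ∧ (gal C P N).gx z = 0 ∧ (gal C P N).h z.1 ≤ a ∧
      z.2 * (a - (gal C P N).h z.1) = 0 := by
    intro N₁
    by_contra h
    apply hcon
    refine ⟨N₁, fun N hN z h0 h1 h2 h3 h4 h5 => h ⟨N, hN, z, h0, h1, h2, h3, h4, h5⟩⟩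
  choose N hN z h0 h1 h2 h3 h4 h5 using hcon'
  have hN' : Tendsto N atTop atTop := tendsto_atTop_mono hN tendsto_id
  obtain ⟨φ, hφ, T, x, hT, hx, hp, hh, hg⟩ := gal_limit C P hS N hN' z h0 h1 h3
  have hea : (∫ t in (0:ℝ)..1, P.Hh (x t)) ≤ a := le_of_tendsto' hh fun i => h4 (φ i)
  have hne : (∫ t in (0:ℝ)..1, P.Hh (x t)) ≠ 5 / 2 := by
    intro h
    rw [h] at hea
    linarith
  obtain ⟨horb, -, he, hact⟩ := limit_orbit C P hx hp hne
  rw [hact] at hg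
  have hT0 : 0 ≤ T := ge_of_tendsto' hT fun i => h0 (φ i)
  have hTe : T * (a - ∫ t in (0:ℝ)..1, P.Hh (x t)) = 0 := by
    have h6 : Tendsto (fun i => (z (φ i)).2 * (a - (gal C P (N (φ i))).h (z (φ i)).1)) atTop
        (𝓝 (T * (a - ∫ t in (0:ℝ)..1, P.Hh (x t)))) := hT.mul (tendsto_const_nhds.sub hh)
    have h7 : Tendsto (fun i => (z (φ i)).2 * (a - (gal C P (N (φ i))).h (z (φ i)).1)) atTop
        (𝓝 0) := by
      have h8 : (fun i => (z (φ i)).2 * (a - (gal C P (N (φ i))).h (z (φ i)).1)) =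
          fun _ => (0:ℝ) := by
        funext i
        exact h5 (φ i)
      rw [h8]
      exact tendsto_const_nhds
    exact tendsto_nhds_unique h6 h7
  rcases hT0.eq_or_lt with hz | hpos
  · subst hz
    have h6 : Tendsto (fun i => (gal C P (N (φ i))).f a (z (φ i))) atTop
        (𝓝 (act P.Hh 0 x - 0 * ((∫ t in (0:ℝ)..1, P.Hh (x t)) - a))) :=
      hg.sub (hT.mul (hh.sub tendsto_const_nhds))
    have h7 : β' ≤ act P.Hh 0 x - 0 * ((∫ t in (0:ℝ)..1, P.Hh (x t)) - a) :=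
      ge_of_tendsto' h6 fun i => h2 (φ i)
    have h8 : act P.Hh 0 x = 0 := by
      unfold act
      simp
    rw [h8] at h7
    linarith
  · have h6 : a - ∫ t in (0:ℝ)..1, P.Hh (x t) = 0 := by
      rcases mul_eq_zero.1 hTe with h | h
      · exact absurd h hpos.ne'
      · exact h
    exact haper T hpos x horb (by rw [← he]; linarith)

theorem gal_shell [FiniteDimensional ℝ W] (C : CStr W) (P : HamData W) {a lam T₂ δ c : ℝ}
    (ha2 : a ≤ 2) (hlam : lam < 1 / 4) (hT₂ : 1 ≤ T₂)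
    (N : ℕ → ℕ) (hN : Tendsto N atTop atTop) (z : ∀ i, EN (N i) W × ℝ)
    (hz0 : ∀ i, T₂ ≤ (z i).2) (hzS : ∀ i, (z i).2 ≤ T₂ + 1)
    (hcr : ∀ i, (gal C P (N i)).gx (z i) = 0)
    (hh : ∀ i, |a - (gal C P (N i)).h (z i).1| ≤ lam)
    (cc : ℕ → ℝ) (hcc : Tendsto cc atTop (𝓝 c))
    (hf : ∀ i, |(gal C P (N i)).f a (z i) - cc i| ≤ δ) :
    ∃ τ ∈ Icc T₂ (T₂ + 1), ∃ x : ℝ → W, IsOrb C P.Hh τ x ∧ |P.Hh (x 0) - a| ≤ lam ∧
      |act P.Hh τ x - τ * (P.Hh (x 0) - a) - c| ≤ δ := by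
  obtain ⟨φ, hφ, T, x, hT, hx, hp, hhl, hg⟩ := gal_limit C P (S := T₂ + 1) (by linarith) N hN z
    (fun i => by linarith [hz0 i]) hzS hcr
  have hea : |a - ∫ t in (0:ℝ)..1, P.Hh (x t)| ≤ lam :=
    le_of_tendsto' (tendsto_const_nhds.sub hhl).abs fun i => hh (φ i)
  have hne : (∫ t in (0:ℝ)..1, P.Hh (x t)) ≠ 5 / 2 := by
    intro h
    rw [h] at hea
    have := (abs_le.1 hea).1
    linarith
  obtain ⟨horb, -, he, hact⟩ := limit_orbit C P hx hp hne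
  rw [hact] at hg
  refine ⟨T, ⟨ge_of_tendsto' hT fun i => hz0 (φ i), le_of_tendsto' hT fun i => hzS (φ i)⟩, x,
    horb, ?_, ?_⟩
  · rw [← he, abs_sub_comm]
    exact hea
  · have h6 : Tendsto (fun i => (gal C P (N (φ i))).f a (z (φ i))) atTop
        (𝓝 (act P.Hh T x - T * ((∫ t in (0:ℝ)..1, P.Hh (x t)) - a))) :=
      hg.sub (hT.mul (hhl.sub tendsto_const_nhds))
    rw [he] at h6
    have h7 : Tendsto (fun i => cc (φ i)) atTop (𝓝 c) := hcc.comp hφ.tendsto_atTop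
    exact le_of_tendsto' (h6.sub h7).abs fun i => hf (φ i)

end Pool.Agent.H72.EZ
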