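import Pool.Agent.H72.EZ.Barrier
import Pool.Agent.H72.EZ.GalReg
import Pool.Agent.H72.EZ.GalCoer
import Pool.Agent.H72.EZ.LinkEst
import Pool.Agent.H72.EZ.Low

/-!
# JOB EZ-CORE1 : growth of the min-max values or shell points

PROOF of `mmN_bounds`: `gal_link`, `FData.mm_le`, `FData.le_mm`, `FData.mm_mono`.
PROOF of `growth_or_shell`. Let `β = π/(32 L²)`, `δ = 4 l T`, `2δ ≤ β`. Take `N₁ ≥ 1` from `gal_low`
with `S = 2T+1`, `β' = β/2` (aperiodicity at `u`). Let `N ≥ N₁`, `c = mmN u ≥ β`. For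
`T₂ ∈ {T, 2T}` apply `FData.barrier` (`l T₂ ≤ δ`, `hL`: `f ≥ c - δ ≥ β/2`, `T₂ + 1 ≤ 2T + 1`,
so `gal_low` applies; regularity `gal_reg`, coercivity `gal_coer` with `S = T₂+1`). If the hypothesis
`hS` of the barrier lemma fails there is a shell point for `T₂`. If it holds for `T₂ = T` or for `T₂ = 2T`
then `mmN u + l T ≤ mmN (u+l)`.
-/

open MeasureTheory Set Metric Filter Topology
open scoped Real InnerProductSpace

namespace Pool.Agent.H72.EZ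

variable {W : Type} [NormedAddCommGroup W] [InnerProductSpace ℝ W]

/-- the min-max values of the Galerkin functional -/
noncomputable def mmN (C : CStr W) (P : HamData W) (w : W) (N : ℕ) (b : ℝ) : ℝ :=
  (gal C P N).mm (bdSet (W := W) N (6 * P.R)) (base N (6 * P.R) w) b

/-- shell points: `x`-critical points with `T₂ ≤ T ≤ T₂ + 1`, energy close to `u`, value close to
the min-max value -/
def ShellPt (C : CStr W) (P : HamData W) (w : W) (N : ℕ) (u T₂ δ : ℝ) (z : EN N W × ℝ) : Prop :=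
  T₂ ≤ z.2 ∧ z.2 ≤ T₂ + 1 ∧ mmN C P w N u - δ ≤ (gal C P N).f u z ∧
    (gal C P N).f u z ≤ mmN C P w N u + δ ∧ (gal C P N).gx z = 0 ∧
    |u - (gal C P N).h z.1| ≤ 32 * δ

theorem mmN_bounds [FiniteDimensional ℝ W] (C : CStr W) (P : HamData W) {w : W} (hw : ‖w‖ = 1)
    {N : ℕ} (hN : 1 ≤ N) {b : ℝ} (hb : 1 ≤ b) :
    π / (32 * P.L ^ 2) ≤ mmN C P w N b ∧ mmN C P w N b ≤ 15 * π / 2 * P.R ^ 2 := by
  obtain ⟨hcls, -, hup, hlow⟩ := gal_link C P hN hw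
  exact ⟨FData.le_mm hcls (hup b) (hlow b hb), FData.mm_le hcls (hup b) (hlow b hb)⟩

theorem mmN_mono [FiniteDimensional ℝ W] (C : CStr W) (P : HamData W) {w : W} (hw : ‖w‖ = 1)
    {N : ℕ} (hN : 1 ≤ N) : MonotoneOn (mmN C P w N) (Icc 1 2) := by
  obtain ⟨hcls, -, hup, hlow⟩ := gal_link C P hN hw
  intro b hb b' _ hbb
  exact FData.mm_mono hbb hcls (hup b') (hlow b hb.1)

/-- the barrier lemma for one value of `T₂` -/
theorem core1_aux [FiniteDimensional ℝ W] (C : CStr W) (P : HamData W) {w : W}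
    (hw : ‖w‖ = 1) {u l δ T₂ : ℝ} (hu : 1 ≤ u) (hu2 : u ≤ 2) (hl : 0 < l) (hT₂ : 1 ≤ T₂)
    (hδ : 0 < δ) (hlT : l * T₂ ≤ δ) (hδβ : 2 * δ ≤ π / (32 * P.L ^ 2)) {N : ℕ} (hN : 1 ≤ N)
    (hlow' : ∀ z : EN N W × ℝ, 0 ≤ z.2 → z.2 ≤ T₂ + 1 →
      π / (32 * P.L ^ 2) / 2 ≤ (gal C P N).f u z → (gal C P N).gx z = 0 →
      (gal C P N).h z.1 ≤ u → z.2 * (u - (gal C P N).h z.1) = 0 → False) :
    mmN C P w N u + l * T₂ ≤ mmN C P w N (u + l) ∨ ∃ z, ShellPt C P w N u T₂ δ z := by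
  by_cases hex : ∃ z, ShellPt C P w N u T₂ δ z
  · exact Or.inr hex
  left
  obtain ⟨hcls, hbd, hup, hlow⟩ := gal_link C P hN hw
  obtain ⟨L', hR⟩ := gal_reg C P N
  obtain ⟨R₂, -, hco⟩ := gal_coer C P (S := T₂ + 1) (by linarith)
  have hc := (mmN_bounds C P hw hN hu).1
  refine FData.barrier hR hu hu2 hl hδ hT₂ hlT (hco N) hcls (hbd u) (hup (u + l)) (hlow u hu) hδβ
    ?_ ?_
  · intro z h0 h1 h2 _ h4 h5 h6
    refine hlow' z h0 h1 ?_ h4 h5 h6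
    have h7 : mmN C P w N u - δ ≤ (gal C P N).f u z := h2
    linarith
  · intro z h0 h1 h2 h3 h4
    by_contra h5
    exact hex ⟨z, h0, h1, h2, h3, h4, not_lt.1 h5⟩

theorem growth_or_shell [FiniteDimensional ℝ W] (C : CStr W) (P : HamData W) {w : W}
    (hw : ‖w‖ = 1) {u l T : ℝ} (hu : 1 ≤ u) (hul : u + l ≤ 2) (hl : 0 < l) (hT : 1 ≤ T)
    (hδ : 8 * l * T ≤ π / (32 * P.L ^ 2))
    (haper : ∀ T' : ℝ, 0 < T' → ∀ x : ℝ → W, IsOrb C P.Hh T' x → P.Hh (x 0) = u → False) :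
    ∃ N₁ : ℕ, 1 ≤ N₁ ∧ ∀ N ≥ N₁, mmN C P w N u + l * T ≤ mmN C P w N (u + l) ∨
      ((∃ z, ShellPt C P w N u T (4 * l * T) z) ∧
        ∃ z, ShellPt C P w N u (2 * T) (4 * l * T) z) := by
  have hL := P.L1
  have hβ : 0 < π / (32 * P.L ^ 2) / 2 := by
    have := Real.pi_pos
    positivity
  have hlT : 0 < l * T := mul_pos hl (by linarith)
  obtain ⟨N₁, hN₁⟩ := gal_low C P hu (by linarith) (S := 2 * T + 1) (by linarith) hβ haper
  refine ⟨max N₁ 1, le_max_right _ _, fun N hN => ?_⟩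
  have hN1 : 1 ≤ N := (le_max_right _ _).trans hN
  have hN0 : N₁ ≤ N := (le_max_left _ _).trans hN
  have h1 := core1_aux C P hw (δ := 4 * l * T) (T₂ := T) hu (by linarith) hl hT (by nlinarith)
    (by nlinarith) (by linarith) hN1
    (fun z z0 z1 z2 z3 z4 z5 => hN₁ N hN0 z z0 (by linarith) z2 z3 z4 z5)
  have h2 := core1_aux C P hw (δ := 4 * l * T) (T₂ := 2 * T) hu (by linarith) hl (by linarith)
    (by nlinarith) (by nlinarith) (by linarith) hN1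
    (fun z z0 z1 z2 z3 z4 z5 => hN₁ N hN0 z z0 (by linarith) z2 z3 z4 z5)
  rcases h1 with h1 | h1
  · exact Or.inl h1
  · rcases h2 with h2 | h2
    · left
      nlinarith
    · exact Or.inr ⟨h1, h2⟩

end Pool.Agent.H72.EZ
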