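import Pool.Agent.H72.EZ.Core1

/-!
# JOB EZ-CORE2 : infinitely many shell points give an approximate coincidence

PROOF. Choose a strictly increasing sequence `N_i ≥ 1` with shell points `z_i` (`T₂ = T`) and `z'_i`
(`T₂ = 2T`) (`Filter.extraction_of_frequently_atTop`). `c_i = mmN u ∈ [β, C]` (`mmN_bounds`), so after
passing to a subsequence `c_i → c`. `gal_shell` with `δ = 4 l T`, `lam = 32 δ = 128 l T < 1/4`
gives orbits `x` (`τ ∈ [T,T+1]`) and `x'` (`τ' ∈ [2T,2T+1]`) of `P.Hh` with energies within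
`128 l T` of `u`, and `|act - τ(Hh(x 0) - u) - c| ≤ 4 l T`, the same for `x'`. So
`|act - act'| ≤ 8 l T + (T+1) 128 l T + (2T+1) 128 l T ≤ 900 T² l` (`T ≥ 1`:
`8lT + 128lT(3T+2) ≤ 8lT² + 640 l T²`). Finally for `u ≤ a ≤ u + l`:
`|Hh(x 0) - a| ≤ 128 l T + l ≤ 1000 T² l`, and `Coin` for the shifted Hamiltonian `Hh - 5/2` at `a - 5/2`:
the gradient is the same (`gradient_sub_const`-type fact; `IsOrb` and `act` only use the gradient),
the energies are shifted by `5/2`.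
-/

open MeasureTheory Set Metric Filter Topology
open scoped Real InnerProductSpace

namespace Pool.Agent.H72.EZ

variable {W : Type} [NormedAddCommGroup W] [InnerProductSpace ℝ W]

private lemma core2_gradient [FiniteDimensional ℝ W] (f : W → ℝ) (c : ℝ) :
    gradient (fun z => f z - c) = gradient f := by
  funext z
  unfold gradient
  rw [fderiv_sub_const]

private lemma core2_orb [FiniteDimensional ℝ W] (C : CStr W) (f : W → ℝ) (c : ℝ) {τ : ℝ}
    {x : ℝ → W} (h : IsOrb C f τ x) : IsOrb C (fun z => f z - c) τ x := by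
  unfold IsOrb
  rw [core2_gradient]
  exact h

private lemma core2_act [FiniteDimensional ℝ W] (f : W → ℝ) (c τ : ℝ) (x : ℝ → W) :
    act (fun z => f z - c) τ x = act f τ x := by
  unfold act
  rw [core2_gradient]

private lemma core2_mul {τ M e d : ℝ} (h0 : 0 ≤ τ) (h1 : τ ≤ M) (h2 : |e| ≤ d) (hd : 0 ≤ d) :
    |τ * e| ≤ M * d := by
  rw [abs_mul, abs_of_nonneg h0]
  exact mul_le_mul h1 h2 (abs_nonneg _) (h0.trans h1)

theorem coin_of_shell [FiniteDimensional ℝ W] (C : CStr W) (P : HamData W) {w : W}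
    (hw : ‖w‖ = 1) {u l T : ℝ} (hu : 1 ≤ u) (hul : u + l ≤ 2) (hl : 0 < l) (hT : 1 ≤ T)
    (hsm : 1000 * T ^ 2 * l ≤ 1 / 8)
    (hfr : ∃ᶠ N in atTop, (∃ z, ShellPt C P w N u T (4 * l * T) z) ∧
        ∃ z, ShellPt C P w N u (2 * T) (4 * l * T) z) :
    ∀ a ∈ Icc (u - 5 / 2) (u - 5 / 2 + l),
      Coin C (fun z => P.Hh z - 5 / 2) T (1000 * T ^ 2 * l) a := by
  obtain ⟨ψ, hψ, hP⟩ := Filter.extraction_of_frequently_atTop
    (hfr.and_eventually (eventually_ge_atTop 1))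
  obtain ⟨c₀, -, θ, hθ, hc⟩ := isCompact_Icc.tendsto_subseq
    (x := fun i => mmN C P w (ψ i) u)
    (fun i => mem_Icc.2 (mmN_bounds C P hw (hP i).2 hu))
  have hN : Tendsto (fun i => ψ (θ i)) atTop atTop := (hψ.comp hθ).tendsto_atTop
  have hz1 : ∀ i, ∃ z, ShellPt C P w (ψ (θ i)) u T (4 * l * T) z := fun i => (hP (θ i)).1.1
  have hz2 : ∀ i, ∃ z, ShellPt C P w (ψ (θ i)) u (2 * T) (4 * l * T) z :=
    fun i => (hP (θ i)).1.2
  choose z hz using hz1
  choose z' hz' using hz2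
  have hlT0 : 0 < l * T := mul_pos hl (by linarith)
  have hlT : l * T ≤ l * T ^ 2 := by nlinarith
  have hl1 : l ≤ l * T := by nlinarith
  have hcc : Tendsto (fun i => mmN C P w (ψ (θ i)) u) atTop (𝓝 c₀) := hc
  obtain ⟨τ, hτ, x, ho, hE, hA⟩ := gal_shell C P (a := u) (lam := 32 * (4 * l * T)) (T₂ := T)
    (δ := 4 * l * T) (c := c₀) (by linarith) (by nlinarith) hT (fun i => ψ (θ i)) hN z
    (fun i => (hz i).1) (fun i => (hz i).2.1) (fun i => (hz i).2.2.2.2.1)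
    (fun i => (hz i).2.2.2.2.2) _ hcc
    (fun i => abs_le.2 ⟨by linarith [(hz i).2.2.1], by linarith [(hz i).2.2.2.1]⟩)
  obtain ⟨τ', hτ', x', ho', hE', hA'⟩ := gal_shell C P (a := u) (lam := 32 * (4 * l * T))
    (T₂ := 2 * T) (δ := 4 * l * T) (c := c₀) (by linarith) (by nlinarith) (by linarith)
    (fun i => ψ (θ i)) hN z'
    (fun i => (hz' i).1) (fun i => (hz' i).2.1) (fun i => (hz' i).2.2.2.2.1)
    (fun i => (hz' i).2.2.2.2.2) _ hcc
    (fun i => abs_le.2 ⟨by linarith [(hz' i).2.2.1], by linarith [(hz' i).2.2.2.1]⟩)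
  intro a ha
  have hd0 : 0 ≤ 32 * (4 * l * T) := by linarith
  have b1 := core2_mul (by linarith [hτ.1]) hτ.2 hE hd0
  have b2 := core2_mul (by linarith [hτ'.1]) hτ'.2 hE' hd0
  refine ⟨τ, hτ, τ', hτ', x, x', core2_orb C _ _ ho, core2_orb C _ _ ho', ?_, ?_, ?_⟩
  · have h1 := abs_le.1 hE
    refine abs_le.2 ⟨?_, ?_⟩
    · linarith [h1.1, ha.2]
    · linarith [h1.2, ha.1]
  · have h1 := abs_le.1 hE'
    refine abs_le.2 ⟨?_, ?_⟩
    · linarith [h1.1, ha.2]
    · linarith [h1.2, ha.1]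
  · rw [core2_act, core2_act]
    have h1 := abs_le.1 hA
    have h2 := abs_le.1 hA'
    have h3 := abs_le.1 b1
    have h4 := abs_le.1 b2
    have h5 : (T + 1) * (32 * (4 * l * T)) + (2 * T + 1) * (32 * (4 * l * T)) + 8 * l * T ≤
        1000 * T ^ 2 * l := by
      have e1 : (T + 1) * (32 * (4 * l * T)) + (2 * T + 1) * (32 * (4 * l * T)) + 8 * l * T =
          384 * (l * T ^ 2) + 264 * (l * T) := by ring
      rw [e1]
      linarith
    refine abs_le.2 ⟨?_, ?_⟩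
    · linarith [h1.1, h2.2, h3.1, h4.2]
    · linarith [h1.2, h2.1, h3.2, h4.1]

end Pool.Agent.H72.EZ
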