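import Pool.Agent.H72.EZ.Null
import Pool.Agent.H72.EZ.Comp1
import Pool.Agent.H72.EZ.Comp2

/-!
# JOB EZ-UNIF : uniform smallness of the set of approximate coincidences

PROOF. Suppose not. Then for every `i` (with `η_i = 1/(i+1)`) there are `h_i` with `InH (m+1) M h_i`,
`m = sardOrd(..) + 4`, and a measurable `V_i ⊆ [-3/2,-1/2]` consisting of `a` with
`Coin C h_i T η_i a` and `volume V_i > θ`. By `InH.subseq` pass to a subsequence with `h_i → h'` (`C^m`).
Let `V = limsup V_i = ⋂_n ⋃_{i ≥ n} V_i`; `volume V ≥ θ > 0` (all `V_i` lie in an interval of finite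
measure, continuity from above of `⋃_{i≥n} V_i`: `measure_limsup...` /
`tendsto_measure_iInter_atTop`). For `a ∈ V` there is a further subsequence with `Coin C h_i T η_i a`,
so `Coin C h' T 0 a` by `coin_limit` (`a ≤ -1/2` so `a ≠ 0`). So `V ⊆ {a | Coin C h' T 0 a}`, which is
null by `coin_null`. Contradiction. (`h'` has compact support: it vanishes for `‖x‖ ≥ M`.)
-/

open MeasureTheory Set Metric Filter Topology
open scoped Real InnerProductSpace

namespace Pool.Agent.H72.EZ

variable {W : Type} [NormedAddCommGroup W] [InnerProductSpace ℝ W]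

theorem coin_uniform [FiniteDimensional ℝ W] (C : CStr W) {T : ℝ} (hT : 2 ≤ T) {M : ℝ}
    (hM : 0 < M) {θ : ℝ} (hθ : 0 < θ) :
    ∃ η : ℝ, 0 < η ∧ ∀ h : W → ℝ,
      InH (sardOrd (2 * (Module.finrank ℝ W + 1)) + 5) M h →
      ∀ V : Set ℝ, MeasurableSet V → V ⊆ Icc (-3 / 2) (-1 / 2) → (∀ a ∈ V, Coin C h T η a) →
        volume V ≤ ENNReal.ofReal θ := by
  classical
  by_contra hne
  push Not at hne
  choose h hh V hVm hVs hVc hVv using fun i : ℕ => hne (1 / ((i : ℝ) + 1)) (by positivity)
  obtain ⟨φ, hφ, h', hC', hs', hu, hg⟩ := InH.subseq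
    (m := sardOrd (2 * (Module.finrank ℝ W + 1)) + 4) (by omega) hM h hh
  have hfin : volume (Icc (-3 / 2 : ℝ) (-1 / 2)) ≠ ⊤ := by
    rw [Real.volume_Icc]
    exact ENNReal.ofReal_ne_top
  set A : ℕ → Set ℝ := fun n => ⋃ i, ⋃ (_ : n ≤ i), V (φ i) with hA
  have hAsub : ∀ n, A n ⊆ Icc (-3 / 2 : ℝ) (-1 / 2) := fun n =>
    iUnion_subset fun i => iUnion_subset fun _ => hVs (φ i)
  have hAm : ∀ n, MeasurableSet (A n) := fun n =>
    MeasurableSet.iUnion fun i => MeasurableSet.iUnion fun _ => hVm (φ i)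
  have hanti : Antitone A := by
    intro n m hnm
    refine iUnion_subset fun i => iUnion_subset fun hi => ?_
    exact subset_iUnion₂_of_subset i (hnm.trans hi) subset_rfl
  have hlim := tendsto_measure_iInter_atTop (μ := volume)
    (fun n => (hAm n).nullMeasurableSet) hanti
    ⟨0, ne_top_of_le_ne_top hfin (measure_mono (hAsub 0))⟩
  have hge : ENNReal.ofReal θ ≤ volume (⋂ n, A n) := by
    refine ge_of_tendsto hlim (Eventually.of_forall fun n => ?_)
    refine (hVv (φ n)).le.trans (measure_mono ?_)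
    exact subset_iUnion₂_of_subset n le_rfl subset_rfl
  have hsub : (⋂ n, A n) ⊆ {a : ℝ | Coin C h' T 0 a} := by
    intro a ha
    have hfr : ∃ᶠ i in atTop, a ∈ V (φ i) := by
      rw [frequently_atTop]
      intro n
      have h1 := mem_iInter.1 ha n
      obtain ⟨i, hi, h2⟩ := mem_iUnion₂.1 h1
      exact ⟨i, hi, h2⟩
    obtain ⟨ψ, hψ, hψV⟩ := extraction_of_frequently_atTop hfr
    have ha0 : a ≠ 0 := by
      have h1 := (hAsub 0 (mem_iInter.1 ha 0)).2
      intro h2
      rw [h2] at h1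
      norm_num at h1
    refine coin_limit C (M := M) (h := fun k => h (φ (ψ k))) (h' := h')
      (η := fun k => 1 / (((φ (ψ k) : ℕ) : ℝ) + 1)) (fun i x hx => (hh _).supp x hx)
      (hC'.of_le (by exact_mod_cast (by omega : 2 ≤ sardOrd (2 * (Module.finrank ℝ W + 1)) + 4)))
      hs' ?_ ?_ (by linarith) ha0 ?_ ?_
    · intro u hu'
      exact hψ.tendsto_atTop.eventually (hu u hu')
    · intro u hu'
      exact hψ.tendsto_atTop.eventually (hg u hu')
    · exact tendsto_one_div_add_atTop_nhds_zero_nat.comp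
        (hφ.tendsto_atTop.comp hψ.tendsto_atTop)
    · intro k
      exact hVc (φ (ψ k)) a (hψV k)
  have hcs : HasCompactSupport h' := by
    refine HasCompactSupport.intro (isCompact_closedBall (0 : W) M) fun x hx => ?_
    apply hs'
    rw [mem_closedBall, dist_zero_right, not_le] at hx
    exact hx.le
  have hnull := coin_null C (h := h')
    (hC'.of_le (by exact_mod_cast (by omega : sardOrd (2 * (Module.finrank ℝ W + 1)) + 3 ≤
      sardOrd (2 * (Module.finrank ℝ W + 1)) + 4))) hcs hT
  have h0 : ENNReal.ofReal θ ≤ 0 := by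
    rw [← hnull]
    exact hge.trans (measure_mono hsub)
  rw [nonpos_iff_eq_zero, ENNReal.ofReal_eq_zero] at h0
  linarith

end Pool.Agent.H72.EZ
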