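import Pool.Agent.H72.EZ.Core0
import Pool.Agent.H72.EZ.Core2
import Pool.Agent.H72.EZ.Cantor
import Pool.Agent.H72.EZ.Unif

/-!
# JOB EZ-CORE3 : the null set `K` and the contradiction

PROOF of `goodLen_exists`: `coin_uniform` with `M = j+1`, `T = (j+2)²`, `θ = 1/(2(j+2))` gives `η`; take
`l₀ = min η (1/(j+1)) / (1000 T²)`; `Coin` is monotone in `η`.
PROOF of `exists_null_set`. `K, L, l` from `exists_K (GoodLen C)`. Let `P` be as in the statement
and suppose that no level `a ∈ K` carries an orbit. Choose `M₀` with `InH m M₀ (Hh - 5/2)` and `j` so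
large that `j + 1 ≥ M₀`, `j ≥ 8`, `1/(j+1) ≤ π/(32 L²)`, `(j+2)/2 > 15π/2 R²`. `InH` is monotone in `M`. Put
`T = (j+2)²`, `l = l_j`; `1000 T² l ≤ 1/(j+1)`, so `8 l T ≤ 1/(j+1) ≤ π/(32L²)` and `1000T²l ≤ 1/8`.
For each `u ∈ L_j` take `N₁(u)` from `growth_or_shell` (`u ∈ K` is aperiodic), `N₁` the maximum. For
`N ≥ N₁` let `F_N = {u ∈ L_j | ¬ (mmN u + l T ≤ mmN (u+l))}`.
(a) If `2 card F_N ≤ card L_j` for some `N ≥ N₁`: `sum_growth` for `c = mmN` on `[1,2]`
(`mmN_mono`, `mmN_bounds`): `(card L_j / 2) l T ≤ ∑_{L_j} (c(u+l) - c u) ≤ c 2 - c 1 ≤ 15π/2 R²`, but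
`card L_j * l * T / 2 = (j+2)²/(2(j+2)) = (j+2)/2`. Contradiction.
(b) So `2 card F_N > card L_j` for all `N ≥ N₁`. There are finitely many subsets of `L_j`, so some
`F ⊆ L_j` equals `F_N` for infinitely many `N` (`Filter.frequently...`, pigeonhole). For `u ∈ F`
`coin_of_shell` gives `Coin C (Hh-5/2) T (1000T²l) a` for `a ∈ [u-5/2, u-5/2+l]`. The set
`V = ⋃_{u ∈ F} Icc (u-5/2) (u-5/2+l) ⊆ [-3/2,-1/2]` is measurable with
`volume V ≥ card F * l > card L_j * l / 2 = 1/(2(j+2))` (`volume_sep`), contradiction to `GoodLen`.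
-/

open MeasureTheory Set Metric Filter Topology
open scoped Real InnerProductSpace

namespace Pool.Agent.H72.EZ

variable {W : Type} [NormedAddCommGroup W] [InnerProductSpace ℝ W]

theorem InH.mono {m : ℕ} {M M' : ℝ} (hM : M ≤ M') {h : W → ℝ} (hh : InH m M h) :
    InH m M' h :=
  ⟨hh.smooth, fun x hx => hh.supp x (hM.trans hx), fun k hk x => (hh.bd k hk x).trans hM⟩

theorem Coin.mono [CompleteSpace W] {C : CStr W} {h : W → ℝ} {T η η' a : ℝ} (hη : η ≤ η')
    (hc : Coin C h T η a) : Coin C h T η' a := by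
  obtain ⟨τ, hτ, τ', hτ', x, x', h1, h2, h3, h4, h5⟩ := hc
  exact ⟨τ, hτ, τ', hτ', x, x', h1, h2, h3.trans hη, h4.trans hη, h5.trans hη⟩

/-- the smallness condition on the length at stage `j` -/
def GoodLen [CompleteSpace W] (C : CStr W) (j : ℕ) (l : ℝ) : Prop :=
  1000 * (((j : ℝ) + 2) ^ 2) ^ 2 * l ≤ 1 / (j + 1) ∧
  ∀ h : W → ℝ, InH (sardOrd (2 * (Module.finrank ℝ W + 1)) + 5) ((j : ℝ) + 1) h →
    ∀ V : Set ℝ, MeasurableSet V → V ⊆ Icc (-3 / 2) (-1 / 2) →
      (∀ a ∈ V, Coin C h (((j : ℝ) + 2) ^ 2) (1000 * (((j : ℝ) + 2) ^ 2) ^ 2 * l) a) →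
      volume V ≤ ENNReal.ofReal (1 / (2 * (j + 2)))

theorem goodLen_exists [FiniteDimensional ℝ W] (C : CStr W) (j : ℕ) :
    ∃ l₀ : ℝ, 0 < l₀ ∧ ∀ l, 0 < l → l ≤ l₀ → GoodLen C j l := by
  have hj0 : (0 : ℝ) ≤ j := Nat.cast_nonneg j
  obtain ⟨η, hη, hcoin⟩ := coin_uniform C (T := ((j : ℝ) + 2) ^ 2) (by nlinarith)
    (M := (j : ℝ) + 1) (by positivity) (θ := 1 / (2 * ((j : ℝ) + 2))) (by positivity)
  have hD : (0 : ℝ) < 1000 * (((j : ℝ) + 2) ^ 2) ^ 2 := by positivity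
  refine ⟨min η (1 / ((j : ℝ) + 1)) / (1000 * (((j : ℝ) + 2) ^ 2) ^ 2), by positivity,
    fun l hl hle => ?_⟩
  have h1 : 1000 * (((j : ℝ) + 2) ^ 2) ^ 2 * l ≤ min η (1 / ((j : ℝ) + 1)) := by
    rw [le_div_iff₀ hD] at hle
    linarith
  refine ⟨h1.trans (min_le_right _ _), fun h hh V hVm hVs hV => ?_⟩
  exact hcoin h hh V hVm hVs fun a ha => (hV a ha).mono (h1.trans (min_le_left _ _))

/-- pigeonhole: a function into a finite set of finsets is frequently constant -/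
theorem core3_pigeon (S : Finset ℝ) (F : ℕ → Finset ℝ) (hF : ∀ N, F N ⊆ S) :
    ∃ G ⊆ S, ∃ᶠ N in atTop, F N = G := by
  classical
  by_contra hcon
  push Not at hcon
  have h1 : ∀ G ∈ S.powerset, ∀ᶠ N in atTop, F N ≠ G := by
    intro G hG
    have := hcon G (Finset.mem_powerset.1 hG)
    simpa [Filter.not_frequently] using this
  have h2 := (Filter.eventually_all_finset S.powerset).2 h1
  obtain ⟨N, hN⟩ := h2.exists
  exact hN (F N) (Finset.mem_powerset.2 (hF N)) rfl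

theorem exists_null_set [FiniteDimensional ℝ W] [Nontrivial W] (C : CStr W) :
    ∃ K : Set ℝ, IsCompact K ∧ K ⊆ Icc 1 2 ∧ volume K = 0 ∧ ∀ P : HamData W,
      (∃ M : ℝ, InH (sardOrd (2 * (Module.finrank ℝ W + 1)) + 5) M (fun z => P.Hh z - 5 / 2)) →
      ∃ a ∈ K, ∃ T : ℝ, 0 < T ∧ ∃ x : ℝ → W, IsOrb C P.Hh T x ∧ P.Hh (x 0) = a := by
  classical
  obtain ⟨K, L, l, hKc, hK12, hK0, hl, hgood, hLK, hL12, hsep, hcard⟩ :=
    exists_K (GoodLen C) (goodLen_exists C)
  refine ⟨K, hKc, hK12, hK0, fun P hP => ?_⟩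
  obtain ⟨M, hM⟩ := hP
  by_contra hno
  push Not at hno
  obtain ⟨w, hw⟩ := exists_norm_eq W (zero_le_one : (0 : ℝ) ≤ 1)
  obtain ⟨j, hj⟩ := exists_nat_ge (|M| + 8 + 32 * P.L ^ 2 / π + 15 * π * P.R ^ 2)
  have hπ := Real.pi_pos
  have hL0 : (0 : ℝ) < P.L := lt_of_lt_of_le one_pos P.L1
  have hR0 : (0 : ℝ) < P.R := lt_of_lt_of_le one_pos P.R1
  have hA : (0 : ℝ) ≤ |M| := abs_nonneg M
  have hB : (0 : ℝ) ≤ 32 * P.L ^ 2 / π := by positivity
  have hC : (0 : ℝ) ≤ 15 * π * P.R ^ 2 := by positivity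
  have hj8 : (8 : ℝ) ≤ j := by linarith
  have hjM : M ≤ (j : ℝ) + 1 := by linarith [le_abs_self M]
  have hjL : 1 / ((j : ℝ) + 1) ≤ π / (32 * P.L ^ 2) := by
    rw [div_le_div_iff₀ (by linarith) (by positivity)]
    have h1 : 32 * P.L ^ 2 / π ≤ (j : ℝ) + 1 := by linarith
    rw [div_le_iff₀ hπ] at h1
    linarith
  set T : ℝ := ((j : ℝ) + 2) ^ 2 with hTdef
  have hT : 1 ≤ T := by nlinarith
  have hlj := hl j
  set lj : ℝ := l j with hljdef
  obtain ⟨hg1, hg2⟩ := hgood j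
  rw [← hTdef, ← hljdef] at hg1
  have hT2 : T ≤ T ^ 2 := by nlinarith
  have hlT : lj * T ≤ lj * T ^ 2 := mul_le_mul_of_nonneg_left hT2 hlj.le
  have hlT0 : 0 < lj * T := mul_pos hlj (by linarith)
  have h8 : 8 * lj * T ≤ π / (32 * P.L ^ 2) := by
    refine le_trans ?_ hjL
    refine le_trans ?_ hg1
    nlinarith
  have hsm : 1000 * T ^ 2 * lj ≤ 1 / 8 := by
    refine hg1.trans ?_
    rw [div_le_div_iff₀ (by linarith) (by norm_num)]
    linarith
  -- the alternative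
  have hev : ∀ᶠ N in atTop, ∀ u ∈ L j, mmN C P w N u + lj * T ≤ mmN C P w N (u + lj) ∨
      ((∃ z, ShellPt C P w N u T (4 * lj * T) z) ∧
        ∃ z, ShellPt C P w N u (2 * T) (4 * lj * T) z) := by
    rw [Filter.eventually_all_finset]
    intro u hu
    obtain ⟨N₁, hN₁, h⟩ := growth_or_shell C P hw (hL12 j u hu).1 (hL12 j u hu).2 hlj hT h8
      (fun T' hT' x hx he => hno u (hLK j u hu) T' hT' x hx he)
    exact eventually_atTop.2 ⟨N₁, h⟩
  -- the set of points without growth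
  set F : ℕ → Finset ℝ := fun N =>
    (L j).filter (fun u => ¬ (mmN C P w N u + lj * T ≤ mmN C P w N (u + lj))) with hFdef
  have hcardl : ((L j).card : ℝ) * lj = 1 / (j + 2) := hcard j
  have hbig : ∀ᶠ N in atTop, (L j).card < 2 * (F N).card := by
    filter_upwards [eventually_ge_atTop 1] with N hN
    by_contra hcon
    have hcon' : 2 * ((F N).card : ℝ) ≤ (L j).card := by exact_mod_cast not_lt.1 hcon
    have h1 := sum_growth (L j) hlj (by norm_num : (1 : ℝ) ≤ 2) (hsep j) (hL12 j)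
      (mmN_mono C P hw hN)
    have h2 := (mmN_bounds C P hw hN (le_refl (1 : ℝ))).1
    have h3 := (mmN_bounds C P hw hN (by norm_num : (1 : ℝ) ≤ 2)).2
    have h4 : 0 < π / (32 * P.L ^ 2) := by positivity
    have h5 : (((L j).card : ℝ) - (F N).card) * (lj * T) ≤
        ∑ u ∈ L j, (mmN C P w N (u + lj) - mmN C P w N u) := by
      have h6 := Finset.sum_filter_add_sum_filter_not (L j)
        (fun u => ¬ (mmN C P w N u + lj * T ≤ mmN C P w N (u + lj)))
        (fun u => mmN C P w N (u + lj) - mmN C P w N u)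
      have h7 : 0 ≤ ∑ u ∈ F N, (mmN C P w N (u + lj) - mmN C P w N u) := by
        refine Finset.sum_nonneg fun u hu => ?_
        have hu' := (Finset.mem_filter.1 hu).1
        have h8 := hL12 j u hu'
        have := mmN_mono C P hw hN (show u ∈ Icc (1 : ℝ) 2 from ⟨h8.1, by linarith [h8.2]⟩)
          (show u + lj ∈ Icc (1 : ℝ) 2 from ⟨by linarith [h8.1], h8.2⟩) (by linarith)
        linarith
      have h9 : (((L j).filter (fun u => ¬ ¬ (mmN C P w N u + lj * T ≤
          mmN C P w N (u + lj)))).card : ℝ) * (lj * T) ≤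
          ∑ u ∈ (L j).filter (fun u => ¬ ¬ (mmN C P w N u + lj * T ≤ mmN C P w N (u + lj))),
            (mmN C P w N (u + lj) - mmN C P w N u) := by
        rw [← nsmul_eq_mul]
        refine Finset.card_nsmul_le_sum _ _ _ fun u hu => ?_
        have := not_not.1 (Finset.mem_filter.1 hu).2
        linarith
      have h10 : ((L j).card : ℝ) = (F N).card + ((L j).filter (fun u => ¬ ¬ (mmN C P w N u +
          lj * T ≤ mmN C P w N (u + lj)))).card := by
        have := Finset.card_filter_add_card_filter_not (s := L j)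
          (fun u => ¬ (mmN C P w N u + lj * T ≤ mmN C P w N (u + lj)))
        rw [← this]
        push_cast
        rfl
      rw [← h6]
      have h11 : (((L j).card : ℝ) - (F N).card) * (lj * T) =
        (((L j).filter (fun u => ¬ ¬ (mmN C P w N u + lj * T ≤
          mmN C P w N (u + lj)))).card : ℝ) * (lj * T) := by
        rw [h10]; ring
      rw [h11]
      change _ ≤ ∑ u ∈ F N, (mmN C P w N (u + lj) - mmN C P w N u) + _
      linarith
    have h12 : ((L j).card : ℝ) / 2 * (lj * T) ≤ (((L j).card : ℝ) - (F N).card) * (lj * T) :=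
      mul_le_mul_of_nonneg_right (by linarith) hlT0.le
    have h13 : ((L j).card : ℝ) / 2 * (lj * T) = ((j : ℝ) + 2) / 2 := by
      have : ((L j).card : ℝ) / 2 * (lj * T) = ((L j).card : ℝ) * lj * T / 2 := by ring
      rw [this, hcardl, hTdef]
      field_simp
    have h14 : 15 * π / 2 * P.R ^ 2 < ((j : ℝ) + 2) / 2 := by linarith
    linarith
  -- pigeonhole
  obtain ⟨G, hGL, hG⟩ := core3_pigeon (L j) F fun N => Finset.filter_subset _ _
  have hG2 := (hG.and_eventually (hev.and hbig))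
  have hGcard : (L j).card < 2 * G.card := by
    obtain ⟨N, hN, _, h⟩ := hG2.exists
    rwa [hN] at h
  have hcoin : ∀ u ∈ G, ∀ a ∈ Icc (u - 5 / 2) (u - 5 / 2 + lj),
      Coin C (fun z => P.Hh z - 5 / 2) T (1000 * T ^ 2 * lj) a := by
    intro u hu
    have huL := hGL hu
    refine coin_of_shell C P hw (hL12 j u huL).1 (hL12 j u huL).2 hlj hT hsm ?_
    refine hG2.mono fun N hN => ?_
    obtain ⟨h1, h2, _⟩ := hN
    rcases h2 u huL with h3 | h3
    · rw [← h1] at hu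
      exact absurd h3 (Finset.mem_filter.1 hu).2
    · exact h3
  have hvol := volume_sep G (s := -5 / 2) hlj
    (fun u hu v hv huv => hsep j u (hGL hu) v (hGL hv) huv)
  have hV := hg2 (fun z => P.Hh z - 5 / 2) (hM.mono hjM)
    (⋃ u ∈ G, Icc (u + -5 / 2) (u + -5 / 2 + lj))
    (Finset.measurableSet_biUnion G fun u _ => measurableSet_Icc)
    (by
      refine iUnion₂_subset fun u hu => ?_
      have h1 := hL12 j u (hGL hu)
      intro a ha
      exact ⟨by linarith [ha.1, h1.1], by linarith [ha.2, h1.2]⟩)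
    (by
      intro a ha
      obtain ⟨u, hu, ha'⟩ := mem_iUnion₂.1 ha
      refine hcoin u hu a ⟨?_, ?_⟩
      · linarith [ha'.1]
      · linarith [ha'.2])
  have h1 := hvol.trans hV
  rw [ENNReal.ofReal_le_ofReal_iff (by positivity)] at h1
  have h2 : ((L j).card : ℝ) + 1 ≤ 2 * G.card := by exact_mod_cast hGcard
  have h3 : 1 / (2 * ((j : ℝ) + 2)) = ((L j).card : ℝ) * lj / 2 := by
    rw [hcardl]
    field_simp
  rw [h3] at h1
  nlinarith

end Pool.Agent.H72.EZ
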