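import Pool.Agent.H72.EZ.Defs

/-!
# JOB EZ-STEP : one Euler step of the deformation

`V = χ · (-μ gx, VT)`, `VT = (h - a)₊ - min(T,1) (a - h)₊`,
`χ = (1 - cut (T₂+1/2) (T₂+1) T) · cut (c-2δ) (c-δ) (f_a)`, `step z = z + τ V(z)`.

PROOF of `step_f_le`. Put `v = -(τ χ μ) gx`, `s = τ χ VT`, `T = z.2`. If `χ = 0` then `step z = z`
and the claim is trivial; otherwise `0 ≤ χ ≤ 1` and `T ≤ T₂ + 1`. By the Taylor estimates
`f(z') - f(z) = [g(x+v)-g(x)] - T [h(x+v)-h(x)] - s (h(x)-a) - s [h(x+v)-h(x)]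
  ≤ ⟨gx,v⟩ + s (a - h x) + (L + T L) ‖v‖² + |s| L ‖v‖ ≤ ⟨gx,v⟩ + s (a-h x) + L (T+2) (‖v‖² + s²)`.
`⟨gx,v⟩ = -τχμ‖gx‖²`, `s (a-h) = -τχ [(h-a)₊² + min(T,1)(a-h)₊²]` (because
`VT (a-h) = -((h-a)₊² + min(T,1)(a-h)₊²)`), `‖v‖² ≤ τ² χ μ (μ‖gx‖²)`,
`s² ≤ τ² χ ((h-a)₊² + min(T,1) (a-h)₊²)` (`VT²` is the sum of the squares since one of the two
parts vanishes, `min(T,1)² ≤ min(T,1)`). With `total = μ‖gx‖² + (h-a)₊² + min(T,1)(a-h)₊²`:
`L(T+2)(‖v‖²+s²) ≤ L (T₂+3) τ² μ χ total ≤ (τ/2) χ total`.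
-/

open MeasureTheory Set Metric Filter Topology
open scoped Real InnerProductSpace

namespace Pool.Agent.H72.EZ

/-- piecewise linear cutoff: `0` for `x ≤ lo`, `1` for `x ≥ hi` -/
noncomputable def cut (lo hi x : ℝ) : ℝ := max 0 (min 1 ((x - lo) / (hi - lo)))

theorem cut_continuous (lo hi : ℝ) : Continuous (cut lo hi) := by
  unfold cut
  exact continuous_const.max (continuous_const.min ((continuous_id.sub continuous_const).div_const _))

theorem cut_nonneg (lo hi x : ℝ) : 0 ≤ cut lo hi x := by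
  exact le_max_left _ _

theorem cut_le_one (lo hi x : ℝ) : cut lo hi x ≤ 1 := by
  exact max_le zero_le_one (min_le_left _ _)

theorem cut_eq_zero {lo hi x : ℝ} (h : lo < hi) (hx : x ≤ lo) : cut lo hi x = 0 := by
  unfold cut
  have h1 : (x - lo) / (hi - lo) ≤ 0 :=
    div_nonpos_of_nonpos_of_nonneg (by linarith) (by linarith)
  exact max_eq_left ((min_le_right _ _).trans h1)

theorem cut_eq_one {lo hi x : ℝ} (h : lo < hi) (hx : hi ≤ x) : cut lo hi x = 1 := by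
  unfold cut
  have h1 : 1 ≤ (x - lo) / (hi - lo) := by
    rw [le_div_iff₀ (by linarith)]; linarith
  rw [min_eq_left h1]
  exact max_eq_right zero_le_one

variable {E : Type} [NormedAddCommGroup E] [InnerProductSpace ℝ E]

namespace FData
variable (D : FData E)

/-- the `T`-component of the vector field -/
noncomputable def VT (a : ℝ) (z : E × ℝ) : ℝ :=
  max (D.h z.1 - a) 0 - min z.2 1 * max (a - D.h z.1) 0

/-- the cutoff -/
noncomputable def chi (a c δ T₂ : ℝ) (z : E × ℝ) : ℝ :=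
  (1 - cut (T₂ + 1 / 2) (T₂ + 1) z.2) * cut (c - 2 * δ) (c - δ) (D.f a z)

/-- the Euler step -/
noncomputable def step (a c δ T₂ μ τ : ℝ) (z : E × ℝ) : E × ℝ :=
  (z.1 - (τ * D.chi a c δ T₂ z * μ) • D.gx z, z.2 + τ * D.chi a c δ T₂ z * D.VT a z)

/-- the decrease rate -/
noncomputable def rate (a μ : ℝ) (z : E × ℝ) : ℝ :=
  μ * ‖D.gx z‖ ^ 2 + (max (D.h z.1 - a) 0) ^ 2 + min z.2 1 * (max (a - D.h z.1) 0) ^ 2

theorem chi_nonneg (a c δ T₂ : ℝ) (z : E × ℝ) : 0 ≤ D.chi a c δ T₂ z := by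
  exact mul_nonneg (sub_nonneg.2 (cut_le_one _ _ _)) (cut_nonneg _ _ _)

theorem chi_le_one (a c δ T₂ : ℝ) (z : E × ℝ) : D.chi a c δ T₂ z ≤ 1 := by
  unfold chi
  have h1 := cut_nonneg (T₂ + 1 / 2) (T₂ + 1) z.2
  exact mul_le_one₀ (by linarith) (cut_nonneg _ _ _) (cut_le_one _ _ _)

theorem chi_eq_one {a c δ T₂ : ℝ} {z : E × ℝ} (hδ : 0 < δ) (hT : z.2 ≤ T₂ + 1 / 2)
    (hf : c - δ ≤ D.f a z) : D.chi a c δ T₂ z = 1 := by
  unfold chi
  rw [cut_eq_zero (by linarith) hT, cut_eq_one (by linarith) hf]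
  norm_num

theorem step_eq_of_chi {a c δ T₂ μ τ : ℝ} {z : E × ℝ} (h : D.chi a c δ T₂ z = 0) :
    D.step a c δ T₂ μ τ z = z := by
  unfold step
  rw [h]
  simp

theorem step_VT_abs {a : ℝ} {z : E × ℝ} (hz : 0 ≤ z.2) : |D.VT a z| ≤ |a - D.h z.1| := by
  unfold VT
  have hT1 : min z.2 1 ≤ 1 := min_le_right _ _
  have hT0 : 0 ≤ min z.2 1 := le_min hz zero_le_one
  rcases le_total a (D.h z.1) with h | h
  · rw [max_eq_left (by linarith : (0:ℝ) ≤ D.h z.1 - a),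
      max_eq_right (by linarith : a - D.h z.1 ≤ 0), mul_zero, sub_zero, abs_sub_comm]
  · rw [max_eq_right (by linarith : D.h z.1 - a ≤ 0),
      max_eq_left (by linarith : (0:ℝ) ≤ a - D.h z.1), zero_sub, abs_neg, abs_mul,
      abs_of_nonneg hT0]
    exact mul_le_of_le_one_left (abs_nonneg _) hT1

theorem step_VT_id {a : ℝ} {z : E × ℝ} (hz : 0 ≤ z.2) :
    D.VT a z * (a - D.h z.1) =
      -((max (D.h z.1 - a) 0) ^ 2 + min z.2 1 * (max (a - D.h z.1) 0) ^ 2) ∧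
    D.VT a z ^ 2 ≤ (max (D.h z.1 - a) 0) ^ 2 + min z.2 1 * (max (a - D.h z.1) 0) ^ 2 := by
  unfold VT
  have hT1 : min z.2 1 ≤ 1 := min_le_right _ _
  have hT0 : 0 ≤ min z.2 1 := le_min hz zero_le_one
  rcases le_total a (D.h z.1) with h | h
  · rw [max_eq_left (by linarith : (0:ℝ) ≤ D.h z.1 - a),
      max_eq_right (by linarith : a - D.h z.1 ≤ 0)]
    constructor
    · ring
    · apply le_of_eq; ring
  · rw [max_eq_right (by linarith : D.h z.1 - a ≤ 0),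
      max_eq_left (by linarith : (0:ℝ) ≤ a - D.h z.1)]
    constructor
    · ring
    · have h1 : 0 ≤ (a - D.h z.1) ^ 2 := sq_nonneg _
      have h2 : min z.2 1 ^ 2 ≤ min z.2 1 := by nlinarith
      calc (0 - min z.2 1 * (a - D.h z.1)) ^ 2 = min z.2 1 ^ 2 * (a - D.h z.1) ^ 2 := by ring
        _ ≤ min z.2 1 * (a - D.h z.1) ^ 2 := mul_le_mul_of_nonneg_right h2 h1
        _ = 0 ^ 2 + min z.2 1 * (a - D.h z.1) ^ 2 := by ring

variable {D}

theorem Reg.step_h_continuous {L : ℝ} (hR : D.Reg L) : Continuous D.h := by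
  have : LipschitzWith ⟨L, hR.L0⟩ D.h := by
    apply LipschitzWith.of_dist_le_mul
    intro x y
    have h1 := hR.lh y (x - y)
    rw [add_sub_cancel] at h1
    rw [Real.dist_eq, dist_eq_norm]
    exact h1
  exact this.continuous

theorem Reg.step_g_continuous {L : ℝ} (hR : D.Reg L) : Continuous D.g := by
  rw [continuous_iff_continuousAt]
  intro x
  have h1 : Tendsto (fun y => ‖D.gg x‖ * ‖y - x‖ + L * ‖y - x‖ ^ 2) (𝓝 x) (𝓝 0) := by
    have hc : Continuous fun y => ‖D.gg x‖ * ‖y - x‖ + L * ‖y - x‖ ^ 2 := by fun_prop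
    have h2 := hc.tendsto x
    simpa using h2
  rw [ContinuousAt, tendsto_iff_dist_tendsto_zero]
  refine squeeze_zero (fun _ => dist_nonneg) (fun y => ?_) h1
  have h2 := hR.tg x (y - x)
  rw [add_sub_cancel] at h2
  rw [Real.dist_eq]
  have h3 : |⟪D.gg x, y - x⟫_ℝ| ≤ ‖D.gg x‖ * ‖y - x‖ := abs_real_inner_le_norm _ _
  have h4 : |D.g y - D.g x| ≤ |D.g y - D.g x - ⟪D.gg x, y - x⟫_ℝ| + |⟪D.gg x, y - x⟫_ℝ| := by
    have := abs_add_le (D.g y - D.g x - ⟪D.gg x, y - x⟫_ℝ) ⟪D.gg x, y - x⟫_ℝ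
    rwa [sub_add_cancel] at this
  linarith

theorem Reg.step_continuous {L : ℝ} (hR : D.Reg L) (a c δ T₂ μ τ : ℝ) :
    Continuous (D.step a c δ T₂ μ τ) := by
  have hh := hR.step_h_continuous
  have hg := hR.step_g_continuous
  have c1 := hR.cgg
  have c2 := hR.cgh
  have cf : Continuous (D.f a) := by
    unfold f
    exact (hg.comp continuous_fst).sub (continuous_snd.mul ((hh.comp continuous_fst).sub
      continuous_const))
  have cx : Continuous D.gx := by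
    unfold gx
    exact (c1.comp continuous_fst).sub (continuous_snd.smul (c2.comp continuous_fst))
  have cc : Continuous (D.chi a c δ T₂) := by
    unfold chi
    exact (continuous_const.sub ((cut_continuous _ _).comp continuous_snd)).mul
      ((cut_continuous _ _).comp cf)
  have cV : Continuous (D.VT a) := by
    unfold VT
    exact (((hh.comp continuous_fst).sub continuous_const).max continuous_const).sub
      ((continuous_snd.min continuous_const).mul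
        ((continuous_const.sub (hh.comp continuous_fst)).max continuous_const))
  unfold step
  exact (continuous_fst.sub (((continuous_const.mul cc).mul continuous_const).smul cx)).prodMk
    (continuous_snd.add ((continuous_const.mul cc).mul cV))

theorem Reg.step_nonneg {L a c δ T₂ μ τ : ℝ} (hR : D.Reg L) (ha1 : 1 ≤ a) (ha2 : a ≤ 2)
    (hτ0 : 0 < τ) (hτ1 : 3 * τ ≤ 1) {z : E × ℝ} (hz : 0 ≤ z.2) :
    0 ≤ (D.step a c δ T₂ μ τ z).2 := by
  have h1 := D.chi_nonneg a c δ T₂ z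
  have h2 := D.chi_le_one a c δ T₂ z
  have hlo := hR.hlo z.1
  have hm0 : 0 ≤ max (D.h z.1 - a) 0 := le_max_right _ _
  have hm1 : 0 ≤ max (a - D.h z.1) 0 := le_max_right _ _
  have hm2 : max (a - D.h z.1) 0 ≤ 3 / 2 := max_le (by linarith) (by norm_num)
  have hT1 : min z.2 1 ≤ z.2 := min_le_left _ _
  have hT0 : 0 ≤ min z.2 1 := le_min hz zero_le_one
  have hV : -(z.2 * (3 / 2)) ≤ D.VT a z := by
    unfold VT
    have : min z.2 1 * max (a - D.h z.1) 0 ≤ z.2 * (3 / 2) :=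
      mul_le_mul hT1 hm2 hm1 hz
    linarith
  have hk0 : 0 ≤ τ * D.chi a c δ T₂ z := mul_nonneg hτ0.le h1
  have hk1 : τ * D.chi a c δ T₂ z ≤ 1 / 3 := by
    have : τ * D.chi a c δ T₂ z ≤ τ * 1 := mul_le_mul_of_nonneg_left h2 hτ0.le
    linarith
  have h3 : τ * D.chi a c δ T₂ z * -(z.2 * (3 / 2)) ≤ τ * D.chi a c δ T₂ z * D.VT a z :=
    mul_le_mul_of_nonneg_left hV hk0
  have h4 : τ * D.chi a c δ T₂ z * (z.2 * (3 / 2)) ≤ 1 / 3 * (z.2 * (3 / 2)) :=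
    mul_le_mul_of_nonneg_right hk1 (by positivity)
  show 0 ≤ z.2 + τ * D.chi a c δ T₂ z * D.VT a z
  linarith

theorem Reg.step_snd_le {L a c δ T₂ μ τ : ℝ} (hR : D.Reg L) (ha1 : 1 ≤ a) (ha2 : a ≤ 2)
    (hτ0 : 0 < τ) {z : E × ℝ} (hz : 0 ≤ z.2) :
    |(D.step a c δ T₂ μ τ z).2 - z.2| ≤ τ * D.chi a c δ T₂ z * |a - D.h z.1| ∧
      |(D.step a c δ T₂ μ τ z).2 - z.2| ≤ 3 * τ := by
  have h1 := D.chi_nonneg a c δ T₂ z
  have h2 := D.chi_le_one a c δ T₂ z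
  have hlo := hR.hlo z.1
  have hhi := hR.hhi z.1
  have hV := D.step_VT_abs (a := a) hz
  have hk0 : 0 ≤ τ * D.chi a c δ T₂ z := mul_nonneg hτ0.le h1
  have he : (D.step a c δ T₂ μ τ z).2 - z.2 = τ * D.chi a c δ T₂ z * D.VT a z := by
    show z.2 + τ * D.chi a c δ T₂ z * D.VT a z - z.2 = _
    ring
  have h3 : |(D.step a c δ T₂ μ τ z).2 - z.2| ≤ τ * D.chi a c δ T₂ z * |a - D.h z.1| := by
    rw [he, abs_mul, abs_of_nonneg hk0]
    exact mul_le_mul_of_nonneg_left hV hk0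
  refine ⟨h3, h3.trans ?_⟩
  have h4 : |a - D.h z.1| ≤ 3 := by
    rw [abs_le]; constructor <;> linarith
  have h5 : τ * D.chi a c δ T₂ z ≤ τ := by
    have : τ * D.chi a c δ T₂ z ≤ τ * 1 := mul_le_mul_of_nonneg_left h2 hτ0.le
    linarith
  calc τ * D.chi a c δ T₂ z * |a - D.h z.1| ≤ τ * 3 :=
        mul_le_mul h5 h4 (abs_nonneg _) hτ0.le
    _ = 3 * τ := by ring

theorem step_eq_self {a c δ T₂ μ τ : ℝ} (hδ : 0 < δ) {z : E × ℝ} (hf : D.f a z ≤ c - 2 * δ) :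
    D.step a c δ T₂ μ τ z = z := by
  have h0 : D.chi a c δ T₂ z = 0 := by
    unfold chi
    rw [cut_eq_zero (by linarith) hf, mul_zero]
  exact D.step_eq_of_chi h0

theorem step_eq_self' {a c δ T₂ μ τ : ℝ} {z : E × ℝ} (hT : T₂ + 1 ≤ z.2) :
    D.step a c δ T₂ μ τ z = z := by
  have h0 : D.chi a c δ T₂ z = 0 := by
    unfold chi
    rw [cut_eq_one (by linarith) hT, sub_self, zero_mul]
  exact D.step_eq_of_chi h0

theorem Reg.step_f_le {L a c δ T₂ μ τ : ℝ} (hR : D.Reg L) (hδ : 0 < δ) (hT₂ : 0 ≤ T₂)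
    (hμ : 1 ≤ μ) (hτ0 : 0 < τ) (hτ : L * (T₂ + 3) * τ * μ ≤ 1 / 2) {z : E × ℝ} (hz : 0 ≤ z.2) :
    D.f a (D.step a c δ T₂ μ τ z) ≤
      D.f a z - τ / 2 * (D.chi a c δ T₂ z * D.rate a μ z) := by
  rcases eq_or_lt_of_le (D.chi_nonneg a c δ T₂ z) with h0 | h0
  · rw [D.step_eq_of_chi h0.symm, ← h0]
    simp
  have hT : z.2 ≤ T₂ + 1 := by
    by_contra h
    have : D.chi a c δ T₂ z = 0 := by
      unfold chi
      rw [cut_eq_one (by linarith) (not_le.1 h).le, sub_self, zero_mul]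
    linarith
  have hc1 := D.chi_le_one a c δ T₂ z
  obtain ⟨hV1, hV2⟩ := D.step_VT_id (a := a) hz
  have hA : 0 ≤ (max (D.h z.1 - a) 0) ^ 2 + min z.2 1 * (max (a - D.h z.1) 0) ^ 2 := by
    have : 0 ≤ min z.2 1 := le_min hz zero_le_one
    positivity
  set χ := D.chi a c δ T₂ z with hχ
  set A := (max (D.h z.1 - a) 0) ^ 2 + min z.2 1 * (max (a - D.h z.1) 0) ^ 2 with hAdef
  have hrate : D.rate a μ z = μ * ‖D.gx z‖ ^ 2 + A := by
    unfold rate; rw [hAdef]; ring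
  set P := ‖D.gx z‖ ^ 2 with hP
  have hP0 : 0 ≤ P := by positivity
  set v : E := -((τ * χ * μ) • D.gx z) with hv
  set σ := τ * χ * D.VT a z with hσ
  have hL0 := hR.L0
  have hx1 : (D.step a c δ T₂ μ τ z).1 = z.1 + v := by
    rw [hv, ← sub_eq_add_neg]; rfl
  have hx2 : (D.step a c δ T₂ μ τ z).2 = z.2 + σ := rfl
  have e1 := (abs_le.1 (hR.tg z.1 v)).2
  have e2 := (abs_le.1 (hR.th z.1 v)).1
  have e3 := hR.lh z.1 v
  have hin : ⟪D.gg z.1, v⟫_ℝ - z.2 * ⟪D.gh z.1, v⟫_ℝ = -(τ * χ * (μ * P)) := by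
    have : ⟪D.gx z, v⟫_ℝ = ⟪D.gg z.1, v⟫_ℝ - z.2 * ⟪D.gh z.1, v⟫_ℝ := by
      unfold gx
      rw [inner_sub_left, real_inner_smul_left]
    rw [← this, hv, inner_neg_right, real_inner_smul_right, real_inner_self_eq_norm_sq]
    ring
  have hvn : ‖v‖ ^ 2 = (τ * χ * μ) ^ 2 * P := by
    rw [hv, norm_neg, norm_smul, mul_pow, Real.norm_eq_abs, sq_abs]
  have hsv : |σ * (D.h (z.1 + v) - D.h z.1)| ≤ L * (‖v‖ ^ 2 + σ ^ 2) := by
    rw [abs_mul]
    have h1 : |σ| * |D.h (z.1 + v) - D.h z.1| ≤ |σ| * (L * ‖v‖) :=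
      mul_le_mul_of_nonneg_left e3 (abs_nonneg _)
    have h2 : |σ| * ‖v‖ ≤ ‖v‖ ^ 2 + σ ^ 2 := by
      have := sq_abs σ
      nlinarith [sq_nonneg (|σ| - ‖v‖), sq_nonneg (|σ|), sq_nonneg ‖v‖]
    calc |σ| * |D.h (z.1 + v) - D.h z.1| ≤ L * (|σ| * ‖v‖) := by linarith
      _ ≤ L * (‖v‖ ^ 2 + σ ^ 2) := mul_le_mul_of_nonneg_left h2 hL0
  have hsv' := (abs_le.1 hsv).1
  have hzt : z.2 * (D.h (z.1 + v) - D.h z.1) ≥
      z.2 * (⟪D.gh z.1, v⟫_ℝ - L * ‖v‖ ^ 2) :=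
    mul_le_mul_of_nonneg_left (by linarith) hz
  have hVσ : σ * (a - D.h z.1) = -(τ * χ * A) := by
    rw [hσ]
    calc τ * χ * D.VT a z * (a - D.h z.1) = τ * χ * (D.VT a z * (a - D.h z.1)) := by ring
      _ = -(τ * χ * A) := by rw [hV1]; ring
  -- Taylor
  have key : D.f a (D.step a c δ T₂ μ τ z) ≤ D.f a z - τ * χ * (μ * P) - τ * χ * A +
      L * (z.2 + 2) * (‖v‖ ^ 2 + σ ^ 2) := by
    unfold f
    rw [hx1, hx2]
    have hzL : 0 ≤ z.2 * (L * σ ^ 2) := by positivity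
    have hzL2 : 0 ≤ L * σ ^ 2 := by positivity
    nlinarith
  have hτχ : 0 ≤ τ * χ := mul_nonneg hτ0.le h0.le
  have hχ2 : χ ^ 2 ≤ χ := by nlinarith
  have hsum : ‖v‖ ^ 2 + σ ^ 2 ≤ τ ^ 2 * χ * μ * (μ * P + A) := by
    have h1 : ‖v‖ ^ 2 ≤ τ ^ 2 * χ * μ * (μ * P) := by
      rw [hvn]
      calc (τ * χ * μ) ^ 2 * P = χ ^ 2 * (τ ^ 2 * μ ^ 2 * P) := by ring
        _ ≤ χ * (τ ^ 2 * μ ^ 2 * P) := mul_le_mul_of_nonneg_right hχ2 (by positivity)
        _ = τ ^ 2 * χ * μ * (μ * P) := by ring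
    have h2 : σ ^ 2 ≤ τ ^ 2 * χ * μ * A := by
      calc σ ^ 2 = χ ^ 2 * (τ ^ 2 * D.VT a z ^ 2) := by rw [hσ]; ring
        _ ≤ χ * (τ ^ 2 * D.VT a z ^ 2) := mul_le_mul_of_nonneg_right hχ2 (by positivity)
        _ ≤ χ * (τ ^ 2 * A) := by
            apply mul_le_mul_of_nonneg_left _ h0.le
            exact mul_le_mul_of_nonneg_left hV2 (by positivity)
        _ = τ ^ 2 * χ * 1 * A := by ring
        _ ≤ τ ^ 2 * χ * μ * A := by
            apply mul_le_mul_of_nonneg_right _ hA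
            exact mul_le_mul_of_nonneg_left hμ (by positivity)
    linarith
  have hrate0 : 0 ≤ μ * P + A := by
    have : 0 ≤ μ := by linarith
    positivity
  have hfin : L * (z.2 + 2) * (‖v‖ ^ 2 + σ ^ 2) ≤ τ / 2 * χ * (μ * P + A) := by
    have hs0 : 0 ≤ ‖v‖ ^ 2 + σ ^ 2 := by positivity
    calc L * (z.2 + 2) * (‖v‖ ^ 2 + σ ^ 2) ≤ L * (T₂ + 3) * (‖v‖ ^ 2 + σ ^ 2) := by
          apply mul_le_mul_of_nonneg_right _ hs0
          exact mul_le_mul_of_nonneg_left (by linarith) hL0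
      _ ≤ L * (T₂ + 3) * (τ ^ 2 * χ * μ * (μ * P + A)) := by
          apply mul_le_mul_of_nonneg_left hsum
          exact mul_nonneg hL0 (by linarith)
      _ = L * (T₂ + 3) * τ * μ * (τ * χ * (μ * P + A)) := by ring
      _ ≤ 1 / 2 * (τ * χ * (μ * P + A)) :=
          mul_le_mul_of_nonneg_right hτ (mul_nonneg hτχ hrate0)
      _ = τ / 2 * χ * (μ * P + A) := by ring
  rw [hrate]
  calc D.f a (D.step a c δ T₂ μ τ z) ≤ D.f a z - τ * χ * (μ * P) - τ * χ * A +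
      L * (z.2 + 2) * (‖v‖ ^ 2 + σ ^ 2) := key
    _ ≤ D.f a z - τ * χ * (μ * P) - τ * χ * A + τ / 2 * χ * (μ * P + A) := by linarith
    _ = D.f a z - τ / 2 * (χ * (μ * P + A)) := by ring

end FData

end Pool.Agent.H72.EZ
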