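import Pool.Agent.H72.EZ.Kap
import Pool.Agent.H72.EZ.Step

/-!
# JOB EZ-DEFORM : the deformation lemma

PROOF. `κ₁, κ₂` from `exists_kappa1` (`S = T₂+1`), `exists_kappa2` (`lam = 32 δ`). Choose `μ ≥ 1` with
`μ κ₂ ≥ (32δ)²`, then `τ > 0` with `3τ ≤ 1/100`, `L (T₂+3) τ μ ≤ 1/2`, then `n` with
`n (τ/2) κ₁ > 2δ`. `Φ = step^[n]`. Continuity, `(Φ z).2 ≥ 0`, `Φ z = z` if `f ≤ c - 2δ`, and
`f (Φ z) ≤ f z` are immediate from the lemmas of `Step.lean` (`rate ≥ 0`, `chi ≥ 0`).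
Last claim: let `0 ≤ z.2 < T₂`, `f z ≤ c + δ`, `z_i = step^[i] z`; suppose `f (z_n) > c - δ`. Then all
`z_i` (`i ≤ n`) have `c - δ ≤ f(z_i) ≤ c + δ` (monotonicity).
Case 1: all `z_i.2 ≤ T₂ + 1/2` (`i < n`): `chi = 1`, `rate ≥ G2 ≥ κ₁` (`μ ≥ 1`), so `f` drops by
`≥ (τ/2)κ₁` in each step, total `> 2δ`: contradiction.
Case 2: some `z_i.2 > T₂ + 1/2`; let `i₂` be the first such index and `i₁ < i₂` the last index before
`i₂` with `z_{i₁}.2 < T₂` (exists, `z_0.2 < T₂`). For `i₁ < i < i₂`: `T₂ ≤ z_i.2 ≤ T₂+1/2`, and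
`z_{i₁+1}.2 < T₂ + 3τ`. In each step `i` with `i₁ < i < i₂`: the drop of `f` is
`≥ (τ/2) chi rate` and `|z_{i+1}.2 - z_i.2| ≤ τ chi |a - h|`; claim `rate ≥ 32 δ |a-h|`: here
`min z_i.2 1 = 1` (as `T₂ ≥ 1`), so `rate = μ‖gx‖² + |a-h|²`; if `|a-h| ≥ 32δ` clear; if `|a - h| ≤ 32 δ`
then `μ‖gx‖² ≥ μ κ₂ ≥ (32δ)² ≥ 32δ|a-h|`. So the drop is `≥ 16 δ |z_{i+1}.2 - z_i.2|`. Summation:
total drop `≥ 16 δ (T₂ + 1/2 - T₂ - 3τ) > 16 δ · (1/4) = 4δ > 2δ`: contradiction.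
-/

open MeasureTheory Set Metric Filter Topology
open scoped Real InnerProductSpace

namespace Pool.Agent.H72.EZ

variable {E : Type} [NormedAddCommGroup E] [InnerProductSpace ℝ E]

theorem deform_sq (x : ℝ) : (max (-x) 0) ^ 2 + (max x 0) ^ 2 = |x| ^ 2 := by
  rw [sq_abs]
  rcases le_total 0 x with h | h
  · rw [max_eq_right (by linarith : -x ≤ 0), max_eq_left h]; ring
  · rw [max_eq_left (by linarith : (0 : ℝ) ≤ -x), max_eq_right h]; ring

theorem deform_rate_ge {D : FData E} {a δ μ κ₂ : ℝ} (hδ : 0 < δ) (hμ0 : 0 ≤ μ)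
    (hμ : (32 * δ) ^ 2 ≤ μ * κ₂) {z : E × ℝ} (hz : 1 ≤ z.2)
    (hk : |a - D.h z.1| ≤ 32 * δ → κ₂ ≤ ‖D.gx z‖ ^ 2) :
    32 * δ * |a - D.h z.1| ≤ D.rate a μ z := by
  have h1 : D.rate a μ z = μ * ‖D.gx z‖ ^ 2 + |a - D.h z.1| ^ 2 := by
    rw [← deform_sq (a - D.h z.1), FData.rate, min_eq_right hz, neg_sub]
    ring
  rw [h1]
  have h2 : 0 ≤ μ * ‖D.gx z‖ ^ 2 := mul_nonneg hμ0 (sq_nonneg _)
  have h3 : 0 ≤ |a - D.h z.1| := abs_nonneg _
  rcases le_total (|a - D.h z.1|) (32 * δ) with h | h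
  · have h4 := hk h
    have h5 : μ * κ₂ ≤ μ * ‖D.gx z‖ ^ 2 := mul_le_mul_of_nonneg_left h4 hμ0
    nlinarith
  · nlinarith

theorem deform_rate_ge_G2 {D : FData E} {a μ : ℝ} (hμ : 1 ≤ μ) (z : E × ℝ) :
    D.G2 a z ≤ D.rate a μ z := by
  have h : 0 ≤ ‖D.gx z‖ ^ 2 := sq_nonneg _
  rw [FData.G2, FData.rate]
  nlinarith

theorem deform_rate_nonneg {D : FData E} {a μ : ℝ} (hμ : 1 ≤ μ) {z : E × ℝ} (hz : 0 ≤ z.2) :
    0 ≤ D.rate a μ z := by
  have h1 : 0 ≤ μ * ‖D.gx z‖ ^ 2 := mul_nonneg (by linarith) (sq_nonneg _)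
  have h2 : 0 ≤ (max (D.h z.1 - a) 0) ^ 2 := sq_nonneg _
  have h3 : 0 ≤ min z.2 1 * (max (a - D.h z.1) 0) ^ 2 :=
    mul_nonneg (le_min hz zero_le_one) (sq_nonneg _)
  rw [FData.rate]
  linarith

theorem deform_iter_nonneg {D : FData E} {L a c δ T₂ μ τ : ℝ} (hR : D.Reg L) (ha1 : 1 ≤ a)
    (ha2 : a ≤ 2) (hτ0 : 0 < τ) (hτ1 : 3 * τ ≤ 1) {z : E × ℝ} (hz : 0 ≤ z.2) (i : ℕ) :
    0 ≤ ((D.step a c δ T₂ μ τ)^[i] z).2 := by
  induction i with
  | zero => simpa using hz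
  | succ i ih =>
    rw [Function.iterate_succ_apply']
    exact hR.step_nonneg ha1 ha2 hτ0 hτ1 ih

theorem FData.exists_deformation [FiniteDimensional ℝ E] {D : FData E} {L a c δ T₂ R₂ : ℝ}
    (hR : D.Reg L) (ha1 : 1 ≤ a) (ha2 : a ≤ 2) (hδ : 0 < δ) (hT₂ : 1 ≤ T₂)
    (hco : D.Coer (T₂ + 1) R₂)
    (hL : ∀ z : E × ℝ, 0 ≤ z.2 → z.2 ≤ T₂ + 1 → c - δ ≤ D.f a z → D.f a z ≤ c + δ →
      D.gx z = 0 → D.h z.1 ≤ a → z.2 * (a - D.h z.1) = 0 → False)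
    (hS : ∀ z : E × ℝ, T₂ ≤ z.2 → z.2 ≤ T₂ + 1 → c - δ ≤ D.f a z → D.f a z ≤ c + δ →
      D.gx z = 0 → 32 * δ < |a - D.h z.1|) :
    ∃ Φ : E × ℝ → E × ℝ, Continuous Φ ∧ (∀ z, 0 ≤ z.2 → 0 ≤ (Φ z).2) ∧
      (∀ z, D.f a z ≤ c - 2 * δ → Φ z = z) ∧
      (∀ z, 0 ≤ z.2 → D.f a (Φ z) ≤ D.f a z) ∧
      ∀ z, 0 ≤ z.2 → z.2 < T₂ → D.f a z ≤ c + δ → D.f a (Φ z) ≤ c - δ := by
  obtain ⟨κ₁, hκ₁0, -, hκ₁⟩ := FData.exists_kappa1 hR hco hL
  obtain ⟨κ₂, hκ₂0, -, hκ₂⟩ := FData.exists_kappa2 (lam := 32 * δ) hR (by linarith) hco hS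
  have hL0 := hR.L0
  -- the constants
  obtain ⟨μ, hμ1, hμ2⟩ : ∃ μ : ℝ, 1 ≤ μ ∧ (32 * δ) ^ 2 ≤ μ * κ₂ := by
    refine ⟨max 1 ((32 * δ) ^ 2 / κ₂), le_max_left _ _, ?_⟩
    rw [← div_le_iff₀ hκ₂0]
    exact le_max_right _ _
  have hK : 0 ≤ L * (T₂ + 3) * μ :=
    mul_nonneg (mul_nonneg hL0 (by linarith)) (by linarith)
  obtain ⟨τ, hτ0, hτ1, hτ2⟩ : ∃ τ : ℝ, 0 < τ ∧ 3 * τ ≤ 1 / 100 ∧
      L * (T₂ + 3) * τ * μ ≤ 1 / 2 := by
    refine ⟨min (1 / 300) (1 / (2 * (L * (T₂ + 3) * μ + 1))), ?_, ?_, ?_⟩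
    · apply lt_min (by norm_num)
      apply one_div_pos.2
      linarith
    · have := min_le_left (1 / 300 : ℝ) (1 / (2 * (L * (T₂ + 3) * μ + 1)))
      linarith
    · have h1 := min_le_right (1 / 300 : ℝ) (1 / (2 * (L * (T₂ + 3) * μ + 1)))
      have h2 : L * (T₂ + 3) * μ * (1 / (2 * (L * (T₂ + 3) * μ + 1))) ≤ 1 / 2 := by
        rw [mul_one_div, div_le_div_iff₀ (by linarith) (by norm_num)]
        linarith
      calc L * (T₂ + 3) * min (1 / 300) (1 / (2 * (L * (T₂ + 3) * μ + 1))) * μ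
          = L * (T₂ + 3) * μ * min (1 / 300) (1 / (2 * (L * (T₂ + 3) * μ + 1))) := by ring
        _ ≤ L * (T₂ + 3) * μ * (1 / (2 * (L * (T₂ + 3) * μ + 1))) :=
            mul_le_mul_of_nonneg_left h1 hK
        _ ≤ 1 / 2 := h2
  obtain ⟨n, hn⟩ : ∃ n : ℕ, 2 * δ < n * (τ / 2 * κ₁) := by
    have hpos : 0 < τ / 2 * κ₁ := by positivity
    obtain ⟨n, hn⟩ := exists_nat_gt (2 * δ / (τ / 2 * κ₁))
    exact ⟨n, by rwa [div_lt_iff₀ hpos] at hn⟩
  have hτ3 : 3 * τ ≤ 1 := by linarith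
  have hT0 : 0 ≤ T₂ := by linarith
  have nonneg : ∀ (z : E × ℝ), 0 ≤ z.2 → ∀ i : ℕ, 0 ≤ ((D.step a c δ T₂ μ τ)^[i] z).2 :=
    fun z hz i => deform_iter_nonneg hR ha1 ha2 hτ0 hτ3 hz i
  have drop : ∀ (z : E × ℝ), 0 ≤ z.2 → ∀ i : ℕ,
      D.f a ((D.step a c δ T₂ μ τ)^[i + 1] z) ≤ D.f a ((D.step a c δ T₂ μ τ)^[i] z) -
        τ / 2 * (D.chi a c δ T₂ ((D.step a c δ T₂ μ τ)^[i] z) *
          D.rate a μ ((D.step a c δ T₂ μ τ)^[i] z)) := by
    intro z hz i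
    rw [Function.iterate_succ_apply']
    exact hR.step_f_le hδ hT0 hμ1 hτ0 hτ2 (nonneg z hz i)
  have mono1 : ∀ (z : E × ℝ), 0 ≤ z.2 → ∀ i : ℕ,
      D.f a ((D.step a c δ T₂ μ τ)^[i + 1] z) ≤ D.f a ((D.step a c δ T₂ μ τ)^[i] z) := by
    intro z hz i
    have h1 := drop z hz i
    have h2 : 0 ≤ τ / 2 * (D.chi a c δ T₂ ((D.step a c δ T₂ μ τ)^[i] z) *
          D.rate a μ ((D.step a c δ T₂ μ τ)^[i] z)) :=
      mul_nonneg (by linarith) (mul_nonneg (D.chi_nonneg a c δ T₂ _)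
        (deform_rate_nonneg hμ1 (nonneg z hz i)))
    linarith
  have mono : ∀ (z : E × ℝ), 0 ≤ z.2 → ∀ i j : ℕ, i ≤ j →
      D.f a ((D.step a c δ T₂ μ τ)^[j] z) ≤ D.f a ((D.step a c δ T₂ μ τ)^[i] z) := by
    intro z hz i j hij
    induction j, hij using Nat.le_induction with
    | base => exact le_rfl
    | succ j _ ih => exact (mono1 z hz j).trans ih
  refine ⟨(D.step a c δ T₂ μ τ)^[n], (hR.step_continuous a c δ T₂ μ τ).iterate n,
    fun z hz => nonneg z hz n, fun z hz => Function.iterate_fixed (FData.step_eq_self hδ hz) n,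
    fun z hz => by simpa using mono z hz 0 n (Nat.zero_le n), ?_⟩
  intro z hz hzT hzf
  by_contra hcon
  push Not at hcon
  set Z : ℕ → E × ℝ := fun i => (D.step a c δ T₂ μ τ)^[i] z with hZ
  have hlow : ∀ i ≤ n, c - δ ≤ D.f a (Z i) := fun i hi => hcon.le.trans (mono z hz i n hi)
  have hhigh : ∀ i, D.f a (Z i) ≤ c + δ := fun i =>
    (mono z hz 0 i (Nat.zero_le i)).trans (by simpa using hzf)
  have hZn : ∀ i, 0 ≤ (Z i).2 := fun i => nonneg z hz i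
  have hZ0 : Z 0 = z := rfl
  by_cases hcase : ∀ i < n, (Z i).2 ≤ T₂ + 1 / 2
  · -- case 1
    have h1 : ∀ i ≤ n, D.f a (Z i) ≤ D.f a (Z 0) - i * (τ / 2 * κ₁) := by
      intro i
      induction i with
      | zero => intro _; simp
      | succ i ih =>
        intro hi
        have h2 := ih (by omega)
        have h3 := drop z hz i
        have h4 : D.chi a c δ T₂ (Z i) = 1 :=
          D.chi_eq_one hδ (hcase i (by omega)) (hlow i (by omega))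
        have h5 : κ₁ ≤ D.rate a μ (Z i) :=
          (hκ₁ (Z i) (hZn i) (by linarith [hcase i (by omega)]) (hlow i (by omega))
            (hhigh i)).trans (deform_rate_ge_G2 hμ1 _)
        have h6 : τ / 2 * κ₁ ≤ τ / 2 * (D.chi a c δ T₂ (Z i) * D.rate a μ (Z i)) := by
          rw [h4, one_mul]
          exact mul_le_mul_of_nonneg_left h5 (by linarith)
        have h7 : D.f a (Z (i + 1)) ≤ D.f a (Z i) -
          τ / 2 * (D.chi a c δ T₂ (Z i) * D.rate a μ (Z i)) := h3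
        push_cast
        linarith
    have h2 := h1 n le_rfl
    have h3 := hhigh 0
    have h4 : c - δ < D.f a (Z n) := hcon
    linarith
  · -- case 2
    push Not at hcase
    obtain ⟨i₀, hi₀n, hi₀⟩ := hcase
    classical
    have hex : ∃ i, T₂ + 1 / 2 < (Z i).2 := ⟨i₀, hi₀⟩
    set i₂ := Nat.find hex with hi₂
    have hi₂s : T₂ + 1 / 2 < (Z i₂).2 := Nat.find_spec hex
    have hi₂n : i₂ < n := (Nat.find_min' hex hi₀).trans_lt hi₀n
    have hlt : ∀ i < i₂, (Z i).2 ≤ T₂ + 1 / 2 := fun i hi => not_lt.1 (Nat.find_min hex hi)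
    have hpot : ∀ i ≤ i₂, D.f a (Z i) + 16 * δ * max ((Z i).2 - T₂ - 3 * τ) 0 ≤
        D.f a (Z 0) := by
      intro i
      induction i with
      | zero =>
        intro _
        rw [max_eq_right]
        · simp
        · rw [hZ0]; linarith
      | succ i ih =>
        intro hi
        have h2 := ih (by omega)
        have hmax0 : 0 ≤ max ((Z i).2 - T₂ - 3 * τ) 0 := le_max_right _ _
        have hstep := hR.step_snd_le (c := c) (δ := δ) (T₂ := T₂) (μ := μ) ha1 ha2 hτ0 (hZn i)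
        have hZs : Z (i + 1) = D.step a c δ T₂ μ τ (Z i) := by
          simp only [hZ, Function.iterate_succ_apply']
        rw [← hZs] at hstep
        rcases lt_or_ge (Z i).2 T₂ with h3 | h3
        · have h4 : (Z (i + 1)).2 - T₂ - 3 * τ ≤ 0 := by
            have := (abs_le.1 hstep.2).2
            linarith
          rw [max_eq_right h4]
          have h5 : D.f a (Z (i + 1)) ≤ D.f a (Z i) := mono1 z hz i
          have h6 : 0 ≤ 16 * δ * max ((Z i).2 - T₂ - 3 * τ) 0 :=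
            mul_nonneg (by linarith) hmax0
          linarith
        · have hin : i < i₂ := by omega
          have h4 := hlt i hin
          have h5 : 32 * δ * |a - D.h (Z i).1| ≤ D.rate a μ (Z i) := by
            apply deform_rate_ge hδ (by linarith) hμ2 (by linarith)
            intro h6
            exact hκ₂ (Z i) h3 (by linarith) (hlow i (by omega)) (hhigh i) h6
          have h6 : D.f a (Z (i + 1)) ≤ D.f a (Z i) -
            τ / 2 * (D.chi a c δ T₂ (Z i) * D.rate a μ (Z i)) := drop z hz i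
          have hchi := D.chi_nonneg a c δ T₂ (Z i)
          have h7 : τ / 2 * (D.chi a c δ T₂ (Z i) * (32 * δ * |a - D.h (Z i).1|)) ≤
              τ / 2 * (D.chi a c δ T₂ (Z i) * D.rate a μ (Z i)) :=
            mul_le_mul_of_nonneg_left (mul_le_mul_of_nonneg_left h5 hchi) (by linarith)
          have h8 : 16 * δ * |(Z (i + 1)).2 - (Z i).2| ≤
              τ / 2 * (D.chi a c δ T₂ (Z i) * (32 * δ * |a - D.h (Z i).1|)) := by
            have h9 := mul_le_mul_of_nonneg_left hstep.1 (by linarith : (0 : ℝ) ≤ 16 * δ)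
            linarith
          have h10 : max ((Z (i + 1)).2 - T₂ - 3 * τ) 0 ≤
              max ((Z i).2 - T₂ - 3 * τ) 0 + |(Z (i + 1)).2 - (Z i).2| := by
            apply max_le
            · have := le_max_left ((Z i).2 - T₂ - 3 * τ) 0
              have := le_abs_self ((Z (i + 1)).2 - (Z i).2)
              linarith
            · have := abs_nonneg ((Z (i + 1)).2 - (Z i).2)
              linarith
          have h11 := mul_le_mul_of_nonneg_left h10 (by linarith : (0 : ℝ) ≤ 16 * δ)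
          linarith
    have h2 := hpot i₂ le_rfl
    have h3 : 1 / 4 ≤ max ((Z i₂).2 - T₂ - 3 * τ) 0 :=
      le_max_of_le_left (by linarith)
    have h4 := mul_le_mul_of_nonneg_left h3 (by linarith : (0 : ℝ) ≤ 16 * δ)
    have h5 := hlow i₂ hi₂n.le
    have h6 := hhigh 0
    linarith

end Pool.Agent.H72.EZ
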