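import Mathlib

/-!
# MP_880fad_gt : definitions for the disproof

`W` is a finite-dimensional real inner product space (later `EuclideanSpace ℂ (Fin n)`) with an
orthogonal complex structure `C : CStr W`.

* `FData E` : data of the functional `f_b(x,T) = g(x) - T (h(x) - b)` on `E × ℝ` (`T ≥ 0`), with
  `x`-gradient `gx = gg - T gh`;
* `HamData W` : a truncated Hamiltonian with its gradient;
* `EN N W` : truncated Fourier loops, `loop`, and the Galerkin functional `gal`.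
-/

open MeasureTheory Set Metric Filter Topology
open scoped Real InnerProductSpace

namespace Pool.Agent.H72.EZ

/-! ## complex structure -/

/-- an orthogonal complex structure on a real inner product space -/
structure CStr (W : Type) [NormedAddCommGroup W] [InnerProductSpace ℝ W] where
  /-- the complex structure -/
  J : W →L[ℝ] W
  sq : ∀ x, J (J x) = -x
  skew : ∀ x y, ⟪J x, y⟫_ℝ = -⟪x, J y⟫_ℝ

section
variable {W : Type} [NormedAddCommGroup W] [InnerProductSpace ℝ W]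

namespace CStr
variable (C : CStr W)

lemma inner_J_J (x y : W) : ⟪C.J x, C.J y⟫_ℝ = ⟪x, y⟫_ℝ := by
  rw [C.skew, C.sq, inner_neg_right, neg_neg]

lemma norm_J (x : W) : ‖C.J x‖ = ‖x‖ := by
  have h := C.inner_J_J x x
  rw [real_inner_self_eq_norm_sq, real_inner_self_eq_norm_sq] at h
  exact (sq_eq_sq₀ (norm_nonneg _) (norm_nonneg _)).1 h

lemma inner_J_self (x : W) : ⟪C.J x, x⟫_ℝ = 0 := by
  have h := C.skew x x
  rw [real_inner_comm x (C.J x)] at h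
  have h2 : ⟪C.J x, x⟫_ℝ = ⟪x, C.J x⟫_ℝ := real_inner_comm _ _
  linarith

lemma inner_self_J (x : W) : ⟪x, C.J x⟫_ℝ = 0 := by
  rw [real_inner_comm, C.inner_J_self]

/-- the rotation `e^{θ J}` -/
noncomputable def rot (θ : ℝ) (x : W) : W := Real.cos θ • x + Real.sin θ • C.J x

end CStr
end

/-! ## abstract functional -/

/-- data of the functional `f_b(x,T) = g(x) - T (h(x) - b)`, together with the gradients of `g`
and `h` -/
structure FData (E : Type) where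
  g : E → ℝ
  h : E → ℝ
  gg : E → E
  gh : E → E

section
variable {E : Type} [NormedAddCommGroup E] [InnerProductSpace ℝ E]

namespace FData
variable (D : FData E)

/-- `f_b(x,T) = g(x) - T (h(x) - b)` -/
def f (b : ℝ) (z : E × ℝ) : ℝ := D.g z.1 - z.2 * (D.h z.1 - b)

/-- the `x`-gradient of `f_b` -/
def gx (z : E × ℝ) : E := D.gg z.1 - z.2 • D.gh z.1

/-- regularity of the data -/
structure Reg (L : ℝ) : Prop where
  L0 : 0 ≤ L
  cgg : Continuous D.gg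
  cgh : Continuous D.gh
  tg : ∀ x v, |D.g (x + v) - D.g x - ⟪D.gg x, v⟫_ℝ| ≤ L * ‖v‖ ^ 2
  th : ∀ x v, |D.h (x + v) - D.h x - ⟪D.gh x, v⟫_ℝ| ≤ L * ‖v‖ ^ 2
  lh : ∀ x v, |D.h (x + v) - D.h x| ≤ L * ‖v‖
  hlo : ∀ x, 1 / 2 ≤ D.h x
  hhi : ∀ x, D.h x ≤ 5 / 2

/-- coercivity of the `x`-gradient on `0 ≤ T ≤ S` -/
def Coer (S R₂ : ℝ) : Prop := ∀ z : E × ℝ, 0 ≤ z.2 → z.2 ≤ S → R₂ ≤ ‖z.1‖ → 1 ≤ ‖D.gx z‖

end FData

/-- the min-max class: continuous maps `Z : Σ → E × [0,∞)` with `Z = Z₀` on `bd` -/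
def Cls {Sg : Type} [TopologicalSpace Sg] (bd : Set Sg) (Z₀ : Sg → E × ℝ) : Set (Sg → E × ℝ) :=
  {Z | Continuous Z ∧ (∀ s, 0 ≤ (Z s).2) ∧ ∀ s ∈ bd, Z s = Z₀ s}

/-- the min-max value -/
noncomputable def FData.mm (D : FData E) {Sg : Type} [TopologicalSpace Sg] (bd : Set Sg)
    (Z₀ : Sg → E × ℝ) (b : ℝ) : ℝ :=
  sInf {M | ∃ Z ∈ Cls bd Z₀, ∀ s, D.f b (Z s) ≤ M}

end

/-! ## Hamiltonian data, the potential `Q` -/

section
variable {W : Type} [NormedAddCommGroup W] [InnerProductSpace ℝ W]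

/-- `Q(z) = (3π/2) (‖z‖ - R)₊²` -/
noncomputable def Qf (R : ℝ) (z : W) : ℝ := 3 * π / 2 * (max (‖z‖ - R) 0) ^ 2

/-- the gradient of `Q` : `3π (1 - R / max ‖z‖ R) z` -/
noncomputable def gQ (R : ℝ) (z : W) : W := (3 * π * (1 - R / max ‖z‖ R)) • z

variable (W) in
/-- a truncated Hamiltonian `Hh` with gradient `gH`: bounded, `C^{1,1}`, equal to `5/2` outside the
ball of radius `R`, near its minimum `1/2` at `z₀` -/
structure HamData where
  Hh : W → ℝ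
  gH : W → W
  R : ℝ
  L : ℝ
  z₀ : W
  L1 : 1 ≤ L
  R1 : 1 ≤ R
  z₀R : 4 * ‖z₀‖ ≤ R
  grad : ∀ z, HasFDerivAt Hh (innerSL ℝ (gH z)) z
  gHlip : ∀ z w, ‖gH z - gH w‖ ≤ L * ‖z - w‖
  gHbd : ∀ z, ‖gH z‖ ≤ L
  lo : ∀ z, 1 / 2 ≤ Hh z
  hi : ∀ z, Hh z ≤ 5 / 2
  out : ∀ z, R ≤ ‖z‖ → Hh z = 5 / 2
  near : ∀ z, Hh z ≤ 1 / 2 + L * ‖z - z₀‖ ^ 2

end

/-! ## truncated loops -/

/-- the frequencies `-N..N` -/
abbrev Idx (N : ℕ) : Type := ↥(Finset.Icc (-(N : ℤ)) (N : ℤ))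

/-- truncated Fourier loops: coefficients `x_k ∈ W`, `|k| ≤ N` -/
abbrev EN (N : ℕ) (W : Type) [NormedAddCommGroup W] : Type := PiLp 2 (fun _ : Idx N => W)

section
variable {W : Type} [NormedAddCommGroup W] [InnerProductSpace ℝ W] (C : CStr W)

/-- the loop `x(t) = ∑ e^{2πkJt} x_k` -/
noncomputable def loop {N : ℕ} (x : EN N W) (t : ℝ) : W :=
  ∑ k : Idx N, C.rot (2 * π * (k : ℤ) * t) (x k)

/-- the `k`-th coefficient `∫₀¹ e^{-2πkJt} u(t) dt` -/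
noncomputable def coef (u : ℝ → W) (k : ℤ) : W :=
  ∫ t in (0:ℝ)..1, C.rot (-(2 * π * k * t)) (u t)

/-- the Galerkin functional:
`g(x) = π ∑ k ‖x_k‖² - ∫ Q(x(t)) dt`, `h(x) = ∫ Hh(x(t)) dt` and the gradients. -/
noncomputable def gal (P : HamData W) (N : ℕ) : FData (EN N W) where
  g x := π * ∑ k : Idx N, (k : ℤ) * ‖x k‖ ^ 2 - ∫ t in (0:ℝ)..1, Qf P.R (loop C x t)
  h x := ∫ t in (0:ℝ)..1, P.Hh (loop C x t)
  gg x := WithLp.toLp 2 fun k : Idx N =>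
    (2 * π * (k : ℤ)) • x k - coef C (fun t => gQ P.R (loop C x t)) k
  gh x := WithLp.toLp 2 fun k : Idx N => coef C (fun t => P.gH (loop C x t)) k

/-- the parameter space `Σ = {(v,s) : v_k = 0 for k > 0, ‖v‖ ≤ ρ, 0 ≤ s ≤ ρ}` -/
def SigmaSet (N : ℕ) (ρ : ℝ) : Set (EN N W × ℝ) :=
  {p | (∀ k : Idx N, 0 < (k : ℤ) → p.1 k = 0) ∧ ‖p.1‖ ≤ ρ ∧ 0 ≤ p.2 ∧ p.2 ≤ ρ}

/-- its boundary -/
def bdSet (N : ℕ) (ρ : ℝ) : Set ↥(SigmaSet (W := W) N ρ) :=
  {p | ‖p.1.1‖ = ρ ∨ p.1.2 = 0 ∨ p.1.2 = ρ}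

/-- the loop `e^{2πJt} w` (frequency one) -/
noncomputable def e1 (N : ℕ) (w : W) : EN N W :=
  WithLp.toLp 2 fun k : Idx N => if (k : ℤ) = 1 then w else 0

/-- the base map `(v,s) ↦ (v + s e, 0)` -/
noncomputable def base (N : ℕ) (ρ : ℝ) (w : W) (p : ↥(SigmaSet (W := W) N ρ)) : EN N W × ℝ :=
  (p.1.1 + p.1.2 • e1 N w, 0)

end

/-! ## orbits -/

section
variable {W : Type} [NormedAddCommGroup W] [InnerProductSpace ℝ W] [CompleteSpace W] (C : CStr W)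

/-- `x` is a `τ`-periodic orbit of the Hamiltonian `h`, parametrised with period one -/
def IsOrb (h : W → ℝ) (τ : ℝ) (x : ℝ → W) : Prop :=
  (∀ t, HasDerivAt x (τ • C.J (gradient h (x t))) t) ∧ ∀ t, x (t + 1) = x t

/-- the action `½ ∫ ⟨-J x', x⟩ = ½ τ ∫ ⟨∇h(x), x⟩` of an orbit -/
noncomputable def act (h : W → ℝ) (τ : ℝ) (x : ℝ → W) : ℝ :=
  τ / 2 * ∫ t in (0:ℝ)..1, ⟪gradient h (x t), x t⟫_ℝ

/-- `a` is (up to `η`) the energy of two orbits with periods in `[T,T+1]` and in `[2T,2T+1]` and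
with (up to `η`) the same action -/
def Coin (h : W → ℝ) (T η a : ℝ) : Prop :=
  ∃ τ ∈ Icc T (T + 1), ∃ τ' ∈ Icc (2 * T) (2 * T + 1), ∃ x x' : ℝ → W,
    IsOrb C h τ x ∧ IsOrb C h τ' x' ∧ |h (x 0) - a| ≤ η ∧ |h (x' 0) - a| ≤ η ∧
      |act h τ x - act h τ' x'| ≤ η

end

/-- the class `𝓗_{m,M}` of Hamiltonians: `C^m`, supported in the ball of radius `M`, all derivatives
up to order `m` bounded by `M` -/
structure InH {W : Type} [NormedAddCommGroup W] [InnerProductSpace ℝ W] (m : ℕ) (M : ℝ)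
    (h : W → ℝ) : Prop where
  smooth : ContDiff ℝ m h
  supp : ∀ x, M ≤ ‖x‖ → h x = 0
  bd : ∀ k ≤ m, ∀ x, ‖iteratedFDeriv ℝ k h x‖ ≤ M

/-- a (lossy) order of differentiability for which the real-valued Sard theorem holds in dimension
`D` -/
def sardOrd : ℕ → ℕ
  | 0 => 1
  | D + 1 => sardOrd D + D + 2

end Pool.Agent.H72.EZ
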