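import Pool.Agent.H72.EZ.Phase

/-!
# JOB EZ-PHASELEM : the complex structure of the phase space, elementary facts on `H₀`

`J z (inl j) = -z (inr j)`, `J z (inr j) = z (inl j)`; `omega u v = ⟪J u, v⟫`.
`H₀` is a positive definite quadratic form: smooth, `fderiv H₀ z v = ∑ 2 λ_j (x_j v_j + ...)`,
`fderiv H₀ z z = 2 H₀ z`, so `fderiv H₀ z ≠ 0` for `z ≠ 0`; `H₀ z ≥ c ‖z‖²` with `c = min λ_j > 0`.
`traj_of_orb`: let `x' = T J ∇H(x)` (only along the curve), `T > 0`, `x (t+1) = x t`. Put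
`γ(t) = x(t/T)`; `γ' = J∇H(γ)`, `omega (J∇H) v = ⟪J J ∇H, v⟫ = -⟪∇H, v⟫ = -dH v`; `γ(t+T) = γ(t)`. If `γ`
were constant, `J∇H(x 0) = 0`, so `∇H(x 0) = 0`: excluded.
-/

open MeasureTheory Set Metric Filter Topology
open scoped Real InnerProductSpace ContDiff

namespace Pool.Agent.H72.EZ

/-- the complex structure as a linear map -/
noncomputable def phaseLemJ (n : ℕ) : Ph n →ₗ[ℝ] Ph n where
  toFun z := WithLp.toLp 2 (Sum.elim (fun j => -z (Sum.inr j)) (fun j => z (Sum.inl j)))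
  map_add' x y := by
    ext i
    rcases i with i | i
    · simp [add_comm]
    · simp
  map_smul' c x := by
    ext i
    rcases i with i | i
    · simp
    · simp

lemma phaseLemJ_inl {n : ℕ} (z : Ph n) (j : Fin n) :
    phaseLemJ n z (Sum.inl j) = -z (Sum.inr j) := rfl

lemma phaseLemJ_inr {n : ℕ} (z : Ph n) (j : Fin n) :
    phaseLemJ n z (Sum.inr j) = z (Sum.inl j) := rfl

lemma phaseLem_inner {n : ℕ} (u v : Ph n) :
    ⟪u, v⟫_ℝ = ∑ j : Fin n, (u (Sum.inl j) * v (Sum.inl j) + u (Sum.inr j) * v (Sum.inr j)) := by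
  rw [PiLp.inner_apply, Fintype.sum_sum_type, Finset.sum_add_distrib]
  simp [mul_comm]

/-- the standard complex structure exists -/
theorem exists_Jst (n : ℕ) : ∃ C : CStr (Ph n), ∀ u v : Ph n, omega u v = ⟪C.J u, v⟫_ℝ := by
  refine ⟨⟨(phaseLemJ n).toContinuousLinearMap, ?_, ?_⟩, ?_⟩
  · intro x
    ext i
    rcases i with i | i
    · show phaseLemJ n (phaseLemJ n x) (Sum.inl i) = (-x) (Sum.inl i)
      rw [phaseLemJ_inl, phaseLemJ_inr]; rfl
    · show phaseLemJ n (phaseLemJ n x) (Sum.inr i) = (-x) (Sum.inr i)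
      rw [phaseLemJ_inr, phaseLemJ_inl]; rfl
  · intro x y
    show ⟪phaseLemJ n x, y⟫_ℝ = -⟪x, phaseLemJ n y⟫_ℝ
    rw [phaseLem_inner, phaseLem_inner, ← Finset.sum_neg_distrib]
    refine Finset.sum_congr rfl fun j _ => ?_
    rw [phaseLemJ_inl, phaseLemJ_inr, phaseLemJ_inl, phaseLemJ_inr]
    ring
  · intro u v
    show omega u v = ⟪phaseLemJ n u, v⟫_ℝ
    rw [phaseLem_inner, omega]
    refine Finset.sum_congr rfl fun j _ => ?_
    rw [phaseLemJ_inl, phaseLemJ_inr]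
    ring

theorem H0_contDiff {n : ℕ} (lam : Fin n → ℝ) : ContDiff ℝ ∞ (H0 lam) := by
  have h : ∀ i : Fin n ⊕ Fin n, ContDiff ℝ ∞ fun z : Ph n => z i := fun i =>
    (EuclideanSpace.proj i : Ph n →L[ℝ] ℝ).contDiff
  unfold H0
  refine ContDiff.sum fun j _ => contDiff_const.mul (((h _).pow 2).add ((h _).pow 2))

theorem H0_zero {n : ℕ} (lam : Fin n → ℝ) : H0 lam 0 = 0 := by
  simp [H0]

theorem H0_nonneg {n : ℕ} {lam : Fin n → ℝ} (hlam : ∀ j, 0 < lam j) (z : Ph n) :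
    0 ≤ H0 lam z := by
  refine Finset.sum_nonneg fun j _ => ?_
  have := hlam j
  positivity

lemma phaseLem_norm_sq {n : ℕ} (z : Ph n) :
    ‖z‖ ^ 2 = ∑ j : Fin n, (z (Sum.inl j) ^ 2 + z (Sum.inr j) ^ 2) := by
  rw [← real_inner_self_eq_norm_sq, phaseLem_inner]
  refine Finset.sum_congr rfl fun j _ => ?_
  ring

theorem H0_ge {n : ℕ} {lam : Fin n → ℝ} (hlam : ∀ j, 0 < lam j) :
    ∃ c : ℝ, 0 < c ∧ ∀ z : Ph n, c * ‖z‖ ^ 2 ≤ H0 lam z := by
  obtain ⟨c, hc, hcl⟩ : ∃ c : ℝ, 0 < c ∧ ∀ j, c ≤ lam j := by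
    rcases Nat.eq_zero_or_pos n with hn | hn
    · subst hn
      exact ⟨1, one_pos, fun j => j.elim0⟩
    · have : Nonempty (Fin n) := ⟨⟨0, hn⟩⟩
      obtain ⟨j, hj⟩ := Finite.exists_min lam
      exact ⟨lam j, hlam j, hj⟩
  refine ⟨c, hc, fun z => ?_⟩
  rw [phaseLem_norm_sq, Finset.mul_sum]
  refine Finset.sum_le_sum fun j _ => ?_
  exact mul_le_mul_of_nonneg_right (hcl j) (by positivity)

lemma phaseLem_smul {n : ℕ} (lam : Fin n → ℝ) (t : ℝ) (z : Ph n) :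
    H0 lam (t • z) = t ^ 2 * H0 lam z := by
  unfold H0
  rw [Finset.mul_sum]
  refine Finset.sum_congr rfl fun j _ => ?_
  simp only [PiLp.smul_apply, smul_eq_mul]
  ring

theorem H0_fderiv_ne {n : ℕ} {lam : Fin n → ℝ} (hlam : ∀ j, 0 < lam j) {z : Ph n}
    (hz : z ≠ 0) : fderiv ℝ (H0 lam) z ≠ 0 := by
  intro h0
  obtain ⟨c, hc, hcz⟩ := H0_ge hlam
  have hpos : 0 < H0 lam z := lt_of_lt_of_le (by positivity) (hcz z)
  have hd : HasFDerivAt (H0 lam) (0 : Ph n →L[ℝ] ℝ) ((1:ℝ) • z) := by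
    rw [one_smul, ← h0]
    exact (((H0_contDiff lam).differentiable (by simp)) z).hasFDerivAt
  have h1 : HasDerivAt (fun t : ℝ => t • z) z 1 := by
    simpa using (hasDerivAt_id (1:ℝ)).smul_const z
  have h2 : HasDerivAt (fun t : ℝ => H0 lam (t • z)) 0 1 := by
    have h9 := hd.comp_hasDerivAt (1:ℝ) h1
    exact h9
  have h3 : HasDerivAt (fun t : ℝ => H0 lam (t • z)) (2 * H0 lam z) 1 := by
    have h4 : (fun t : ℝ => H0 lam (t • z)) = fun t : ℝ => t ^ 2 * H0 lam z := by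
      funext t; exact phaseLem_smul lam t z
    rw [h4]
    simpa using (hasDerivAt_pow 2 (1:ℝ)).mul_const (H0 lam z)
  have := h2.unique h3
  linarith

theorem closed_of_orb {n : ℕ} {C : CStr (Ph n)} (hC : ∀ u v : Ph n, omega u v = ⟪C.J u, v⟫_ℝ)
    {H : Ph n → ℝ} {a T : ℝ} (hT : 0 < T) {x : ℝ → Ph n}
    (hd : ∀ t, HasDerivAt x (T • C.J (gradient H (x t))) t) (hp : ∀ t, x (t + 1) = x t)
    (hH : ∀ t, DifferentiableAt ℝ H (x t)) (h0 : gradient H (x 0) ≠ 0)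
    (ha : ∀ t, H (x t) = a) : HasClosedTrajectory H a := by
  have hT0 : T ≠ 0 := hT.ne'
  have hder : ∀ t, HasDerivAt (fun t => x (t / T)) (C.J (gradient H (x (t / T)))) t := by
    intro t
    have h1 : HasDerivAt (fun t : ℝ => t / T) (1 / T) t := by
      simpa using (hasDerivAt_id t).div_const T
    have h2 := (hd (t / T)).scomp t h1
    rw [smul_smul, one_div, inv_mul_cancel₀ hT0, one_smul] at h2
    exact h2
  refine ⟨fun t => x (t / T), ?_, ⟨T, hT, ?_⟩, ?_, fun t => ha _⟩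
  · intro t
    refine ⟨C.J (gradient H (x (t / T))), hder t, fun v => ?_⟩
    rw [hC, C.sq, inner_neg_left]
    have h3 := (hH (t / T)).hasGradientAt.hasFDerivAt.fderiv
    rw [h3]
    rfl
  · intro t
    show x ((t + T) / T) = x (t / T)
    rw [add_div, div_self hT0, hp]
  · by_contra hcon
    push Not at hcon
    have h4 : (fun t => x (t / T)) = fun _ => x (0 / T) := by
      funext t; exact hcon t
    have h5 := hder 0
    rw [h4] at h5
    have h6 := h5.unique (hasDerivAt_const (0:ℝ) (x (0 / T)))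
    rw [zero_div] at h6
    apply h0
    rw [← norm_eq_zero, ← C.norm_J, h6, norm_zero]

end Pool.Agent.H72.EZ
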