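import Pool.Agent.H72.EZ.Theta
import Pool.Agent.H72.EZ.PhaseLem

/-!
# JOB EZ-TRUNC : the truncated Hamiltonian

PROOF. `H = H₀ ∘ ψ`, `Hh = theta ∘ H`, `gH = gradient Hh`, `z₀ = ψ' 0`. `ψ = id` outside a compact set and
`H₀ z ≥ c‖z‖²`, so there is `R ≥ 1`, `R ≥ 4‖z₀‖`, with `H z ≥ 5/2` for `‖z‖ ≥ R`, so `Hh = 5/2` there.
`h = Hh - 5/2` is smooth with compact support (in the ball of radius `R`), so all its iterated
derivatives are bounded (`Continuous.bounded_above_of_compact_support`-type facts;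
`HasCompactSupport.iteratedFDeriv`) and `InH m M h` holds for `M` large (`M ≥ R` and `M` at least the
bounds of the derivatives up to order `m`). `gH` is bounded and Lipschitz
(`ContDiff.lipschitzWith_of_hasCompactSupport`). `near`: `H z₀ = H₀ 0 = 0`, so `Hh = 1/2` near `z₀` and
`gH z₀ = 0`; `|Hh z - Hh z₀ - ⟪gH z₀, z - z₀⟫| ≤ L‖z-z₀‖²` (mean value inequality with `gH` Lipschitz).
Last claim: if `3/4 < theta (H z) < 9/4` then by `theta_mem` `3/4 < H z < 9/4`, `theta = id` near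
`H z`, so `Hh = H` near `z`, the gradients agree; `fderiv H z = fderiv H₀ (ψ z) ∘ fderiv ψ z ≠ 0`
because `ψ z ≠ 0` (`H₀ (ψ z) > 0`) and `fderiv ψ z` is surjective (`ψ ∘ ψ' = id`).
-/

open MeasureTheory Set Metric Filter Topology
open scoped Real InnerProductSpace ContDiff

namespace Pool.Agent.H72.EZ

theorem exists_hamData {n : ℕ} {lam : Fin n → ℝ} (hlam : ∀ j, 0 < lam j)
    {ψ ψ' : Ph n → Ph n} (h1 : ContDiff ℝ ∞ ψ) (h2 : ContDiff ℝ ∞ ψ')
    (h3 : ∀ z, ψ' (ψ z) = z) (h4 : ∀ z, ψ (ψ' z) = z)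
    (h5 : ∃ Kc : Set (Ph n), IsCompact Kc ∧ ∀ z, z ∉ Kc → ψ z = z) :
    ∃ P : HamData (Ph n), (∀ m : ℕ, ∃ M : ℝ, InH m M (fun z => P.Hh z - 5 / 2)) ∧
      ∀ z, 3 / 4 < P.Hh z → P.Hh z < 9 / 4 → H0 lam (ψ z) = P.Hh z ∧
        gradient P.Hh z = gradient (fun z => H0 lam (ψ z)) z ∧
        gradient (fun z => H0 lam (ψ z)) z ≠ 0 := by
  obtain ⟨Kc, hKc, hK⟩ := h5
  obtain ⟨c, hc, hH0⟩ := H0_ge (n := n) hlam
  set H : Ph n → ℝ := fun z => H0 lam (ψ z) with hHdef
  have hHs : ContDiff ℝ ∞ H := (H0_contDiff lam).comp h1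
  set Hh : Ph n → ℝ := fun z => theta (H z) with hHh
  have hHhs : ContDiff ℝ ∞ Hh := theta_contDiff.comp hHs
  have hdiff : Differentiable ℝ Hh := hHhs.differentiable (by simp)
  set z₀ : Ph n := ψ' 0 with hz₀
  obtain ⟨r, hr⟩ := hKc.isBounded.exists_norm_le
  -- the radius
  set R : ℝ := max (max (r + 1) (5 / (2 * c) + 1)) (max 1 (4 * ‖z₀‖)) with hR
  have hR1 : r + 1 ≤ R := (le_max_left _ _).trans (le_max_left _ _)
  have hR2 : 5 / (2 * c) + 1 ≤ R := (le_max_right _ _).trans (le_max_left _ _)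
  have hR3 : 1 ≤ R := (le_max_left _ _).trans (le_max_right _ _)
  have hR4 : 4 * ‖z₀‖ ≤ R := (le_max_right _ _).trans (le_max_right _ _)
  have hout : ∀ z, R ≤ ‖z‖ → Hh z = 5 / 2 := by
    intro z hz
    have hzK : z ∉ Kc := fun h => by
      have := hr z h
      linarith
    have hψ : ψ z = z := hK z hzK
    have hcz : 5 / 2 ≤ H z := by
      have e1 : H z = H0 lam z := by
        rw [hHdef]
        show H0 lam (ψ z) = H0 lam z
        rw [hψ]
      rw [e1]
      refine le_trans ?_ (hH0 z)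
      have hz1 : 1 ≤ ‖z‖ := hR3.trans hz
      have hz2 : 5 / (2 * c) ≤ ‖z‖ := by linarith
      have hz3 : ‖z‖ ≤ ‖z‖ ^ 2 := by nlinarith
      have hz4 : 5 / (2 * c) ≤ ‖z‖ ^ 2 := hz2.trans hz3
      calc (5 / 2 : ℝ) = c * (5 / (2 * c)) := by field_simp
        _ ≤ c * ‖z‖ ^ 2 := mul_le_mul_of_nonneg_left hz4 hc.le
    exact theta_big hcz
  -- the compactly supported part
  set h : Ph n → ℝ := fun z => Hh z - 5 / 2 with hh
  have hhs : ContDiff ℝ ∞ h := hHhs.sub contDiff_const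
  have hhout : ∀ z, R ≤ ‖z‖ → h z = 0 := by
    intro z hz
    show Hh z - 5 / 2 = 0
    rw [hout z hz]
    norm_num
  have hcs : HasCompactSupport h := by
    refine HasCompactSupport.intro (isCompact_closedBall (0 : Ph n) R) (fun z hz => ?_)
    refine hhout z ?_
    rw [mem_closedBall_zero_iff, not_le] at hz
    exact hz.le
  have hfd : ∀ z, fderiv ℝ h z = fderiv ℝ Hh z := by
    intro z
    rw [hh]
    exact fderiv_sub_const _
  have hcs1 : HasCompactSupport (fderiv ℝ h) := hcs.fderiv ℝ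
  have h2top : (1 : WithTop ℕ∞) + 1 ≤ ∞ := by
    have : ((2 : ℕ∞) : WithTop ℕ∞) ≤ ((⊤ : ℕ∞) : WithTop ℕ∞) := WithTop.coe_le_coe.2 le_top
    rw [one_add_one_eq_two]
    exact this
  have hs1 : ContDiff ℝ 1 (fderiv ℝ h) := hhs.fderiv_right h2top
  obtain ⟨L1, hL1⟩ := ContDiff.lipschitzWith_of_hasCompactSupport hcs1 hs1 (by norm_num)
  obtain ⟨L2, hL2⟩ := hcs1.exists_bound_of_continuous hs1.continuous
  set L : ℝ := max (max (L1 : ℝ) L2) 1 with hL
  have hLa : (L1 : ℝ) ≤ L := (le_max_left _ _).trans (le_max_left _ _)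
  have hLb : L2 ≤ L := (le_max_right _ _).trans (le_max_left _ _)
  have hLc : 1 ≤ L := le_max_right _ _
  have hlip : ∀ z w, ‖fderiv ℝ Hh z - fderiv ℝ Hh w‖ ≤ L * ‖z - w‖ := by
    intro z w
    rw [← hfd, ← hfd, ← dist_eq_norm, ← dist_eq_norm]
    exact (hL1.dist_le_mul z w).trans (mul_le_mul_of_nonneg_right hLa dist_nonneg)
  have hHz₀ : Hh z₀ = 1 / 2 := by
    have e1 : H z₀ = 0 := by
      rw [hHdef]
      show H0 lam (ψ (ψ' 0)) = 0
      rw [h4, H0_zero]
    show theta (H z₀) = 1 / 2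
    rw [e1]
    exact theta_small (by norm_num)
  have hgz₀ : fderiv ℝ Hh z₀ = 0 := by
    refine IsLocalMin.fderiv_eq_zero (Filter.Eventually.of_forall fun z => ?_)
    rw [hHz₀]
    exact theta_lo _
  have hnear : ∀ z, Hh z ≤ 1 / 2 + L * ‖z - z₀‖ ^ 2 := by
    intro z
    have hb : ∀ w ∈ closedBall z₀ ‖z - z₀‖, ‖fderiv ℝ Hh w‖ ≤ L * ‖z - z₀‖ := by
      intro w hw
      rw [mem_closedBall, dist_eq_norm] at hw
      have := hlip w z₀
      rw [hgz₀, sub_zero] at this
      exact this.trans (mul_le_mul_of_nonneg_left hw (by linarith))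
    have hx : z₀ ∈ closedBall z₀ ‖z - z₀‖ := mem_closedBall_self (norm_nonneg _)
    have hy : z ∈ closedBall z₀ ‖z - z₀‖ := by
      rw [mem_closedBall, dist_eq_norm]
    have hmv := Convex.norm_image_sub_le_of_norm_fderiv_le (𝕜 := ℝ)
      (fun w _ => hdiff w) hb (convex_closedBall z₀ ‖z - z₀‖) hx hy
    rw [hHz₀, Real.norm_eq_abs] at hmv
    have := (le_abs_self _).trans hmv
    nlinarith
  refine ⟨⟨Hh, gradient Hh, R, L, z₀, hLc, hR3, hR4, ?_, ?_, ?_, fun z => theta_lo _,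
    fun z => theta_hi _, hout, hnear⟩, ?_, ?_⟩
  · intro z
    have hg := (hdiff z).hasGradientAt.hasFDerivAt
    have e : innerSL ℝ (gradient Hh z) = InnerProductSpace.toDual ℝ (Ph n) (gradient Hh z) := by
      ext w
      simp
    rw [e]
    exact hg
  · intro z w
    show ‖gradient Hh z - gradient Hh w‖ ≤ L * ‖z - w‖
    unfold gradient
    rw [← map_sub, LinearIsometryEquiv.norm_map]
    exact hlip z w
  · intro z
    show ‖gradient Hh z‖ ≤ L
    unfold gradient
    rw [LinearIsometryEquiv.norm_map, ← hfd]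
    exact (hL2 z).trans hLb
  · intro m
    have hbk : ∀ k : ℕ, ∃ B : ℝ, ∀ x, ‖iteratedFDeriv ℝ k h x‖ ≤ B := fun k =>
      (hcs.iteratedFDeriv (𝕜 := ℝ) k).exists_bound_of_continuous
        (hhs.continuous_iteratedFDeriv (by exact_mod_cast le_top))
    choose B hB using hbk
    have hB0 : ∀ k, 0 ≤ B k := fun k => (norm_nonneg _).trans (hB k 0)
    refine ⟨max R (∑ k ∈ Finset.range (m + 1), B k), ?_, ?_, ?_⟩
    · exact hhs.of_le (by exact_mod_cast le_top)
    · intro x hx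
      exact hhout x ((le_max_left _ _).trans hx)
    · intro k hk x
      refine (hB k x).trans (le_trans ?_ (le_max_right _ _))
      exact Finset.single_le_sum (f := B) (fun i _ => hB0 i)
        (Finset.mem_range.2 (Nat.lt_succ_of_le hk))
  · intro z hz1 hz2
    have hm := theta_mem hz1 hz2
    have hHz : Hh z = H z := theta_mid hm.1.le hm.2.le
    have hev : Hh =ᶠ[𝓝 z] H := by
      have ho : IsOpen {w : Ph n | 3 / 4 < H w ∧ H w < 9 / 4} :=
        (isOpen_lt continuous_const hHs.continuous).inter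
          (isOpen_lt hHs.continuous continuous_const)
      filter_upwards [ho.mem_nhds hm] with w hw
      exact theta_mid hw.1.le hw.2.le
    refine ⟨hHz.symm, ?_, ?_⟩
    · show gradient Hh z = gradient H z
      unfold gradient
      rw [hev.fderiv_eq]
    · intro hg
      have hg0 : fderiv ℝ H z = 0 := by
        have : (InnerProductSpace.toDual ℝ (Ph n)).symm (fderiv ℝ H z) = 0 := hg
        exact (LinearIsometryEquiv.map_eq_zero_iff _).1 this
      have hψz : ψ z ≠ 0 := by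
        intro h0
        have e1 : H z = 0 := by
          rw [hHdef]
          show H0 lam (ψ z) = 0
          rw [h0, H0_zero]
        linarith [hm.1]
      refine H0_fderiv_ne hlam hψz ?_
      have hdψ : DifferentiableAt ℝ ψ z := h1.differentiable (by simp) z
      have hdψ' : DifferentiableAt ℝ ψ' (ψ z) := h2.differentiable (by simp) (ψ z)
      have hdH0 : DifferentiableAt ℝ (H0 lam) (ψ z) := (H0_contDiff lam).differentiable (by simp) _
      have hchain : fderiv ℝ H z = (fderiv ℝ (H0 lam) (ψ z)).comp (fderiv ℝ ψ z) :=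
        fderiv_comp z hdH0 hdψ
      have hid : (fderiv ℝ ψ z).comp (fderiv ℝ ψ' (ψ z)) = ContinuousLinearMap.id ℝ (Ph n) := by
        have e1 : DifferentiableAt ℝ ψ (ψ' (ψ z)) := by
          rw [h3]
          exact hdψ
        have e2 := fderiv_comp (ψ z) e1 hdψ'
        rw [h3] at e2
        rw [← e2]
        have e3 : ψ ∘ ψ' = id := funext h4
        rw [e3, fderiv_id]
      calc fderiv ℝ (H0 lam) (ψ z)
          = (fderiv ℝ (H0 lam) (ψ z)).comp (ContinuousLinearMap.id ℝ (Ph n)) := by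
            rw [ContinuousLinearMap.comp_id]
        _ = ((fderiv ℝ (H0 lam) (ψ z)).comp (fderiv ℝ ψ z)).comp (fderiv ℝ ψ' (ψ z)) := by
            rw [← hid, ContinuousLinearMap.comp_assoc]
        _ = 0 := by
            rw [← hchain, hg0, ContinuousLinearMap.zero_comp]

end Pool.Agent.H72.EZ
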