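import Pool.Agent.H72.EZ.Core3
import Pool.Agent.H72.EZ.Trunc

/-!
# JOB EZ-FINAL : the final theorem

PROOF of `strong`. `n ≥ 1`, so `Ph n` is nontrivial. `C` from `exists_Jst`, `K` from
`exists_null_set C`. Given `lam, ψ, ψ'` take `P` from `exists_hamData`. There are `a ∈ K ⊆ [1,2]`, `T > 0`
and `x` with `IsOrb C P.Hh T x`, `P.Hh (x 0) = a`. The energy `P.Hh (x t) = a` is constant
(`HasFDerivAt.comp_hasDerivAt`: derivative `⟪∇Hh, T J∇Hh⟫ = 0`), `3/4 < a < 9/4`, so `H (x t) = a`,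
`∇Hh = ∇H ≠ 0` along `x`; apply `closed_of_orb`.
PROOF of `not_Q1`. `n = 3`, `lam` from `exists_triple`, `K` from `strong 3` (`K ⊆ [1,2] ⊆ (0,∞)`), `ε = 1`. If
`Q1` held there would be an admissible `H = H₀ ∘ Ψ(1,·)` without closed trajectories on the levels
of `K`; `ψ = Ψ(1,·)` is smooth (`ContDiffOn.comp` with `z ↦ (1,z)`), has the smooth inverse from
`diffeo 1`, and is the identity outside a compact set: contradiction to `strong 3`
(`H = fun z => H0 lam (ψ z)` by `funext`).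
-/

open MeasureTheory Set Metric Filter Topology
open scoped Real InnerProductSpace ContDiff

namespace Pool.Agent.H72.EZ

theorem strong (n : ℕ) (hn : 1 ≤ n) : Strong n := by
  have hnt : Nontrivial (Ph n) := by
    haveI : Nonempty (Fin n ⊕ Fin n) := ⟨Sum.inl ⟨0, hn⟩⟩
    infer_instance
  obtain ⟨C, hC⟩ := exists_Jst n
  obtain ⟨K, hK, hK12, hK0, hKP⟩ := exists_null_set C
  refine ⟨K, hK, hK12, hK0, fun lam hlam ψ ψ' h1 h2 h3 h4 h5 => ?_⟩
  obtain ⟨P, hP1, hP2⟩ := exists_hamData hlam h1 h2 h3 h4 h5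
  obtain ⟨a, haK, T, hT, x, hx, hxa⟩ := hKP P (hP1 _)
  refine ⟨a, haK, ?_⟩
  have ha := hK12 haK
  have hx' : ∀ t, HasDerivAt x (T • C.J (P.gH (x t))) t := by
    intro t
    rw [← P.gradient_eq]
    exact hx.1 t
  have hen : ∀ t, P.Hh (x t) = a := fun t => (energy_const C P hx' t).trans hxa
  have h6 : ∀ t, 3 / 4 < P.Hh (x t) := fun t => by rw [hen t]; linarith [ha.1]
  have h7 : ∀ t, P.Hh (x t) < 9 / 4 := fun t => by rw [hen t]; linarith [ha.2]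
  have h8 := fun t => hP2 (x t) (h6 t) (h7 t)
  refine closed_of_orb hC hT (x := x) (fun t => ?_) hx.2 (fun t => ?_) (h8 0).2.2 (fun t => ?_)
  · have h9 := hx.1 t
    rw [(h8 t).2.1] at h9
    exact h9
  · exact ((H0_contDiff lam).comp h1).differentiable (by simp) (x t)
  · exact (h8 t).1.trans (hen t)

theorem not_Q1 : ¬ Q1 := by
  intro hQ
  obtain ⟨lam, hlam, hli⟩ := exists_triple
  obtain ⟨K, hK, hK12, hK0, hS⟩ := strong 3 (by norm_num)
  obtain ⟨H, ⟨-, Ψ, hΨ, hH⟩, hno⟩ := hQ 3 le_rfl lam hlam hli K hK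
    (fun a ha => lt_of_lt_of_le one_pos (hK12 ha).1) hK0 1 one_pos
  have h01 : (1:ℝ) ∈ Icc (0:ℝ) 1 := ⟨zero_le_one, le_rfl⟩
  obtain ⟨Φ, hΦ, hΦ1, hΦ2⟩ := hΨ.diffeo 1 h01
  obtain ⟨Kc, hKc, hKc1⟩ := hΨ.compact
  have hs : ContDiff ℝ ∞ (fun z : Ph 3 => Ψ (1, z)) := by
    rw [← contDiffOn_univ]
    exact hΨ.smooth.comp (contDiff_const.prodMk contDiff_id).contDiffOn
      (fun z _ => ⟨h01, mem_univ _⟩)
  obtain ⟨a, ha, hcl⟩ := hS lam hlam (fun z => Ψ (1, z)) Φ hs hΦ hΦ1 hΦ2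
    ⟨Kc, hKc, hKc1 1 h01⟩
  have hHe : H = fun z => H0 lam (Ψ (1, z)) := funext hH
  exact hno a ha (by rw [hHe]; exact hcl)

end Pool.Agent.H72.EZ
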