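import Pool.Agent.H72.EZ.Flow1

/-!
# JOB EZ-FLOW2 : the derivative of the flow with respect to the initial point

`X` of class `C^2` with compact support (so `X` is Lipschitz with some constant `K`, `fderiv X` is
bounded by `K` and Lipschitz with some constant `K₂`:
`ContDiff.lipschitzWith_of_hasCompactSupport`).
`A` is given as a solution of the variation equation `A' = DX(φ(t,y)) ∘ A`, `A(0) = id`,
on `(-T, T)`.

PROOF of `flow_deriv_error`. Put `w(t) = φ(t,y+v) - φ(t,y)`, `‖w(t)‖ ≤ e^{KT}‖v‖`, and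
`e(t) = w(t) - A(t) v`, `e(0) = 0`,
`e' = X(φ(t,y+v)) - X(φ(t,y)) - DX(φ(t,y)) A(t) v = DX(φ(t,y)) e + O(K₂ ‖w‖²)`.
Gronwall (`norm_le_gronwallBound_of_norm_deriv_right_le`) on `[0,T')`, `T' < T`, and for negative
times by reflection: `‖e(t)‖ ≤ C ‖v‖²` with `C` depending only on `K, K₂, T`.
PROOF of `flow_hasFDerivAt`. `φ(t+s,y+v) - φ(t,y) - s X(φ(t,y)) - A(t,y)v =
[φ(t+s,y+v) - φ(t+s,y) - A(t+s,y) v] + [A(t+s,y) - A(t,y)] v + [φ(t+s,y) - φ(t,y) - s X(φ(t,y))]
 = O(‖v‖²) + o(1)‖v‖ + o(s)`.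
-/

open MeasureTheory Set Metric Filter Topology
open scoped Real NNReal

namespace Pool.Agent.H72.EZ

variable {U : Type} [NormedAddCommGroup U] [NormedSpace ℝ U] [FiniteDimensional ℝ U]

/-- solutions of the variation equation along the flow, on `(-T,T)` -/
structure IsVarEq (X : U → U) (φ : ℝ × U → U) (T : ℝ) (A : ℝ × U → (U →L[ℝ] U)) : Prop where
  zero : ∀ y, A (0, y) = ContinuousLinearMap.id ℝ U
  deriv : ∀ y, ∀ t ∈ Ioo (-T) T,
    HasDerivAt (fun s => A (s, y)) ((fderiv ℝ X (φ (t, y))).comp (A (t, y))) t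

theorem flow2_gronwall {e e' : ℝ → U} {T K ε : ℝ} (hK : 0 ≤ K) (hε : 0 ≤ ε)
    (he : ∀ t ∈ Ioo (-T) T, HasDerivAt e (e' t) t) (h0 : e 0 = 0)
    (hb : ∀ t ∈ Ioo (-T) T, ‖e' t‖ ≤ K * ‖e t‖ + ε) :
    ∀ t ∈ Ioo (-T) T, ‖e t‖ ≤ ε * Real.exp ((K + 1) * T) := by
  -- one sided statement
  have key : ∀ (g g' : ℝ → U), (∀ t ∈ Ioo (-T) T, HasDerivAt g (g' t) t) → g 0 = 0 →
      (∀ t ∈ Ioo (-T) T, ‖g' t‖ ≤ K * ‖g t‖ + ε) →
      ∀ t ∈ Ico 0 T, ‖g t‖ ≤ ε * Real.exp ((K + 1) * T) := by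
    intro g g' hg hg0 hgb t ht
    have hsub : ∀ s ∈ Icc 0 t, s ∈ Ioo (-T) T := by
      intro s hs
      have h1 := ht.1
      have h2 := ht.2
      have h3 := hs.1
      have h4 := hs.2
      constructor <;> linarith
    have hG := norm_le_gronwallBound_of_norm_deriv_right_le (f := g) (f' := g') (δ := 0)
      (K := K + 1) (ε := ε) (a := 0) (b := t)
      (fun s hs => (hg s (hsub s hs)).continuousAt.continuousWithinAt)
      (fun s hs => (hg s (hsub s (Ico_subset_Icc_self hs))).hasDerivWithinAt)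
      (by rw [hg0]; simp)
      (fun s hs => by
        have h1 := hgb s (hsub s (Ico_subset_Icc_self hs))
        have h2 := norm_nonneg (g s)
        nlinarith)
      t (right_mem_Icc.2 ht.1)
    have hne : K + 1 ≠ 0 := by positivity
    rw [gronwallBound_of_K_ne_0 hne] at hG
    have h1 : Real.exp ((K + 1) * (t - 0)) ≤ Real.exp ((K + 1) * T) := by
      apply Real.exp_le_exp.2
      apply mul_le_mul_of_nonneg_left _ (by positivity)
      linarith [ht.2]
    have h2 : ε / (K + 1) ≤ ε := div_le_self hε (by linarith)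
    have h3 : 0 ≤ ε / (K + 1) := by positivity
    have h4 : 0 < Real.exp ((K + 1) * T) := Real.exp_pos _
    calc ‖g t‖ ≤ 0 * Real.exp ((K + 1) * (t - 0)) +
          ε / (K + 1) * (Real.exp ((K + 1) * (t - 0)) - 1) := hG
      _ ≤ ε / (K + 1) * Real.exp ((K + 1) * T) := by nlinarith
      _ ≤ ε * Real.exp ((K + 1) * T) := by nlinarith
  intro t ht
  rcases le_total 0 t with h | h
  · exact key e e' he h0 hb t ⟨h, ht.2⟩
  · have := key (fun s => e (-s)) (fun s => - e' (-s)) (by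
      intro s hs
      have h1 : HasDerivAt e (e' (-s)) (-s) := he (-s) ⟨by linarith [hs.2], by linarith [hs.1]⟩
      have h2 := h1.scomp s (hasDerivAt_neg s)
      simpa [Function.comp_def] using h2) (by simpa using h0) (by
      intro s hs
      have := hb (-s) ⟨by linarith [hs.2], by linarith [hs.1]⟩
      simpa using this) (-t) ⟨by linarith, by linarith [ht.1]⟩
    simpa using this

theorem flow2_taylor {X : U → U} (hX : ContDiff ℝ 2 X) {K₂ : ℝ≥0}
    (hK₂ : LipschitzWith K₂ (fderiv ℝ X)) (a b : U) :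
    ‖X b - X a - fderiv ℝ X a (b - a)‖ ≤ K₂ * ‖b - a‖ ^ 2 := by
  have hd : ∀ z, HasFDerivAt X (fderiv ℝ X z) z := fun z =>
    (hX.differentiable (by norm_num) z).hasFDerivAt
  have h := (convex_segment (𝕜 := ℝ) a b).norm_image_sub_le_of_norm_hasFDerivWithin_le'
    (f := X) (f' := fderiv ℝ X) (φ := fderiv ℝ X a) (C := K₂ * ‖b - a‖)
    (fun z _ => (hd z).hasFDerivWithinAt)
    (by
      intro z hz
      have h1 := hK₂.dist_le_mul z a
      rw [dist_eq_norm, dist_eq_norm] at h1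
      refine h1.trans ?_
      apply mul_le_mul_of_nonneg_left _ (by positivity)
      rw [segment_eq_image] at hz
      obtain ⟨θ, hθ, rfl⟩ := hz
      have : (1 - θ) • a + θ • b - a = θ • (b - a) := by
        module
      simp only [this]
      rw [norm_smul, Real.norm_eq_abs, abs_of_nonneg hθ.1]
      exact mul_le_of_le_one_left (norm_nonneg _) hθ.2)
    (left_mem_segment ℝ a b) (right_mem_segment ℝ a b)
  calc _ ≤ _ := h
    _ = _ := by ring

theorem flow_deriv_error {X : U → U} (hX : ContDiff ℝ 2 X) (hc : HasCompactSupport X)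
    {φ : ℝ × U → U} (hφ : IsFlow X φ) {T : ℝ} (hT : 0 < T) {A : ℝ × U → (U →L[ℝ] U)}
    (hA : IsVarEq X φ T A) :
    ∃ C : ℝ, ∀ t ∈ Ioo (-T) T, ∀ y v : U,
      ‖φ (t, y + v) - φ (t, y) - A (t, y) v‖ ≤ C * ‖v‖ ^ 2 := by
  obtain ⟨K, hK⟩ := hX.lipschitzWith_of_hasCompactSupport hc (by norm_num)
  have hX1 : ContDiff ℝ 1 (fderiv ℝ X) := hX.fderiv_right (by norm_num)
  obtain ⟨K₂, hK₂⟩ := hX1.lipschitzWith_of_hasCompactSupport (hc.fderiv ℝ) (by norm_num)
  have hKb : ∀ z, ‖fderiv ℝ X z‖ ≤ K := fun z => norm_fderiv_le_of_lipschitz ℝ hK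
  refine ⟨K₂ * Real.exp (2 * K * T) * Real.exp ((K + 1) * T), ?_⟩
  intro t ht y v
  have hε : 0 ≤ K₂ * Real.exp (2 * K * T) * ‖v‖ ^ 2 := by positivity
  have h := flow2_gronwall (e := fun s => φ (s, y + v) - φ (s, y) - A (s, y) v)
    (e' := fun s => X (φ (s, y + v)) - X (φ (s, y)) -
      ((fderiv ℝ X (φ (s, y))).comp (A (s, y))) v) (T := T) (K := K)
    (ε := K₂ * Real.exp (2 * K * T) * ‖v‖ ^ 2) K.coe_nonneg hε
    (by
      intro s hs
      have h1 := hφ.deriv s (y + v)
      have h2 := hφ.deriv s y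
      have h3 := (hA.deriv y s hs).clm_apply (hasDerivAt_const s v)
      simp only [map_zero, add_zero] at h3
      exact (h1.sub h2).sub h3)
    (by
      simp only [hφ.zero, hA.zero]
      simp)
    (by
      intro s hs
      have hw : ‖φ (s, y + v) - φ (s, y)‖ ≤ Real.exp (K * T) * ‖v‖ := by
        have h1 := hφ.dist_le hK s (y + v) y
        have h2 : y + v - y = v := by abel
        rw [h2] at h1
        refine h1.trans ?_
        apply mul_le_mul_of_nonneg_right _ (norm_nonneg _)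
        apply Real.exp_le_exp.2
        apply mul_le_mul_of_nonneg_left _ K.coe_nonneg
        exact (abs_lt.2 ⟨by linarith [hs.1], hs.2⟩).le
      have h4 : X (φ (s, y + v)) - X (φ (s, y)) -
          ((fderiv ℝ X (φ (s, y))).comp (A (s, y))) v =
          fderiv ℝ X (φ (s, y)) (φ (s, y + v) - φ (s, y) - A (s, y) v) +
          (X (φ (s, y + v)) - X (φ (s, y)) -
            fderiv ℝ X (φ (s, y)) (φ (s, y + v) - φ (s, y))) := by
        simp only [map_sub, ContinuousLinearMap.comp_apply]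
        abel
      rw [h4]
      refine (norm_add_le _ _).trans ?_
      apply add_le_add
      · refine (ContinuousLinearMap.le_opNorm _ _).trans ?_
        exact mul_le_mul_of_nonneg_right (hKb _) (norm_nonneg _)
      · refine (flow2_taylor hX hK₂ _ _).trans ?_
        have h5 : ‖φ (s, y + v) - φ (s, y)‖ ^ 2 ≤ (Real.exp (K * T) * ‖v‖) ^ 2 := by
          gcongr
        have h6 : (Real.exp (K * T) * ‖v‖) ^ 2 = Real.exp (2 * K * T) * ‖v‖ ^ 2 := by
          rw [mul_pow, ← Real.exp_nat_mul]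
          congr 2
          push_cast
          ring
        rw [h6] at h5
        calc (K₂ : ℝ) * ‖φ (s, y + v) - φ (s, y)‖ ^ 2 ≤
            K₂ * (Real.exp (2 * K * T) * ‖v‖ ^ 2) := by gcongr
          _ = _ := by ring)
    t ht
  calc _ ≤ _ := h
    _ = _ := by ring

theorem flow_hasFDerivAt {X : U → U} (hX : ContDiff ℝ 2 X) (hc : HasCompactSupport X)
    {φ : ℝ × U → U} (hφ : IsFlow X φ) {T : ℝ} (hT : 0 < T) {A : ℝ × U → (U →L[ℝ] U)}
    (hA : IsVarEq X φ T A) {t : ℝ} (ht : t ∈ Ioo (-T) T) (y : U) :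
    HasFDerivAt φ ((ContinuousLinearMap.fst ℝ ℝ U).smulRight (X (φ (t, y))) +
      (A (t, y)).comp (ContinuousLinearMap.snd ℝ ℝ U)) (t, y) := by
  obtain ⟨C, hC⟩ := flow_deriv_error hX hc hφ hT hA
  rw [hasFDerivAt_iff_isLittleO_nhds_zero]
  -- first error
  have hfst : Tendsto (fun h : ℝ × U => h.1) (𝓝 0) (𝓝 0) := by
    have : Continuous (fun h : ℝ × U => h.1) := continuous_fst
    simpa using this.tendsto (0 : ℝ × U)
  have hsnd : Tendsto (fun h : ℝ × U => h.2) (𝓝 0) (𝓝 0) := by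
    have : Continuous (fun h : ℝ × U => h.2) := continuous_snd
    simpa using this.tendsto (0 : ℝ × U)
  have hmem : ∀ᶠ h : ℝ × U in 𝓝 0, t + h.1 ∈ Ioo (-T) T := by
    have : Tendsto (fun h : ℝ × U => t + h.1) (𝓝 0) (𝓝 t) := by
      simpa using hfst.const_add t
    exact this.eventually (Ioo_mem_nhds ht.1 ht.2)
  have E1 : (fun h : ℝ × U => φ (t + h.1, y + h.2) - φ (t + h.1, y) - A (t + h.1, y) h.2)
      =o[𝓝 0] fun h => h := by
    have h1 : (fun h : ℝ × U => φ (t + h.1, y + h.2) - φ (t + h.1, y) - A (t + h.1, y) h.2)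
        =O[𝓝 0] fun h => ‖h.2‖ ^ 2 := by
      refine Asymptotics.IsBigO.of_bound C ?_
      filter_upwards [hmem] with h hh
      refine (hC _ hh y h.2).trans_eq ?_
      simp
    refine h1.trans_isLittleO ?_
    have h2 : (fun h : ℝ × U => ‖h.2‖ ^ 2) =o[𝓝 0] fun h => ‖h.2‖ := by
      have h3 : (fun x : ℝ => x ^ 2) =o[𝓝 0] fun x : ℝ => x := by
        simpa using Asymptotics.isLittleO_pow_pow (𝕜 := ℝ) (one_lt_two)
      exact h3.comp_tendsto (by simpa using hsnd.norm)
    refine h2.trans_isBigO ?_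
    refine Asymptotics.IsBigO.of_bound 1 ?_
    filter_upwards with h
    simpa using norm_snd_le h
  have E2 : (fun h : ℝ × U => (A (t + h.1, y) - A (t, y)) h.2) =o[𝓝 0] fun h => h := by
    have h1 : Tendsto (fun h : ℝ × U => A (t + h.1, y) - A (t, y)) (𝓝 0) (𝓝 0) := by
      have h2 : ContinuousAt (fun s => A (s, y)) t := (hA.deriv y t ht).continuousAt
      have h3 : Tendsto (fun h : ℝ × U => t + h.1) (𝓝 0) (𝓝 t) := by
        simpa using hfst.const_add t
      have h4 := (h2.tendsto.comp h3).sub_const (A (t, y))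
      simpa [Function.comp_def] using h4
    rw [Asymptotics.isLittleO_iff]
    intro c hcpos
    have h5 : ∀ᶠ h : ℝ × U in 𝓝 0, ‖A (t + h.1, y) - A (t, y)‖ < c := by
      have := h1.norm
      rw [norm_zero] at this
      exact this.eventually (Iio_mem_nhds hcpos)
    filter_upwards [h5] with h hh
    calc ‖(A (t + h.1, y) - A (t, y)) h.2‖ ≤ ‖A (t + h.1, y) - A (t, y)‖ * ‖h.2‖ :=
          ContinuousLinearMap.le_opNorm _ _
      _ ≤ c * ‖h‖ := by
          apply mul_le_mul hh.le (norm_snd_le h) (norm_nonneg _) hcpos.le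
  have E3 : (fun h : ℝ × U => φ (t + h.1, y) - φ (t, y) - h.1 • X (φ (t, y)))
      =o[𝓝 0] fun h => h := by
    have h1 := (hasDerivAt_iff_isLittleO_nhds_zero.1 (hφ.deriv t y))
    have h2 := h1.comp_tendsto hfst
    refine h2.trans_isBigO ?_
    refine Asymptotics.IsBigO.of_bound 1 ?_
    filter_upwards with h
    simpa using norm_fst_le h
  refine ((E1.add E2).add E3).congr_left ?_
  intro h
  simp only [ContinuousLinearMap.sub_apply, ContinuousLinearMap.add_apply,
    ContinuousLinearMap.smulRight_apply, ContinuousLinearMap.comp_apply,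
    ContinuousLinearMap.coe_fst', ContinuousLinearMap.coe_snd', Prod.mk_add_mk,
    Prod.mk.eta]
  have h7 : ((t, y) : ℝ × U) + h = (t + h.1, y + h.2) := by
    ext <;> simp
  rw [h7]
  abel

end Pool.Agent.H72.EZ
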