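import Pool.Agent.H72.EZ.Flow2

/-!
# JOB EZ-FLOW3 : flows of `C^{k+1}` compactly supported vector fields are `C^k`

PROOF by induction on `k`, for all `U` at once. `k = 0`: continuity (`IsFlow.continuous`; a `C^1`
compactly supported field is Lipschitz).
Step `k → k+1`: `X` is `C^{k+2}` with compact support, `φ` its flow, `K` its Lipschitz constant. It
suffices to show that `φ` is `C^{k+1}` on `Ioo (-T) T ×ˢ univ` for every `T > 0`.
On `U₁ = U × (U →L[ℝ] U)` consider `X₁(x,A) = χ(A) • (X x, (fderiv ℝ X x).comp A)` where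
`χ : (U →L U) → ℝ` is smooth with compact support and `χ = 1` on `‖A‖ ≤ e^{KT} + 1`
(`ContDiffBump`, `exists_contDiff_tsupport_subset`...). `X₁` is `C^{k+1}` with compact support
(support in `tsupport X ×ˢ tsupport χ`), so by `exists_isFlow` and the induction hypothesis it has
a flow `Φ` of class `C^k`. For `y ∈ U` let `(x(t), A(t)) = Φ(t,(y, id))`. Claim: for `|t| < T`,
`x(t) = φ(t,y)` and `‖A(t)‖ ≤ e^{KT}` so that `A' = DX(x)A`. To prove it, define
`A` as the solution of the LINEAR equation along `φ(·,y)`; simplest: show by a continuity argument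
that `‖A(t)‖ < e^{KT}+1` on `(-T,T)`: as long as it holds, `χ = 1`, `x' = X(x)`, `A' = DX(x) A`, so
`‖A(t)‖ ≤ e^{K|t|}` by Gronwall (`χ ∈ [0,1]`: in fact `‖(A)'‖ ≤ χ K ‖A‖ ≤ K‖A‖` ALWAYS, so
Gronwall gives `‖A(t)‖ ≤ e^{K|t|}` for all `t` directly, hence `χ(A(t)) = 1` for `|t| ≤ T`. No
continuity argument needed.) Then `x = φ(·,y)` by uniqueness. So `A(t,y) := (Φ(t,(y,id))).2` is a
`C^k` function with `IsVarEq X φ T A`, and by `flow_hasFDerivAt` `φ` is differentiable on
`Ioo (-T) T ×ˢ univ` with derivative `(s,v) ↦ s X(φ(t,y)) + A(t,y) v`, which is `C^k`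
(`φ` itself is `C^k` by the induction hypothesis applied to `X`). Hence `φ` is `C^{k+1}` there
(`contDiffOn_succ_iff_hasFDerivWithinAt` / `contDiff_succ_iff_hasFDerivAt`).
-/

open MeasureTheory Set Metric Filter Topology
open scoped Real NNReal

namespace Pool.Agent.H72.EZ

/-- Gronwall: forward times -/
theorem Flow3_gronwall_pos {E : Type} [NormedAddCommGroup E] [NormedSpace ℝ E]
    {f f' : ℝ → E} {K : ℝ} (hf : ∀ t, HasDerivAt f (f' t) t)
    (hb : ∀ t, ‖f' t‖ ≤ K * ‖f t‖) {t : ℝ} (ht : 0 ≤ t) :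
    ‖f t‖ ≤ ‖f 0‖ * Real.exp (K * t) := by
  have h := norm_le_gronwallBound_of_norm_deriv_right_le (f := f) (f' := f') (δ := ‖f 0‖)
    (K := K) (ε := 0) (a := 0) (b := t)
    (fun s _ => (hf s).continuousAt.continuousWithinAt)
    (fun s _ => (hf s).hasDerivWithinAt) le_rfl
    (fun s _ => by simpa using hb s) t ⟨ht, le_rfl⟩
  simpa [gronwallBound_ε0] using h

theorem Flow3_gronwall {E : Type} [NormedAddCommGroup E] [NormedSpace ℝ E]
    {f f' : ℝ → E} {K : ℝ} (hf : ∀ t, HasDerivAt f (f' t) t)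
    (hb : ∀ t, ‖f' t‖ ≤ K * ‖f t‖) (t : ℝ) :
    ‖f t‖ ≤ ‖f 0‖ * Real.exp (K * |t|) := by
  rcases le_total 0 t with ht | ht
  · rw [abs_of_nonneg ht]
    exact Flow3_gronwall_pos hf hb ht
  · rw [abs_of_nonpos ht]
    have h := Flow3_gronwall_pos (f := fun s => f (-s)) (f' := fun s => - f' (-s)) (K := K)
      (fun s => by
        have h1 := (hf (-s)).scomp s (hasDerivAt_neg s)
        simpa [Function.comp_def] using h1)
      (fun s => by simpa using hb (-s)) (t := -t) (by linarith)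
    simpa using h

/-- the extended vector field -/
noncomputable def Flow3_X1 {U : Type} [NormedAddCommGroup U] [NormedSpace ℝ U]
    (X : U → U) (χ : (U →L[ℝ] U) → ℝ) : U × (U →L[ℝ] U) → U × (U →L[ℝ] U) :=
  fun p => χ p.2 • (X p.1, (fderiv ℝ X p.1).comp p.2)

theorem Flow3_X1_contDiff {U : Type} [NormedAddCommGroup U] [NormedSpace ℝ U]
    {X : U → U} {χ : (U →L[ℝ] U) → ℝ} {k : ℕ} (hX : ContDiff ℝ (k + 1 : ℕ) X)
    (hχ : ContDiff ℝ k χ) : ContDiff ℝ k (Flow3_X1 X χ) := by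
  have h1 : ContDiff ℝ k (fun p : U × (U →L[ℝ] U) => χ p.2) := hχ.comp contDiff_snd
  have h2 : ContDiff ℝ k (fun p : U × (U →L[ℝ] U) => X p.1) :=
    (hX.of_le (by exact_mod_cast Nat.le_succ k)).comp contDiff_fst
  have h3 : ContDiff ℝ k (fun x : U => fderiv ℝ X x) :=
    hX.fderiv_right (by push_cast; exact le_rfl)
  have h4 : ContDiff ℝ k (fun p : U × (U →L[ℝ] U) => (fderiv ℝ X p.1).comp p.2) :=
    (h3.comp contDiff_fst).clm_comp contDiff_snd
  exact h1.smul (h2.prodMk h4)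

theorem Flow3_X1_compact {U : Type} [NormedAddCommGroup U] [NormedSpace ℝ U]
    [FiniteDimensional ℝ U]
    {X : U → U} {χ : (U →L[ℝ] U) → ℝ} (hX : HasCompactSupport X)
    (hχ : HasCompactSupport χ) : HasCompactSupport (Flow3_X1 X χ) := by
  refine HasCompactSupport.intro (K := tsupport X ×ˢ tsupport χ)
    (IsCompact.prod hX hχ) ?_
  intro p hp
  have hp' : p.1 ∉ tsupport X ∨ p.2 ∉ tsupport χ := by
    by_contra hcon
    push Not at hcon
    exact hp ⟨hcon.1, hcon.2⟩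
  rcases hp' with h | h
  · have h1 : X p.1 = 0 := image_eq_zero_of_notMem_tsupport h
    have h2 : fderiv ℝ X p.1 = 0 := by
      by_contra hne
      exact h (support_fderiv_subset ℝ hne)
    simp [Flow3_X1, h1, h2]
  · have h1 : χ p.2 = 0 := image_eq_zero_of_notMem_tsupport h
    simp [Flow3_X1, h1]

/-- the variation equation from the extended flow -/
theorem Flow3_varEq {U : Type} [NormedAddCommGroup U] [NormedSpace ℝ U]
    [FiniteDimensional ℝ U] {X : U → U} {K : ℝ≥0} (hL : LipschitzWith K X)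
    {χ : (U →L[ℝ] U) → ℝ} {T : ℝ}
    (hχ0 : ∀ A, 0 ≤ χ A) (hχ1 : ∀ A, χ A ≤ 1)
    (hχ : ∀ A : U →L[ℝ] U, ‖A‖ ≤ Real.exp (K * T) → χ A = 1)
    {φ : ℝ × U → U} (hφ : IsFlow X φ)
    {Φ : ℝ × (U × (U →L[ℝ] U)) → U × (U →L[ℝ] U)} (hΦ : IsFlow (Flow3_X1 X χ) Φ) :
    IsVarEq X φ T (fun p => (Φ (p.1, (p.2, ContinuousLinearMap.id ℝ U))).2) := by
  have hd : ∀ (y : U) (t : ℝ), HasDerivAt (fun s => Φ (s, (y, ContinuousLinearMap.id ℝ U)))
      (χ (Φ (t, (y, ContinuousLinearMap.id ℝ U))).2 •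
        (X (Φ (t, (y, ContinuousLinearMap.id ℝ U))).1,
          (fderiv ℝ X (Φ (t, (y, ContinuousLinearMap.id ℝ U))).1).comp
            (Φ (t, (y, ContinuousLinearMap.id ℝ U))).2)) t := by
    intro y t
    exact hΦ.deriv t (y, ContinuousLinearMap.id ℝ U)
  have hd1 : ∀ (y : U) (t : ℝ),
      HasDerivAt (fun s => (Φ (s, (y, ContinuousLinearMap.id ℝ U))).1)
      (χ (Φ (t, (y, ContinuousLinearMap.id ℝ U))).2 •
        X (Φ (t, (y, ContinuousLinearMap.id ℝ U))).1) t := by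
    intro y t
    exact (ContinuousLinearMap.fst ℝ U (U →L[ℝ] U)).hasFDerivAt.comp_hasDerivAt t (hd y t)
  have hd2 : ∀ (y : U) (t : ℝ),
      HasDerivAt (fun s => (Φ (s, (y, ContinuousLinearMap.id ℝ U))).2)
      (χ (Φ (t, (y, ContinuousLinearMap.id ℝ U))).2 •
        (fderiv ℝ X (Φ (t, (y, ContinuousLinearMap.id ℝ U))).1).comp
            (Φ (t, (y, ContinuousLinearMap.id ℝ U))).2) t := by
    intro y t
    exact (ContinuousLinearMap.snd ℝ U (U →L[ℝ] U)).hasFDerivAt.comp_hasDerivAt t (hd y t)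
  have hK : ∀ x, ‖fderiv ℝ X x‖ ≤ K := fun x => norm_fderiv_le_of_lipschitz ℝ hL
  have hbound : ∀ (y : U) (t : ℝ),
      ‖(Φ (t, (y, ContinuousLinearMap.id ℝ U))).2‖ ≤ Real.exp (K * |t|) := by
    intro y t
    have h := Flow3_gronwall (K := K) (hd2 y) (by
      intro s
      rw [norm_smul, Real.norm_of_nonneg (hχ0 _)]
      have h1 : ‖(fderiv ℝ X (Φ (s, (y, ContinuousLinearMap.id ℝ U))).1).comp
            (Φ (s, (y, ContinuousLinearMap.id ℝ U))).2‖ ≤
          K * ‖(Φ (s, (y, ContinuousLinearMap.id ℝ U))).2‖ :=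
        (ContinuousLinearMap.opNorm_comp_le _ _).trans
          (mul_le_mul_of_nonneg_right (hK _) (norm_nonneg _))
      calc _ ≤ 1 * (K * ‖(Φ (s, (y, ContinuousLinearMap.id ℝ U))).2‖) :=
            mul_le_mul (hχ1 _) h1 (norm_nonneg _) zero_le_one
        _ = _ := one_mul _) t
    have h0 : (Φ (0, (y, ContinuousLinearMap.id ℝ U))).2 = ContinuousLinearMap.id ℝ U := by
      rw [hΦ.zero]
    rw [h0] at h
    calc _ ≤ _ := h
      _ ≤ 1 * Real.exp (K * |t|) :=
        mul_le_mul_of_nonneg_right ContinuousLinearMap.norm_id_le (Real.exp_pos _).le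
      _ = _ := one_mul _
  have hχe : ∀ (y : U), ∀ t ∈ Ioo (-T) T, χ (Φ (t, (y, ContinuousLinearMap.id ℝ U))).2 = 1 := by
    intro y t ht
    apply hχ
    refine (hbound y t).trans ?_
    apply Real.exp_le_exp.mpr
    exact mul_le_mul_of_nonneg_left (abs_le.mpr ⟨ht.1.le, ht.2.le⟩) K.coe_nonneg
  have hx : ∀ (y : U), ∀ t ∈ Ioo (-T) T,
      (Φ (t, (y, ContinuousLinearMap.id ℝ U))).1 = φ (t, y) := by
    intro y t ht
    have h := hφ.unique hL (x := fun s => (Φ (s, (y, ContinuousLinearMap.id ℝ U))).1) (T := T)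
      (by
        intro s hs
        have h1 := hd1 y s
        rw [hχe y s hs, one_smul] at h1
        exact h1) t ht
    have h0 : (Φ (0, (y, ContinuousLinearMap.id ℝ U))).1 = y := by
      rw [hΦ.zero]
    simpa [h0] using h
  refine ⟨?_, ?_⟩
  · intro y
    change (Φ (0, (y, ContinuousLinearMap.id ℝ U))).2 = _
    rw [hΦ.zero]
  · intro y t ht
    have h1 := hd2 y t
    rw [hχe y t ht, one_smul, hx y t ht] at h1
    exact h1

theorem Flow3_aux (k : ℕ) : ∀ {U : Type} [NormedAddCommGroup U] [NormedSpace ℝ U]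
    [FiniteDimensional ℝ U] {X : U → U}, ContDiff ℝ (k + 1 : ℕ) X →
    HasCompactSupport X → ∀ {φ : ℝ × U → U}, IsFlow X φ → ContDiff ℝ k φ := by
  induction k with
  | zero =>
    intro U _ _ _ X hX hc φ hφ
    obtain ⟨K, hK⟩ := hX.lipschitzWith_of_hasCompactSupport hc (by simp)
    have h0 : ContDiff ℝ 0 φ := contDiff_zero.mpr (hφ.continuous hK)
    simpa using h0
  | succ k ih =>
    intro U _ _ _ X hX hc φ hφ
    obtain ⟨K, hK⟩ := hX.lipschitzWith_of_hasCompactSupport hc (by simp)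
    have hXk : ContDiff ℝ (k + 1 : ℕ) X := hX.of_le (by exact_mod_cast Nat.le_succ _)
    have hX2 : ContDiff ℝ 2 X := hX.of_le (by
      have : (2 : ℕ) ≤ k + 1 + 1 := by omega
      exact_mod_cast this)
    have hφk : ContDiff ℝ k φ := ih hXk hc hφ
    have hXk' : ContDiff ℝ k X := hXk.of_le (by exact_mod_cast Nat.le_succ _)
    -- local description of the derivative
    have key : ∀ T : ℝ, 0 < T → ∃ A : ℝ × U → (U →L[ℝ] U), ContDiff ℝ k A ∧
        ∀ t ∈ Ioo (-T) T, ∀ y : U, HasFDerivAt φ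
          ((ContinuousLinearMap.fst ℝ ℝ U).smulRight (X (φ (t, y))) +
            (A (t, y)).comp (ContinuousLinearMap.snd ℝ ℝ U)) (t, y) := by
      intro T hT
      set R : ℝ := Real.exp (K * T) with hR
      have hRpos : 0 < R := Real.exp_pos _
      let χ : ContDiffBump (0 : U →L[ℝ] U) := ⟨R, R + 1, hRpos, by linarith⟩
      have hX1 : ContDiff ℝ (k + 1 : ℕ) (Flow3_X1 X (fun A => χ A)) :=
        Flow3_X1_contDiff hX χ.contDiff
      have hc1 : HasCompactSupport (Flow3_X1 X (fun A => χ A)) :=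
        Flow3_X1_compact hc χ.hasCompactSupport
      obtain ⟨K1, hK1⟩ := hX1.lipschitzWith_of_hasCompactSupport hc1 (by simp)
      obtain ⟨Φ, hΦ⟩ := exists_isFlow hK1
      have hΦk : ContDiff ℝ k Φ := ih hX1 hc1 hΦ
      refine ⟨fun p => (Φ (p.1, (p.2, ContinuousLinearMap.id ℝ U))).2, ?_, ?_⟩
      · have h1 : ContDiff ℝ k (fun p : ℝ × U => (p.1, (p.2, ContinuousLinearMap.id ℝ U))) :=
          contDiff_fst.prodMk (contDiff_snd.prodMk contDiff_const)
        exact contDiff_snd.comp (hΦk.comp h1)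
      · intro t ht y
        have hv := Flow3_varEq (T := T) hK (χ := fun A => χ A) (fun A => χ.nonneg)
          (fun A => χ.le_one)
          (fun A hA => χ.one_of_mem_closedBall (by simpa using hA)) hφ hΦ
        exact flow_hasFDerivAt hX2 hc hφ hT hv ht y
    have hcast : ((k + 1 : ℕ) : WithTop ℕ∞) = (k : WithTop ℕ∞) + 1 := by push_cast; rfl
    rw [hcast, contDiff_succ_iff_fderiv (𝕜 := ℝ)]
    refine ⟨?_, ?_, ?_⟩
    · rintro ⟨t, y⟩
      obtain ⟨A, -, hA⟩ := key (|t| + 1) (by positivity)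
      exact (hA t ⟨by linarith [neg_abs_le t], by linarith [le_abs_self t]⟩ y).differentiableAt
    · intro h
      exact absurd h (by simp)
    · rw [contDiff_iff_contDiffAt]
      rintro ⟨t, y⟩
      obtain ⟨A, hAk, hA⟩ := key (|t| + 1) (by positivity)
      have hev : (fderiv ℝ φ) =ᶠ[𝓝 (t, y)] fun p : ℝ × U =>
          (ContinuousLinearMap.fst ℝ ℝ U).smulRight (X (φ p)) +
            (A p).comp (ContinuousLinearMap.snd ℝ ℝ U) := by
        have hopen : IsOpen (Ioo (-(|t| + 1)) (|t| + 1) ×ˢ (univ : Set U)) :=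
          isOpen_Ioo.prod isOpen_univ
        have hmem : (t, y) ∈ (Ioo (-(|t| + 1)) (|t| + 1) ×ˢ (univ : Set U)) :=
          ⟨⟨by linarith [neg_abs_le t], by linarith [le_abs_self t]⟩, trivial⟩
        filter_upwards [hopen.mem_nhds hmem] with p hp
        exact (hA p.1 hp.1 p.2).fderiv
      refine ContDiffAt.congr_of_eventuallyEq ?_ hev
      have h1 : ContDiff ℝ k (fun p : ℝ × U =>
          (ContinuousLinearMap.fst ℝ ℝ U).smulRight (X (φ p))) :=
        contDiff_const.smulRight (hXk'.comp hφk)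
      have h2 : ContDiff ℝ k (fun p : ℝ × U =>
          (A p).comp (ContinuousLinearMap.snd ℝ ℝ U)) :=
        hAk.clm_comp contDiff_const
      exact (h1.add h2).contDiffAt

theorem flow_contDiff (k : ℕ) {U : Type} [NormedAddCommGroup U] [NormedSpace ℝ U]
    [FiniteDimensional ℝ U] {X : U → U} (hX : ContDiff ℝ (k + 1 : ℕ) X)
    (hc : HasCompactSupport X) {φ : ℝ × U → U} (hφ : IsFlow X φ) : ContDiff ℝ k φ :=
  Flow3_aux k hX hc hφ

end Pool.Agent.H72.EZ
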