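import Pool.Agent.H72.EZ.Defs
import Pool.Agent.H72.EZ.Flow3

/-!
# JOB EZ-GEN1 : smooth flow of `J ∇h` together with the action integral

PROOF. `h` is `C^{k+3}` with compact support, so `y ↦ gradient h y` is `C^{k+2}` with compact support
(`gradient h y = (InnerProductSpace.toDual ℝ W).symm (fderiv ℝ h y)`).
On `U = W × ℝ` let `X(y,s) = χ(s) • (J (gradient h y), (1/2)⟨gradient h y, y⟩ - h y)` with a smooth
compactly supported `χ : ℝ → [0,1]`, `χ = 1` on `|s| ≤ B T₀ + 1`, `B` a bound of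
`|(1/2)⟨gradient h y, y⟩ - h y|`. `X` is `C^{k+2}` with compact support, so it has a flow `Φ`
(`exists_isFlow`; Lipschitz by `ContDiff.lipschitzWith_of_hasCompactSupport`), of class `C^{k+1}`
(`flow_contDiff (k+1)`). For `|t| < T₀` and start `(y,0)` the second component satisfies
`|s(t)| ≤ B |t|` (its derivative is bounded by `B`), so `χ = 1` and
`φ(y,t) := (Φ(t,(y,0))).1`, `S(y,t) := (Φ(t,(y,0))).2` solve the equations.
Lipschitz estimate: `IsFlow.dist_le`.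
-/

open MeasureTheory Set Metric Filter Topology
open scoped Real InnerProductSpace NNReal

namespace Pool.Agent.H72.EZ

variable {W : Type} [NormedAddCommGroup W] [InnerProductSpace ℝ W]

/-- `φ(y,t)` is the flow of `J ∇h` and `S(y,t)` the integral of `(1/2)⟨∇h,x⟩ - h` along it, for
`|t| < T₀` -/
structure ExtFlow [FiniteDimensional ℝ W] (C : CStr W) (h : W → ℝ) (k : ℕ) (T₀ : ℝ)
    (φ : W × ℝ → W) (S : W × ℝ → ℝ) : Prop where
  cφ : ContDiffOn ℝ k φ (univ ×ˢ Ioo (-T₀) T₀)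
  cS : ContDiffOn ℝ k S (univ ×ˢ Ioo (-T₀) T₀)
  φ0 : ∀ y, φ (y, 0) = y
  S0 : ∀ y, S (y, 0) = 0
  dφ : ∀ y, ∀ t ∈ Ioo (-T₀) T₀,
    HasDerivAt (fun s => φ (y, s)) (C.J (gradient h (φ (y, t)))) t
  dS : ∀ y, ∀ t ∈ Ioo (-T₀) T₀,
    HasDerivAt (fun s => S (y, s))
      (1 / 2 * ⟪gradient h (φ (y, t)), φ (y, t)⟫_ℝ - h (φ (y, t))) t
  lip : ∃ K : ℝ, ∀ t ∈ Ioo (-T₀) T₀, ∀ y y', ‖φ (y, t) - φ (y', t)‖ ≤ K * ‖y - y'‖

/-- the gradient in an orthonormal basis -/
theorem Gen1_gradient_eq [FiniteDimensional ℝ W] (h : W → ℝ) (y : W) :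
    gradient h y = ∑ i, (fderiv ℝ h y (stdOrthonormalBasis ℝ W i)) • stdOrthonormalBasis ℝ W i := by
  rw [← (stdOrthonormalBasis ℝ W).sum_repr' (gradient h y)]
  refine Finset.sum_congr rfl fun i _ => ?_
  congr 1
  rw [real_inner_comm, gradient, InnerProductSpace.toDual_symm_apply]

theorem Gen1_gradient_contDiff [FiniteDimensional ℝ W] {h : W → ℝ} {n : ℕ}
    (hh : ContDiff ℝ (n + 1 : ℕ) h) : ContDiff ℝ n (gradient h) := by
  have h1 : gradient h = fun y =>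
      ∑ i, (fderiv ℝ h y (stdOrthonormalBasis ℝ W i)) • stdOrthonormalBasis ℝ W i := by
    funext y
    exact Gen1_gradient_eq h y
  rw [h1]
  refine ContDiff.sum fun i _ => ?_
  have h2 : ContDiff ℝ n (fun y => fderiv ℝ h y) := hh.fderiv_right (by push_cast; exact le_rfl)
  exact (h2.clm_apply contDiff_const).smul contDiff_const

theorem Gen1_gradient_zero [FiniteDimensional ℝ W] {h : W → ℝ} {y : W} (hy : y ∉ tsupport h) :
    gradient h y = 0 := by
  have h2 : fderiv ℝ h y = 0 := by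
    by_contra hne
    exact hy (support_fderiv_subset ℝ hne)
  rw [Gen1_gradient_eq, h2]
  simp

theorem exists_extFlow [FiniteDimensional ℝ W] (C : CStr W) (k : ℕ) {h : W → ℝ}
    (hh : ContDiff ℝ (k + 3 : ℕ) h) (hc : HasCompactSupport h) {T₀ : ℝ} (hT₀ : 0 < T₀) :
    ∃ φ S, ExtFlow C h k T₀ φ S := by
  have hg : ContDiff ℝ (k + 2 : ℕ) (gradient h) := Gen1_gradient_contDiff hh
  have hh2 : ContDiff ℝ (k + 2 : ℕ) h := hh.of_le (by
    have : k + 2 ≤ k + 3 := by omega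
    exact_mod_cast this)
  set G : W → ℝ := fun y => 1 / 2 * ⟪gradient h y, y⟫_ℝ - h y with hG
  have hGs : ContDiff ℝ (k + 2 : ℕ) G :=
    (contDiff_const.mul (hg.inner ℝ contDiff_id)).sub hh2
  have hG0 : ∀ y, y ∉ tsupport h → G y = 0 := by
    intro y hy
    simp only [hG, Gen1_gradient_zero hy, image_eq_zero_of_notMem_tsupport hy, inner_zero_left]
    ring
  have hGc : HasCompactSupport G := HasCompactSupport.intro (K := tsupport h) hc hG0
  obtain ⟨B, hB⟩ := hGc.exists_bound_of_continuous hGs.continuous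
  have hB0 : 0 ≤ B := (norm_nonneg _).trans (hB 0)
  let χ : ContDiffBump (0 : ℝ) := ⟨B * T₀ + 1, B * T₀ + 2, by positivity, by linarith⟩
  set X : W × ℝ → W × ℝ := fun p => χ p.2 • (C.J (gradient h p.1), G p.1) with hX
  have hXs : ContDiff ℝ (k + 2 : ℕ) X :=
    (χ.contDiff.comp contDiff_snd).smul
      ((C.J.contDiff.comp (hg.comp contDiff_fst)).prodMk (hGs.comp contDiff_fst))
  have hXc : HasCompactSupport X := by
    refine HasCompactSupport.intro (K := tsupport h ×ˢ tsupport χ)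
      (IsCompact.prod hc χ.hasCompactSupport) ?_
    intro p hp
    have hp' : p.1 ∉ tsupport h ∨ p.2 ∉ tsupport χ := by
      by_contra hcon
      push Not at hcon
      exact hp ⟨hcon.1, hcon.2⟩
    rcases hp' with h' | h'
    · simp [hX, Gen1_gradient_zero h', hG0 _ h']
    · simp [hX, image_eq_zero_of_notMem_tsupport h']
  obtain ⟨K, hK⟩ := hXs.lipschitzWith_of_hasCompactSupport hXc (by simp)
  obtain ⟨Φ, hΦ⟩ := exists_isFlow hK
  have hXs1 : ContDiff ℝ (k + 1 : ℕ) X := hXs.of_le (by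
    have : k + 1 ≤ k + 2 := by omega
    exact_mod_cast this)
  have hΦs : ContDiff ℝ k Φ := flow_contDiff k hXs1 hXc hΦ
  have hd : ∀ (y : W) (t : ℝ), HasDerivAt (fun s => Φ (s, (y, (0 : ℝ))))
      (χ (Φ (t, (y, 0))).2 • (C.J (gradient h (Φ (t, (y, 0))).1), G (Φ (t, (y, 0))).1)) t :=
    fun y t => hΦ.deriv t (y, 0)
  have hd1 : ∀ (y : W) (t : ℝ), HasDerivAt (fun s => (Φ (s, (y, (0 : ℝ)))).1)
      (χ (Φ (t, (y, 0))).2 • C.J (gradient h (Φ (t, (y, 0))).1)) t := fun y t =>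
    (ContinuousLinearMap.fst ℝ W ℝ).hasFDerivAt.comp_hasDerivAt t (hd y t)
  have hd2 : ∀ (y : W) (t : ℝ), HasDerivAt (fun s => (Φ (s, (y, (0 : ℝ)))).2)
      (χ (Φ (t, (y, 0))).2 • G (Φ (t, (y, 0))).1) t := fun y t =>
    (ContinuousLinearMap.snd ℝ W ℝ).hasFDerivAt.comp_hasDerivAt t (hd y t)
  have hs : ∀ (y : W) (t : ℝ), |(Φ (t, (y, (0 : ℝ)))).2| ≤ B * |t| := by
    intro y t
    have h1 := Convex.norm_image_sub_le_of_norm_hasDerivWithin_le (C := B) (s := univ)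
      (f := fun s => (Φ (s, (y, (0 : ℝ)))).2)
      (fun x _ => (hd2 y x).hasDerivWithinAt) (fun x _ => by
        rw [norm_smul, Real.norm_of_nonneg χ.nonneg]
        calc χ (Φ (x, (y, 0))).2 * ‖G (Φ (x, (y, 0))).1‖ ≤ 1 * B :=
              mul_le_mul χ.le_one (hB _) (norm_nonneg _) zero_le_one
          _ = B := one_mul B) convex_univ (mem_univ 0) (mem_univ t)
    simpa [hΦ.zero] using h1
  have hχ : ∀ (y : W), ∀ t ∈ Ioo (-T₀) T₀, χ (Φ (t, (y, 0))).2 = 1 := by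
    intro y t ht
    refine χ.one_of_mem_closedBall ?_
    rw [mem_closedBall, dist_zero_right, Real.norm_eq_abs]
    refine (hs y t).trans ?_
    have h1 : |t| ≤ T₀ := abs_le.2 ⟨ht.1.le, ht.2.le⟩
    have h2 : B * |t| ≤ B * T₀ := mul_le_mul_of_nonneg_left h1 hB0
    change B * |t| ≤ B * T₀ + 1
    linarith
  have hcm : ContDiff ℝ k (fun p : W × ℝ => (p.2, (p.1, (0 : ℝ)))) :=
    contDiff_snd.prodMk (contDiff_fst.prodMk contDiff_const)
  refine ⟨fun p => (Φ (p.2, (p.1, 0))).1, fun p => (Φ (p.2, (p.1, 0))).2,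
    (contDiff_fst.comp (hΦs.comp hcm)).contDiffOn, (contDiff_snd.comp (hΦs.comp hcm)).contDiffOn,
    fun y => ?_, fun y => ?_, fun y t ht => ?_, fun y t ht => ?_,
    Real.exp (K * T₀), fun t ht y y' => ?_⟩
  · simp [hΦ.zero]
  · simp [hΦ.zero]
  · have h1 := hd1 y t
    rw [hχ y t ht, one_smul] at h1
    exact h1
  · have h1 := hd2 y t
    rw [hχ y t ht, one_smul] at h1
    exact h1
  · have h1 := hΦ.dist_le hK t (y, 0) (y', 0)
    have h2 : ‖(Φ (t, (y, 0))).1 - (Φ (t, (y', 0))).1‖ ≤ ‖Φ (t, (y, 0)) - Φ (t, (y', 0))‖ :=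
      norm_fst_le (Φ (t, (y, 0)) - Φ (t, (y', 0)))
    have h3 : ‖((y, (0 : ℝ)) : W × ℝ) - (y', 0)‖ = ‖y - y'‖ := by
      rw [Prod.mk_sub_mk, Prod.norm_mk]
      simp
    have h4 : |t| ≤ T₀ := abs_le.2 ⟨ht.1.le, ht.2.le⟩
    rw [h3] at h1
    refine (h2.trans h1).trans ?_
    gcongr

/-- an orbit is given by the flow -/
theorem ExtFlow.orb_eq [FiniteDimensional ℝ W] {C : CStr W} {k : ℕ} {h : W → ℝ}
    (hh : ContDiff ℝ 2 h) (hc : HasCompactSupport h) {T₀ : ℝ} {φ : W × ℝ → W} {S : W × ℝ → ℝ}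
    (hF : ExtFlow C h k T₀ φ S) {τ : ℝ} (hτ0 : 0 < τ) (hτ : τ < T₀) {x : ℝ → W}
    (hx : IsOrb C h τ x) (t : ℝ) (ht : t ∈ Icc (0:ℝ) 1) : φ (x 0, τ * t) = x t := by
  have hg : ContDiff ℝ (1 : ℕ) (gradient h) := Gen1_gradient_contDiff (by simpa using hh)
  set X : W → W := fun y => τ • C.J (gradient h y) with hX
  have hXs : ContDiff ℝ (1 : ℕ) X := contDiff_const.smul (C.J.contDiff.comp hg)
  have hXc : HasCompactSupport X := by
    refine HasCompactSupport.intro (K := tsupport h) hc ?_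
    intro p hp
    simp [hX, Gen1_gradient_zero hp]
  obtain ⟨K, hK⟩ := hXs.lipschitzWith_of_hasCompactSupport hXc (by simp)
  obtain ⟨Φ, hΦ⟩ := exists_isFlow hK
  have hT : 1 < T₀ / τ := by rwa [lt_div_iff₀ hτ0, one_mul]
  have ht' : t ∈ Ioo (-(T₀ / τ)) (T₀ / τ) := ⟨by linarith [ht.1], by linarith [ht.2]⟩
  have h1 : x t = Φ (t, x 0) := hΦ.unique hK (x := x) (T := T₀ / τ)
    (fun s _ => hx.1 s) t ht'
  have h2 : φ (x 0, τ * t) = Φ (t, φ (x 0, τ * 0)) :=
    hΦ.unique hK (x := fun s => φ (x 0, τ * s)) (T := T₀ / τ) (fun s hs => by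
      have h3 : τ * s ∈ Ioo (-T₀) T₀ := by
        have h4 := hs.1
        have h5 := hs.2
        rw [← neg_div, div_lt_iff₀ hτ0] at h4
        rw [lt_div_iff₀ hτ0] at h5
        exact ⟨by linarith, by linarith⟩
      have h6 := HasDerivAt.scomp s (hF.dφ (x 0) (τ * s) h3)
        ((hasDerivAt_id s).const_mul τ)
      rw [mul_one] at h6
      exact h6) t ht'
  rw [h2, h1, mul_zero, hF.φ0]

end Pool.Agent.H72.EZ
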