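import Pool.Agent.H72.EZ.Gen1

/-!
# JOB EZ-GEN2 : the generating function and its critical points

`F(y,τ) = S(y,τ) - (1/2)⟨J y, φ(y,τ)⟩`.

PROOF. Let `x` be an orbit (`IsOrb C h τ x`, `0 < τ < T₀`), `y = x 0`, `p(s) = φ(y,s)`; by
`ExtFlow.orb_eq` `p(τ t) = x t`, so `φ(y,τ) = x 1 = x 0 = y`, and the energy `h(p(s)) = h(y)` is
constant (`(h∘p)' = ⟨∇h, J∇h⟩ = 0`).
`F_orb`: `S(y,τ) = ∫₀^τ ((1/2)⟨∇h(p),p⟩ - h(p)) ds = act h τ x - τ h(y)` (substitution `s = τ t`), and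
`⟨Jy, y⟩ = 0`.
`F_hasFDerivAt`: `F` is `C^k`, `k ≥ 1`, near `(y,τ)`, so differentiable; it suffices to find its
partial derivatives. In `τ`: `(1/2)⟨∇h(y),y⟩ - h(y) - (1/2)⟨Jy, J∇h(y)⟩ = -h(y)`.
In `y`, direction `v`: claim `|F(y+v,τ) - F(y,τ)| ≤ K' ‖v‖²` for small `v`, so the partial derivative
vanishes. Let `q(s) = φ(y+v,s)`, `w = q - p`, `‖w(s)‖ ≤ K‖v‖` on `[0,τ]`, `w(0) = v`. With
`I(s) = (1/2)⟨∇h(q),q⟩ - h(q) - (1/2)⟨∇h(p),p⟩ + h(p)` and `q' = J∇h(q)`, `p' = J∇h(p)`: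
`d/ds (-(1/2)⟨J w, p⟩) = (1/2)⟨∇h(q)-∇h(p), p⟩ - (1/2)⟨w, ∇h(p)⟩`, hence
`I = d/ds(-(1/2)⟨Jw,p⟩) + (1/2)⟨∇h(p)+∇h(q), w⟩ - (h(q) - h(p))`, and the last two terms are
`O(‖w‖²)` (`h` is `C²` with bounded second derivative: `∇h` Lipschitz, Taylor). Integrate over `[0,τ]`:
`S(y+v,τ) - S(y,τ) = -(1/2)⟨J w(τ), y⟩ + (1/2)⟨J v, y⟩ + O(‖v‖²)`. Moreover
`-(1/2)⟨J(y+v), y + w(τ)⟩ + (1/2)⟨Jy,y⟩ = -(1/2)⟨Jy, w(τ)⟩ - (1/2)⟨Jv,y⟩ - (1/2)⟨Jv, w(τ)⟩`. The sum is
`O(‖v‖²)` because `⟨J w, y⟩ = -⟨J y, w⟩`.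
-/

open MeasureTheory Set Metric Filter Topology
open scoped Real InnerProductSpace NNReal

namespace Pool.Agent.H72.EZ

variable {W : Type} [NormedAddCommGroup W] [InnerProductSpace ℝ W]

/-- the generating function -/
noncomputable def genF (C : CStr W) (φ : W × ℝ → W) (S : W × ℝ → ℝ) (p : W × ℝ) : ℝ :=
  S p - 1 / 2 * ⟪C.J p.1, φ p⟫_ℝ

theorem genF_contDiffOn [FiniteDimensional ℝ W] {C : CStr W} {k : ℕ} {h : W → ℝ} {T₀ : ℝ}
    {φ : W × ℝ → W} {S : W × ℝ → ℝ} (hF : ExtFlow C h k T₀ φ S) :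
    ContDiffOn ℝ k (genF C φ S) (univ ×ˢ Ioo (-T₀) T₀) := by
  have h1 : ContDiffOn ℝ k (fun p : W × ℝ => C.J p.1) (univ ×ˢ Ioo (-T₀) T₀) :=
    (C.J.contDiff.comp contDiff_fst).contDiffOn
  exact hF.cS.sub (contDiffOn_const.mul (h1.inner ℝ hF.cφ))

theorem gen2_hasFDerivAt [FiniteDimensional ℝ W] {h : W → ℝ} (hh : ContDiff ℝ 2 h) (z : W) :
    HasFDerivAt h (InnerProductSpace.toDual ℝ W (gradient h z)) z :=
  ((hh.differentiable (by norm_num)) z).hasGradientAt.hasFDerivAt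

theorem gen2_cont_gradient [FiniteDimensional ℝ W] {h : W → ℝ} (hh : ContDiff ℝ 2 h) :
    Continuous (gradient h) := by
  have h1 : Continuous (fderiv ℝ h) := hh.continuous_fderiv (by norm_num)
  exact (InnerProductSpace.toDual ℝ W).symm.continuous.comp h1

theorem gen2_energy [FiniteDimensional ℝ W] {C : CStr W} {h : W → ℝ} (hh : ContDiff ℝ 2 h)
    {τ : ℝ} {x : ℝ → W} (hx : IsOrb C h τ x) (t : ℝ) : h (x t) = h (x 0) := by
  have h1 : ∀ t, HasDerivAt (fun t => h (x t)) 0 t := by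
    intro t
    have h2 := (gen2_hasFDerivAt hh (x t)).comp_hasDerivAt t (hx.1 t)
    have h3 : (InnerProductSpace.toDual ℝ W (gradient h (x t)))
        (τ • C.J (gradient h (x t))) = 0 := by
      rw [InnerProductSpace.toDual_apply_apply, inner_smul_right, C.inner_self_J, mul_zero]
    rw [h3] at h2
    exact h2
  exact is_const_of_deriv_eq_zero (fun t => (h1 t).differentiableAt) (fun t => (h1 t).deriv) t 0

theorem gen2_grad_lip [FiniteDimensional ℝ W] {h : W → ℝ} (hh : ContDiff ℝ 2 h)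
    (hc : HasCompactSupport h) : ∃ L : ℝ, 0 ≤ L ∧
      (∀ z w, ‖gradient h z - gradient h w‖ ≤ L * ‖z - w‖) ∧
      ∀ z w, |h w - h z - ⟪gradient h z, w - z⟫_ℝ| ≤ L * ‖w - z‖ ^ 2 := by
  have h1 : ContDiff ℝ 1 (fderiv ℝ h) := hh.fderiv_right (m := 1) (by norm_num)
  obtain ⟨L, hL⟩ := ContDiff.lipschitzWith_of_hasCompactSupport (hc.fderiv ℝ) h1 (by norm_num)
  have h2 : ∀ z w, ‖fderiv ℝ h z - fderiv ℝ h w‖ ≤ L * ‖z - w‖ := fun z w => by
    have := hL.dist_le_mul z w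
    rwa [dist_eq_norm, dist_eq_norm] at this
  have h3 : ∀ z, InnerProductSpace.toDual ℝ W (gradient h z) = fderiv ℝ h z := fun z =>
    (gen2_hasFDerivAt hh z).fderiv.symm
  refine ⟨L, L.2, fun z w => ?_, fun z w => ?_⟩
  · rw [← (InnerProductSpace.toDual ℝ W).norm_map, map_sub, h3, h3]
    exact h2 z w
  · have h4 := Convex.norm_image_sub_le_of_norm_fderiv_le' (𝕜 := ℝ) (f := h) (φ := fderiv ℝ h z)
      (s := closedBall z ‖w - z‖) (C := L * ‖w - z‖) (x := z) (y := w)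
      (fun u _ => (hh.differentiable (by norm_num)) u)
      (fun u hu => (h2 u z).trans (mul_le_mul_of_nonneg_left
        (by rwa [mem_closedBall, dist_eq_norm] at hu) L.2))
      (convex_closedBall _ _) (mem_closedBall_self (norm_nonneg _))
      (by rw [mem_closedBall, dist_eq_norm])
    rw [← h3 z, InnerProductSpace.toDual_apply_apply, Real.norm_eq_abs] at h4
    rw [pow_two, ← mul_assoc]
    exact h4

theorem genF_orb [FiniteDimensional ℝ W] {C : CStr W} {k : ℕ} {h : W → ℝ}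
    (hh : ContDiff ℝ 2 h) (hc : HasCompactSupport h) {T₀ : ℝ} {φ : W × ℝ → W} {S : W × ℝ → ℝ}
    (hF : ExtFlow C h k T₀ φ S) {τ : ℝ} (hτ0 : 0 < τ) (hτ : τ < T₀) {x : ℝ → W}
    (hx : IsOrb C h τ x) : genF C φ S (x 0, τ) = act h τ x - τ * h (x 0) := by
  have hp := fun t ht => hF.orb_eq hh hc hτ0 hτ hx t ht
  have h1 : φ (x 0, τ) = x 0 := by
    have := hp 1 ⟨zero_le_one, le_refl _⟩
    rw [mul_one] at this
    rw [this]
    have h2 := hx.2 0
    rwa [zero_add] at h2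
  have hxc : Continuous x := continuous_iff_continuousAt.2 fun t => (hx.1 t).continuousAt
  have hS : S (x 0, τ) = act h τ x - τ * h (x 0) := by
    have hd : ∀ t ∈ uIcc (0:ℝ) 1, HasDerivAt (fun t => S (x 0, τ * t))
        (τ / 2 * ⟪gradient h (x t), x t⟫_ℝ - τ * h (x 0)) t := by
      intro t ht
      rw [uIcc_of_le zero_le_one] at ht
      have hmem : τ * t ∈ Ioo (-T₀) T₀ := by
        constructor
        · have := mul_nonneg hτ0.le ht.1
          linarith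
        · have := mul_le_mul_of_nonneg_left ht.2 hτ0.le
          linarith
      have h2 := hF.dS (x 0) (τ * t) hmem
      rw [hp t ht, gen2_energy hh hx t] at h2
      have h3 : HasDerivAt (fun t : ℝ => τ * t) τ t := by
        simpa using (hasDerivAt_id t).const_mul τ
      have h4 := HasDerivAt.scomp t h2 h3
      have e1 : τ • (1 / 2 * ⟪gradient h (x t), x t⟫_ℝ - h (x 0)) =
          τ / 2 * ⟪gradient h (x t), x t⟫_ℝ - τ * h (x 0) := by
        rw [smul_eq_mul]; ring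
      rw [e1] at h4
      exact h4
    have hcont : Continuous fun t => ⟪gradient h (x t), x t⟫_ℝ :=
      ((gen2_cont_gradient hh).comp hxc).inner hxc
    have h2 := intervalIntegral.integral_eq_sub_of_hasDerivAt hd
      (((continuous_const.mul hcont).sub continuous_const).intervalIntegrable _ _)
    have hi1 : IntervalIntegrable (fun t => τ / 2 * ⟪gradient h (x t), x t⟫_ℝ) volume 0 1 :=
      (continuous_const.mul hcont).intervalIntegrable _ _
    have hi2 : IntervalIntegrable (fun _ : ℝ => τ * h (x 0)) volume 0 1 :=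
      intervalIntegrable_const
    rw [intervalIntegral.integral_sub hi1 hi2, intervalIntegral.integral_const_mul,
      intervalIntegral.integral_const, mul_one, mul_zero, hF.S0, sub_zero, sub_zero, one_smul]
      at h2
    rw [← h2, act]
  rw [genF, hS, h1, C.inner_J_self, mul_zero, sub_zero]

theorem genF_hasFDerivAt [FiniteDimensional ℝ W] {C : CStr W} {k : ℕ} (hk : 1 ≤ k) {h : W → ℝ}
    (hh : ContDiff ℝ 2 h) (hc : HasCompactSupport h) {T₀ : ℝ} {φ : W × ℝ → W} {S : W × ℝ → ℝ}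
    (hF : ExtFlow C h k T₀ φ S) {τ : ℝ} (hτ0 : 0 < τ) (hτ : τ < T₀) {x : ℝ → W}
    (hx : IsOrb C h τ x) :
    HasFDerivAt (genF C φ S) ((-h (x 0)) • ContinuousLinearMap.snd ℝ W ℝ) (x 0, τ) := by
  have hp := fun t ht => hF.orb_eq hh hc hτ0 hτ hx t ht
  set y := x 0 with hy
  have hφτ : φ (y, τ) = y := by
    have := hp 1 ⟨zero_le_one, le_refl _⟩
    rw [mul_one] at this
    rw [this]
    have h2 := hx.2 0
    rwa [zero_add] at h2
  have hτmem : τ ∈ Ioo (-T₀) T₀ := ⟨by linarith, hτ⟩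
  have hdiff : DifferentiableAt ℝ (genF C φ S) (y, τ) :=
    ((genF_contDiffOn hF).contDiffAt ((isOpen_univ.prod isOpen_Ioo).mem_nhds
      ⟨mem_univ _, hτmem⟩)).differentiableAt (by
        have : k ≠ 0 := by omega
        exact_mod_cast this)
  -- the derivative in the direction of time
  have hT : HasDerivAt (fun s => genF C φ S (y, s)) (-h y) τ := by
    have h1 := hF.dS y τ hτmem
    have h2 := (hasDerivAt_const τ (C.J y)).inner ℝ (hF.dφ y τ hτmem)
    have h3 := h1.sub (h2.const_mul (1 / 2))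
    rw [hφτ] at h3
    have e1 : 1 / 2 * ⟪gradient h y, y⟫_ℝ - h y -
        1 / 2 * (⟪C.J y, C.J (gradient h y)⟫_ℝ + ⟪(0 : W), y⟫_ℝ) = -h y := by
      rw [C.inner_J_J, inner_zero_left, real_inner_comm y]
      ring
    rw [e1] at h3
    exact h3
  -- the derivative in the direction of space
  obtain ⟨L, hL0, hL1, hL2⟩ := gen2_grad_lip hh hc
  obtain ⟨K, hK⟩ := hF.lip
  have hbound : ∀ v : W, ‖genF C φ S (y + v, τ) - genF C φ S (y, τ)‖ ≤
      (2 * L * K ^ 2 * τ + |K|) * ‖v‖ ^ 2 := by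
    intro v
    set w : ℝ → W := fun s => φ (y + v, s) - φ (y, s) with hw
    set Ps : ℝ → ℝ := fun s => S (y + v, s) - S (y, s) + 1 / 2 * ⟪C.J (w s), φ (y, s)⟫_ℝ with hPs
    have hwK : ∀ s ∈ Ioo (-T₀) T₀, ‖w s‖ ≤ K * ‖v‖ := by
      intro s hs
      have := hK s hs (y + v) y
      rwa [add_sub_cancel_left] at this
    have hder : ∀ s ∈ Ioo (-T₀) T₀, HasDerivAt Ps
        (1 / 2 * ⟪gradient h (φ (y + v, s)), w s⟫_ℝ + 1 / 2 * ⟪gradient h (φ (y, s)), w s⟫_ℝ -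
          (h (φ (y + v, s)) - h (φ (y, s)))) s := by
      intro s hs
      have h1 := (hF.dS (y + v) s hs).sub (hF.dS y s hs)
      have h2 : HasDerivAt w (C.J (gradient h (φ (y + v, s))) - C.J (gradient h (φ (y, s)))) s :=
        (hF.dφ (y + v) s hs).sub (hF.dφ y s hs)
      have h3 : HasDerivAt (fun s => C.J (w s))
          (C.J (C.J (gradient h (φ (y + v, s))) - C.J (gradient h (φ (y, s))))) s :=
        C.J.hasFDerivAt.comp_hasDerivAt s h2
      have h4 := h1.add ((h3.inner ℝ (hF.dφ y s hs)).const_mul (1 / 2))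
      refine h4.congr_deriv ?_
      have e : C.J (C.J (gradient h (φ (y + v, s))) - C.J (gradient h (φ (y, s)))) =
          -(gradient h (φ (y + v, s))) + gradient h (φ (y, s)) := by
        rw [map_sub, C.sq, C.sq]; abel
      rw [e, C.inner_J_J]
      simp only [hw, inner_add_left, inner_sub_left, inner_sub_right, inner_neg_left]
      rw [real_inner_comm (gradient h (φ (y, s))) (φ (y + v, s)),
        real_inner_comm (gradient h (φ (y, s))) (φ (y, s))]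
      ring
    have hdbd : ∀ s ∈ Icc (0:ℝ) τ, ‖1 / 2 * ⟪gradient h (φ (y + v, s)), w s⟫_ℝ +
        1 / 2 * ⟪gradient h (φ (y, s)), w s⟫_ℝ -
          (h (φ (y + v, s)) - h (φ (y, s)))‖ ≤ 2 * L * K ^ 2 * ‖v‖ ^ 2 := by
      intro s hs
      have hs' : s ∈ Ioo (-T₀) T₀ := ⟨by linarith [hs.1], by linarith [hs.2]⟩
      have h1 : |⟪gradient h (φ (y + v, s)) - gradient h (φ (y, s)), w s⟫_ℝ| ≤
          L * ‖w s‖ ^ 2 := by
        refine (abs_real_inner_le_norm _ _).trans ?_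
        rw [pow_two, ← mul_assoc]
        exact mul_le_mul_of_nonneg_right (hL1 _ _) (norm_nonneg _)
      have h2 := hL2 (φ (y, s)) (φ (y + v, s))
      have h3 : ‖w s‖ ^ 2 ≤ K ^ 2 * ‖v‖ ^ 2 := by
        rw [← mul_pow]
        exact pow_le_pow_left₀ (norm_nonneg _) (hwK s hs') 2
      have h4 : L * ‖w s‖ ^ 2 ≤ L * (K ^ 2 * ‖v‖ ^ 2) := mul_le_mul_of_nonneg_left h3 hL0
      have h5 : 0 ≤ L * (K ^ 2 * ‖v‖ ^ 2) := by positivity
      rw [inner_sub_left] at h1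
      change |h (φ (y + v, s)) - h (φ (y, s)) - ⟪gradient h (φ (y, s)), w s⟫_ℝ| ≤
        L * ‖w s‖ ^ 2 at h2
      rw [Real.norm_eq_abs, abs_le]
      rw [abs_le] at h1 h2
      constructor <;> nlinarith [h1.1, h1.2, h2.1, h2.2]
    have hmv : ‖Ps τ - Ps 0‖ ≤ 2 * L * K ^ 2 * ‖v‖ ^ 2 * (τ - 0) :=
      norm_image_sub_le_of_norm_deriv_le_segment' (f := Ps)
        (fun s hs => (hder s ⟨by linarith [hs.1], by linarith [hs.2]⟩).hasDerivWithinAt)
        (fun s hs => hdbd s ⟨hs.1, hs.2.le⟩) τ ⟨hτ0.le, le_refl _⟩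
    have e1 : genF C φ S (y + v, τ) - genF C φ S (y, τ) =
        (Ps τ - Ps 0) - 1 / 2 * ⟪C.J v, w τ⟫_ℝ := by
      have hw0 : w 0 = v := by
        rw [hw]
        simp only [hF.φ0, add_sub_cancel_left]
      have hφv : φ (y + v, τ) = y + w τ := by
        rw [hw]
        simp only [hφτ, add_sub_cancel]
      have h1 : ⟪C.J (w τ), y⟫_ℝ = -⟪C.J y, w τ⟫_ℝ := by
        rw [C.skew, real_inner_comm]
      simp only [genF, hPs, hφv, hφτ, hF.S0, hF.φ0, hw0, map_add, inner_add_left,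
        inner_add_right, C.inner_J_self, h1]
      ring
    rw [e1]
    have hw1 : |1 / 2 * ⟪C.J v, w τ⟫_ℝ| ≤ |K| * ‖v‖ ^ 2 := by
      rw [abs_mul]
      have h1 := abs_real_inner_le_norm (C.J v) (w τ)
      rw [C.norm_J] at h1
      have h2 := hwK τ hτmem
      have h3 : K * ‖v‖ ≤ |K| * ‖v‖ := mul_le_mul_of_nonneg_right (le_abs_self K) (norm_nonneg _)
      have h4 : ‖v‖ * ‖w τ‖ ≤ ‖v‖ * (|K| * ‖v‖) :=
        mul_le_mul_of_nonneg_left (h2.trans h3) (norm_nonneg _)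
      have h5 : |(1 / 2 : ℝ)| = 1 / 2 := abs_of_pos (by norm_num)
      rw [h5]
      have h6 : 0 ≤ |K| * ‖v‖ ^ 2 := by positivity
      nlinarith
    have h7 := norm_sub_le (Ps τ - Ps 0) (1 / 2 * ⟪C.J v, w τ⟫_ℝ)
    rw [Real.norm_eq_abs (1 / 2 * ⟪C.J v, w τ⟫_ℝ)] at h7
    nlinarith
  have hWd : HasFDerivAt (fun z => genF C φ S (z, τ)) (0 : W →L[ℝ] ℝ) y := by
    rw [hasFDerivAt_iff_isLittleO_nhds_zero]
    refine Asymptotics.IsBigO.trans_isLittleO (g := fun v : W => ‖v‖ ^ 2)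
      (Asymptotics.IsBigO.of_bound (2 * L * K ^ 2 * τ + |K|)
        (Filter.Eventually.of_forall fun v => ?_)) ?_
    · rw [zero_apply, sub_zero, Real.norm_of_nonneg (sq_nonneg ‖v‖)]
      exact hbound v
    · exact Asymptotics.isLittleO_norm_pow_id one_lt_two
  have hfd := hdiff.hasFDerivAt
  have h1 : HasFDerivAt (fun z => genF C φ S (z, τ))
      ((fderiv ℝ (genF C φ S) (y, τ)).comp (ContinuousLinearMap.inl ℝ W ℝ)) y :=
    HasFDerivAt.comp (g := genF C φ S) y hfd (hasFDerivAt_prodMk_left y τ)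
  have h2 : HasDerivAt (fun s => genF C φ S (y, s))
      ((fderiv ℝ (genF C φ S) (y, τ)) (0, 1)) τ :=
    HasFDerivAt.comp_hasDerivAt (l := genF C φ S) τ hfd
      ((hasDerivAt_const τ y).prodMk (hasDerivAt_id τ))
  have h3 := h1.unique hWd
  have h4 := h2.unique hT
  have h5 : fderiv ℝ (genF C φ S) (y, τ) = (-h y) • ContinuousLinearMap.snd ℝ W ℝ := by
    ext p
    · have := congrArg (fun f : W →L[ℝ] ℝ => f p) h3
      simpa using this
    · simpa using h4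
  rw [← h5]
  exact hfd

end Pool.Agent.H72.EZ
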