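import Pool.Agent.H72.EZ.Defs

/-!
# JOB EZ-KAP : the compactness constants of the deformation lemma

PROOF. Both statements: the set
`A = {z : 0 ≤ z.2 ≤ S, ‖z.1‖ ≤ R₂, c - δ ≤ f_a z ≤ c + δ}` (resp. with `T₂ ≤ z.2`, `|a - h| ≤ lam`)
is compact (`E` finite-dimensional; `f_a`, `h` are continuous: `g, h` are continuous by the Taylor
estimates `tg`, `lh` in `Reg`; `gx` is continuous by `cgg`, `cgh`). The continuous function `G2 a`
(resp. `‖gx‖²`) is positive on `A` by hypothesis (if `G2 a z = 0` then all three nonnegative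
terms vanish, so `gx z = 0`, `h z.1 ≤ a`, and `min z.2 1 * (max (a-h) 0)^2 = 0`, hence
`z.2 * (a - h z.1) = 0`), so it has a positive lower bound on `A` (`IsCompact.exists_isMinOn`, or `A`
empty). Outside `A`, i.e. for `‖z.1‖ > R₂`, coercivity gives `‖gx z‖ ≥ 1`, so `G2 ≥ 1`.
Take `κ = min 1 (min on A)`.
-/

open MeasureTheory Set Metric Filter Topology
open scoped Real InnerProductSpace

namespace Pool.Agent.H72.EZ

variable {E : Type} [NormedAddCommGroup E] [InnerProductSpace ℝ E]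

/-- the square of the generalized gradient of `f_a` -/
noncomputable def FData.G2 (D : FData E) (a : ℝ) (z : E × ℝ) : ℝ :=
  ‖D.gx z‖ ^ 2 + (max (D.h z.1 - a) 0) ^ 2 + min z.2 1 * (max (a - D.h z.1) 0) ^ 2

theorem FData.Reg.continuous_g {D : FData E} {L : ℝ} (hR : D.Reg L) : Continuous D.g := by
  rw [continuous_iff_continuousAt]
  intro x
  rw [ContinuousAt, tendsto_iff_dist_tendsto_zero]
  have h1 : Tendsto (fun y => ‖D.gg x‖ * ‖y - x‖ + L * ‖y - x‖ ^ 2) (𝓝 x) (𝓝 0) := by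
    have h2 : Continuous (fun y : E => ‖D.gg x‖ * ‖y - x‖ + L * ‖y - x‖ ^ 2) := by fun_prop
    have h3 := h2.tendsto x
    simpa using h3
  refine squeeze_zero (fun _ => dist_nonneg) (fun y => ?_) h1
  have h4 := hR.tg x (y - x)
  rw [add_sub_cancel] at h4
  have h5 : |⟪D.gg x, y - x⟫_ℝ| ≤ ‖D.gg x‖ * ‖y - x‖ := abs_real_inner_le_norm _ _
  rw [Real.dist_eq]
  have h6 : D.g y - D.g x = (D.g y - D.g x - ⟪D.gg x, y - x⟫_ℝ) + ⟪D.gg x, y - x⟫_ℝ := by ring
  rw [h6]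
  refine (abs_add_le _ _).trans ?_
  linarith

theorem FData.Reg.continuous_h {D : FData E} {L : ℝ} (hR : D.Reg L) : Continuous D.h := by
  have h1 : LipschitzWith ⟨L, hR.L0⟩ D.h := by
    refine LipschitzWith.of_dist_le_mul fun x y => ?_
    have h2 := hR.lh y (x - y)
    rw [add_sub_cancel] at h2
    rw [Real.dist_eq, dist_eq_norm]
    exact h2
  exact h1.continuous

theorem FData.Reg.continuous_f {D : FData E} {L : ℝ} (hR : D.Reg L) (b : ℝ) :
    Continuous (D.f b) := by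
  have h1 := hR.continuous_g
  have h2 := hR.continuous_h
  unfold FData.f
  fun_prop

theorem FData.Reg.continuous_gx {D : FData E} {L : ℝ} (hR : D.Reg L) : Continuous D.gx := by
  have h1 := hR.cgg
  have h2 := hR.cgh
  unfold FData.gx
  fun_prop

private lemma kap_min [FiniteDimensional ℝ E] {A : Set (E × ℝ)} (hA : IsClosed A) {S R : ℝ}
    (hb : ∀ z ∈ A, 0 ≤ z.2 ∧ z.2 ≤ S ∧ ‖z.1‖ ≤ R) {φ : E × ℝ → ℝ} (hφ : Continuous φ)
    (hpos : ∀ z ∈ A, 0 < φ z) : ∃ κ : ℝ, 0 < κ ∧ κ ≤ 1 ∧ ∀ z ∈ A, κ ≤ φ z := by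
  have : ProperSpace (E × ℝ) := FiniteDimensional.proper_real (E × ℝ)
  have hbd : Bornology.IsBounded A := by
    refine (Metric.isBounded_closedBall (x := (0 : E × ℝ)) (r := max R S)).subset fun z hz => ?_
    obtain ⟨h1, h2, h3⟩ := hb z hz
    rw [mem_closedBall, dist_zero_right, Prod.norm_def]
    refine max_le (h3.trans (le_max_left _ _)) ?_
    rw [Real.norm_eq_abs, abs_of_nonneg h1]
    exact h2.trans (le_max_right _ _)
  have hc : IsCompact A := Metric.isCompact_of_isClosed_isBounded hA hbd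
  rcases A.eq_empty_or_nonempty with he | hne
  · refine ⟨1, one_pos, le_rfl, fun z hz => ?_⟩
    rw [he] at hz
    exact absurd hz (notMem_empty _)
  · obtain ⟨w, hw, hmin⟩ := hc.exists_isMinOn hne hφ.continuousOn
    refine ⟨min 1 (φ w), lt_min one_pos (hpos w hw), min_le_left _ _, fun z hz => ?_⟩
    exact (min_le_right _ _).trans (hmin hz)

theorem FData.exists_kappa1 [FiniteDimensional ℝ E] {D : FData E} {L a c δ S R₂ : ℝ}
    (hR : D.Reg L) (hco : D.Coer S R₂)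
    (hL : ∀ z : E × ℝ, 0 ≤ z.2 → z.2 ≤ S → c - δ ≤ D.f a z → D.f a z ≤ c + δ → D.gx z = 0 →
      D.h z.1 ≤ a → z.2 * (a - D.h z.1) = 0 → False) :
    ∃ κ : ℝ, 0 < κ ∧ κ ≤ 1 ∧ ∀ z : E × ℝ, 0 ≤ z.2 → z.2 ≤ S → c - δ ≤ D.f a z →
      D.f a z ≤ c + δ → κ ≤ D.G2 a z := by
  have ch := hR.continuous_h
  have cf := hR.continuous_f a
  have cx := hR.continuous_gx
  have hcl : IsClosed {z : E × ℝ | 0 ≤ z.2 ∧ z.2 ≤ S ∧ ‖z.1‖ ≤ R₂ ∧ c - δ ≤ D.f a z ∧
      D.f a z ≤ c + δ} := by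
    refine (isClosed_le continuous_const continuous_snd).inter
      ((isClosed_le continuous_snd continuous_const).inter
      ((isClosed_le continuous_fst.norm continuous_const).inter
      ((isClosed_le continuous_const cf).inter (isClosed_le cf continuous_const))))
  have hG : Continuous (D.G2 a) := by
    unfold FData.G2
    have c1 : Continuous fun z : E × ℝ => D.h z.1 := ch.comp continuous_fst
    exact ((cx.norm.pow 2).add (((c1.sub continuous_const).max continuous_const).pow 2)).add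
      ((continuous_snd.min continuous_const).mul
        (((continuous_const.sub c1).max continuous_const).pow 2))
  obtain ⟨κ, h0, h1, h2⟩ := kap_min hcl (fun z hz => ⟨hz.1, hz.2.1, hz.2.2.1⟩) hG (by
    rintro z ⟨hz1, hz2, hz3, hz4, hz5⟩
    by_contra hcon
    unfold FData.G2 at hcon
    have e1 : 0 ≤ ‖D.gx z‖ ^ 2 := sq_nonneg _
    have e2 : 0 ≤ (max (D.h z.1 - a) 0) ^ 2 := sq_nonneg _
    have e3 : 0 ≤ min z.2 1 := le_min hz1 zero_le_one
    have e4 : 0 ≤ min z.2 1 * (max (a - D.h z.1) 0) ^ 2 := mul_nonneg e3 (sq_nonneg _)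
    have f1 : ‖D.gx z‖ ^ 2 = 0 := by linarith
    have f2 : (max (D.h z.1 - a) 0) ^ 2 = 0 := by linarith
    have f3 : min z.2 1 * (max (a - D.h z.1) 0) ^ 2 = 0 := by linarith
    have g1 : D.gx z = 0 := norm_eq_zero.1 (pow_eq_zero_iff two_ne_zero |>.1 f1)
    have g2 : D.h z.1 ≤ a := by
      have h3 := pow_eq_zero_iff two_ne_zero |>.1 f2
      have h4 := le_max_left (D.h z.1 - a) 0
      linarith
    refine hL z hz1 hz2 hz4 hz5 g1 g2 ?_
    rcases mul_eq_zero.1 f3 with h3 | h3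
    · rcases min_choice z.2 1 with h4 | h4
      · rw [h4] at h3
        rw [h3, zero_mul]
      · rw [h4] at h3
        exact absurd h3 one_ne_zero
    · have h5 := pow_eq_zero_iff two_ne_zero |>.1 h3
      have h4 := le_max_left (a - D.h z.1) 0
      have h6 : a - D.h z.1 = 0 := by linarith
      rw [h6, mul_zero])
  refine ⟨κ, h0, h1, fun z hz1 hz2 hz4 hz5 => ?_⟩
  by_cases hz3 : ‖z.1‖ ≤ R₂
  · exact h2 z ⟨hz1, hz2, hz3, hz4, hz5⟩
  · have h3 := hco z hz1 hz2 (not_le.1 hz3).le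
    have e2 : 0 ≤ (max (D.h z.1 - a) 0) ^ 2 := sq_nonneg _
    have e3 : 0 ≤ min z.2 1 := le_min hz1 zero_le_one
    have e4 : 0 ≤ min z.2 1 * (max (a - D.h z.1) 0) ^ 2 := mul_nonneg e3 (sq_nonneg _)
    unfold FData.G2
    nlinarith

theorem FData.exists_kappa2 [FiniteDimensional ℝ E] {D : FData E} {L a c δ lam T₂ S R₂ : ℝ}
    (hR : D.Reg L) (hT : 0 ≤ T₂) (hco : D.Coer S R₂)
    (hS : ∀ z : E × ℝ, T₂ ≤ z.2 → z.2 ≤ S → c - δ ≤ D.f a z → D.f a z ≤ c + δ → D.gx z = 0 →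
      lam < |a - D.h z.1|) :
    ∃ κ : ℝ, 0 < κ ∧ κ ≤ 1 ∧ ∀ z : E × ℝ, T₂ ≤ z.2 → z.2 ≤ S → c - δ ≤ D.f a z →
      D.f a z ≤ c + δ → |a - D.h z.1| ≤ lam → κ ≤ ‖D.gx z‖ ^ 2 := by
  have ch := hR.continuous_h
  have cf := hR.continuous_f a
  have cx := hR.continuous_gx
  have c1 : Continuous fun z : E × ℝ => D.h z.1 := ch.comp continuous_fst
  have hcl : IsClosed {z : E × ℝ | T₂ ≤ z.2 ∧ z.2 ≤ S ∧ ‖z.1‖ ≤ R₂ ∧ c - δ ≤ D.f a z ∧
      D.f a z ≤ c + δ ∧ |a - D.h z.1| ≤ lam} := by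
    refine (isClosed_le continuous_const continuous_snd).inter
      ((isClosed_le continuous_snd continuous_const).inter
      ((isClosed_le continuous_fst.norm continuous_const).inter
      ((isClosed_le continuous_const cf).inter ((isClosed_le cf continuous_const).inter
      (isClosed_le (continuous_const.sub c1).abs continuous_const)))))
  obtain ⟨κ, h0, h1, h2⟩ := kap_min hcl (fun z hz => ⟨hT.trans hz.1, hz.2.1, hz.2.2.1⟩)
    (cx.norm.pow 2) (by
    rintro z ⟨hz1, hz2, hz3, hz4, hz5, hz6⟩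
    have h3 : D.gx z ≠ 0 := fun h => absurd (hS z hz1 hz2 hz4 hz5 h) (not_lt.2 hz6)
    have h4 : 0 < ‖D.gx z‖ := norm_pos_iff.2 h3
    exact pow_pos h4 2)
  refine ⟨κ, h0, h1, fun z hz1 hz2 hz4 hz5 hz6 => ?_⟩
  by_cases hz3 : ‖z.1‖ ≤ R₂
  · exact h2 z ⟨hz1, hz2, hz3, hz4, hz5, hz6⟩
  · have h3 := hco z (hT.trans hz1) hz2 (not_le.1 hz3).le
    nlinarith

end Pool.Agent.H72.EZ
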