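import Mathlib

/-!
# JOB EZ-LIMB : Arzela-Ascoli for periodic curves

PROOF. Restrict to `K = Icc 0 1` and use `BoundedContinuousFunction.arzela_ascoli` /
`ArzelaAscoli` for the set of continuous maps `K → W` with values in `closedBall 0 B` and modulus of
continuity `B √|s-t|` (a compact subset of `C(K, W)`, `W` proper), `IsCompact.tendsto_subseq`.
Extend the limit `v` (`v 0 = v 1`) to a periodic function by `v (Int.fract t)`; it is continuous,
and the convergence is uniform on `ℝ` by periodicity of `u i`.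
(An alternative: `ContinuousMap` on `AddCircle (1:ℝ)`.)
-/

open MeasureTheory Set Metric Filter Topology
open scoped Real

namespace Pool.Agent.H72.EZ

theorem LimB_fract {W : Type} {f : ℝ → W} (hp : ∀ t, f (t + 1) = f t) (t : ℝ) :
    f (Int.fract t) = f t := by
  have h : Function.Periodic f 1 := hp
  have h2 := h.sub_zsmul_eq (x := t) ⌊t⌋
  rw [← h2, zsmul_eq_mul, mul_one, Int.self_sub_floor]

theorem arzela_periodic {W : Type} [NormedAddCommGroup W] [NormedSpace ℝ W]
    [FiniteDimensional ℝ W] {B : ℝ} (u : ℕ → ℝ → W) (hp : ∀ i t, u i (t + 1) = u i t)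
    (hb : ∀ i t, ‖u i t‖ ≤ B)
    (hh : ∀ i, ∀ s ∈ Icc (0:ℝ) 1, ∀ t ∈ Icc (0:ℝ) 1, ‖u i s - u i t‖ ≤ B * √|s - t|) :
    ∃ φ : ℕ → ℕ, StrictMono φ ∧ ∃ v : ℝ → W, Continuous v ∧ (∀ t, v (t + 1) = v t) ∧
      TendstoUniformly (fun i => u (φ i)) v atTop := by
  have hprop : ProperSpace W := FiniteDimensional.proper_real W
  have hmod : ∀ s : ℝ, Tendsto (fun t : ℝ => B * √|s - t|) (𝓝 s) (𝓝 0) := by
    intro s
    have h1 : Continuous (fun t : ℝ => B * √|s - t|) := by fun_prop
    have h2 := h1.tendsto s
    simpa using h2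
  have hcont : ∀ i, ContinuousOn (u i) (Icc (0:ℝ) 1) := by
    intro i s hs
    rw [ContinuousWithinAt, tendsto_iff_dist_tendsto_zero]
    refine squeeze_zero' (Eventually.of_forall fun t => dist_nonneg) ?_
      ((hmod s).mono_left nhdsWithin_le_nhds)
    filter_upwards [self_mem_nhdsWithin] with t ht
    rw [dist_eq_norm, norm_sub_rev]
    exact hh i s hs t ht
  have hcu : ∀ i, Continuous (u i) := by
    intro i
    have h := (hcont i).comp_fract'' (by have := hp i 0; rw [zero_add] at this; exact this.symm)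
    have h2 : u i ∘ Int.fract = u i := funext fun t => LimB_fract (hp i) t
    rwa [h2] at h
  let f : ℕ → BoundedContinuousFunction (Icc (0:ℝ) 1) W := fun i =>
    BoundedContinuousFunction.mkOfCompact ⟨fun t => u i t, (hcu i).comp continuous_subtype_val⟩
  have hf : ∀ i (t : Icc (0:ℝ) 1), f i t = u i t := fun i t => rfl
  have hcomp : IsCompact (closure (range f)) := by
    refine BoundedContinuousFunction.arzela_ascoli (closedBall 0 B) (isCompact_closedBall _ _)
      (range f) ?_ ?_
    · rintro g x ⟨i, rfl⟩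
      rw [mem_closedBall_zero_iff, hf]
      exact hb i x
    · intro x
      refine Metric.equicontinuousAt_of_continuity_modulus
        (fun t : Icc (0:ℝ) 1 => B * √|(x:ℝ) - t|) ?_ _ ?_
      · exact (hmod x).comp (continuous_subtype_val.tendsto x)
      · refine Eventually.of_forall fun t => ?_
        rintro ⟨g, i, rfl⟩
        change dist (f i x) (f i t) ≤ _
        rw [hf, hf, dist_eq_norm]
        exact hh i x x.2 t t.2
  obtain ⟨g, -, φ, hφ, hlim⟩ := hcomp.tendsto_subseq
    (x := f) (fun i => subset_closure (mem_range_self i))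
  have hfr : ∀ t : ℝ, Int.fract t ∈ Icc (0:ℝ) 1 := fun t =>
    ⟨Int.fract_nonneg t, (Int.fract_lt_one t).le⟩
  have hunif : TendstoUniformly (fun i => u (φ i)) (fun t => g ⟨Int.fract t, hfr t⟩) atTop := by
    rw [Metric.tendstoUniformly_iff]
    intro ε hε
    have h1 := (Metric.tendsto_nhds.1 hlim) ε hε
    filter_upwards [h1] with i hi t
    have h2 : u (φ i) t = f (φ i) ⟨Int.fract t, hfr t⟩ := by
      rw [hf]
      exact (LimB_fract (hp (φ i)) t).symm
    rw [h2, dist_comm]
    exact lt_of_le_of_lt (BoundedContinuousFunction.dist_coe_le_dist _) hi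
  refine ⟨φ, hφ, fun t => g ⟨Int.fract t, hfr t⟩, ?_, ?_, hunif⟩
  · exact hunif.continuous (Frequently.of_forall fun i => hcu (φ i))
  · intro t
    simp only [Int.fract_add_one]

end Pool.Agent.H72.EZ
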