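import Pool.Agent.H72.EZ.Rot

/-!
# JOB EZ-LIMC : uniqueness of Fourier coefficients, and the limit equation

PROOF of `const_of_coef`. Fix `y : W` and put `f(t) = ⟨u t, y⟩ + i ⟨u t, J y⟩ : ℂ` (continuous,
1-periodic). `⟨rot (-θ) u, y⟩ = cos θ ⟨u,y⟩ + sin θ ⟨u,Jy⟩ = Re (e^{-iθ} f)`,
`⟨rot(-θ) u, J y⟩ = cos θ ⟨u,Jy⟩ - sin θ ⟨u,y⟩ = Im (e^{-iθ} f)`, so the `k`-th Fourier coefficient of
`f` is `⟨coef u k, y⟩ + i⟨coef u k, Jy⟩ = 0` for `k ≠ 0`. A continuous function on `AddCircle (1:ℝ)` all of
whose Fourier coefficients (after subtracting the constant `c₀`) vanish is zero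
(`fourierBasis`, `tsum_sq_fourierCoeff` / `hasSum_fourier_series_L2`, continuity; or
`hasSum_fourier_series_of_summable` with the summable zero series). So `⟨u t, y⟩` is constant for
all `y`.
PROOF of `hasDerivAt_of_coef`. `coef K 0 = 0` gives `∫₀¹ K = 0`, so `w(t) = ∫₀ᵗ J(K(s)) ds` is
1-periodic and `C^1`, `w' = J K`. Integrating `d/dt [rot(-2πkt) w(t)] =
-2πk J rot(-2πkt) w + rot(-2πkt) J K` over `[0,1]`: `0 = J(-2πk coef w k + coef K k)`, so for `k ≠ 0`:
`coef w k = coef K k/(2πk) = coef x k`. So `x - w` is constant by `const_of_coef`, hence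
`x' = J K`.
-/

open MeasureTheory Set Metric Filter Topology
open scoped Real InnerProductSpace

namespace Pool.Agent.H72.EZ

variable {W : Type} [NormedAddCommGroup W] [InnerProductSpace ℝ W]

/-- a continuous 1-periodic complex function with vanishing nonzero coefficients is constant -/
lemma LimC_complex {f : ℝ → ℂ} (hf : Continuous f) (hp : ∀ t, f (t + 1) = f t)
    (h0 : ∀ k : ℤ, k ≠ 0 →
      ∫ t in (0:ℝ)..1, Complex.exp (-(2 * π * k * t : ℝ) * Complex.I) * f t = 0) (t : ℝ) :
    f t = f 0 := by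
  have : Fact ((0:ℝ) < 1) := ⟨zero_lt_one⟩
  have hper : Function.Periodic f 1 := hp
  let F : C(AddCircle (1:ℝ), ℂ) :=
    { toFun := hper.lift
      continuous_toFun := by
        exact continuous_coinduced_dom.2 hf }
  have hFv : ∀ s : ℝ, F (s : AddCircle (1:ℝ)) = f s := fun s => rfl
  have hc : ∀ k : ℤ, k ≠ 0 → fourierCoeff F k = 0 := by
    intro k hk
    rw [fourierCoeff_eq_intervalIntegral _ k 0]
    have : ∀ s : ℝ, @fourier (1:ℝ) (-k) (s : AddCircle (1:ℝ)) • F (s : AddCircle (1:ℝ)) =
        Complex.exp (-(2 * π * k * s : ℝ) * Complex.I) * f s := by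
      intro s
      rw [fourier_coe_apply, hFv, smul_eq_mul]
      congr 2
      push_cast
      ring
    simp_rw [this]
    rw [zero_add, h0 k hk, smul_zero]
  have hs : Summable (fourierCoeff F) := by
    refine summable_of_ne_finset_zero (s := {0}) ?_
    intro k hk
    exact hc k (by simpa using hk)
  have hv : ∀ s : ℝ, f s = fourierCoeff F 0 := by
    intro s
    have h1 := has_pointwise_sum_fourier_series_of_summable hs (s : AddCircle (1:ℝ))
    have h2 : HasSum (fun i => fourierCoeff F i • fourier i (s : AddCircle (1:ℝ)))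
        (fourierCoeff F 0 • fourier 0 (s : AddCircle (1:ℝ))) := by
      refine hasSum_single 0 ?_
      intro k hk
      rw [hc k hk, zero_smul]
    have h3 := h1.unique h2
    rw [hFv] at h3
    rw [h3, fourier_zero, smul_eq_mul, mul_one]
  rw [hv t, hv 0]

lemma LimC_cont_rot (C : CStr W) {u : ℝ → W} (hu : Continuous u) (c : ℝ) :
    Continuous (fun t => C.rot (c * t) (u t)) :=
  C.continuous_rot.comp ((continuous_const.mul continuous_id).prodMk hu)

theorem const_of_coef [FiniteDimensional ℝ W] (C : CStr W) {u : ℝ → W} (hu : Continuous u)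
    (hp : ∀ t, u (t + 1) = u t) (h0 : ∀ k : ℤ, k ≠ 0 → coef C u k = 0) (t : ℝ) : u t = u 0 := by
  have : CompleteSpace W := FiniteDimensional.complete ℝ W
  refine ext_inner_right ℝ fun y => ?_
  set f : ℝ → ℂ := fun t => (⟪u t, y⟫_ℝ : ℂ) + (⟪u t, C.J y⟫_ℝ : ℂ) * Complex.I with hfdef
  have hf : Continuous f := by
    have h1 : Continuous fun t => ⟪u t, y⟫_ℝ := hu.inner continuous_const
    have h2 : Continuous fun t => ⟪u t, C.J y⟫_ℝ := hu.inner continuous_const
    exact (Complex.continuous_ofReal.comp h1).add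
      ((Complex.continuous_ofReal.comp h2).mul continuous_const)
  have key : ∀ (k : ℤ) (s : ℝ), Complex.exp (-(2 * π * k * s : ℝ) * Complex.I) * f s =
      (⟪C.rot (-(2 * π * k * s)) (u s), y⟫_ℝ : ℂ) +
        (⟪C.rot (-(2 * π * k * s)) (u s), C.J y⟫_ℝ : ℂ) * Complex.I := by
    intro k s
    have e1 : Complex.exp (-(2 * π * k * s : ℝ) * Complex.I) =
        (Real.cos (2 * π * k * s) : ℂ) - (Real.sin (2 * π * k * s) : ℂ) * Complex.I := by
      rw [← Complex.ofReal_neg, Complex.exp_mul_I, ← Complex.ofReal_cos, ← Complex.ofReal_sin,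
        Real.cos_neg, Real.sin_neg, Complex.ofReal_neg]
      ring
    rw [e1]
    generalize 2 * π * (k:ℝ) * s = θ
    simp only [hfdef, CStr.rot, inner_add_left, inner_smul_left, Real.cos_neg, Real.sin_neg,
      conj_trivial]
    rw [C.inner_J_J, C.skew (u s) y]
    apply Complex.ext
    · simp
    · simp
      try ring
  have hI : ∀ k : ℤ, k ≠ 0 →
      ∫ t in (0:ℝ)..1, Complex.exp (-(2 * π * k * t : ℝ) * Complex.I) * f t = 0 := by
    intro k hk
    have hc : Continuous fun s => C.rot (-(2 * π * k * s)) (u s) := by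
      have := LimC_cont_rot C hu (-(2 * π * k))
      refine this.congr fun s => ?_
      rw [neg_mul]
    have hin : ∀ z : W, ∫ s in (0:ℝ)..1, ⟪C.rot (-(2 * π * k * s)) (u s), z⟫_ℝ = 0 := by
      intro z
      have h1 : ∫ s in (0:ℝ)..1, ⟪z, C.rot (-(2 * π * k * s)) (u s)⟫_ℝ =
          ⟪z, ∫ s in (0:ℝ)..1, C.rot (-(2 * π * k * s)) (u s)⟫_ℝ :=
        (innerSL ℝ z).intervalIntegral_comp_comm (hc.intervalIntegrable 0 1)
      have h2 : ∫ s in (0:ℝ)..1, C.rot (-(2 * π * k * s)) (u s) = 0 := h0 k hk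
      rw [h2, inner_zero_right] at h1
      refine Eq.trans ?_ h1
      refine intervalIntegral.integral_congr fun s _ => ?_
      exact real_inner_comm _ _
    have hcz : ∀ z : W, Continuous fun s => ((⟪C.rot (-(2 * π * k * s)) (u s), z⟫_ℝ : ℝ) : ℂ) :=
      fun z => Complex.continuous_ofReal.comp (hc.inner continuous_const)
    simp_rw [key k]
    have hadd : ∫ s in (0:ℝ)..1, ((⟪C.rot (-(2 * π * k * s)) (u s), y⟫_ℝ : ℂ) +
        (⟪C.rot (-(2 * π * k * s)) (u s), C.J y⟫_ℝ : ℂ) * Complex.I) =
        (∫ s in (0:ℝ)..1, (⟪C.rot (-(2 * π * k * s)) (u s), y⟫_ℝ : ℂ)) +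
        ∫ s in (0:ℝ)..1, (⟪C.rot (-(2 * π * k * s)) (u s), C.J y⟫_ℝ : ℂ) * Complex.I :=
      intervalIntegral.integral_add ((hcz y).intervalIntegrable 0 1)
        (((hcz (C.J y)).mul (continuous_const (y := Complex.I))).intervalIntegrable 0 1)
    refine hadd.trans ?_
    rw [intervalIntegral.integral_mul_const, intervalIntegral.integral_ofReal,
      intervalIntegral.integral_ofReal, hin, hin]
    simp
  have hpf : ∀ t, f (t + 1) = f t := by
    intro t
    simp only [hfdef, hp]
  have h3 := LimC_complex hf hpf hI t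
  have h4 := congrArg Complex.re h3
  simpa [hfdef] using h4

theorem hasDerivAt_of_coef [FiniteDimensional ℝ W] (C : CStr W) {x K : ℝ → W}
    (hx : Continuous x) (hK : Continuous K) (hxp : ∀ t, x (t + 1) = x t)
    (hKp : ∀ t, K (t + 1) = K t) (h : ∀ k : ℤ, (2 * π * k) • coef C x k = coef C K k) (t : ℝ) :
    HasDerivAt x (C.J (K t)) t := by
  have : CompleteSpace W := FiniteDimensional.complete ℝ W
  have hJK : Continuous fun s => C.J (K s) := C.J.continuous.comp hK
  set w : ℝ → W := fun t => ∫ s in (0:ℝ)..t, C.J (K s) with hw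
  have hwd : ∀ t, HasDerivAt w (C.J (K t)) t := fun t =>
    intervalIntegral.integral_hasDerivAt_right (hJK.intervalIntegrable 0 t)
      hJK.aestronglyMeasurable.stronglyMeasurableAtFilter hJK.continuousAt
  have hwc : Continuous w := continuous_iff_continuousAt.2 fun t => (hwd t).continuousAt
  -- ∫ K = 0
  have hK0 : ∫ s in (0:ℝ)..1, C.J (K s) = 0 := by
    have h1 := h 0
    have h2 : coef C K 0 = ∫ s in (0:ℝ)..1, K s := by
      unfold coef
      refine intervalIntegral.integral_congr fun s _ => ?_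
      simp [C.rot_zero]
    have h3 : ∫ s in (0:ℝ)..1, K s = 0 := by
      rw [← h2, ← h1]
      simp
    have h4 : ∫ s in (0:ℝ)..1, C.J (K s) = C.J (∫ s in (0:ℝ)..1, K s) :=
      C.J.intervalIntegral_comp_comm (hK.intervalIntegrable 0 1)
    rw [h4, h3, map_zero]
  have hwp : ∀ t, w (t + 1) = w t := by
    intro t
    have h1 : w (t + 1) = w t + ∫ s in t..(t + 1), C.J (K s) :=
      (intervalIntegral.integral_add_adjacent_intervals (hJK.intervalIntegrable 0 t)
        (hJK.intervalIntegrable t (t + 1))).symm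
    have hper : Function.Periodic (fun s => C.J (K s)) 1 := by
      intro s
      simp only [hKp]
    have h2 : ∫ s in t..(t + 1), C.J (K s) = ∫ s in (0:ℝ)..(0 + 1), C.J (K s) :=
      hper.intervalIntegral_add_eq t 0
    rw [h1, h2, zero_add, hK0, add_zero]
  have hcw : ∀ k : ℤ, (2 * π * k) • coef C w k = coef C K k := by
    intro k
    have hd : ∀ t : ℝ, HasDerivAt (fun t => C.rot (-(2 * π * k * t)) (w t))
        (-(2 * π * k) • C.J (C.rot (-(2 * π * k * t)) (w t)) +
          C.J (C.rot (-(2 * π * k * t)) (K t))) t := by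
      intro t
      have e1 : HasDerivAt (fun t : ℝ => -(2 * π * k * t)) (-(2 * π * k)) t := by
        have h9 := (hasDerivAt_id' t).const_mul (-(2 * π * (k:ℝ)))
        rw [mul_one] at h9
        refine h9.congr_of_eventuallyEq (Filter.Eventually.of_forall fun s => ?_)
        ring
      have e2 := (e1.cos).smul (hwd t)
      have e3 := (e1.sin).smul ((C.J.hasFDerivAt (x := w t)).comp_hasDerivAt t (hwd t))
      have e4 := e2.add e3
      refine HasDerivAt.congr_deriv (f := fun t => C.rot (-(2 * π * k * t)) (w t)) e4 ?_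
      simp only [CStr.rot, map_add, map_smul, C.sq, Function.comp_apply]
      module
    have hc1 : Continuous fun s => C.rot (-(2 * π * k * s)) (w s) := by
      refine (LimC_cont_rot C hwc (-(2 * π * k))).congr fun s => ?_
      rw [neg_mul]
    have hc2 : Continuous fun s => C.rot (-(2 * π * k * s)) (K s) := by
      refine (LimC_cont_rot C hK (-(2 * π * k))).congr fun s => ?_
      rw [neg_mul]
    have hJ1 : Continuous fun s => C.J (C.rot (-(2 * π * k * s)) (w s)) := C.J.continuous.comp hc1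
    have hJ2 : Continuous fun s => C.J (C.rot (-(2 * π * k * s)) (K s)) := C.J.continuous.comp hc2
    have hint := intervalIntegral.integral_eq_sub_of_hasDerivAt (a := 0) (b := 1)
      (fun t _ => hd t) (((hJ1.const_smul (-(2 * π * k))).add hJ2).intervalIntegrable 0 1)
    have hend : C.rot (-(2 * π * k * (1:ℝ))) (w 1) - C.rot (-(2 * π * k * (0:ℝ))) (w 0) = 0 := by
      have a1 : w 1 = w 0 := by
        have := hwp 0
        rwa [zero_add] at this
      have a2 : -(2 * π * (k:ℝ) * 1) = 2 * π * ((-k : ℤ) : ℝ) := by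
        push_cast
        ring
      rw [a1, a2, C.rot_int, mul_zero, neg_zero, C.rot_zero, sub_self]
    have hadd : ∫ s in (0:ℝ)..1, (-(2 * π * k) • C.J (C.rot (-(2 * π * k * s)) (w s)) +
          C.J (C.rot (-(2 * π * k * s)) (K s))) =
        (∫ s in (0:ℝ)..1, -(2 * π * k) • C.J (C.rot (-(2 * π * k * s)) (w s))) +
        ∫ s in (0:ℝ)..1, C.J (C.rot (-(2 * π * k * s)) (K s)) :=
      intervalIntegral.integral_add ((hJ1.const_smul (-(2 * π * k))).intervalIntegrable 0 1)
        (hJ2.intervalIntegrable 0 1)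
    have hi1 : ∫ s in (0:ℝ)..1, C.J (C.rot (-(2 * π * k * s)) (w s)) = C.J (coef C w k) :=
      C.J.intervalIntegral_comp_comm (hc1.intervalIntegrable 0 1)
    have hi2 : ∫ s in (0:ℝ)..1, C.J (C.rot (-(2 * π * k * s)) (K s)) = C.J (coef C K k) :=
      C.J.intervalIntegral_comp_comm (hc2.intervalIntegrable 0 1)
    have h5 : C.J ((-(2 * π * k)) • coef C w k + coef C K k) = 0 := by
      rw [map_add, map_smul, ← hi1, ← hi2, ← intervalIntegral.integral_smul]
      exact hadd.symm.trans (hint.trans hend)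
    have h6 := congrArg C.J h5
    rw [C.sq, map_zero, neg_eq_zero, neg_smul, neg_add_eq_zero] at h6
    exact h6
  have hxw : ∀ k : ℤ, k ≠ 0 → coef C (fun t => x t - w t) k = 0 := by
    intro k hk
    rw [coef_sub C hx hwc]
    have h1 := (h k).trans (hcw k).symm
    have h2 : (2 * π * (k:ℝ)) ≠ 0 := by
      have : (k:ℝ) ≠ 0 := by exact_mod_cast hk
      positivity
    rw [smul_right_injective W h2 h1, sub_self]
  have hconst := const_of_coef C (u := fun t => x t - w t) (hx.sub hwc)
    (fun t => by simp only [hxp, hwp]) hxw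
  have hxe : x = fun t => w t + (x 0 - w 0) := by
    funext s
    have h8 : x s - w s = x 0 - w 0 := hconst s
    rw [← h8]
    abel
  rw [hxe]
  exact (hwd t).add_const _

end Pool.Agent.H72.EZ
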