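import Pool.Agent.H72.EZ.LimA
import Pool.Agent.H72.EZ.LimB
import Pool.Agent.H72.EZ.LimC

/-!
# JOB EZ-LIM : the limit lemma (Galerkin critical points converge to orbits)

PROOF. By `crit_bound`, `arzela_periodic` and compactness of `[0,S]` there is a subsequence `φ` with
`(z (φ i)).2 → T` and `u_i := loop C (z (φ i)).1 → x` uniformly, `x` continuous and periodic. `gQ` and
`gH` are Lipschitz, so `K_i := rhs P (z (φ i)).2 u_i → K := rhs P T x` uniformly. For fixed `k`
and `i` large (`N (φ i) ≥ |k|`, `hN`): `coef u_i k = (z (φ i)).1 k` (`coef_loop`) and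
`(2πk) • (z (φ i)).1 k = coef K_i k` (`crit_coef`); let `i → ∞` (`norm_coef_le`, `coef_sub`):
`(2πk) • coef x k = coef K k`. So `hasDerivAt_of_coef` applies.
`h`: `∫Hh(u_i) → ∫Hh(x)` (`Hh` Lipschitz, uniform convergence).
`g`: `π∑k‖x_k‖² = (1/2)∑⟨2πk x_k, x_k⟩ = (1/2)∑⟨coef K_i k, x_k⟩ = (1/2)∫⟨K_i, u_i⟩`
(`integral_inner_loop`), so `g = (1/2)∫⟨K_i,u_i⟩ - ∫Q(u_i) → (1/2)∫⟨K,x⟩ - ∫Q(x)`.
-/

open MeasureTheory Set Metric Filter Topology
open scoped Real InnerProductSpace

namespace Pool.Agent.H72.EZ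

variable {W : Type} [NormedAddCommGroup W] [InnerProductSpace ℝ W]

/-- dominated convergence for interval integrals of continuous functions -/
theorem lim_dom {E : Type} [NormedAddCommGroup E] [NormedSpace ℝ E]
    (f : ℕ → ℝ → E) (g : ℝ → E) (B : ℝ)
    (hf : ∀ i, Continuous (f i)) (hb : ∀ i t, ‖f i t‖ ≤ B)
    (hlim : ∀ t, Tendsto (fun i => f i t) atTop (𝓝 (g t))) :
    Tendsto (fun i => ∫ t in (0:ℝ)..1, f i t) atTop (𝓝 (∫ t in (0:ℝ)..1, g t)) := by
  refine intervalIntegral.tendsto_integral_filter_of_dominated_convergence (fun _ => B) ?_ ?_ ?_ ?_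
  · exact Eventually.of_forall fun i => (hf i).aestronglyMeasurable
  · exact Eventually.of_forall fun i => Eventually.of_forall fun t _ => hb i t
  · exact intervalIntegrable_const
  · exact Eventually.of_forall fun t _ => hlim t

theorem lim_rot_cont (C : CStr W) (f : ℝ → W) (hf : Continuous f) (k : ℤ) :
    Continuous (fun t => C.rot (-(2 * π * k * t)) (f t)) := by
  have h1 : Continuous fun t : ℝ => ((-(2 * π * (k:ℝ) * t), f t) : ℝ × W) :=
    Continuous.prodMk (by fun_prop) hf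
  have h2 := CStr.continuous_rot C
  have h3 := h2.comp h1
  exact h3

theorem lim_rot_cont' (C : CStr W) (θ : ℝ) : Continuous (fun w : W => C.rot θ w) := by
  have h1 : Continuous fun w : W => ((θ, w) : ℝ × W) :=
    Continuous.prodMk continuous_const continuous_id
  have h2 := CStr.continuous_rot C
  have h3 := h2.comp h1
  exact h3

theorem lim_coef (C : CStr W) (f : ℕ → ℝ → W) (g : ℝ → W) (B : ℝ)
    (hf : ∀ i, Continuous (f i)) (hb : ∀ i t, ‖f i t‖ ≤ B)
    (hlim : ∀ t, Tendsto (fun i => f i t) atTop (𝓝 (g t))) (k : ℤ) :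
    Tendsto (fun i => coef C (f i) k) atTop (𝓝 (coef C g k)) := by
  have h1 : ∀ i, Continuous fun t => C.rot (-(2 * π * k * t)) (f i t) := fun i =>
    lim_rot_cont C (f i) (hf i) k
  have h2 : ∀ i t, ‖C.rot (-(2 * π * k * t)) (f i t)‖ ≤ B := by
    intro i t
    rw [C.norm_rot]
    exact hb i t
  have h3 : ∀ t, Tendsto (fun i => C.rot (-(2 * π * k * t)) (f i t)) atTop
      (𝓝 (C.rot (-(2 * π * k * t)) (g t))) := fun t =>
    ((lim_rot_cont' C (-(2 * π * k * t))).tendsto (g t)).comp (hlim t)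
  exact lim_dom (fun i t => C.rot (-(2 * π * k * t)) (f i t))
    (fun t => C.rot (-(2 * π * k * t)) (g t)) B h1 h2 h3

theorem gal_limit [FiniteDimensional ℝ W] (C : CStr W) (P : HamData W) {S : ℝ} (hS : 0 ≤ S)
    (N : ℕ → ℕ) (hN : Tendsto N atTop atTop) (z : ∀ i, EN (N i) W × ℝ)
    (hz0 : ∀ i, 0 ≤ (z i).2) (hzS : ∀ i, (z i).2 ≤ S) (hcr : ∀ i, (gal C P (N i)).gx (z i) = 0) :
    ∃ φ : ℕ → ℕ, StrictMono φ ∧ ∃ (T : ℝ) (x : ℝ → W),
      Tendsto (fun i => (z (φ i)).2) atTop (𝓝 T) ∧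
      (∀ t, HasDerivAt x (C.J (gQ P.R (x t) + T • P.gH (x t))) t) ∧
      (∀ t, x (t + 1) = x t) ∧
      Tendsto (fun i => (gal C P (N (φ i))).h (z (φ i)).1) atTop
        (𝓝 (∫ t in (0:ℝ)..1, P.Hh (x t))) ∧
      Tendsto (fun i => (gal C P (N (φ i))).g (z (φ i)).1) atTop
        (𝓝 ((∫ t in (0:ℝ)..1, ⟪gQ P.R (x t) + T • P.gH (x t), x t⟫_ℝ) / 2 -
          ∫ t in (0:ℝ)..1, Qf P.R (x t))) := by
  have hR : 0 < P.R := lt_of_lt_of_le one_pos P.R1
  have hL : 0 ≤ P.L := le_trans zero_le_one P.L1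
  obtain ⟨B, hB, hcb⟩ := crit_bound C P hS
  -- convergence of the loops
  obtain ⟨φ₁, hφ₁, x, hxc, hxp, hux⟩ := arzela_periodic (fun i => loop C (z i).1)
    (fun i t => loop_periodic C (z i).1 t)
    (fun i t => (hcb (N i) (z i) (hz0 i) (hzS i) (hcr i)).1 t)
    (fun i s hs t ht => (hcb (N i) (z i) (hz0 i) (hzS i) (hcr i)).2 s hs t ht)
  obtain ⟨T, hT, φ₂, hφ₂, hTt⟩ := (isCompact_Icc (a := (0:ℝ)) (b := S)).tendsto_subseq
    (x := fun i => (z (φ₁ i)).2) (fun i => ⟨hz0 _, hzS _⟩)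
  set φ : ℕ → ℕ := φ₁ ∘ φ₂ with hφ
  have hφm : StrictMono φ := hφ₁.comp hφ₂
  have hTt' : Tendsto (fun i => (z (φ i)).2) atTop (𝓝 T) := hTt
  set u : ℕ → ℝ → W := fun i => loop C (z (φ i)).1 with hu
  have huc : ∀ i, Continuous (u i) := fun i => loop_continuous C _
  have hub : ∀ i t, ‖u i t‖ ≤ B := fun i t => (hcb _ _ (hz0 _) (hzS _) (hcr _)).1 t
  have hulim : ∀ t, Tendsto (fun i => u i t) atTop (𝓝 (x t)) := fun t =>
    (hux.tendsto_at t).comp hφ₂.tendsto_atTop
  -- the right hand sides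
  set K : ℕ → ℝ → W := fun i => rhs P (z (φ i)).2 (u i) with hK
  have hKc : ∀ i, Continuous (K i) := by
    intro i
    exact ((gQ_continuous hR).comp (huc i)).add
      (continuous_const.smul (P.gH_continuous.comp (huc i)))
  have hKb : ∀ i t, ‖K i t‖ ≤ 3 * π * B + S * P.L := by
    intro i t
    refine (norm_add_le _ _).trans (add_le_add ?_ ?_)
    · refine (gQ_norm_le hR _).trans ?_
      have := hub i t
      have hpi := Real.pi_pos
      gcongr
    · rw [norm_smul, Real.norm_eq_abs, abs_of_nonneg (hz0 _)]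
      exact mul_le_mul (hzS _) (P.gHbd _) (norm_nonneg _) hS
  have hKlim : ∀ t, Tendsto (fun i => K i t) atTop (𝓝 (rhs P T x t)) := by
    intro t
    have h1 : Tendsto (fun i => gQ P.R (u i t)) atTop (𝓝 (gQ P.R (x t))) :=
      ((gQ_continuous hR).tendsto (x t)).comp (hulim t)
    have h2 : Tendsto (fun i => P.gH (u i t)) atTop (𝓝 (P.gH (x t))) :=
      (P.gH_continuous.tendsto (x t)).comp (hulim t)
    exact h1.add (hTt'.smul h2)
  have hKxc : Continuous (rhs P T x) :=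
    ((gQ_continuous hR).comp hxc).add (continuous_const.smul (P.gH_continuous.comp hxc))
  have hKxp : ∀ t, rhs P T x (t + 1) = rhs P T x t := by
    intro t
    unfold rhs
    rw [hxp]
  -- the Fourier coefficients of the limit
  have hcoef : ∀ k : ℤ, (2 * π * k) • coef C x k = coef C (rhs P T x) k := by
    intro k
    have h1 : Tendsto (fun i => (2 * π * (k : ℝ)) • coef C (u i) k) atTop
        (𝓝 ((2 * π * k) • coef C x k)) := (lim_coef C u x B huc hub hulim k).const_smul _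
    have h2 : Tendsto (fun i => coef C (K i) k) atTop (𝓝 (coef C (rhs P T x) k)) :=
      lim_coef C K _ _ hKc hKb hKlim k
    refine tendsto_nhds_unique (h1.congr' ?_) h2
    have hNφ : Tendsto (fun i => N (φ i)) atTop atTop := hN.comp hφm.tendsto_atTop
    filter_upwards [hNφ.eventually_ge_atTop k.natAbs] with i hi
    have hk : k ∈ Finset.Icc (-(N (φ i) : ℤ)) (N (φ i) : ℤ) := by
      rw [Finset.mem_Icc]
      omega
    have e1 := coef_loop C (z (φ i)).1 ⟨k, hk⟩
    have e2 := crit_coef C P (hcr (φ i)) ⟨k, hk⟩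
    rw [← e1] at e2
    exact e2
  refine ⟨φ, hφm, T, x, hTt', fun t => hasDerivAt_of_coef C hxc hKxc hxp hKxp hcoef t, hxp,
    ?_, ?_⟩
  · -- `h`
    refine lim_dom (fun i t => P.Hh (u i t)) (fun t => P.Hh (x t)) (5 / 2) ?_ ?_ ?_
    · intro i
      exact P.Hh_continuous.comp (huc i)
    · intro i t
      rw [Real.norm_eq_abs, abs_of_nonneg (by linarith [P.lo (u i t)])]
      exact P.hi _
    · intro t
      exact (P.Hh_continuous.tendsto (x t)).comp (hulim t)
  · -- `g`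
    have hg : ∀ i, (gal C P (N (φ i))).g (z (φ i)).1 =
        (∫ t in (0:ℝ)..1, ⟪K i t, u i t⟫_ℝ) / 2 - ∫ t in (0:ℝ)..1, Qf P.R (u i t) := by
      intro i
      have h1 : ∫ t in (0:ℝ)..1, ⟪K i t, u i t⟫_ℝ =
          ∑ k : Idx (N (φ i)), ⟪coef C (K i) k, (z (φ i)).1 k⟫_ℝ :=
        integral_inner_loop C (hKc i) (z (φ i)).1
      have h2 : ∑ k : Idx (N (φ i)), ⟪coef C (K i) k, (z (φ i)).1 k⟫_ℝ =
          2 * (π * ∑ k : Idx (N (φ i)), (k : ℤ) * ‖(z (φ i)).1 k‖ ^ 2) := by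
        rw [Finset.mul_sum, Finset.mul_sum]
        refine Finset.sum_congr rfl fun k _ => ?_
        rw [← crit_coef C P (hcr (φ i)) k, inner_smul_left, real_inner_self_eq_norm_sq]
        simp only [conj_trivial]
        ring
      rw [h1, h2]
      show π * ∑ k : Idx (N (φ i)), (k : ℤ) * ‖(z (φ i)).1 k‖ ^ 2 -
        ∫ t in (0:ℝ)..1, Qf P.R (loop C (z (φ i)).1 t) = _
      ring
    have h3 : Tendsto (fun i => ∫ t in (0:ℝ)..1, ⟪K i t, u i t⟫_ℝ) atTop
        (𝓝 (∫ t in (0:ℝ)..1, ⟪rhs P T x t, x t⟫_ℝ)) := by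
      refine lim_dom (fun i t => ⟪K i t, u i t⟫_ℝ) (fun t => ⟪rhs P T x t, x t⟫_ℝ)
        ((3 * π * B + S * P.L) * B) ?_ ?_ ?_
      · intro i
        exact (hKc i).inner (huc i)
      · intro i t
        refine (norm_inner_le_norm _ _).trans ?_
        exact mul_le_mul (hKb i t) (hub i t) (norm_nonneg _)
          (by have := Real.pi_pos; positivity)
      · intro t
        exact (hKlim t).inner (hulim t)
    have h4 : Tendsto (fun i => ∫ t in (0:ℝ)..1, Qf P.R (u i t)) atTop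
        (𝓝 (∫ t in (0:ℝ)..1, Qf P.R (x t))) := by
      refine lim_dom (fun i t => Qf P.R (u i t)) (fun t => Qf P.R (x t))
        (3 * π / 2 * B ^ 2) ?_ ?_ ?_
      · intro i
        exact (Qf_continuous P.R).comp (huc i)
      · intro i t
        rw [Real.norm_eq_abs, abs_of_nonneg (Qf_nonneg _ _)]
        have h5 := Qf_le (R := P.R) (p := (0 : W)) (v := u i t) (by rw [norm_zero]; exact hR.le)
        rw [zero_add] at h5
        refine h5.trans ?_
        have := hub i t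
        have hpi := Real.pi_pos
        gcongr
      · intro t
        exact ((Qf_continuous P.R).tendsto (x t)).comp (hulim t)
    refine ((h3.div_const 2).sub h4).congr fun i => ?_
    rw [hg i]

end Pool.Agent.H72.EZ
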