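import Pool.Agent.H72.EZ.GalCoer

/-!
# JOB EZ-LIMA : uniform bounds for critical points of the Galerkin functional

PROOF. Let `z = (x,T)`, `0 ≤ T ≤ S`, `gx z = 0`, i.e. `2πk x_k = coef K k` for all `k : Idx N`
(`crit_coef`), `K(t) = gQ(loop x t) + T gH(loop x t)`. By `gal_coer`: `‖x‖ < R₂`. As
`‖gQ z‖ ≤ 3π‖z‖`, `‖gH‖ ≤ L`: `∫‖K‖² ≤ 2(9π² ‖x‖² + S² L²) ≤ B₁²` (`parseval`). By `bessel`
`∑‖2πk x_k‖² ≤ B₁²`. By `loop_hasDerivAt`, `parseval` and `norm_J`, `∫₀¹‖(loop x)'‖² ≤ B₁²`. For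
`0 ≤ s ≤ t ≤ 1`: `‖loop t - loop s‖ ≤ ∫_s^t‖(loop x)'‖ ≤ √(t-s) B₁` (Cauchy-Schwarz; e.g. from
`2ab ≤ λa² + b²/λ`, `λ = √(t-s)`.. or `inner_mul_le_norm_mul_norm` in `L²`). Averaging over `s`:
`‖loop x t‖ ≤ ∫‖loop x s‖ ds + B₁ ≤ R₂ + B₁` on `[0,1]`, and everywhere by periodicity
(`Function.Periodic`, `Int.fract`).
-/

open MeasureTheory Set Metric Filter Topology
open scoped Real InnerProductSpace

namespace Pool.Agent.H72.EZ

variable {W : Type} [NormedAddCommGroup W] [InnerProductSpace ℝ W]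

/-- the right hand side `gQ(x(t)) + T gH(x(t))` -/
noncomputable def rhs (P : HamData W) (T : ℝ) (x : ℝ → W) (t : ℝ) : W :=
  gQ P.R (x t) + T • P.gH (x t)

theorem crit_coef [FiniteDimensional ℝ W] (C : CStr W) (P : HamData W) {N : ℕ} {z : EN N W × ℝ}
    (hz : (gal C P N).gx z = 0) (k : Idx N) :
    (2 * π * (k : ℤ)) • z.1 k = coef C (rhs P z.2 (loop C z.1)) k := by
  have hR0 : 0 < P.R := lt_of_lt_of_le one_pos P.R1
  have h1 : Continuous fun t => gQ P.R (loop C z.1 t) :=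
    (gQ_continuous hR0).comp (loop_continuous C z.1)
  have h2 : Continuous fun t => P.gH (loop C z.1 t) := P.gH_continuous.comp (loop_continuous C z.1)
  have h3 : (2 * π * ((k : ℤ) : ℝ)) • z.1 k - coef C (fun t => gQ P.R (loop C z.1 t)) k -
      z.2 • coef C (fun t => P.gH (loop C z.1 t)) k = 0 := by
    have := congrArg (fun v : EN N W => v k) hz
    exact this
  have h4 : coef C (rhs P z.2 (loop C z.1)) k = coef C (fun t => gQ P.R (loop C z.1 t)) k +
      z.2 • coef C (fun t => P.gH (loop C z.1 t)) k := by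
    have h5 : Continuous fun t => z.2 • P.gH (loop C z.1 t) := h2.const_smul z.2
    rw [← coef_smul, ← coef_add C h1 h5]
    rfl
  rw [h4]
  rw [sub_sub, sub_eq_zero] at h3
  exact h3

theorem limA_rhs_continuous (P : HamData W) (T : ℝ) {x : ℝ → W} (hx : Continuous x) :
    Continuous (rhs P T x) := by
  have hR0 : 0 < P.R := lt_of_lt_of_le one_pos P.R1
  exact ((gQ_continuous hR0).comp hx).add ((P.gH_continuous.comp hx).const_smul T)

theorem limA_rhs_le (P : HamData W) {S T : ℝ} (hT : 0 ≤ T) (hTS : T ≤ S) (x : ℝ → W) (t : ℝ) :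
    ‖rhs P T x t‖ ^ 2 ≤ 18 * π ^ 2 * ‖x t‖ ^ 2 + 2 * (S * P.L) ^ 2 := by
  have hR0 : 0 < P.R := lt_of_lt_of_le one_pos P.R1
  have hL := P.L1
  have h1 : ‖rhs P T x t‖ ≤ 3 * π * ‖x t‖ + S * P.L := by
    refine (norm_add_le _ _).trans (add_le_add (gQ_norm_le hR0 _) ?_)
    rw [norm_smul, Real.norm_eq_abs, abs_of_nonneg hT]
    exact mul_le_mul hTS (P.gHbd _) (norm_nonneg _) (hT.trans hTS)
  have h2 : ‖rhs P T x t‖ ^ 2 ≤ (3 * π * ‖x t‖ + S * P.L) ^ 2 :=
    pow_le_pow_left₀ (norm_nonneg _) h1 2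
  nlinarith [sq_nonneg (3 * π * ‖x t‖ - S * P.L)]

/-- Cauchy-Schwarz on an interval -/
theorem limA_cs {g : ℝ → ℝ} (hg : Continuous g) {A s t : ℝ} (hs : 0 ≤ s)
    (hst : s < t) (ht : t ≤ 1) (hA : ∫ r in (0:ℝ)..1, g r ^ 2 ≤ A) :
    ∫ r in s..t, g r ≤ (A + 1) / 2 * √(t - s) := by
  have hl : 0 < √(t - s) := Real.sqrt_pos.2 (by linarith)
  have hsq : √(t - s) * √(t - s) = t - s := Real.mul_self_sqrt (by linarith)
  set l := √(t - s) with hldef
  have hc1 : Continuous fun r => l / 2 * g r ^ 2 := continuous_const.mul (hg.pow 2)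
  have hc2 : Continuous fun r => l / 2 * g r ^ 2 + 1 / (2 * l) := hc1.add continuous_const
  have h1 : ∫ r in s..t, g r ≤ ∫ r in s..t, (l / 2 * g r ^ 2 + 1 / (2 * l)) := by
    apply intervalIntegral.integral_mono_on hst.le (hg.intervalIntegrable _ _)
      (hc2.intervalIntegrable _ _)
    intro r _
    have h2 : l / 2 * g r ^ 2 + 1 / (2 * l) - g r = (l * g r - 1) ^ 2 / (2 * l) := by
      field_simp
      ring
    have h3 : 0 ≤ (l * g r - 1) ^ 2 / (2 * l) := by positivity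
    linarith
  have h4 : ∫ r in s..t, (l / 2 * g r ^ 2 + 1 / (2 * l)) =
      l / 2 * (∫ r in s..t, g r ^ 2) + (t - s) * (1 / (2 * l)) := by
    rw [intervalIntegral.integral_add (hc1.intervalIntegrable _ _)
      (continuous_const.intervalIntegrable _ _), intervalIntegral.integral_const_mul,
      intervalIntegral.integral_const, smul_eq_mul]
  have h5 : ∫ r in s..t, g r ^ 2 ≤ ∫ r in (0:ℝ)..1, g r ^ 2 := by
    apply intervalIntegral.integral_mono_interval hs hst.le ht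
    · exact Filter.Eventually.of_forall fun r => sq_nonneg _
    · exact (hg.pow 2).intervalIntegrable _ _
  have h6 : (t - s) * (1 / (2 * l)) = l / 2 := by
    rw [← hsq]; field_simp
  calc ∫ r in s..t, g r ≤ l / 2 * (∫ r in s..t, g r ^ 2) + (t - s) * (1 / (2 * l)) :=
        h1.trans h4.le
    _ ≤ l / 2 * A + l / 2 := by
        rw [h6]
        have := mul_le_mul_of_nonneg_left (h5.trans hA) (by positivity : 0 ≤ l / 2)
        linarith
    _ = (A + 1) / 2 * l := by ring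

theorem crit_bound [FiniteDimensional ℝ W] (C : CStr W) (P : HamData W) {S : ℝ} (hS : 0 ≤ S) :
    ∃ B : ℝ, 0 < B ∧ ∀ (N : ℕ) (z : EN N W × ℝ), 0 ≤ z.2 → z.2 ≤ S → (gal C P N).gx z = 0 →
      (∀ t, ‖loop C z.1 t‖ ≤ B) ∧ ∀ s ∈ Icc (0:ℝ) 1, ∀ t ∈ Icc (0:ℝ) 1,
        ‖loop C z.1 s - loop C z.1 t‖ ≤ B * √|s - t| := by
  have : CompleteSpace W := FiniteDimensional.complete ℝ W
  obtain ⟨R₂, hR₂, hco⟩ := gal_coer C P hS
  set A : ℝ := 18 * π ^ 2 * R₂ ^ 2 + 2 * (S * P.L) ^ 2 with hA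
  have hA0 : 0 ≤ A := by positivity
  refine ⟨R₂ + (A + 1) / 2, by positivity, ?_⟩
  intro N z hz0 hzS hz
  have hx : ‖z.1‖ < R₂ := by
    by_contra hcon
    push Not at hcon
    have := hco N z hz0 hzS hcon
    rw [hz, norm_zero] at this
    linarith
  set y : EN N W := WithLp.toLp 2 fun k : Idx N => (2 * π * (k : ℤ)) • z.1 k with hy
  have hKc := limA_rhs_continuous P z.2 (loop_continuous C z.1)
  have hyK : y = WithLp.toLp 2 fun k : Idx N => coef C (rhs P z.2 (loop C z.1)) k := by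
    rw [hy]
    congr 1
    funext k
    exact crit_coef C P hz k
  have hyA : ‖y‖ ^ 2 ≤ A := by
    rw [hyK]
    refine (bessel C N hKc).trans ?_
    have hc1 : Continuous fun t => 18 * π ^ 2 * ‖loop C z.1 t‖ ^ 2 :=
      continuous_const.mul ((loop_continuous C z.1).norm.pow 2)
    have hc2 : Continuous fun t => 18 * π ^ 2 * ‖loop C z.1 t‖ ^ 2 + 2 * (S * P.L) ^ 2 :=
      hc1.add continuous_const
    have h1 : ∫ t in (0:ℝ)..1, ‖rhs P z.2 (loop C z.1) t‖ ^ 2 ≤
        ∫ t in (0:ℝ)..1, (18 * π ^ 2 * ‖loop C z.1 t‖ ^ 2 + 2 * (S * P.L) ^ 2) := by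
      apply intervalIntegral.integral_mono_on zero_le_one ((hKc.norm.pow 2).intervalIntegrable _ _)
        (hc2.intervalIntegrable _ _)
      intro t _
      exact limA_rhs_le P hz0 hzS _ t
    refine h1.trans ?_
    rw [intervalIntegral.integral_add (hc1.intervalIntegrable _ _)
      (continuous_const.intervalIntegrable _ _), intervalIntegral.integral_const_mul, parseval,
      intervalIntegral.integral_const, smul_eq_mul, sub_zero, one_mul, hA]
    have h2 : ‖z.1‖ ^ 2 ≤ R₂ ^ 2 := pow_le_pow_left₀ (norm_nonneg _) hx.le 2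
    have h3 : 0 ≤ 18 * π ^ 2 := by positivity
    have := mul_le_mul_of_nonneg_left h2 h3
    linarith
  have hyc := loop_continuous C y
  have hlt : ∀ s t : ℝ, 0 ≤ s → s < t → t ≤ 1 →
      ‖loop C z.1 t - loop C z.1 s‖ ≤ (A + 1) / 2 * √(t - s) := by
    intro s t hs hst ht
    have hd : ∀ r ∈ uIcc s t, HasDerivAt (loop C z.1) (C.J (loop C y r)) r := fun r _ =>
      loop_hasDerivAt C z.1 r
    have hJc : Continuous fun r => C.J (loop C y r) := C.J.continuous.comp hyc
    have h1 := intervalIntegral.integral_eq_sub_of_hasDerivAt hd (hJc.intervalIntegrable _ _)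
    rw [← h1]
    refine (intervalIntegral.norm_integral_le_integral_norm hst.le).trans ?_
    simp only [C.norm_J]
    refine limA_cs hyc.norm hs hst ht ?_
    rw [parseval]
    exact hyA
  have hhol : ∀ s ∈ Icc (0:ℝ) 1, ∀ t ∈ Icc (0:ℝ) 1,
      ‖loop C z.1 s - loop C z.1 t‖ ≤ (A + 1) / 2 * √|s - t| := by
    intro s hs t ht
    rcases lt_trichotomy s t with h | h | h
    · rw [norm_sub_rev, abs_sub_comm, abs_of_pos (by linarith)]
      exact hlt s t hs.1 h ht.2
    · rw [h]; simp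
    · rw [abs_of_pos (by linarith)]
      exact hlt t s ht.1 h hs.2
  have hsq1 : ∀ s ∈ Icc (0:ℝ) 1, ∀ t ∈ Icc (0:ℝ) 1, √|s - t| ≤ 1 := by
    intro s hs t ht
    rw [Real.sqrt_le_one, abs_le]
    constructor <;> linarith [hs.1, hs.2, ht.1, ht.2]
  have hsup : ∀ t ∈ Icc (0:ℝ) 1, ‖loop C z.1 t‖ ≤ R₂ + (A + 1) / 2 := by
    intro t ht
    have h1 : ∫ s in (0:ℝ)..1, (‖loop C z.1 t‖ - (A + 1) / 2) ≤ ∫ s in (0:ℝ)..1,
        ‖loop C z.1 s‖ := by
      apply intervalIntegral.integral_mono_on zero_le_one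
        (continuous_const.intervalIntegrable _ _)
        ((loop_continuous C z.1).norm.intervalIntegrable _ _)
      intro s hs
      have h2 := hhol t ht s hs
      have h3 := hsq1 t ht s hs
      have h4 : ‖loop C z.1 t - loop C z.1 s‖ ≤ (A + 1) / 2 := by
        refine h2.trans ?_
        exact mul_le_of_le_one_right (by positivity) h3
      have h5 := norm_sub_norm_le (loop C z.1 t) (loop C z.1 s)
      linarith
    rw [intervalIntegral.integral_const, smul_eq_mul, sub_zero, one_mul] at h1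
    have h6 := integral_norm_loop_le C z.1
    linarith
  constructor
  · intro t
    have hp : Function.Periodic (loop C z.1) 1 := loop_periodic C z.1
    have h1 : loop C z.1 (Int.fract t) = loop C z.1 t := by
      have := hp.sub_int_mul_eq (x := t) ⌊t⌋
      rw [mul_one] at this
      exact this
    rw [← h1]
    exact hsup _ ⟨Int.fract_nonneg t, (Int.fract_lt_one t).le⟩
  · intro s hs t ht
    refine (hhol s hs t ht).trans ?_
    apply mul_le_mul_of_nonneg_right _ (Real.sqrt_nonneg _)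
    linarith

end Pool.Agent.H72.EZ
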