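import Mathlib

/-!
# JOB EZ-SARD1 : the flat part of Sard's theorem

PROOF. Let `A = {x ∈ U | all iterated derivatives of order 1..D vanish at x}`, `D = finrank E`,
`G` of class `C^{D+1}` on the open set `U`. Every point `x₀ ∈ U` has a closed ball `B ⊆ U` around it
and `K` with `|G y - G x| ≤ K ‖y - x‖^{D+1}` for `x ∈ A ∩ B`, `y ∈ B` (Taylor formula on the segment
`[x,y] ⊆ B`; the `(D+1)`-st derivative is bounded on the compact ball `B`). Apply the one variable
Taylor/mean value inequality to `s ↦ G(x + s(y-x))`, or prove by downward induction on `j` that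
`‖iteratedFDeriv j G y‖ ≤ K ‖y-x‖^{D+1-j}`, `1 ≤ j ≤ D` (mean value inequality
`Convex.norm_image_sub_le_of_norm_fderiv_le`; `fderiv` of `iteratedFDeriv j` has the norm of
`iteratedFDeriv (j+1)`: `norm_fderiv_iteratedFDeriv`), and finally for `G` itself.
So `G` restricted to `A ∩ B` is Hölder with exponent `D+1`: `HolderOnWith`, and
`HolderOnWith.hausdorffMeasure_image_le` with `d = 1`, `r = D+1` gives
`μH[1] (G '' (A ∩ B)) ≤ K * μH[D+1] (A ∩ B) = 0`, because `μH[D+1] univ = 0` on `E`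
(`dimH univ = finrank < D+1`: `Real.dimH_univ_eq_finrank`, `hausdorffMeasure_of_dimH_lt`).
`volume = μH[1]` on `ℝ` (`MeasureTheory.hausdorffMeasure_real`).
Countably many such balls cover `A` (second countable: `TopologicalSpace.countable_cover_nhds` or
`exists_countable_...`).
-/

open MeasureTheory Set Metric Filter Topology
open scoped Real NNReal ENNReal

namespace Pool.Agent.H72.EZ

/-- downward induction for the Taylor estimate -/
theorem sardFlat_taylor {E : Type} [NormedAddCommGroup E] [NormedSpace ℝ E]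
    {G : E → ℝ} {U : Set E} {D : ℕ} (hU : IsOpen U)
    (hG : ContDiffOn ℝ (D + 1 : ℕ) G U) {x₀ : E} {r : ℝ} (hr : closedBall x₀ r ⊆ U)
    {K : ℝ} (hK : ∀ z ∈ closedBall x₀ r, ‖iteratedFDeriv ℝ (D + 1) G z‖ ≤ K)
    {x : E} (hx : x ∈ closedBall x₀ r)
    (hflat : ∀ j, 1 ≤ j → j ≤ D → iteratedFDeriv ℝ j G x = 0) (m : ℕ) (hm : m ≤ D)
    (y : E) (hy : y ∈ closedBall x₀ r) :
    ‖iteratedFDeriv ℝ (D - m) G y - iteratedFDeriv ℝ (D - m) G x‖ ≤ K * ‖y - x‖ ^ (m + 1) := by
  have hK0 : 0 ≤ K := (norm_nonneg _).trans (hK x hx)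
  have hdiff : ∀ j, j ≤ D → ∀ z ∈ closedBall x₀ r,
      DifferentiableAt ℝ (iteratedFDeriv ℝ j G) z := by
    intro j hj z hz
    have h1 : ContDiffAt ℝ (D + 1 : ℕ) G z := hG.contDiffAt (hU.mem_nhds (hr hz))
    exact h1.differentiableAt_iteratedFDeriv (by exact_mod_cast Nat.lt_succ_of_le hj)
  induction m generalizing y with
  | zero =>
    have := Convex.norm_image_sub_le_of_norm_fderiv_le (𝕜 := ℝ)
      (f := iteratedFDeriv ℝ D G) (C := K) (s := closedBall x₀ r) (x := x) (y := y)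
      (hdiff D le_rfl) (fun z hz => by
        rw [norm_fderiv_iteratedFDeriv]; exact hK z hz) (convex_closedBall _ _) hx hy
    simpa using this
  | succ m ih =>
    have hj : D - m = (D - (m + 1)) + 1 := by omega
    have hs : Convex ℝ (closedBall x₀ r ∩ closedBall x ‖y - x‖) :=
      (convex_closedBall _ _).inter (convex_closedBall _ _)
    have := Convex.norm_image_sub_le_of_norm_fderiv_le (𝕜 := ℝ)
      (f := iteratedFDeriv ℝ (D - (m + 1)) G) (C := K * ‖y - x‖ ^ (m + 1))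
      (s := closedBall x₀ r ∩ closedBall x ‖y - x‖) (x := x) (y := y)
      (fun z hz => hdiff _ (by omega) z hz.1) (fun z hz => by
        rw [norm_fderiv_iteratedFDeriv, ← hj]
        have h1 := ih (by omega) z hz.1
        rw [hflat (D - m) (by omega) (by omega), sub_zero] at h1
        refine h1.trans (mul_le_mul_of_nonneg_left ?_ hK0)
        refine pow_le_pow_left₀ (norm_nonneg _) ?_ _
        have h2 := hz.2
        rwa [mem_closedBall, dist_eq_norm] at h2) hs
      ⟨hx, mem_closedBall_self (norm_nonneg _)⟩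
      ⟨hy, by rw [mem_closedBall, dist_eq_norm]⟩
    refine this.trans (le_of_eq ?_)
    ring

/-- local Hölder estimate at flat points -/
theorem sard_flat_local {E : Type} [NormedAddCommGroup E] [NormedSpace ℝ E]
    [FiniteDimensional ℝ E] {G : E → ℝ} {U : Set E} {D : ℕ} (hU : IsOpen U)
    (hG : ContDiffOn ℝ (D + 1 : ℕ) G U) {x₀ : E} (hx₀ : x₀ ∈ U) :
    ∃ r > 0, ∃ K : ℝ≥0, closedBall x₀ r ⊆ U ∧ ∀ x ∈ closedBall x₀ r, ∀ y ∈ closedBall x₀ r,
      (∀ j, 1 ≤ j → j ≤ D → iteratedFDeriv ℝ j G x = 0) →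
      |G y - G x| ≤ K * ‖y - x‖ ^ (D + 1) := by
  have : ProperSpace E := FiniteDimensional.proper ℝ E
  obtain ⟨r, hr0, hr⟩ := Metric.nhds_basis_closedBall.mem_iff.1 (hU.mem_nhds hx₀)
  have hcont : ContinuousOn (iteratedFDeriv ℝ (D + 1) G) (closedBall x₀ r) := by
    intro z hz
    have h1 : ContDiffAt ℝ (D + 1 : ℕ) G z := hG.contDiffAt (hU.mem_nhds (hr hz))
    exact (h1.continuousAt_iteratedFDeriv (le_refl _)).continuousWithinAt
  obtain ⟨K, hK⟩ := (isCompact_closedBall x₀ r).exists_bound_of_continuousOn hcont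
  have hK0 : 0 ≤ K := (norm_nonneg _).trans (hK x₀ (mem_closedBall_self hr0.le))
  refine ⟨r, hr0, ⟨K, hK0⟩, hr, fun x hx y hy hflat => ?_⟩
  have h := sardFlat_taylor hU hG hr hK hx hflat D le_rfl y hy
  rw [Nat.sub_self] at h
  have e : ‖iteratedFDeriv ℝ 0 G y - iteratedFDeriv ℝ 0 G x‖ = |G y - G x| := by
    rw [iteratedFDeriv_zero_eq_comp]
    simp only [Function.comp]
    rw [← map_sub, LinearIsometryEquiv.norm_map, Real.norm_eq_abs]
  rw [e] at h
  exact h

theorem sard_flat {E : Type} [NormedAddCommGroup E] [NormedSpace ℝ E]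
    [FiniteDimensional ℝ E] {G : E → ℝ} {U : Set E} {D : ℕ} (hD : Module.finrank ℝ E ≤ D)
    (hU : IsOpen U) (hG : ContDiffOn ℝ (D + 1 : ℕ) G U) :
    volume (G '' {x ∈ U | ∀ j, 1 ≤ j → j ≤ D → iteratedFDeriv ℝ j G x = 0}) = 0 := by
  have : ProperSpace E := FiniteDimensional.proper ℝ E
  borelize E
  set A := {x ∈ U | ∀ j, 1 ≤ j → j ≤ D → iteratedFDeriv ℝ j G x = 0} with hA
  have hloc : ∀ x ∈ A, ∃ r > 0, ∃ K : ℝ≥0, closedBall x r ⊆ U ∧
      ∀ z ∈ closedBall x r, ∀ y ∈ closedBall x r,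
      (∀ j, 1 ≤ j → j ≤ D → iteratedFDeriv ℝ j G z = 0) →
      |G y - G z| ≤ K * ‖y - z‖ ^ (D + 1) := fun x hx => sard_flat_local hU hG hx.1
  choose! r hr0 K _hrU hest using hloc
  obtain ⟨t, htA, htc, hcov⟩ := TopologicalSpace.countable_cover_nhdsWithin
    (f := fun x => closedBall x (r x)) (s := A)
    (fun x hx => mem_nhdsWithin_of_mem_nhds (closedBall_mem_nhds x (hr0 x hx)))
  have hsub : G '' A ⊆ ⋃ x ∈ t, G '' (A ∩ closedBall x (r x)) := by
    rintro _ ⟨x, hx, rfl⟩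
    obtain ⟨z, hz, hxz⟩ := mem_iUnion₂.1 (hcov hx)
    exact mem_iUnion₂.2 ⟨z, hz, x, ⟨hx, hxz⟩, rfl⟩
  refine measure_mono_null hsub ((measure_biUnion_null_iff htc).2 fun x hx => ?_)
  have hxA := htA hx
  have hH : HolderOnWith (K x) (D + 1 : ℕ) G (A ∩ closedBall x (r x)) := by
    intro z hz y hy
    have h1 := hest x hxA y hy.2 z hz.2 hy.1.2
    have h2 : dist (G z) (G y) ≤ K x * dist z y ^ (D + 1) := by
      rw [dist_eq_norm, Real.norm_eq_abs, dist_eq_norm]
      exact h1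
    rw [edist_dist, edist_dist]
    calc ENNReal.ofReal (dist (G z) (G y)) ≤ ENNReal.ofReal (K x * dist z y ^ (D + 1)) :=
          ENNReal.ofReal_le_ofReal h2
      _ = (K x : ℝ≥0∞) * ENNReal.ofReal (dist z y) ^ (((D + 1 : ℕ) : ℝ≥0) : ℝ) := by
          rw [ENNReal.ofReal_mul (NNReal.coe_nonneg (K x)), ENNReal.ofReal_coe_nnreal,
            ENNReal.ofReal_pow dist_nonneg]
          congr 1
          rw [← ENNReal.rpow_natCast]
          simp
  have h3 := hH.hausdorffMeasure_image_le (by positivity) (d := 1) zero_le_one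
  have h4 : (μH[(((D + 1 : ℕ) : ℝ≥0) : ℝ) * 1] : Measure E) (A ∩ closedBall x (r x)) = 0 := by
    rw [mul_one]
    apply hausdorffMeasure_of_dimH_lt
    calc dimH (A ∩ closedBall x (r x)) ≤ dimH (univ : Set E) := dimH_mono (subset_univ _)
      _ = Module.finrank ℝ E := Real.dimH_univ_eq_finrank E
      _ < (((D + 1 : ℕ) : ℝ≥0) : ℝ≥0∞) := by
          rw [ENNReal.coe_natCast]
          exact_mod_cast Nat.lt_succ_of_le hD
  rw [h4, mul_zero, nonpos_iff_eq_zero, hausdorffMeasure_real] at h3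
  exact h3

end Pool.Agent.H72.EZ
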