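import Mathlib

/-!
# JOB EZ-SARD2 : local parametrisation of a regular zero set

PROOF. Implicit/inverse function theorem. Let `ℓ = fderiv ℝ w x₀ ≠ 0`, choose `e` with `ℓ e = 1`, and a
linear equivalence `A : E ≃L[ℝ] ℝ × F` (`F = EuclideanSpace ℝ (Fin D)`, dimensions match) whose first
component is `ℓ` (e.g. `ker ℓ` has dimension `D`, so `ker ℓ ≃L F`; `E ≃ ℝ × ker ℓ` by
`x ↦ (ℓ x, x - ℓ x • e)`). Put `Φ y = (w y, (A y).2) : E → ℝ × F`; `Φ` is `C^k` on `U` and
`fderiv Φ x₀ = A` is invertible; `ContDiffAt.toOpenPartialHomeomorph` / `ContDiffAt.to_localInverse`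
gives a local inverse, which is `C^k` near `Φ x₀` (`k ≥ 1`). Put `ψ u = Φ⁻¹(0, u)` on a small open set
`O`; shrink `V` such that `Φ(V) ⊆ I × O`. If `x ∈ V`, `w x = 0`, then `Φ x = (0,u)`, `x = ψ u`.
-/

open MeasureTheory Set Metric Filter Topology
open scoped Real

namespace Pool.Agent.H72.EZ

/-- Coordinates in which a nonzero functional is the first coordinate. -/
theorem sardImp_equiv {E : Type} [NormedAddCommGroup E] [NormedSpace ℝ E]
    [FiniteDimensional ℝ E] {D : ℕ} (hD : Module.finrank ℝ E = D + 1) (l : E →L[ℝ] ℝ)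
    (hl : l ≠ 0) : ∃ A : E ≃L[ℝ] ℝ × EuclideanSpace ℝ (Fin D), ∀ x, (A x).1 = l x := by
  obtain ⟨v, hv⟩ : ∃ v, l v = 1 := by
    obtain ⟨y, hy⟩ : ∃ y, l y ≠ 0 := by
      by_contra hcon
      push Not at hcon
      exact hl (ContinuousLinearMap.ext hcon)
    exact ⟨(l y)⁻¹ • y, by rw [map_smul, smul_eq_mul, inv_mul_cancel₀ hy]⟩
  have hsurj : Function.Surjective (l : E →ₗ[ℝ] ℝ) := fun c =>
    ⟨c • v, by
      show l (c • v) = c
      rw [map_smul, hv, smul_eq_mul, mul_one]⟩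
  have hker : Module.finrank ℝ (LinearMap.ker (l : E →ₗ[ℝ] ℝ)) = D := by
    have h1 := LinearMap.finrank_range_add_finrank_ker (l : E →ₗ[ℝ] ℝ)
    rw [LinearMap.range_eq_top.2 hsurj, finrank_top, Module.finrank_self, hD] at h1
    omega
  let e : LinearMap.ker (l : E →ₗ[ℝ] ℝ) ≃ₗ[ℝ] EuclideanSpace ℝ (Fin D) :=
    LinearEquiv.ofFinrankEq _ _ (by rw [hker, finrank_euclideanSpace_fin])
  have hmem : ∀ x, x - l x • v ∈ LinearMap.ker (l : E →ₗ[ℝ] ℝ) := fun x => by
    rw [LinearMap.mem_ker]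
    show l (x - l x • v) = 0
    rw [map_sub, map_smul, hv, smul_eq_mul, mul_one, sub_self]
  let A : E ≃ₗ[ℝ] ℝ × EuclideanSpace ℝ (Fin D) :=
    { toFun := fun x => (l x, e ⟨x - l x • v, hmem x⟩)
      map_add' := fun x y => by
        refine Prod.ext (map_add l x y) ?_
        show e _ = e _ + e _
        rw [← map_add]
        congr 1
        refine Subtype.ext ?_
        show x + y - l (x + y) • v = (x - l x • v) + (y - l y • v)
        rw [map_add, add_smul]; abel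
      map_smul' := fun c x => by
        refine Prod.ext (by simp) ?_
        show e _ = c • e _
        rw [← map_smul]
        congr 1
        refine Subtype.ext ?_
        show c • x - l (c • x) • v = c • (x - l x • v)
        rw [map_smul, smul_sub, smul_smul, smul_eq_mul]
      invFun := fun p => p.1 • v + (e.symm p.2 : E)
      left_inv := fun x => by
        show l x • v + (e.symm (e ⟨x - l x • v, hmem x⟩) : E) = x
        rw [LinearEquiv.symm_apply_apply]
        show l x • v + (x - l x • v) = x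
        abel
      right_inv := fun p => by
        have h1 : l (e.symm p.2 : E) = 0 := (e.symm p.2).2
        have h2 : l (p.1 • v + (e.symm p.2 : E)) = p.1 := by
          rw [map_add, h1, map_smul, hv, smul_eq_mul, mul_one, add_zero]
        refine Prod.ext h2 ?_
        show e ⟨_, _⟩ = p.2
        rw [← e.apply_symm_apply p.2]
        congr 1
        refine Subtype.ext ?_
        simp only [h2, add_sub_cancel_left] }
  exact ⟨A.toContinuousLinearEquiv, fun x => rfl⟩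

theorem exists_param {E : Type} [NormedAddCommGroup E] [NormedSpace ℝ E]
    [FiniteDimensional ℝ E] {D : ℕ} (hD : Module.finrank ℝ E = D + 1) {w : E → ℝ} {U : Set E}
    (hU : IsOpen U) {k : ℕ} (hk : 1 ≤ k) (hw : ContDiffOn ℝ k w U) {x₀ : E} (hx₀ : x₀ ∈ U)
    (h0 : w x₀ = 0) (h1 : fderiv ℝ w x₀ ≠ 0) :
    ∃ V : Set E, IsOpen V ∧ x₀ ∈ V ∧ ∃ O : Set (EuclideanSpace ℝ (Fin D)), IsOpen O ∧
      ∃ ψ : EuclideanSpace ℝ (Fin D) → E, ContDiffOn ℝ k ψ O ∧ MapsTo ψ O U ∧
        ∀ x ∈ V, w x = 0 → ∃ u ∈ O, ψ u = x := by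
  have : CompleteSpace E := FiniteDimensional.complete ℝ E
  obtain ⟨A, hA⟩ := sardImp_equiv hD (fderiv ℝ w x₀) h1
  have hk0 : ((k : ℕ) : WithTop ℕ∞) ≠ 0 := by
    have : k ≠ 0 := by omega
    exact_mod_cast this
  have hwat : ContDiffAt ℝ k w x₀ := hw.contDiffAt (hU.mem_nhds hx₀)
  have hwd : HasFDerivAt w (fderiv ℝ w x₀) x₀ := (hwat.differentiableAt hk0).hasFDerivAt
  let q : E →L[ℝ] EuclideanSpace ℝ (Fin D) :=
    (ContinuousLinearMap.snd ℝ ℝ (EuclideanSpace ℝ (Fin D))).comp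
      (A : E →L[ℝ] ℝ × EuclideanSpace ℝ (Fin D))
  let Φ : E → ℝ × EuclideanSpace ℝ (Fin D) := fun y => (w y, q y)
  have hΦc : ContDiffAt ℝ k Φ x₀ := hwat.prodMk q.contDiff.contDiffAt
  have hΦd : HasFDerivAt Φ (A : E →L[ℝ] ℝ × EuclideanSpace ℝ (Fin D)) x₀ := by
    have h2 : HasFDerivAt Φ ((fderiv ℝ w x₀).prod q) x₀ := hwd.prodMk q.hasFDerivAt
    have h3 : (fderiv ℝ w x₀).prod q = (A : E →L[ℝ] ℝ × EuclideanSpace ℝ (Fin D)) := by
      ext x
      · exact (hA x).symm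
      · rfl
    rwa [h3] at h2
  let P := hΦc.toOpenPartialHomeomorph Φ hΦd hk0
  have hPs : x₀ ∈ P.source := hΦc.mem_toOpenPartialHomeomorph_source hΦd hk0
  have hPt : Φ x₀ ∈ P.target := hΦc.image_mem_toOpenPartialHomeomorph_target hΦd hk0
  have hsymm : ContDiffAt ℝ k P.symm (Φ x₀) := hΦc.to_localInverse hΦd hk0
  have hsx : P.symm (Φ x₀) = x₀ := P.left_inv hPs
  have hev : ∀ᶠ p in 𝓝 (Φ x₀), p ∈ P.target ∧ ContDiffAt ℝ k P.symm p ∧ P.symm p ∈ U := by
    have e1 : ∀ᶠ p in 𝓝 (Φ x₀), p ∈ P.target := P.open_target.mem_nhds hPt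
    have e2 : ∀ᶠ p in 𝓝 (Φ x₀), P.symm p ∈ U := by
      refine hsymm.continuousAt.eventually_mem ?_
      rw [hsx]
      exact hU.mem_nhds hx₀
    exact e1.and ((hsymm.eventually (by simp)).and e2)
  have hΦx : Φ x₀ = (0, q x₀) := Prod.ext h0 rfl
  rw [hΦx] at hev
  have hcont : Continuous fun u : EuclideanSpace ℝ (Fin D) => ((0 : ℝ), u) := by fun_prop
  have hev' := (hcont.tendsto (q x₀)).eventually hev
  obtain ⟨O, hO, hOo, hqO⟩ := _root_.mem_nhds_iff.1 hev'
  refine ⟨P.source ∩ q ⁻¹' O, P.open_source.inter (hOo.preimage q.continuous), ⟨hPs, hqO⟩,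
    O, hOo, fun u => P.symm (0, u), ?_, ?_, ?_⟩
  · intro u hu
    have h2 : ContDiffAt ℝ k P.symm (0, u) := (hO hu).2.1
    have h3 : ContDiffAt ℝ k (fun u : EuclideanSpace ℝ (Fin D) => ((0 : ℝ), u)) u :=
      contDiffAt_const.prodMk contDiffAt_id
    exact (h2.comp u h3).contDiffWithinAt
  · intro u hu
    exact (hO hu).2.2
  · intro x hx hwx
    refine ⟨q x, hx.2, ?_⟩
    have h2 : Φ x = (0, q x) := Prod.ext hwx rfl
    show P.symm (0, q x) = x
    rw [← h2]
    exact P.left_inv hx.1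

end Pool.Agent.H72.EZ
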