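import Pool.Agent.H72.EZ.Defs
import Pool.Agent.H72.EZ.SardFlat
import Pool.Agent.H72.EZ.SardImp

/-!
# JOB EZ-SARD3 : Sard's theorem for real-valued functions (lossy smoothness)

`sardOrd 0 = 1`, `sardOrd (D+1) = sardOrd D + D + 2`.

PROOF. Induction on `D = finrank E` (for all `E`, `U`, `G`).
`D = 0`: `E` is a subsingleton, the image has at most one point.
`D + 1`: let `m = sardOrd (D+1) = sardOrd D + D + 2`. A critical point `x ∈ U` (`fderiv G x = 0`, i.e.
`iteratedFDeriv 1 G x = 0`: `norm_iteratedFDeriv_one` or similar) is either flat of order `D+1`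
(all `iteratedFDeriv j`, `1 ≤ j ≤ D+1`, vanish: null image by `sard_flat`, `m ≥ D + 2`), or it
belongs to `C_j = {x ∈ U | iteratedFDeriv i G x = 0 for 1 ≤ i ≤ j, iteratedFDeriv (j+1) G x ≠ 0}` for
some `1 ≤ j ≤ D`. For `x ∈ C_j` there are vectors `v : Fin j → E` such that
`w y = iteratedFDeriv ℝ j G y v` has `w x = 0`, `fderiv w x ≠ 0` (`iteratedFDeriv_succ_apply_left`),
`w` is `C^{m-j}` on `U`, `m - j ≥ sardOrd D + 2`. Take `V, O, ψ` from `exists_param`
(`k = sardOrd D`, restrict). Since `w = 0` on all of `C_j`, `C_j ∩ V ⊆ ψ '' O`, and for `u ∈ O` with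
`ψ u ∈ C_j` the point `u` is critical for `G ∘ ψ` (chain rule, `fderiv G (ψ u) = 0`), which is
`C^{sardOrd D}` on `O`. By induction `G '' (C_j ∩ V)` is null. Countably many `V` cover `C_j`
(`TopologicalSpace.countable_cover_nhdsWithin`), finitely many `j`.
-/

open MeasureTheory Set Metric Filter Topology
open scoped Real

namespace Pool.Agent.H72.EZ

theorem Sard_ord_pos (D : ℕ) : 1 ≤ sardOrd D := by
  cases D with
  | zero => exact le_rfl
  | succ D =>
    unfold sardOrd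
    omega

theorem Sard_fderiv_iff {E : Type} [NormedAddCommGroup E] [NormedSpace ℝ E] {G : E → ℝ} {x : E} :
    fderiv ℝ G x = 0 ↔ iteratedFDeriv ℝ 1 G x = 0 := by
  rw [← norm_eq_zero, ← norm_iteratedFDeriv_one, norm_eq_zero]

/-- the local step of the induction -/
theorem Sard_local (D : ℕ)
    (ih : ∀ {G : EuclideanSpace ℝ (Fin D) → ℝ} {U : Set (EuclideanSpace ℝ (Fin D))}, IsOpen U →
      ContDiffOn ℝ (sardOrd D) G U → volume (G '' {x ∈ U | fderiv ℝ G x = 0}) = 0)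
    {E : Type} [NormedAddCommGroup E] [NormedSpace ℝ E]
    [FiniteDimensional ℝ E] (hD : Module.finrank ℝ E = D + 1) {G : E → ℝ} {U : Set E}
    (hU : IsOpen U) (hG : ContDiffOn ℝ (sardOrd (D + 1)) G U) {j : ℕ} (hj1 : 1 ≤ j) (hjD : j ≤ D)
    {C : Set E} (hC : C = {x | x ∈ U ∧ (∀ i, 1 ≤ i → i ≤ j → iteratedFDeriv ℝ i G x = 0) ∧
      iteratedFDeriv ℝ (j + 1) G x ≠ 0}) {x : E} (hx : x ∈ C) :
    ∃ V ∈ 𝓝[C] x, volume (G '' (C ∩ V)) = 0 := by
  have hx' := hx
  rw [hC] at hx'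
  obtain ⟨hxU, hx1, hx2⟩ := hx'
  have hGx : ∀ y ∈ U, ContDiffAt ℝ (sardOrd (D + 1)) G y := fun y hy =>
    hG.contDiffAt (hU.mem_nhds hy)
  obtain ⟨m, hm⟩ : ∃ m : Fin (j + 1) → E, iteratedFDeriv ℝ (j + 1) G x m ≠ 0 := by
    by_contra hcon
    push Not at hcon
    exact hx2 (ContinuousMultilinearMap.ext hcon)
  set w : E → ℝ := fun y => iteratedFDeriv ℝ j G y (Fin.tail m) with hw
  have hord : sardOrd D + j ≤ sardOrd (D + 1) := by
    change sardOrd D + j ≤ sardOrd D + D + 2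
    omega
  have hwC : ContDiffOn ℝ (sardOrd D) w U := by
    intro y hy
    have h1 : ContDiffAt ℝ (sardOrd D) (iteratedFDeriv ℝ j G) y :=
      (hGx y hy).iteratedFDeriv_right (by exact_mod_cast hord)
    have h2 := (ContinuousMultilinearMap.apply ℝ (fun _ : Fin j => E) ℝ
      (Fin.tail m)).contDiff.contDiffAt.comp y h1 (n := sardOrd D)
    exact h2.contDiffWithinAt
  have hdiff : DifferentiableAt ℝ (iteratedFDeriv ℝ j G) x :=
    (hGx x hxU).differentiableAt_iteratedFDeriv (by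
      have : j < sardOrd (D + 1) := lt_of_lt_of_le (by have := Sard_ord_pos D; omega) hord
      exact_mod_cast this)
  have hw1 : fderiv ℝ w x ≠ 0 := by
    intro h
    have h2 := hdiff.iteratedFDeriv_succ_apply_left' (m := m)
    rw [h2] at hm
    apply hm
    change fderiv ℝ w x (m 0) = 0
    rw [h]
    rfl
  have hw0 : w x = 0 := by
    rw [hw]
    dsimp only
    rw [hx1 j hj1 le_rfl]
    rfl
  obtain ⟨V, hV, hxV, O, hO, ψ, hψ, hmaps, hpar⟩ :=
    exists_param hD hU (Sard_ord_pos D) hwC hxU hw0 hw1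
  refine ⟨V, mem_nhdsWithin_of_mem_nhds (hV.mem_nhds hxV), ?_⟩
  have hG' : ContDiffOn ℝ (sardOrd D) (G ∘ ψ) O :=
    (hG.of_le (by exact_mod_cast (by omega : sardOrd D ≤ sardOrd (D + 1)))).comp hψ hmaps
  refine measure_mono_null ?_ (ih hO hG')
  rintro _ ⟨y, ⟨hyC, hyV⟩, rfl⟩
  rw [hC] at hyC
  obtain ⟨hyU, hy1, hy2⟩ := hyC
  have hwy : w y = 0 := by
    rw [hw]
    dsimp only
    rw [hy1 j hj1 le_rfl]
    rfl
  obtain ⟨u, hu, rfl⟩ := hpar y hyV hwy
  refine ⟨u, ⟨hu, ?_⟩, rfl⟩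
  have hfd : fderiv ℝ G (ψ u) = 0 := Sard_fderiv_iff.2 (hy1 1 le_rfl hj1)
  have hone : (1 : WithTop ℕ∞) ≤ (sardOrd D : WithTop ℕ∞) := by
    exact_mod_cast Sard_ord_pos D
  have hone' : (1 : WithTop ℕ∞) ≤ (sardOrd (D + 1) : WithTop ℕ∞) := by
    exact_mod_cast Sard_ord_pos (D + 1)
  have hGd : DifferentiableAt ℝ G (ψ u) :=
    (hGx _ hyU).differentiableAt (by
      intro h
      rw [h] at hone'
      exact absurd hone' (by simp))
  have hψd : DifferentiableAt ℝ ψ u :=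
    (hψ.contDiffAt (hO.mem_nhds hu)).differentiableAt (by
      intro h
      rw [h] at hone
      exact absurd hone (by simp))
  rw [fderiv_comp u hGd hψd, hfd, ContinuousLinearMap.zero_comp]

theorem sard (D : ℕ) {E : Type} [NormedAddCommGroup E] [NormedSpace ℝ E]
    [FiniteDimensional ℝ E] (hD : Module.finrank ℝ E = D) {G : E → ℝ} {U : Set E} (hU : IsOpen U)
    (hG : ContDiffOn ℝ (sardOrd D) G U) :
    volume (G '' {x ∈ U | fderiv ℝ G x = 0}) = 0 := by
  induction D generalizing E with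
  | zero =>
    have : Subsingleton E := Module.finrank_zero_iff.1 hD
    refine Set.Subsingleton.measure_zero ?_ _
    rintro _ ⟨x, -, rfl⟩ _ ⟨y, -, rfl⟩
    rw [Subsingleton.elim x y]
  | succ D ih =>
    have hpos := Sard_ord_pos D
    have hflat := sard_flat (D := D + 1) hD.le hU (hG.of_le (by
      have : D + 1 + 1 ≤ sardOrd (D + 1) := by
        change D + 1 + 1 ≤ sardOrd D + D + 2
        omega
      exact_mod_cast this))
    set C : ℕ → Set E := fun j => {x | x ∈ U ∧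
      (∀ i, 1 ≤ i → i ≤ j → iteratedFDeriv ℝ i G x = 0) ∧
      iteratedFDeriv ℝ (j + 1) G x ≠ 0} with hC
    have hsub : {x | x ∈ U ∧ fderiv ℝ G x = 0} ⊆
        {x | x ∈ U ∧ ∀ j, 1 ≤ j → j ≤ D + 1 → iteratedFDeriv ℝ j G x = 0} ∪
          ⋃ j ∈ {j : ℕ | 1 ≤ j ∧ j ≤ D}, C j := by
      rintro x ⟨hxU, hx⟩
      by_cases hfl : ∀ j, 1 ≤ j → j ≤ D + 1 → iteratedFDeriv ℝ j G x = 0
      · exact Or.inl ⟨hxU, hfl⟩
      right
      have hex : ∃ j, 1 ≤ j ∧ j ≤ D + 1 ∧ iteratedFDeriv ℝ j G x ≠ 0 := by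
        push Not at hfl
        exact hfl
      classical
      obtain ⟨h1, h2, h3⟩ := Nat.find_spec hex
      have hmin := fun {m} => Nat.find_min hex (m := m)
      generalize Nat.find hex = j at *
      have hj1 : j ≠ 1 := by
        rintro rfl
        exact h3 (Sard_fderiv_iff.1 hx)
      rw [mem_iUnion₂]
      refine ⟨j - 1, ⟨by omega, by omega⟩, hxU, ?_, ?_⟩
      · intro i hi1 hi2
        by_contra hcon
        exact hmin (m := i) (by omega) ⟨hi1, by omega, hcon⟩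
      · rw [Nat.sub_add_cancel h1]
        exact h3
    have hsub2 : G '' {x | x ∈ U ∧ fderiv ℝ G x = 0} ⊆
        (G '' {x | x ∈ U ∧ ∀ j, 1 ≤ j → j ≤ D + 1 → iteratedFDeriv ℝ j G x = 0}) ∪
          ⋃ j ∈ {j : ℕ | 1 ≤ j ∧ j ≤ D}, G '' C j := by
      refine (image_mono hsub).trans ?_
      rw [image_union, image_iUnion₂]
    refine measure_mono_null hsub2 (measure_union_null hflat ?_)
    · refine (measure_biUnion_null_iff (Set.to_countable _)).2 fun j hj => ?_
      have hloc := fun x (hx : x ∈ C j) => Sard_local D (fun {G U} hU hG =>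
        ih (finrank_euclideanSpace_fin) hU hG) hD hU hG hj.1 hj.2 rfl hx
      choose! V hV hV0 using hloc
      obtain ⟨t, htC, htc, htV⟩ := TopologicalSpace.countable_cover_nhdsWithin hV
      have : G '' C j ⊆ ⋃ x ∈ t, G '' (C j ∩ V x) := by
        rintro _ ⟨y, hy, rfl⟩
        obtain ⟨x, hx, hyx⟩ := mem_iUnion₂.1 (htV hy)
        exact mem_iUnion₂.2 ⟨x, hx, y, ⟨hy, hyx⟩, rfl⟩
      exact measure_mono_null this ((measure_biUnion_null_iff htc).2 fun x hx =>
        hV0 x (htC hx))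

end Pool.Agent.H72.EZ
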