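import Pool.Agent.H72.EZ.Gen2
import Pool.Agent.H72.EZ.Sard

/-!
# JOB EZ-NULL : exact coincidences form a null set

PROOF. Let `D = 2 (finrank W + 1)`, `k = sardOrd D ≥ 1`, `T₀ = 2T + 2`, `φ, S` from `exists_extFlow`,
`F = genF C φ S`. On the open set
`U = {(p,q) : (W × ℝ) × (W × ℝ) | p.2, q.2 ∈ Ioo 0 T₀, 0 < q.2 - p.2}` let
`G(p,q) = (F p - F q) / (q.2 - p.2)`, of class `C^k`. `finrank ((W×ℝ)×(W×ℝ)) = D`. Let `Coin C h T 0 a`
with `τ, τ', x, x'`: `τ ≤ T+1 < 2T ≤ τ'` (`T ≥ 2`), `p = (x 0, τ)`, `q = (x' 0, τ')`,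
`h(x 0) = h(x' 0) = a`, `act h τ x = act h τ' x' =: A`. By `genF_orb` `F p = A - τ a`,
`F q = A - τ' a`, so `G(p,q) = a`; by `genF_hasFDerivAt` the derivative of `F p - F q` at `(p,q)` is
`-a dτ + a dτ' = a d(q.2-p.2)`, so `dG = (a d(q.2-p.2) - a d(q.2-p.2))/(q.2-p.2) = 0`. So `a` belongs to
`G '' {critical points in U}`, a null set by `sard D`.
-/

open MeasureTheory Set Metric Filter Topology
open scoped Real InnerProductSpace NNReal

namespace Pool.Agent.H72.EZ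

variable {W : Type} [NormedAddCommGroup W] [InnerProductSpace ℝ W]

theorem coin_null [FiniteDimensional ℝ W] (C : CStr W) {h : W → ℝ}
    (hh : ContDiff ℝ (sardOrd (2 * (Module.finrank ℝ W + 1)) + 3 : ℕ) h)
    (hc : HasCompactSupport h) {T : ℝ} (hT : 2 ≤ T) :
    volume {a : ℝ | Coin C h T 0 a} = 0 := by
  set D : ℕ := 2 * (Module.finrank ℝ W + 1) with hD
  set k : ℕ := sardOrd D with hk
  have hk1 : 1 ≤ k := Sard_ord_pos D
  have hh2 : ContDiff ℝ 2 h := hh.of_le (by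
    have : 2 ≤ k + 3 := by omega
    exact_mod_cast this)
  have hT₀ : (0 : ℝ) < 2 * T + 2 := by linarith
  obtain ⟨φ, S, hF⟩ := exists_extFlow C k hh hc hT₀
  set F := genF C φ S with hFdef
  have hFC : ContDiffOn ℝ k F (univ ×ˢ Ioo (-(2 * T + 2)) (2 * T + 2)) := genF_contDiffOn hF
  set U : Set ((W × ℝ) × (W × ℝ)) :=
    {p | (0 < p.1.2 ∧ p.1.2 < 2 * T + 2) ∧ (0 < p.2.2 ∧ p.2.2 < 2 * T + 2) ∧ p.1.2 < p.2.2}
    with hU
  set G : (W × ℝ) × (W × ℝ) → ℝ := fun p => (F p.1 - F p.2) * (p.2.2 - p.1.2)⁻¹ with hG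
  have hfin : Module.finrank ℝ ((W × ℝ) × (W × ℝ)) = D := by
    rw [Module.finrank_prod, Module.finrank_prod, Module.finrank_self, hD]
    ring
  have hUo : IsOpen U := by
    have c1 : Continuous fun p : (W × ℝ) × (W × ℝ) => p.1.2 := by fun_prop
    have c2 : Continuous fun p : (W × ℝ) × (W × ℝ) => p.2.2 := by fun_prop
    exact ((isOpen_lt continuous_const c1).inter (isOpen_lt c1 continuous_const)).inter
      (((isOpen_lt continuous_const c2).inter (isOpen_lt c2 continuous_const)).inter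
        (isOpen_lt c1 c2))
  have hGC : ContDiffOn ℝ k G U := by
    have h1 : ContDiffOn ℝ k (fun p : (W × ℝ) × (W × ℝ) => F p.1) U := by
      refine hFC.comp (contDiff_fst.contDiffOn (s := U)) ?_
      rintro p ⟨⟨h1, h2⟩, -, -⟩
      exact ⟨mem_univ _, by linarith, h2⟩
    have h2 : ContDiffOn ℝ k (fun p : (W × ℝ) × (W × ℝ) => F p.2) U := by
      refine hFC.comp (contDiff_snd.contDiffOn (s := U)) ?_
      rintro p ⟨-, ⟨h1, h2⟩, -⟩
      exact ⟨mem_univ _, by linarith, h2⟩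
    have h3 : ContDiffOn ℝ k (fun p : (W × ℝ) × (W × ℝ) => p.2.2 - p.1.2) U := by
      fun_prop
    refine (h1.sub h2).mul (h3.inv ?_)
    rintro p ⟨-, -, h4⟩
    exact (sub_pos.2 h4).ne'
  refine measure_mono_null ?_ (sard D hfin hUo hGC)
  rintro a ⟨τ, hτ, τ', hτ', x, x', hx, hx', ha, ha', hA⟩
  have ea : h (x 0) = a := sub_eq_zero.1 (abs_nonpos_iff.1 ha)
  have ea' : h (x' 0) = a := sub_eq_zero.1 (abs_nonpos_iff.1 ha')
  have eA : act h τ x = act h τ' x' := sub_eq_zero.1 (abs_nonpos_iff.1 hA)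
  have hτ1 : 0 < τ := by linarith [hτ.1]
  have hτ2 : τ < 2 * T + 2 := by linarith [hτ.2]
  have hτ1' : 0 < τ' := by linarith [hτ'.1]
  have hτ2' : τ' < 2 * T + 2 := by linarith [hτ'.2]
  have hlt : τ < τ' := by linarith [hτ.2, hτ'.1]
  have hpos : 0 < τ' - τ := sub_pos.2 hlt
  have f1 : F (x 0, τ) = act h τ x - τ * h (x 0) := genF_orb hh2 hc hF hτ1 hτ2 hx
  have f2 : F (x' 0, τ') = act h τ' x' - τ' * h (x' 0) := genF_orb hh2 hc hF hτ1' hτ2' hx'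
  have g1 : HasFDerivAt F ((-h (x 0)) • ContinuousLinearMap.snd ℝ W ℝ) (x 0, τ) :=
    genF_hasFDerivAt hk1 hh2 hc hF hτ1 hτ2 hx
  have g2 : HasFDerivAt F ((-h (x' 0)) • ContinuousLinearMap.snd ℝ W ℝ) (x' 0, τ') :=
    genF_hasFDerivAt hk1 hh2 hc hF hτ1' hτ2' hx'
  rw [ea] at f1 g1
  rw [ea'] at f2 g2
  refine ⟨((x 0, τ), (x' 0, τ')), ⟨⟨⟨hτ1, hτ2⟩, ⟨hτ1', hτ2'⟩, hlt⟩, ?_⟩, ?_⟩
  · have n1 : HasFDerivAt (fun p : (W × ℝ) × (W × ℝ) => F p.1)
        (((-a) • ContinuousLinearMap.snd ℝ W ℝ).comp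
          (ContinuousLinearMap.fst ℝ (W × ℝ) (W × ℝ))) ((x 0, τ), (x' 0, τ')) :=
      HasFDerivAt.comp ((x 0, τ), (x' 0, τ')) (f := fun p : (W × ℝ) × (W × ℝ) => p.1)
        g1 hasFDerivAt_fst
    have n2 : HasFDerivAt (fun p : (W × ℝ) × (W × ℝ) => F p.2)
        (((-a) • ContinuousLinearMap.snd ℝ W ℝ).comp
          (ContinuousLinearMap.snd ℝ (W × ℝ) (W × ℝ))) ((x 0, τ), (x' 0, τ')) :=
      HasFDerivAt.comp ((x 0, τ), (x' 0, τ')) (f := fun p : (W × ℝ) × (W × ℝ) => p.2)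
        g2 hasFDerivAt_snd
    have n3 : HasFDerivAt (fun p : (W × ℝ) × (W × ℝ) => p.2.2 - p.1.2)
        ((ContinuousLinearMap.snd ℝ W ℝ).comp (ContinuousLinearMap.snd ℝ (W × ℝ) (W × ℝ)) -
          (ContinuousLinearMap.snd ℝ W ℝ).comp (ContinuousLinearMap.fst ℝ (W × ℝ) (W × ℝ)))
        ((x 0, τ), (x' 0, τ')) :=
      (((ContinuousLinearMap.snd ℝ W ℝ).comp
        (ContinuousLinearMap.snd ℝ (W × ℝ) (W × ℝ))).hasFDerivAt).sub
        (((ContinuousLinearMap.snd ℝ W ℝ).comp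
        (ContinuousLinearMap.fst ℝ (W × ℝ) (W × ℝ))).hasFDerivAt)
    have n4 := (hasDerivAt_inv hpos.ne').comp_hasFDerivAt ((x 0, τ), (x' 0, τ')) n3
    have n5 := (n1.sub n2).mul n4
    refine Eq.trans n5.fderiv ?_
    refine ContinuousLinearMap.ext fun v => ?_
    change (F (x 0, τ) - F (x' 0, τ')) * ((-((τ' - τ) ^ 2)⁻¹) * (v.2.2 - v.1.2)) +
      (τ' - τ)⁻¹ * (-a * v.1.2 - (-a * v.2.2)) = 0
    have e1 : F (x 0, τ) - F (x' 0, τ') = a * (τ' - τ) := by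
      rw [f1, f2, eA]
      ring
    rw [e1]
    field_simp
    ring
  · change (F (x 0, τ) - F (x' 0, τ')) * (τ' - τ)⁻¹ = a
    rw [f1, f2, eA]
    field_simp
    ring

end Pool.Agent.H72.EZ
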