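import Pool.Agent.H72.EZ.Defs

/-!
# MP_880fad_gt : the definitions of the problem

* `Ph n` : the phase space `ℝ^{2n}`, coordinates `x_j = z (inl j)`, `y_j = z (inr j)`;
* `omega` : the standard symplectic form `∑ dx_j ∧ dy_j`;
* `H0 lam` : `∑ λ_j |z_j|²`;
* `IsTrajectory H γ` : `γ' = X_H(γ)`, where `ω(X_H, ·) = -dH`;
* `HasClosedTrajectory H a` : a non-constant periodic trajectory on the level `{H = a}`;
* `Admissible lam ε H` : the `ε`-admissible functions of the problem;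
* `Q1` : the statement of the open problem.
-/

open MeasureTheory Set Metric Filter Topology
open scoped Real InnerProductSpace ContDiff

namespace Pool.Agent.H72.EZ

/-- the phase space `ℝ^{2n}`, with coordinates `x_j = z (inl j)`, `y_j = z (inr j)` -/
abbrev Ph (n : ℕ) : Type := EuclideanSpace ℝ (Fin n ⊕ Fin n)

/-- the standard symplectic form `∑ dx_j ∧ dy_j` -/
def omega {n : ℕ} (u v : Ph n) : ℝ :=
  ∑ j : Fin n, (u (Sum.inl j) * v (Sum.inr j) - u (Sum.inr j) * v (Sum.inl j))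

/-- `H₀(z) = ∑ λ_j |z_j|² = ∑ λ_j (x_j² + y_j²)` -/
def H0 {n : ℕ} (lam : Fin n → ℝ) (z : Ph n) : ℝ :=
  ∑ j : Fin n, lam j * (z (Sum.inl j) ^ 2 + z (Sum.inr j) ^ 2)

/-- `γ` is a trajectory of the Hamiltonian vector field `X_H`, `ω(X_H, ·) = -dH` -/
def IsTrajectory {n : ℕ} (H : Ph n → ℝ) (γ : ℝ → Ph n) : Prop :=
  ∀ t, ∃ X : Ph n, HasDerivAt γ X t ∧ ∀ v, omega X v = -(fderiv ℝ H (γ t) v)

/-- the level `{H = a}` contains a closed trajectory: a non-constant periodic trajectory -/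
def HasClosedTrajectory {n : ℕ} (H : Ph n → ℝ) (a : ℝ) : Prop :=
  ∃ γ : ℝ → Ph n, IsTrajectory H γ ∧ (∃ T > 0, ∀ t, γ (t + T) = γ t) ∧ (∃ t, γ t ≠ γ 0) ∧
    ∀ t, H (γ t) = a

/-- a smooth isotopy of diffeomorphisms, starting at the identity, all equal to the identity
outside one compact set -/
structure IsCompactIsotopy {n : ℕ} (Ψ : ℝ × Ph n → Ph n) : Prop where
  smooth : ContDiffOn ℝ ∞ Ψ (Icc (0:ℝ) 1 ×ˢ univ)
  zero : ∀ z, Ψ (0, z) = z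
  diffeo : ∀ s ∈ Icc (0:ℝ) 1, ∃ Φ : Ph n → Ph n, ContDiff ℝ ∞ Φ ∧
    (∀ z, Φ (Ψ (s, z)) = z) ∧ ∀ z, Ψ (s, Φ z) = z
  compact : ∃ Kc : Set (Ph n), IsCompact Kc ∧ ∀ s ∈ Icc (0:ℝ) 1, ∀ z, z ∉ Kc → Ψ (s, z) = z

/-- `H` is `ε`-admissible: `sup |H - H₀| < ε` and `H = H₀ ∘ ψ` with `ψ` joined to the identity by a
smooth compactly supported isotopy -/
def Admissible {n : ℕ} (lam : Fin n → ℝ) (ε : ℝ) (H : Ph n → ℝ) : Prop :=
  (∃ ε' < ε, ∀ z, |H z - H0 lam z| ≤ ε') ∧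
    ∃ Ψ, IsCompactIsotopy Ψ ∧ ∀ z, H z = H0 lam (Ψ (1, z))

/-- the statement Q1 of the problem -/
def Q1 : Prop :=
  ∀ n : ℕ, 3 ≤ n → ∀ lam : Fin n → ℝ, (∀ j, 0 < lam j) → LinearIndependent ℚ lam →
    ∀ K : Set ℝ, IsCompact K → K ⊆ Ioi 0 → volume K = 0 → ∀ ε : ℝ, 0 < ε →
      ∃ H : Ph n → ℝ, Admissible lam ε H ∧ ∀ a ∈ K, ¬ HasClosedTrajectory H a

/-- the strong negative answer: one compact null set of levels for all `λ` and all `H₀ ∘ ψ` -/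
def Strong (n : ℕ) : Prop :=
  ∃ K : Set ℝ, IsCompact K ∧ K ⊆ Icc 1 2 ∧ volume K = 0 ∧
    ∀ lam : Fin n → ℝ, (∀ j, 0 < lam j) → ∀ ψ ψ' : Ph n → Ph n, ContDiff ℝ ∞ ψ →
      ContDiff ℝ ∞ ψ' → (∀ z, ψ' (ψ z) = z) → (∀ z, ψ (ψ' z) = z) →
      (∃ Kc : Set (Ph n), IsCompact Kc ∧ ∀ z, z ∉ Kc → ψ z = z) →
      ∃ a ∈ K, HasClosedTrajectory (fun z => H0 lam (ψ z)) a

end Pool.Agent.H72.EZ
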