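import Pool.Agent.H72.EZ.Defs

/-!
# JOB EZ-QLEM : the potential `Q` and Taylor estimate of a Hamiltonian

`Qf R z = (3π/2) (‖z‖ - R)₊²`, `gQ R z = (3π (1 - R / max ‖z‖ R)) • z`, `R > 0`.
`gQ R z = 3π (z - P z)`, where `P z = z` for `‖z‖ ≤ R`, `P z = (R/‖z‖) z` otherwise is the projection to
the closed ball `B` of radius `R`; `Qf R z = (3π/2) dist(z,B)²`.

PROOFS. `Qf_ge`: for `r = ‖z‖ ≥ R`: `(3/2)(r-R)² - (5/4) r² + (15/2) R² = (r/2 - 3R)² ≥ 0`; for
`r < R` the left side is negative. `Qf_taylor`: `d(z+v)² ≤ ‖z + v - P z‖² = d(z)² + 2⟨z - Pz, v⟩ + ‖v‖²`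
(`P z ∈ B`) gives the upper bound; lower bound
`d(z+v)² ≥ d(z)² + 2⟨z - Pz, v⟩`: if `‖z‖ ≤ R` trivial; otherwise with `e = z/‖z‖`,
`d(z+v) ≥ ⟨z+v,e⟩ - R = d(z) + ⟨v,e⟩`, and `2⟨z-Pz,v⟩ = 2 d(z) ⟨v,e⟩`; if `d(z) + ⟨v,e⟩ ≥ 0` square it; if
it is negative then `d(z)² + 2 d(z)⟨v,e⟩ ≤ d(z) (d(z) + 2⟨v,e⟩) ≤ 0`.
`gQ_lip`: `‖z - Pz - (w - Pw)‖ ≤ 2 ‖z - w‖` (`P` is 1-Lipschitz: radial retraction in an inner
product space; a crude Lipschitz constant for `P` is enough to get `6π`).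
`ham_taylor`: mean value inequality along the segment with `‖gH z - gH w‖ ≤ L‖z-w‖`.
-/

open MeasureTheory Set Metric Filter Topology
open scoped Real InnerProductSpace

namespace Pool.Agent.H72.EZ

variable {W : Type} [NormedAddCommGroup W] [InnerProductSpace ℝ W]

theorem Qf_nonneg (R : ℝ) (z : W) : 0 ≤ Qf R z := by
  unfold Qf
  have := Real.pi_pos
  positivity

theorem Qf_eq_zero {R : ℝ} {z : W} (h : ‖z‖ ≤ R) : Qf R z = 0 := by
  unfold Qf
  rw [max_eq_right (by linarith)]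
  simp

theorem gQ_eq_zero {R : ℝ} (hR : 0 < R) {z : W} (h : ‖z‖ ≤ R) : gQ R z = 0 := by
  unfold gQ
  rw [max_eq_right h, div_self hR.ne', sub_self, mul_zero, zero_smul]

theorem gQ_of_le {R : ℝ} {z : W} (h : R ≤ ‖z‖) : gQ R z = (3 * π * (1 - R / ‖z‖)) • z := by
  unfold gQ
  rw [max_eq_left h]

/-- if `z = p + v` with `‖p‖ ≤ R` then `Q(z) ≤ (3π/2) ‖v‖²` -/
theorem Qf_le {R : ℝ} {p v : W} (h : ‖p‖ ≤ R) : Qf R (p + v) ≤ 3 * π / 2 * ‖v‖ ^ 2 := by
  unfold Qf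
  have h1 : max (‖p + v‖ - R) 0 ≤ ‖v‖ := by
    refine max_le ?_ (norm_nonneg _)
    have := norm_add_le p v
    linarith
  have h2 : (max (‖p + v‖ - R) 0) ^ 2 ≤ ‖v‖ ^ 2 := pow_le_pow_left₀ (le_max_right _ _) h1 2
  exact mul_le_mul_of_nonneg_left h2 (by have := Real.pi_pos; positivity)

theorem Qf_ge {R : ℝ} (hR : 0 < R) (z : W) :
    5 * π / 4 * ‖z‖ ^ 2 - 15 * π / 2 * R ^ 2 ≤ Qf R z := by
  have hpi := Real.pi_pos
  unfold Qf
  have h0 := norm_nonneg z
  rcases le_total R ‖z‖ with h | h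
  · rw [max_eq_left (by linarith)]
    have h1 : 0 ≤ π * (‖z‖ / 2 - 3 * R) ^ 2 := by positivity
    nlinarith
  · rw [max_eq_right (by linarith)]
    have h1 : ‖z‖ ^ 2 ≤ R ^ 2 := pow_le_pow_left₀ h0 h 2
    have h2 : π * ‖z‖ ^ 2 ≤ π * R ^ 2 := mul_le_mul_of_nonneg_left h1 hpi.le
    have h3 : 0 ≤ π * R ^ 2 := by positivity
    nlinarith

/-- the projection to the ball of radius `R` -/
noncomputable def qlemP (R : ℝ) (z : W) : W := (R / max ‖z‖ R) • z

lemma qlemP_norm {R : ℝ} (hR : 0 < R) (z : W) : ‖qlemP R z‖ ≤ R := by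
  unfold qlemP
  have hm : 0 < max ‖z‖ R := lt_of_lt_of_le hR (le_max_right _ _)
  rw [norm_smul, Real.norm_of_nonneg (by positivity), div_mul_eq_mul_div, div_le_iff₀ hm]
  exact mul_le_mul_of_nonneg_left (le_max_left _ _) hR.le

lemma qlem_gQ (R : ℝ) (z : W) : gQ R z = (3 * π) • (z - qlemP R z) := by
  unfold gQ qlemP
  rw [← one_smul ℝ z, smul_smul, smul_smul, ← sub_smul, smul_smul]
  simp

lemma qlem_sub {R : ℝ} (z : W) : z - qlemP R z = (1 - R / max ‖z‖ R) • z := by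
  unfold qlemP
  rw [sub_smul, one_smul]

lemma qlem_dist {R : ℝ} (hR : 0 < R) (z : W) : ‖z - qlemP R z‖ = max (‖z‖ - R) 0 := by
  rw [qlem_sub]
  have h0 := norm_nonneg z
  rcases le_total R ‖z‖ with h | h
  · have hz : 0 < ‖z‖ := hR.trans_le h
    rw [max_eq_left h, max_eq_left (by linarith), norm_smul, Real.norm_of_nonneg]
    · field_simp
    · rw [sub_nonneg, div_le_one hz]
      exact h
  · rw [max_eq_right h, max_eq_right (by linarith), div_self hR.ne', sub_self, zero_smul,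
      norm_zero]

lemma qlem_Qf {R : ℝ} (hR : 0 < R) (z : W) : Qf R z = 3 * π / 2 * ‖z - qlemP R z‖ ^ 2 := by
  rw [qlem_dist hR]
  rfl

/-- the projection inequality -/
lemma qlem_proj {R : ℝ} (hR : 0 < R) (z : W) {y : W} (hy : ‖y‖ ≤ R) :
    ⟪z - qlemP R z, y - qlemP R z⟫_ℝ ≤ 0 := by
  rcases le_total R ‖z‖ with h | h
  · have hz : 0 < ‖z‖ := hR.trans_le h
    rw [qlem_sub, inner_smul_left]
    have h1 : 0 ≤ 1 - R / max ‖z‖ R := by
      rw [max_eq_left h, sub_nonneg, div_le_one hz]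
      exact h
    refine mul_nonpos_of_nonneg_of_nonpos (by simpa using h1) ?_
    unfold qlemP
    rw [inner_sub_right, inner_smul_right, real_inner_self_eq_norm_sq, max_eq_left h]
    have h2 := real_inner_le_norm z y
    have h3 : ‖z‖ * ‖y‖ ≤ ‖z‖ * R := mul_le_mul_of_nonneg_left hy hz.le
    have h4 : R / ‖z‖ * ‖z‖ ^ 2 = ‖z‖ * R := by
      field_simp
    linarith
  · have h1 : z - qlemP R z = 0 := by
      rw [qlem_sub, max_eq_right h, div_self hR.ne', sub_self, zero_smul]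
    rw [h1, inner_zero_left]

lemma qlem_lip {R : ℝ} (hR : 0 < R) (z w : W) : ‖qlemP R z - qlemP R w‖ ≤ ‖z - w‖ := by
  have h1 := qlem_proj hR z (qlemP_norm hR w)
  have h2 := qlem_proj hR w (qlemP_norm hR z)
  set p := qlemP R z
  set q := qlemP R w
  have h3 : ‖p - q‖ ^ 2 ≤ ⟪z - w, p - q⟫_ℝ := by
    have e : ‖p - q‖ ^ 2 - ⟪z - w, p - q⟫_ℝ = ⟪z - p, q - p⟫_ℝ + ⟪w - q, p - q⟫_ℝ := by
      rw [← real_inner_self_eq_norm_sq]
      simp only [inner_sub_left, inner_sub_right]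
      ring
    linarith
  have h4 := real_inner_le_norm (z - w) (p - q)
  have h5 : ‖p - q‖ ^ 2 ≤ ‖z - w‖ * ‖p - q‖ := h3.trans h4
  by_cases h6 : ‖p - q‖ = 0
  · rw [h6]
    exact norm_nonneg _
  · have h7 : 0 < ‖p - q‖ := lt_of_le_of_ne (norm_nonneg _) (Ne.symm h6)
    rw [sq] at h5
    exact le_of_mul_le_mul_right h5 h7

theorem Qf_taylor {R : ℝ} (hR : 0 < R) (z v : W) :
    |Qf R (z + v) - Qf R z - ⟪gQ R z, v⟫_ℝ| ≤ 3 * π / 2 * ‖v‖ ^ 2 := by
  have hpi := Real.pi_pos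
  rw [qlem_gQ, inner_smul_left, RCLike.conj_to_real]
  have hup : Qf R (z + v) ≤ 3 * π / 2 * ‖(z - qlemP R z) + v‖ ^ 2 := by
    have h1 := Qf_le (R := R) (p := qlemP R z) (v := (z - qlemP R z) + v) (qlemP_norm hR z)
    have h2 : qlemP R z + ((z - qlemP R z) + v) = z + v := by abel
    rwa [h2] at h1
  have hlo : ‖z - qlemP R z‖ ^ 2 + 2 * ⟪z - qlemP R z, v⟫_ℝ ≤
      ‖(z + v) - qlemP R (z + v)‖ ^ 2 := by
    have h1 := qlem_proj hR z (qlemP_norm hR (z + v))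
    set a := z - qlemP R z with ha
    set q := qlemP R (z + v) - qlemP R z with hq
    have h2 : (z + v) - qlemP R (z + v) = a + (v - q) := by
      rw [ha, hq]
      abel
    rw [h2, norm_add_sq_real, inner_sub_right]
    have h3 := sq_nonneg ‖v - q‖
    linarith
  rw [norm_add_sq_real] at hup
  rw [qlem_Qf hR z, abs_le]
  have h3 : 3 * π / 2 * (‖z - qlemP R z‖ ^ 2 + 2 * ⟪z - qlemP R z, v⟫_ℝ) ≤ Qf R (z + v) := by
    rw [qlem_Qf hR (z + v)]
    exact mul_le_mul_of_nonneg_left hlo (by positivity)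
  have h4 : 0 ≤ 3 * π / 2 * ‖v‖ ^ 2 := by positivity
  constructor
  · linarith
  · linarith

theorem gQ_sub_le {R : ℝ} (hR : 0 < R) (z : W) : ‖gQ R z - (3 * π) • z‖ ≤ 3 * π * R := by
  have hpi := Real.pi_pos
  rw [qlem_gQ, ← smul_sub, norm_smul, Real.norm_of_nonneg (by positivity)]
  have h1 : z - qlemP R z - z = - qlemP R z := by abel
  rw [h1, norm_neg]
  exact mul_le_mul_of_nonneg_left (qlemP_norm hR z) (by positivity)

theorem gQ_norm_le {R : ℝ} (hR : 0 < R) (z : W) : ‖gQ R z‖ ≤ 3 * π * ‖z‖ := by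
  have hpi := Real.pi_pos
  rw [qlem_gQ, norm_smul, Real.norm_of_nonneg (by positivity), qlem_dist hR]
  refine mul_le_mul_of_nonneg_left (max_le ?_ (norm_nonneg _)) (by positivity)
  linarith

theorem gQ_lip {R : ℝ} (hR : 0 < R) (z w : W) : ‖gQ R z - gQ R w‖ ≤ 6 * π * ‖z - w‖ := by
  have hpi := Real.pi_pos
  rw [qlem_gQ, qlem_gQ, ← smul_sub, norm_smul, Real.norm_of_nonneg (by positivity)]
  have h1 : z - qlemP R z - (w - qlemP R w) = (z - w) - (qlemP R z - qlemP R w) := by abel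
  have h2 := norm_sub_le (z - w) (qlemP R z - qlemP R w)
  have h3 := qlem_lip hR z w
  rw [h1]
  calc 3 * π * ‖z - w - (qlemP R z - qlemP R w)‖ ≤ 3 * π * (2 * ‖z - w‖) :=
        mul_le_mul_of_nonneg_left (by linarith) (by positivity)
    _ = _ := by ring

theorem Qf_continuous (R : ℝ) : Continuous (Qf R : W → ℝ) := by
  unfold Qf
  fun_prop

theorem gQ_continuous {R : ℝ} (hR : 0 < R) : Continuous (gQ R : W → W) := by
  have hpi := Real.pi_pos
  have h : LipschitzWith (Real.toNNReal (6 * π)) (gQ R : W → W) :=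
    LipschitzWith.of_dist_le_mul fun z w => by
      rw [dist_eq_norm, dist_eq_norm, Real.coe_toNNReal _ (by positivity)]
      exact gQ_lip hR z w
  exact h.continuous

namespace HamData
variable (P : HamData W)

theorem Hh_continuous : Continuous P.Hh :=
  continuous_iff_continuousAt.2 fun z => (P.grad z).continuousAt

theorem gH_continuous : Continuous P.gH := by
  have hL := P.L1
  have h : LipschitzWith (Real.toNNReal P.L) P.gH :=
    LipschitzWith.of_dist_le_mul fun z w => by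
      rw [dist_eq_norm, dist_eq_norm, Real.coe_toNNReal _ (by linarith)]
      exact P.gHlip z w
  exact h.continuous

/-- derivative along a segment -/
lemma qlem_seg (z v : W) (t : ℝ) :
    HasDerivAt (fun t : ℝ => P.Hh (z + t • v)) ⟪P.gH (z + t • v), v⟫_ℝ t := by
  have h1 : HasDerivAt (fun t : ℝ => z + t • v) v t := by
    simpa using ((hasDerivAt_id t).smul_const v).const_add z
  have h2 := (P.grad (z + t • v)).comp_hasDerivAt t h1
  exact h2

theorem taylor (z v : W) : |P.Hh (z + v) - P.Hh z - ⟪P.gH z, v⟫_ℝ| ≤ P.L * ‖v‖ ^ 2 := by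
  have hL := P.L1
  have h1 : ∀ t : ℝ, HasDerivAt (fun t : ℝ => P.Hh (z + t • v) - t * ⟪P.gH z, v⟫_ℝ)
      (⟪P.gH (z + t • v), v⟫_ℝ - ⟪P.gH z, v⟫_ℝ) t := fun t => by
    have := (P.qlem_seg z v t).sub ((hasDerivAt_id t).mul_const ⟪P.gH z, v⟫_ℝ)
    rw [one_mul] at this
    exact this
  have h2 := norm_image_sub_le_of_norm_deriv_le_segment_01' (C := P.L * ‖v‖ ^ 2)
    (fun t _ => (h1 t).hasDerivWithinAt) (fun t ht => by
      rw [← inner_sub_left, Real.norm_eq_abs]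
      refine (abs_real_inner_le_norm _ _).trans ?_
      have h3 := P.gHlip (z + t • v) z
      rw [add_sub_cancel_left, norm_smul, Real.norm_of_nonneg ht.1] at h3
      have h4 : t * ‖v‖ ≤ 1 * ‖v‖ := mul_le_mul_of_nonneg_right ht.2.le (norm_nonneg _)
      have h5 : P.L * (t * ‖v‖) ≤ P.L * (1 * ‖v‖) := mul_le_mul_of_nonneg_left h4 (by linarith)
      calc ‖P.gH (z + t • v) - P.gH z‖ * ‖v‖ ≤ (P.L * (1 * ‖v‖)) * ‖v‖ :=
            mul_le_mul_of_nonneg_right (h3.trans h5) (norm_nonneg _)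
        _ = P.L * ‖v‖ ^ 2 := by ring)
  rw [Real.norm_eq_abs] at h2
  have h3 : P.Hh (z + (1 : ℝ) • v) - 1 * ⟪P.gH z, v⟫_ℝ - (P.Hh (z + (0 : ℝ) • v) -
      0 * ⟪P.gH z, v⟫_ℝ) = P.Hh (z + v) - P.Hh z - ⟪P.gH z, v⟫_ℝ := by
    rw [one_smul, zero_smul, add_zero]
    ring
  rwa [h3] at h2

theorem lip (z v : W) : |P.Hh (z + v) - P.Hh z| ≤ P.L * ‖v‖ := by
  have h2 := norm_image_sub_le_of_norm_deriv_le_segment_01' (C := P.L * ‖v‖)
    (fun t _ => (P.qlem_seg z v t).hasDerivWithinAt) (fun t _ => by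
      rw [Real.norm_eq_abs]
      refine (abs_real_inner_le_norm _ _).trans ?_
      exact mul_le_mul_of_nonneg_right (P.gHbd _) (norm_nonneg _))
  rw [Real.norm_eq_abs, one_smul, zero_smul, add_zero] at h2
  exact h2

/-- the gradient vanishes outside the ball (also on the sphere, by continuity) -/
theorem gH_out (z : W) (h : P.R ≤ ‖z‖) : P.gH z = 0 := by
  have h1 : IsLocalMax P.Hh z := Filter.Eventually.of_forall fun y => by
    rw [P.out z h]
    exact P.hi y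
  have h2 := h1.hasFDerivAt_eq_zero (P.grad z)
  have h3 := congrArg (fun φ : W →L[ℝ] ℝ => φ (P.gH z)) h2
  simpa using h3

theorem gradient_eq [CompleteSpace W] (z : W) : gradient P.Hh z = P.gH z := by
  have h : HasGradientAt P.Hh (P.gH z) z := P.grad z
  exact h.gradient

end HamData

end Pool.Agent.H72.EZ
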