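import Mathlib

/-!
# JOB EZ-THETA : the truncation function and a rationally independent triple

`theta s = 1/2 + s₁(s) (s - 1/2) + s₂(s) (5/2 - s)`, `s₁ = smoothTransition(4s-2)`,
`s₂ = smoothTransition(4s-9)`: `theta = 1/2` for `s ≤ 1/2`, values in `[1/2,3/4]` on `[1/2,3/4]`,
`theta s = s` on `[3/4,9/4]`, values in `[9/4,5/2]` on `[9/4,5/2]`, `= 5/2` for `s ≥ 5/2`.
`linIndep`: `1, √2, √3` are linearly independent over `ℚ`: if `a + b√2 + c√3 = 0` then
`(b√2 + c√3)² = a²`, so `2bc√6 ∈ ℚ`, so `bc = 0`, and then `√2` or `√3` would be rational unless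
`b = c = 0`, hence `a = 0`.
-/

open Set Filter Topology
open scoped Real ContDiff

namespace Pool.Agent.H72.EZ

/-- the truncation function -/
noncomputable def theta (s : ℝ) : ℝ :=
  1 / 2 + Real.smoothTransition (4 * s - 2) * (s - 1 / 2) +
    Real.smoothTransition (4 * s - 9) * (5 / 2 - s)

theorem Theta_a_zero {s : ℝ} (h : s ≤ 1 / 2) : Real.smoothTransition (4 * s - 2) = 0 :=
  Real.smoothTransition.zero_of_nonpos (by linarith)

theorem Theta_a_one {s : ℝ} (h : 3 / 4 ≤ s) : Real.smoothTransition (4 * s - 2) = 1 :=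
  Real.smoothTransition.one_of_one_le (by linarith)

theorem Theta_b_zero {s : ℝ} (h : s ≤ 9 / 4) : Real.smoothTransition (4 * s - 9) = 0 :=
  Real.smoothTransition.zero_of_nonpos (by linarith)

theorem Theta_b_one {s : ℝ} (h : 5 / 2 ≤ s) : Real.smoothTransition (4 * s - 9) = 1 :=
  Real.smoothTransition.one_of_one_le (by linarith)

theorem theta_contDiff : ContDiff ℝ ∞ theta := by
  unfold theta
  have h1 : ContDiff ℝ ∞ (fun s : ℝ => Real.smoothTransition (4 * s - 2)) :=
    Real.smoothTransition.contDiff.comp ((contDiff_const.mul contDiff_id).sub contDiff_const)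
  have h2 : ContDiff ℝ ∞ (fun s : ℝ => Real.smoothTransition (4 * s - 9)) :=
    Real.smoothTransition.contDiff.comp ((contDiff_const.mul contDiff_id).sub contDiff_const)
  exact (contDiff_const.add (h1.mul (contDiff_id.sub contDiff_const))).add
    (h2.mul (contDiff_const.sub contDiff_id))

/-- the left part of `theta` -/
theorem Theta_left {s : ℝ} (h : s ≤ 9 / 4) :
    theta s = 1 / 2 + Real.smoothTransition (4 * s - 2) * (s - 1 / 2) := by
  unfold theta
  rw [Theta_b_zero h]
  ring

/-- the right part of `theta` -/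
theorem Theta_right {s : ℝ} (h : 3 / 4 ≤ s) :
    theta s = s + Real.smoothTransition (4 * s - 9) * (5 / 2 - s) := by
  unfold theta
  rw [Theta_a_one h]
  ring

theorem theta_small {s : ℝ} (h : s ≤ 1 / 2) : theta s = 1 / 2 := by
  rw [Theta_left (by linarith), Theta_a_zero h]
  ring

theorem theta_big {s : ℝ} (h : 5 / 2 ≤ s) : theta s = 5 / 2 := by
  rw [Theta_right (by linarith), Theta_b_one h]
  ring

theorem theta_mid {s : ℝ} (h1 : 3 / 4 ≤ s) (h2 : s ≤ 9 / 4) : theta s = s := by
  rw [Theta_right h1, Theta_b_zero h2]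
  ring

theorem Theta_left_le {s : ℝ} (h0 : 1 / 2 ≤ s) (h : s ≤ 9 / 4) : theta s ≤ s ∧ 1 / 2 ≤ theta s := by
  rw [Theta_left h]
  have h1 := Real.smoothTransition.nonneg (4 * s - 2)
  have h2 := Real.smoothTransition.le_one (4 * s - 2)
  constructor
  · nlinarith
  · nlinarith

theorem Theta_right_ge {s : ℝ} (h0 : 3 / 4 ≤ s) (h : s ≤ 5 / 2) : s ≤ theta s ∧ theta s ≤ 5 / 2 := by
  rw [Theta_right h0]
  have h1 := Real.smoothTransition.nonneg (4 * s - 9)
  have h2 := Real.smoothTransition.le_one (4 * s - 9)
  constructor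
  · nlinarith
  · nlinarith

theorem theta_lo (s : ℝ) : 1 / 2 ≤ theta s := by
  rcases le_total s (1 / 2) with h | h
  · rw [theta_small h]
  rcases le_total s (9 / 4) with h1 | h1
  · exact (Theta_left_le h h1).2
  rcases le_total s (5 / 2) with h2 | h2
  · have := (Theta_right_ge (by linarith) h2).1
    linarith
  · rw [theta_big h2]
    norm_num

theorem theta_hi (s : ℝ) : theta s ≤ 5 / 2 := by
  rcases le_total s (1 / 2) with h | h
  · rw [theta_small h]
    norm_num
  rcases le_total s (9 / 4) with h1 | h1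
  · have := (Theta_left_le h h1).1
    linarith
  rcases le_total s (5 / 2) with h2 | h2
  · exact (Theta_right_ge (by linarith) h2).2
  · rw [theta_big h2]

theorem theta_mem {s : ℝ} (h1 : 3 / 4 < theta s) (h2 : theta s < 9 / 4) :
    3 / 4 < s ∧ s < 9 / 4 := by
  constructor
  · by_contra hs
    push Not at hs
    rcases le_total s (1 / 2) with h | h
    · rw [theta_small h] at h1
      norm_num at h1
    · have := (Theta_left_le h (by linarith)).1
      linarith
  · by_contra hs
    push Not at hs
    rcases le_total s (5 / 2) with h | h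
    · have := (Theta_right_ge (by linarith) h).1
      linarith
    · rw [theta_big h] at h2
      norm_num at h2

theorem Theta_rat {a b : ℚ} {x : ℝ} (hx : Irrational x) (h : (a : ℝ) + b * x = 0) : b = 0 := by
  by_contra hb
  have hb' : (b : ℝ) ≠ 0 := by exact_mod_cast hb
  apply hx
  refine ⟨-a / b, ?_⟩
  push_cast
  field_simp
  linarith

theorem exists_triple : ∃ lam : Fin 3 → ℝ, (∀ j, 0 < lam j) ∧ LinearIndependent ℚ lam := by
  refine ⟨![1, √2, √3], ?_, ?_⟩
  · intro j
    fin_cases j <;> simp
  · rw [Fintype.linearIndependent_iff]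
    intro g hg
    simp only [Fin.sum_univ_three, Matrix.cons_val_zero, Matrix.cons_val_one, Matrix.cons_val,
      Rat.smul_def, mul_one] at hg
    have h6 : Irrational (√6) := by
      rw [irrational_sqrt_ofNat_iff]
      rintro ⟨r, hr⟩
      have hr1 : r < 3 := by nlinarith
      interval_cases r <;> omega
    have h3 : Irrational (√3) := by
      have := Nat.Prime.irrational_sqrt (p := 3) (by norm_num)
      simpa using this
    have s2 : √2 * √2 = 2 := Real.mul_self_sqrt (by norm_num)
    have s3 : √3 * √3 = 3 := Real.mul_self_sqrt (by norm_num)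
    have s6 : √2 * √3 = √6 := by
      rw [← Real.sqrt_mul (by norm_num)]
      norm_num
    have hsq : ((2 * g 1 ^ 2 + 3 * g 2 ^ 2 - g 0 ^ 2 : ℚ) : ℝ) + ((2 * g 1 * g 2 : ℚ) : ℝ) * √6 = 0 := by
      push_cast
      rw [← s6]
      have h : (g 0 : ℝ) = -(g 1 * √2 + g 2 * √3) := by linarith
      rw [h]
      linear_combination (-(g 1 : ℝ) ^ 2) * s2 + (-(g 2 : ℝ) ^ 2) * s3
    have hbc := Theta_rat h6 hsq
    have hbc' : g 1 = 0 ∨ g 2 = 0 := by
      rcases mul_eq_zero.1 hbc with h | h
      · left
        linarith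
      · exact Or.inr h
    have key : g 0 = 0 ∧ g 1 = 0 ∧ g 2 = 0 := by
      rcases hbc' with h | h
      · rw [h] at hg
        have hg' : (g 0 : ℝ) + g 2 * √3 = 0 := by
          push_cast at hg
          linarith
        have h2 := Theta_rat h3 hg'
        rw [h2] at hg'
        push_cast at hg'
        refine ⟨?_, h, h2⟩
        have : (g 0 : ℝ) = 0 := by linarith
        exact_mod_cast this
      · rw [h] at hg
        have hg' : (g 0 : ℝ) + g 1 * √2 = 0 := by
          push_cast at hg
          linarith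
        have h2 := Theta_rat irrational_sqrt_two hg'
        rw [h2] at hg'
        push_cast at hg'
        refine ⟨?_, h2, h⟩
        have : (g 0 : ℝ) = 0 := by linarith
        exact_mod_cast this
    intro i
    fin_cases i
    · exact key.1
    · exact key.2.1
    · exact key.2.2

end Pool.Agent.H72.EZ
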